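import Pool.Agent.Helper44.RC.M_LC3
import Pool.Agent.Helper83.SH.VTab

/-!
# Project RC, SHARP: the price `Lam` of a record, 4

`okLam`: the kernel check of the price `Lam` of a record; `lam_rec`: its soundness. `genLC`: the certificate.
-/

set_option autoImplicit false

open MeasureTheory Set Filter Topology

namespace Helper44.Far

open Helper49.LT hiding sg
open Helper49.RC Helper44.GQ
open Helper56.RC (fc)
open Helper49.Sharp
open Helper49.Cell (zi Rec Crt)
open Helper83.SH (vTab vE vA VS rec_v1 rec_v2)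

/-- parameters of helper76's exponentials -/
structure VP where
  b : ℕ
  r : ℕ
  s : ℕ
  sE : ℕ
  M : ℕ
  R : ℕ
  n : ℕ
  τ : ℕ
  E : ℕ
  ws : List ℕ

/-- equality of tables -/
def eqT : List (ℤ × ℤ) → List (ℤ × ℤ) → Bool
  | [], [] => true
  | p :: l, q :: m => bif decide (p.1 = q.1) then bif decide (p.2 = q.2) then eqT l m else false else false
  | _, _ => false

theorem eqT_sound {l m : List (ℤ × ℤ)} (h : eqT l m = true) : l = m := by
  have bt : ∀ x y : Bool, (bif x then y else false) = true ↔ x = true ∧ y = true := by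
    intro x y; cases x <;> simp
  induction l generalizing m with
  | nil =>
    cases m with
    | nil => rfl
    | cons q m => simp [eqT] at h
  | cons p l ih =>
    cases m with
    | nil => simp [eqT] at h
    | cons q m =>
      unfold eqT at h
      rw [bt, bt] at h
      obtain ⟨h1, h2, h3⟩ := h
      have h1 := of_decide_eq_true h1
      have h2 := of_decide_eq_true h2
      rw [ih h3]
      congr 1
      exact Prod.ext h1 h2

/-- the table of the alignment `j` -/
def okV (V : VP) (N j e : ℕ) (l T : List (ℤ × ℤ)) : Bool :=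
  bif Nat.ble V.r (Nat.succ V.b) then
    bif Nat.ble V.s V.b then
      bif Nat.ble (vE V.s V.E) e then
        match vTab V.b V.r V.s V.sE V.M V.R V.n V.τ V.E N j l V.ws with
        | some T' => eqT T' T
        | none => false
      else false
    else false
  else false

theorem okV_sound {V : VP} {N j e : ℕ} {l T : List (ℤ × ℤ)} (h : okV V N j e l T = true) :
    V.r ≤ V.b + 1 ∧ V.s ≤ V.b ∧ vE V.s V.E ≤ e ∧
      vTab V.b V.r V.s V.sE V.M V.R V.n V.τ V.E N j l V.ws = some T := by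
  have bt : ∀ x y : Bool, (bif x then y else false) = true ↔ x = true ∧ y = true := by
    intro x y; cases x <;> simp
  unfold okV at h
  rw [bt, bt, bt] at h
  obtain ⟨h1, h2, h3, h4⟩ := h
  refine ⟨Nat.le_of_ble_eq_true h1, Nat.le_of_ble_eq_true h2, Nat.le_of_ble_eq_true h3, ?_⟩
  cases h5 : vTab V.b V.r V.s V.sE V.M V.R V.n V.τ V.E N j l V.ws with
  | none => rw [h5] at h4; simp at h4
  | some T' =>
    rw [h5] at h4
    simp only at h4
    rw [eqT_sound h4]

/-- the last inequality; `E` is an upper bound of `10^5 |eta|`, `g` the bound of `Sp + mean LamA` in `10^(-10)` -/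
def okB (R : Rec) (E g : ℕ) : Bool :=
  decide (R.e1 * R.e1 + R.e2 * R.e2 ≤ (E : ℤ) * E ∧ R.h0 ≤ 220000 ∧
    5 * (g : ℤ) * (100000 + 2 * E) * ((20000000000 + R.nu * (100000 + 2 * E)) * (20000000000 + R.nu * (100000 + 2 * E)))
      ≤ 2400000000000000000000 * (100000000000 * R.lam + 100000000000 * R.h0
        - R.nu * (100000 + 2 * E) * (1100000 - 5 * R.h0 + 3 * E)))

/-- **THE CHECK OF THE PRICE `Lam`** -/
def okLam (R : Rec) (N e : ℕ) (V1 V2 : VP) (T1 T2 : List (ℤ × ℤ)) (X : LC) : Bool :=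
  bif Nat.ble 5 N then
    bif okV V1 N 1 e R.D1 T1 then
      bif okV V2 N 2 e R.D2 T2 then
        bif okS N T1 T2 X then
          bif okA e (nz T1 N) (nz T2 N) X then okB R X.E (X.gb e)
          else false
        else false
      else false
    else false
  else false

theorem mem_HM {N : ℕ} {n : ℤ} (h : n ∈ HM N) : |n| ≤ N := by
  unfold HM at h
  rw [Finset.mem_Icc] at h
  rw [abs_le]
  exact h

theorem aT_vA (N : ℕ) (T : List (ℤ × ℤ)) (n : ℤ) : aT N T n = zi (vA T N n) / (VS : ℂ) := by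
  unfold aT vA
  rw [nz_getD]
  norm_num [VS]

/-- **the price `Lam` of a record** -/
theorem lam_rec {R : Rec} {C : Crt} (hR : R.ok C = true) {N e : ℕ} {V1 V2 : VP} {T1 T2 : List (ℤ × ℤ)} {X : LC}
    (hX : okLam R N e V1 V2 T1 T2 X = true) (b z : ℝ → ℂ) (h : AdmQ 2 b z) (hn : Near b z) : R.par.Lam b z := by
  have bt : ∀ x y : Bool, (bif x then y else false) = true ↔ x = true ∧ y = true := by
    intro x y; cases x <;> simp
  unfold okLam at hX
  rw [bt, bt, bt, bt, bt] at hX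
  obtain ⟨x1, x2, x3, x4, x5, x6⟩ := hX
  have hN : 5 ≤ N := Nat.le_of_ble_eq_true x1
  obtain ⟨p1, p2, p3, p4⟩ := okV_sound x2
  obtain ⟨q1, q2, q3, q4⟩ := okV_sound x3
  have hr : R.par.Reg := (Rec.ok_sound hR).reg
  have hV : ((VS : ℕ) : ℝ) = 10000000000 := by norm_num [VS]
  have e1 : ∀ n ∈ HM N, ‖fc R.par.v1 n - aT N T1 n‖ ≤ e / 10000000000 := by
    intro n hn'
    have k := rec_v1 hR p1 p2 p4 (mem_HM hn')
    rw [aT_vA]
    refine k.trans ?_
    rw [hV]
    exact div_le_div_of_nonneg_right (by exact_mod_cast p3) (by norm_num)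
  have e2 : ∀ n ∈ HM N, ‖fc R.par.v2 n - aT N T2 n‖ ≤ e / 10000000000 := by
    intro n hn'
    have k := rec_v2 hR q1 q2 q4 (mem_HM hn')
    rw [aT_vA]
    refine k.trans ?_
    rw [hV]
    exact div_le_div_of_nonneg_right (by exact_mod_cast q3) (by norm_num)
  have g1 := okL_gap h hn hr hN e1 e2 x4 x5
  have g2 := gap_le h hr g1
  have g0 := gap_nn h hr
  -- numbers
  have hB : R.e1 * R.e1 + R.e2 * R.e2 ≤ (X.E : ℤ) * X.E ∧ R.h0 ≤ 220000 ∧
    5 * (X.gb e : ℤ) * (100000 + 2 * X.E) * ((20000000000 + R.nu * (100000 + 2 * X.E))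
      * (20000000000 + R.nu * (100000 + 2 * X.E)))
      ≤ 2400000000000000000000 * (100000000000 * R.lam + 100000000000 * R.h0
        - R.nu * (100000 + 2 * X.E) * (1100000 - 5 * R.h0 + 3 * X.E)) := of_decide_eq_true x6
  obtain ⟨b1, b2, b3⟩ := hB
  have r1 : (R.e1 : ℝ) * R.e1 + R.e2 * R.e2 ≤ (X.E : ℝ) * X.E := by exact_mod_cast b1
  have r2 : (R.h0 : ℝ) ≤ 220000 := by exact_mod_cast b2
  have r3 : 5 * (X.gb e : ℝ) * (100000 + 2 * X.E) * ((20000000000 + R.nu * (100000 + 2 * X.E))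
      * (20000000000 + R.nu * (100000 + 2 * X.E)))
      ≤ 2400000000000000000000 * (100000000000 * R.lam + 100000000000 * R.h0
        - R.nu * (100000 + 2 * X.E) * (1100000 - 5 * R.h0 + 3 * X.E)) := by exact_mod_cast b3
  have hnu : (0 : ℝ) < R.nu := by
    have := (Rec.ok_sound hR).nu0
    have e : R.cb.nu = (R.nu : ℝ) / 100000 := rfl
    rw [e] at this
    by_contra hc
    have : (R.nu : ℝ) / 100000 ≤ 0 := div_nonpos_of_nonpos_of_nonneg (not_lt.1 hc) (by norm_num)
    linarith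
  set ε := ‖R.par.eta‖ with hε
  have ε0 : 0 ≤ ε := norm_nonneg _
  have hE : ε ≤ (X.E : ℝ) / 100000 := by
    have ne : ε = ‖(R.e1 : ℂ) + Complex.I * (R.e2 : ℂ)‖ / 100000 := by
      rw [hε]
      show ‖((R.e1 : ℂ) + Complex.I * (R.e2 : ℂ)) / 100000‖ = _
      rw [norm_div]
      norm_num
    rw [ne]
    refine div_le_div_of_nonneg_right ?_ (by norm_num)
    have n2 : ‖(R.e1 : ℂ) + Complex.I * (R.e2 : ℂ)‖ ^ 2 = (R.e1 : ℝ) * R.e1 + R.e2 * R.e2 := by
      rw [← Complex.normSq_eq_norm_sq, Complex.normSq_apply]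
      simp
    refine abs_le_of_sq_le_sq' ?_ (Nat.cast_nonneg _) |>.2
    rw [n2]
    linarith
  have G0 : (0 : ℝ) ≤ (X.gb e : ℝ) := Nat.cast_nonneg _
  have E0 : (0 : ℝ) ≤ (X.E : ℝ) := Nat.cast_nonneg _
  have v0 : fc R.par.a0 0 = 0 := by
    show fc (fun _ => (0 : ℂ)) 0 = 0
    unfold fc
    simp
  have v1 : ∑' k, ‖R.par.ga k‖ = 0 := by
    show ∑' _ : ℕ, ‖(0 : ℂ)‖ = 0
    simp
  have v2 : R.par.nu = (R.nu : ℝ) / 100000 := rfl
  have v3 : R.par.lam = (R.lam : ℝ) / 100000 := rfl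
  have v4 : R.par.pr2 = 6 := rfl
  have v5 : R.par.h0 = (R.h0 : ℝ) / 100000 := rfl
  -- the upper bounds with `E`
  set F : ℝ := 100000 + 2 * X.E with hF
  have F0 : 0 < F := by positivity
  have hf : 1 + 2 * ε ≤ F / 100000 := by
    rw [hF]
    linarith
  have c1 : (R.nu : ℝ) / 100000 * ((1 + 2 * ε) * (11 / 5 - (R.h0 : ℝ) / 100000 + 3 / 5 * ε)) - 2 * ((R.h0 : ℝ) / 100000)
      ≤ ((R.nu : ℝ) * F * (1100000 - 5 * R.h0 + 3 * X.E)) / 5000000000000000 - 2 * ((R.h0 : ℝ) / 100000) := by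
    have k1 : 11 / 5 - (R.h0 : ℝ) / 100000 + 3 / 5 * ε ≤ (1100000 - 5 * R.h0 + 3 * X.E) / 500000 := by
      rw [le_div_iff₀ (by norm_num)]
      linarith
    have k2 : 0 ≤ 11 / 5 - (R.h0 : ℝ) / 100000 + 3 / 5 * ε := by linarith
    have k3 : (1 + 2 * ε) * (11 / 5 - (R.h0 : ℝ) / 100000 + 3 / 5 * ε) ≤
        F / 100000 * ((1100000 - 5 * R.h0 + 3 * X.E) / 500000) := mul_le_mul hf k1 k2 (by positivity)
    have k4 := mul_le_mul_of_nonneg_left k3 (by positivity : 0 ≤ (R.nu : ℝ) / 100000)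
    have k5 : (R.nu : ℝ) / 100000 * (F / 100000 * ((1100000 - 5 * R.h0 + 3 * X.E) / 500000)) =
      ((R.nu : ℝ) * F * (1100000 - 5 * R.h0 + 3 * X.E)) / 5000000000000000 := by ring
    linarith
  -- the right side
  set W : ℝ := 100000000000 * R.lam + 100000000000 * R.h0 - R.nu * F * (1100000 - 5 * R.h0 + 3 * X.E) with hW
  have W1 : 2 * ((R.lam : ℝ) / 100000) - (((R.nu : ℝ) * F * (1100000 - 5 * R.h0 + 3 * X.E)) / 5000000000000000
      - 2 * ((R.h0 : ℝ) / 100000)) = W / 5000000000000000 := by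
    rw [hW]; ring
  have W0 : 0 ≤ W := by
    have : 0 ≤ 5 * (X.gb e : ℝ) * F * ((20000000000 + R.nu * F) * (20000000000 + R.nu * F)) := by positivity
    nlinarith
  refine lam_crit (G := F / 100000 * ((X.gb e : ℝ) / 10000000000)) h hn hr g0 ?_ (by rw [v4]; norm_num) ?_ ?_
  · refine g2.trans ?_
    exact mul_le_mul_of_nonneg_right hf (by positivity)
  · rw [v0, v1, v2, v3, v5, Complex.zero_re, mul_zero, add_zero, sub_zero]
    have := div_nonneg W0 (by norm_num : (0 : ℝ) ≤ 5000000000000000)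
    linarith
  · rw [v0, v1, v2, v3, v4, v5, Complex.zero_re, mul_zero, add_zero, sub_zero]
    have y1 : (2 + (R.nu : ℝ) / 100000 * (1 + 2 * ε)) ^ 2 ≤ (2 + (R.nu : ℝ) / 100000 * (F / 100000)) ^ 2 := by
      apply pow_le_pow_left₀ (by positivity)
      have := mul_le_mul_of_nonneg_left hf (by positivity : 0 ≤ (R.nu : ℝ) / 100000)
      linarith
    have y2 : (2 + (R.nu : ℝ) / 100000 * (1 + 2 * ε)) ^ 2 * (F / 100000 * ((X.gb e : ℝ) / 10000000000)) ≤
        (2 + (R.nu : ℝ) / 100000 * (F / 100000)) ^ 2 * (F / 100000 * ((X.gb e : ℝ) / 10000000000)) :=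
      mul_le_mul_of_nonneg_right y1 (by positivity)
    have y3 : (2 + (R.nu : ℝ) / 100000 * (F / 100000)) ^ 2 * (F / 100000 * ((X.gb e : ℝ) / 10000000000)) =
        (5 * (X.gb e : ℝ) * F * ((20000000000 + R.nu * F) * (20000000000 + R.nu * F)))
          / 500000000000000000000000000000000000 := by ring
    have y4 : (5 * (X.gb e : ℝ) * F * ((20000000000 + R.nu * F) * (20000000000 + R.nu * F)))
          / 500000000000000000000000000000000000 ≤ 24 * (W / 5000000000000000) := by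
      rw [div_le_iff₀ (by norm_num)]
      linarith
    linarith

/-- helper70's form -/
theorem lam_all {R : Rec} {C : Crt} (hR : R.ok C = true) {N e : ℕ} {V1 V2 : VP} {T1 T2 : List (ℤ × ℤ)} {X : LC}
    (hX : okLam R N e V1 V2 T1 T2 X = true) : ∀ b z : ℝ → ℂ, AdmQ 2 b z → Near b z → R.par.Lam b z :=
  fun b z h hn => lam_rec hR hX b z h hn

/-! ### the certificate (computed, not part of the check) -/

/-- ceiling of a quotient -/
def cdv (x : ℤ) (d : ℕ) : ℕ := (x.toNat + d - 1) / d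

def csq (x : ℕ) : ℕ := if Nat.sqrt x * Nat.sqrt x = x then Nat.sqrt x else Nat.sqrt x + 1

/-- best `K` -/
def bestK (nO : ℕ) (sO rO : ℤ) : ℕ × ℕ × ℕ × ℕ :=
  let km := Nat.sqrt (2420000 * 100000000000000000000) / (Nat.max nO 1)
  let cand (i : ℕ) : ℕ × ℕ × ℕ × ℕ :=
    let K := Nat.max (Nat.min (km * i / 400) 1000000) 1
    let sN := cdv ((K * nO * (K * nO) : ℕ) : ℤ) 100000000000000000000
    let ki := cdv 41170000000000 (10 * K)
    let z4 := cdv ((K : ℤ) * ((400000000 + 19 * (sN : ℤ)) * sO - 203750000 * rO)) 12500000000000000000000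
    (K, sN, ki, z4)
  (List.range 400).foldl (fun a i =>
    let c := cand (i + 1)
    if c.2.1 ≤ 2420000 ∧ c.2.2.1 + c.2.2.2 < a.2.2.1 + a.2.2.2 then c else a) (cand 1)

/-- **the certificate of a pair of tables** -/
def genLC (R : Rec) (N e : ℕ) (T1 T2 : List (ℤ × ℤ)) : LC :=
  let nO := smN (oN hN N T1 T2) N
  let sO := smI (oI hS N T1 T2) N
  let rO := smI (oI hR N T1 T2) N
  let WI := smI (eI eWI N T1 T2) N
  let WJ := smI (eI eWJ N T1 T2) N
  let XI := smI (eI eXI N T1 T2) N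
  let XJ := smI (eI eXJ N T1 T2) N
  let p := nz T1 N
  let q := nz T2 N
  let N2 := nn2 p + nn2 q + smI (qd hT N T1 T2) N
  let L1 := l1 p + l1 q + smN (qd hL N T1 T2) N
  let c := bestK nO sO rO
  let t := Nat.max (csq (200000000000000000000 + 2 * (e : ℤ) * L1 - N2).toNat) 1
  let wB := Nat.max (cdv ((-20000000000 - p.1 + q.1) * 10000000000000000 + s3 (p.2 + q.2)) 20000000000000000)
    (cdv ((20000000000 + p.1 - q.1) * 10000000000000000 + s3 (-(p.2 + q.2))) 20000000000000000)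
  let xB := Nat.max (cdv ((-p.2 + q.2) * 10000000000000000 + 4 * s3 (-(p.1 + q.1))) 40000000000000000)
    (cdv ((p.2 - q.2) * 10000000000000000 + 4 * s3 (p.1 + q.1)) 40000000000000000)
  let xi := Nat.max (csq (cdv ((32 * ((xB : ℤ) * xB) + XI) * 10000000000000000 + 16 * s3 XJ) 320000000000000000)) 1
  { K := c.1
    sN := c.2.1
    ki := c.2.2.1
    xi := xi
    t := t
    E := csq (R.e1 * R.e1 + R.e2 * R.e2).toNat
    nO := nO
    sO := sO
    rO := rO
    WI := WI
    WJ := WJ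
    XI := XI
    XJ := XJ
    N2 := N2
    L1 := L1
    wB := wB
    xB := xB
    z3 := cdv ((40000000000 - p.1 + q.1) * 10000000000000000 + s3 (-(p.2 + q.2))) 20000000000000000
    z4 := c.2.2.2
    z5 := cdv ((2 * ((wB : ℤ) * wB) + WI) * 10000000000000000 + s3 WJ) 600000000000000000000000000
    z6 := cdv (77 * xi) 200
    z8 := cdv (97 * t) 56 }

end Helper44.Far
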