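import Pool.Agent.Helper44.RC.M_REDQ
import Pool.Agent.Helper44.RC.M_MID
import Pool.Agent.Helper87.RC.M_SAW

/-!
# Project RC: the gauge `q` as a hexagon family, splitting of the area form
-/

open MeasureTheory Set Filter Metric

namespace Helper44.GQ

open Helper97.CB Helper49.LT Helper49.RC Helper44.RCG
open Helper44.GQ.SELQ

/-- the orientation of the hexagon -/
theorem cr_caQ (q : ℝ) (hq : 0 < q) (b : ℂ) :
    (cQ q b * (starRingEnd ℂ) (aQ q b)).im = Real.sqrt 3 / 2 * (1 - ‖b‖ ^ 2) := by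
  rw [Complex.mul_im, Complex.conj_re, Complex.conj_im, cQ_re, cQ_im, aQ_re, aQ_im,
    ← Complex.normSq_eq_norm_sq, Complex.normSq_apply]
  field_simp
  ring

theorem oriQ {q : ℝ} (hq : 0 < q) {b z : ℝ → ℂ} (h : AdmQ q b z) {w : ℝ → ℝ} (hw : Wgt w) (t : ℝ) :
    Ori (A0Q w q b t) (AAQ w q b t) (BBQ w q b t) (vvS w z t) := by
  rcases eq_or_lt_of_le (hw.nonneg t) with h0 | h0
  · left
    unfold AAQ BBQ vvS
    rw [← h0]
    simp
  · right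
    obtain ⟨X, Y, hX, hY, hz⟩ := h.reg t
    obtain ⟨δ, hδ, hb⟩ := h.bdb
    have hb1 : ‖b t‖ < 1 := by linarith [hb t]
    refine ⟨(w t : ℂ) * (ee t * cQ q (b t)), X, Y, ?_, hX, hY, ?_, ?_, ?_⟩
    · have e : (w t : ℂ) * (ee t * cQ q (b t)) * (starRingEnd ℂ) (A0Q w q b t) =
          ((w t ^ 2 : ℝ) : ℂ) * (cQ q (b t) * (starRingEnd ℂ) (aQ q (b t))) := by
        unfold A0Q
        rw [map_mul, map_mul, Complex.conj_ofReal]
        have h1 := ee_mul_conj t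
        push_cast
        linear_combination ((w t : ℂ) ^ 2 * cQ q (b t) * (starRingEnd ℂ) (aQ q (b t))) * h1
      rw [e, Complex.im_ofReal_mul, cr_caQ q hq]
      have h2 : 0 < 1 - ‖b t‖ ^ 2 := by nlinarith [norm_nonneg (b t)]
      positivity
    · unfold AAQ A0Q; ring
    · unfold BBQ A0Q; ring
    · unfold vvS A0Q
      rw [hz]; ring

theorem hexQ {q : ℝ} (hq : 0 < q) {b z : ℝ → ℂ} (h : AdmQ q b z) {w : ℝ → ℝ} (hw : Wgt w) :
    ∃ C : ℝ, Hex (A0Q w q b) (AAQ w q b) (BBQ w q b) (vvS w z) C := by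
  obtain ⟨D, hD0, hDa, hDc, hDz⟩ := REDQ.data_bdd q hq b z h
  obtain ⟨Cw, hCw⟩ := hw.bd
  have hCw0 : 0 ≤ Cw := le_trans (hw.nonneg 0) (hCw 0)
  have hwn : ∀ t, ‖(w t : ℂ)‖ ≤ Cw := fun t => by
    rw [Complex.norm_real, Real.norm_eq_abs, abs_of_nonneg (hw.nonneg t)]; exact hCw t
  have hwm : Measurable fun t => ((w t : ℝ) : ℂ) := Complex.measurable_ofReal.comp hw.m
  have he := RED.meas_ee
  have ham := REDQ.aQ_meas q b h.mb
  have hcm := REDQ.cQ_meas q b h.mb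
  have hh : ∀ t, ‖(1 / 2 : ℂ) * aQ q (b t)‖ ≤ D := by
    intro t
    rw [norm_mul]
    have : ‖(1 / 2 : ℂ)‖ = 1 / 2 := by norm_num
    rw [this]
    linarith [hDa t]
  have key : ∀ (t : ℝ) (p : ℂ), ‖p‖ ≤ 2 * D → ‖(w t : ℂ) * (ee t * p)‖ ≤ Cw * (2 * D) := by
    intro t p hp
    rw [norm_mul, norm_mul, norm_ee, one_mul]
    exact mul_le_mul (hwn t) hp (norm_nonneg _) hCw0
  refine ⟨Cw * (2 * D), ⟨⟨?_, ?_, ?_, ?_, ?_, ?_, ?_, ?_, ?_⟩, ?_, ?_, ?_⟩⟩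
  · exact hwm.mul (he.mul (hcm.add (measurable_const.mul ham)))
  · exact hwm.mul (he.mul (hcm.sub (measurable_const.mul ham)))
  · exact hwm.mul (he.mul h.mz)
  · intro t
    unfold AAQ
    rw [hw.per, h.perb, RED.ee_add_pi]; ring
  · intro t
    unfold BBQ
    rw [hw.per, h.perb, RED.ee_add_pi]; ring
  · intro t
    unfold vvS
    rw [hw.per, h.perz, RED.ee_add_pi]; ring
  · intro t
    exact key t _ ((norm_add_le _ _).trans (by linarith [hDc t, hh t]))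
  · intro t
    exact key t _ ((norm_sub_le _ _).trans (by linarith [hDc t, hh t]))
  · intro t
    exact key t _ (by linarith [hDz t])
  · exact hwm.mul (he.mul ham)
  · intro t
    unfold A0Q
    rw [hw.per, h.perb, RED.ee_add_pi]; ring
  · intro t
    exact key t _ (by linarith [hDa t])

/-- the area form -/
theorem FMQ_eq (w : ℝ → ℝ) (q : ℝ) (b z : ℝ → ℂ) :
    FMQ w q b z = FMG (A0Q w q b) (AAQ w q b) (BBQ w q b) (vvS w z) := rfl

/-- **the splitting of the area form in the gauge `q`** -/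
theorem splQ {q : ℝ} (hq : 0 < q) {b z : ℝ → ℂ} (h : AdmQ q b z) {w : ℝ → ℝ} (hw : Wgt w) :
    FMQ w q b z = 2 / 3 * ‖sgG (A0Q w q b) (AAQ w q b) (BBQ w q b) (vvS w z) 2‖ ^ 2
      + A00G (A0Q w q b) + 2 * A0QG (A0Q w q b) (AAQ w q b) (BBQ w q b) (vvS w z)
      + AQQG (AAQ w q b) (BBQ w q b) (vvS w z) := by
  obtain ⟨C, hC⟩ := hexQ hq h hw
  rw [FMQ_eq]
  exact splG Helper87.RC.hSAW hC

/-- the arrangement lemma in the gauge `q` -/
theorem qqQ {q : ℝ} (hq : 0 < q) {b z : ℝ → ℂ} (h : AdmQ q b z) {w : ℝ → ℝ} (hw : Wgt w) :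
    Helper87.RC.QQ (AAQ w q b) (BBQ w q b) (vvS w z) :=
  qqG (fun t => oriQ hq h hw t)

/-- the families 1 and 2 of the gauge `q` -/
noncomputable def F1Q (w : ℝ → ℝ) (q : ℝ) (b z : ℝ → ℂ) : ℝ → ℂ := G1 (AAQ w q b) (vvS w z)
noncomputable def F2Q (w : ℝ → ℝ) (q : ℝ) (b z : ℝ → ℂ) : ℝ → ℂ := G2 (BBQ w q b) (vvS w z)

/-- the interaction of the quadrilaterals with the symmetric shift `ψ` -/
theorem shiftQ {q : ℝ} (hq : 0 < q) {b z : ℝ → ℂ} (h : AdmQ q b z) {w : ℝ → ℝ} (hw : Wgt w)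
    {ψ : ℝ → ℝ} (hψ : Measurable ψ) (hp : ∀ φ, ψ (φ + 2 * Real.pi) = ψ φ)
    (hb : ∀ φ, |ψ φ| ≤ Real.pi / 3) :
    N0 (AAQ w q b) (BBQ w q b) (vvS w z)
      - 1 / Real.pi * (∫ φ in (0 : ℝ)..(2 * Real.pi), ∫ u in (0 : ℝ)..(ψ φ),
        (F1Q w q b z (φ + u / 2) * (starRingEnd ℂ) (F2Q w q b z (φ - u / 2))).im)
      ≤ AQQG (AAQ w q b) (BBQ w q b) (vvS w z) := by
  obtain ⟨C, hC⟩ := hexQ hq h hw
  exact shiftG hC.q (qqQ hq h hw) hψ hp hb

end Helper44.GQ
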