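import Pool.Agent.Helper95.RC.Coef
import Pool.Agent.Helper20.RC.Link2F

/-!
# Project RC, SHARP: the far lemma (statements)

Gauge `q = 2`, weight `w = 1`. `ν_m = ⟨|F₁| e^{-i m arg F₁} + |F₂| e^{-i m arg F₂}⟩`, `S' = ν_0 - 2 + ⟨b₂⟩`.
FAR LEMMA: if `S' ≥ 1/5` then `9 (mean √(1-|b|²))² ≤ FMQ w1 2 b z`.

Proof. `λ = 1/4`, `D = 1/4`, `ε = 1/5`; `β = b₂^(m)`, `γ = b₃^(m)`, `m = 2, 4, …`; `P = sin ((m+1) D)/((m+1)² D)`,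
`R = sin ((m-1) D)/((m-1)² D)`, `κ = sin D/D`.
(A) `A00 ≥ (1 + β_0)² + γ_0²/4 + ∑ cA m β γ`, `cA = -2(|β|²+|γ|²/4)/(m²-1) + 2 m Im (β conj γ)/(m²-1)`.
(C) `2 A0Q ≥ 2 (1 + β_0) ν_0 + ∑ 2 Re (XC conj ν_m)`, `XC = (-2 β + i m γ)/(m²-1)`.
(R) `AQQ ≥ √3 κ (1 - β_0) ν_0 + ∑ 2 Re (XR conj ν_m)`, `XR = (√3/2) (-1)^(m/2) ((R - P) β - 2 i (P + R) γ)`.
(I) sign inequality: `ν_0 (ν_0 - e_0) - 2 ∑ Re ((ν_m - e_m) conj ν_m)/(m²-1) ≥ 0`, `e_0 = 2 - β_0`, `e_m = ebar m β γ`.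
(S) `‖sg 2‖² ≥ (4/5) ‖ν_2 + β - i γ‖² - 4 (3/10) ⟨|b|²⟩`.
(B) `9 ⟨|b|²⟩ = 9 (β_0² + γ_0²) + 18 ∑ (|β|² + |γ|²)`.
Subtract `λ` times (I) and complete the squares for every `m` (tables `StT4`, `StT2`); the rest is `StConst`.
-/

open MeasureTheory Set Filter Topology

namespace Helper44.Far

open Helper49.LT hiding sg
open Helper49.RC Helper87.RC Helper44.GQ
open Helper56.RC (fc)
open Helper44.RCG (Hex A00G A0QG AQQG G1 G2 sgG N0)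
open Pool.Agent.Helper20.RC (wR al alQ L2b L2w L1 mom)

/-- the weight `1` -/
noncomputable def w1 : ℝ → ℝ := wR 0 0 0

/-- Fourier coefficients of `b₂`, `b₃` -/
noncomputable def be (b : ℝ → ℂ) : ℤ → ℂ := fc fun t => ((b t).re : ℂ)
noncomputable def ga (b : ℝ → ℂ) : ℤ → ℂ := fc fun t => ((b t).im : ℂ)

/-- the moments of the directions of two families -/
noncomputable def nu (g1 g2 : ℝ → ℂ) (l : ℤ) : ℂ :=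
  (1 / (2 * Real.pi) : ℂ) * ∫ θ in (0 : ℝ)..(2 * Real.pi),
    ((‖g1 θ‖ : ℂ) * ee (-(l : ℝ) * al g1 θ) + (‖g2 θ‖ : ℂ) * ee (-(l : ℝ) * al g2 θ))

/-- the moments with the nominal alignment -/
noncomputable def en (g1 g2 : ℝ → ℂ) (l : ℤ) : ℂ :=
  (1 / (2 * Real.pi) : ℂ) * ∫ θ in (0 : ℝ)..(2 * Real.pi),
    ((((g1 θ * ee (-θ)).re : ℂ) - Complex.I * (l : ℂ) * ((g1 θ * ee (-θ)).im : ℂ)) * ee (-(l : ℝ) * θ)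
    + (((g2 θ * ee (-θ)).re : ℂ) - Complex.I * (l : ℂ) * ((g2 θ * ee (-θ)).im : ℂ)) * ee (-(l : ℝ) * θ))

/-- the frequency `m = 2 (n + 1)` -/
def fm (n : ℕ) : ℤ := 2 * ((n : ℤ) + 1)

/-- `m² - 1` -/
noncomputable def MM (n : ℕ) : ℝ := (2 * ((n : ℝ) + 1)) ^ 2 - 1

/-- the constants of the ramp, `D = 1/4` -/
noncomputable def PD (n : ℕ) : ℝ := Real.sin ((2 * (n : ℝ) + 3) / 4) / ((2 * (n : ℝ) + 3) ^ 2 / 4)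
noncomputable def RD (n : ℕ) : ℝ := Real.sin ((2 * (n : ℝ) + 1) / 4) / ((2 * (n : ℝ) + 1) ^ 2 / 4)
noncomputable def kD : ℝ := Real.sin (1 / 4) / (1 / 4)

/-- the part of `A00` -/
noncomputable def cA (n : ℕ) (β γ : ℂ) : ℝ :=
  (-2 * (‖β‖ ^ 2 + ‖γ‖ ^ 2 / 4) + 2 * (2 * ((n : ℝ) + 1)) * (β * (starRingEnd ℂ) γ).im) / MM n

/-- the coefficient of `conj ν` of `2 A0Q` -/
noncomputable def XC (n : ℕ) (β γ : ℂ) : ℂ :=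
  (-2 * β + Complex.I * (2 * ((n : ℂ) + 1)) * γ) / (MM n : ℂ)

/-- the coefficient of `conj ν` of `AQQ` -/
noncomputable def XR (n : ℕ) (β γ : ℂ) : ℂ :=
  (Real.sqrt 3 / 2 : ℂ) * (-1) ^ (n + 1) *
    (((RD n - PD n : ℝ) : ℂ) * β - 2 * Complex.I * ((PD n + RD n : ℝ) : ℂ) * γ)

/-- the aligned moment -/
noncomputable def ebar (n : ℕ) (β γ : ℂ) : ℂ :=
  ee (-(2 * ((n : ℝ) + 1)) * (Real.pi / 3)) *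
    ((-(1 / 2) + Complex.I * (2 * ((n : ℂ) + 1)) * (Real.sqrt 3 / 2 : ℂ)) * β
      + (5 * (Real.sqrt 3 : ℂ) / 8 + Complex.I * (2 * ((n : ℂ) + 1)) * (11 / 8)) * γ)
  + ee (-(2 * ((n : ℝ) + 1)) * (2 * Real.pi / 3)) *
    ((-(1 / 2) - Complex.I * (2 * ((n : ℂ) + 1)) * (Real.sqrt 3 / 2 : ℂ)) * β
      + (-(5 * (Real.sqrt 3 : ℂ) / 8) + Complex.I * (2 * ((n : ℂ) + 1)) * (11 / 8)) * γ)

/-- the total coefficient of `conj ν` after the subtraction of `(1/4)` (I) -/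
noncomputable def XX (n : ℕ) (β γ : ℂ) : ℂ := XC n β γ + XR n β γ - 1 / 4 * (ebar n β γ / (MM n : ℂ))

/-- (R), helper51 -/
def StR : Prop := ∀ b z : ℝ → ℂ, AdmQ 2 b z →
  ∃ L : ℝ, L ≤ AQQG (AAQ w1 2 b) (BBQ w1 2 b) (vvS w1 z) ∧
  Tendsto (fun N : ℕ => Real.sqrt 3 * kD * (1 - (be b 0).re) * (nu (F1Q w1 2 b z) (F2Q w1 2 b z) 0).re
    + ∑ n ∈ Finset.range N, 2 * (XR n (be b (fm n)) (ga b (fm n))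
      * (starRingEnd ℂ) (nu (F1Q w1 2 b z) (F2Q w1 2 b z) (fm n))).re) atTop (𝓝 L)

/-- (I), helper20 -/
def StI : Prop := ∀ (g1 g2 : ℝ → ℂ) (C1 C2 : ℝ), BM g1 C1 → BM g2 C2 →
  (∀ θ, g1 (θ + 2 * Real.pi) = g1 θ) → (∀ θ, g2 (θ + 2 * Real.pi) = g2 θ) →
  ∃ L : ℝ, 0 ≤ L ∧ Tendsto (fun N : ℕ => (nu g1 g2 0).re * ((nu g1 g2 0).re - (en g1 g2 0).re)
    - 2 * ∑ n ∈ Finset.range N, ((nu g1 g2 (fm n) - en g1 g2 (fm n))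
      * (starRingEnd ℂ) (nu g1 g2 (fm n))).re / MM n) atTop (𝓝 L)

/-- (T), `m ≥ 4`, helper51: `18 - 8/5 = 82/5`, `(m²-1)/(2λ) = 2 (m²-1)` -/
def StT4 : Prop := ∀ (n : ℕ) (β γ : ℂ), 1 ≤ n →
  2 * MM n * ‖XX n β γ‖ ^ 2 ≤ 82 / 5 * (‖β‖ ^ 2 + ‖γ‖ ^ 2) + cA n β γ

/-- (T), `m = 2`: with the second harmonic -/
def StT2 : Prop := ∀ β γ ν : ℂ,
  0 ≤ 82 / 5 * (‖β‖ ^ 2 + ‖γ‖ ^ 2) + cA 0 β γ + 2 * (XX 0 β γ * (starRingEnd ℂ) ν).re + 1 / 6 * ‖ν‖ ^ 2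
    + 8 / 15 * ‖ν + β - Complex.I * γ‖ ^ 2

/-- pointwise bound for the second harmonic of `a = aQ 2 b` -/
def StK : Prop := ∀ b : ℂ, ‖b‖ < 1 →
  ‖(starRingEnd ℂ) (aQ 2 b) ^ 2 / (‖aQ 2 b‖ : ℂ) - (1 + (b.re : ℂ) - Complex.I * (b.im : ℂ))‖ ^ 2
    ≤ 3 / 10 * ‖b‖ ^ 2

/-- the constant part -/
def StConst : Prop := ∀ ν0 β0 γ0 : ℝ, |β0| ≤ 1 → 1 / 5 ≤ ν0 - 2 + β0 → ν0 ≤ 13 →
  0 ≤ 2 * (1 + β0) * ν0 + Real.sqrt 3 * kD * (1 - β0) * ν0 + (1 + β0) ^ 2 + γ0 ^ 2 / 4 - 9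
    + 41 / 5 * (β0 ^ 2 + γ0 ^ 2) - 1 / 4 * (ν0 * (ν0 - (2 - β0)))

/-- THE FAR LEMMA -/
def StFar : Prop := ∀ b z : ℝ → ℂ, AdmQ 2 b z →
  1 / 5 ≤ (1 / (2 * Real.pi)) * (∫ θ in (0 : ℝ)..(2 * Real.pi), (‖F1Q w1 2 b z θ‖ + ‖F2Q w1 2 b z θ‖)) - 2
    + (be b 0).re →
  9 * 1 * (mQ w1 b) ^ 2 ≤ FMQ w1 2 b z

end Helper44.Far
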