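import Pool.Agent.Helper44.RC.M_NR1
import Pool.Agent.Helper95.SH.Cont2

/-!
# Project RC, SHARP: the near constants, 2

`cs_of`: the condition `Cs`. `x0 b = ⟨w b₂⟩`, `H0_eq`, `x0_abs`, `x0_diff`, `s00_le`. `lam_crit`: the condition `Lam`
from an upper bound `G` of `s₀₀ - e₀₀`.
-/

open MeasureTheory Set Filter Topology

namespace Helper44.Far

open Helper49.LT hiding sg
open Helper49.RC Helper44.GQ
open Helper56.RC (fc)
open Helper87.RC (BM pars)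
open Helper49.Sharp
open Pool.Agent.Helper20.RC (wR)
open Helper95.SH (wm fc_w)

variable {b z : ℝ → ℂ} {P : Par}

/-- Bessel for a real function, harmonics `0, ± 2, ± 4` -/
theorem bes3 {g : ℝ → ℝ} {C : ℝ} (h : BM (fun t => ((g t : ℝ) : ℂ)) C) :
    ‖fc (fun t => ((g t : ℝ) : ℂ)) 0‖ ^ 2 + 2 * ‖fc (fun t => ((g t : ℝ) : ℂ)) 2‖ ^ 2
      + 2 * ‖fc (fun t => ((g t : ℝ) : ℂ)) 4‖ ^ 2 ≤ mean (fun t => g t ^ 2) := by
  have hp := pars h
  have h1 := sum_le_hasSum ({0, 2, -2, 4, -4} : Finset ℤ) (fun n _ => by positivity) hp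
  have e : (1 / (2 * Real.pi)) * (∫ t in (0 : ℝ)..(2 * Real.pi), ‖((g t : ℝ) : ℂ)‖ ^ 2) = mean (fun t => g t ^ 2) := by
    unfold mean
    congr 1
    refine intervalIntegral.integral_congr fun t _ => ?_
    simp only [Complex.norm_real, Real.norm_eq_abs, sq_abs]
  rw [e] at h1
  have n2 : ‖fc (fun t => ((g t : ℝ) : ℂ)) (-2)‖ = ‖fc (fun t => ((g t : ℝ) : ℂ)) 2‖ := by
    rw [Helper95.RC.fc_real_neg, Complex.norm_conj]
  have n4 : ‖fc (fun t => ((g t : ℝ) : ℂ)) (-4)‖ = ‖fc (fun t => ((g t : ℝ) : ℂ)) 4‖ := by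
    rw [Helper95.RC.fc_real_neg, Complex.norm_conj]
  rw [Finset.sum_insert (by decide), Finset.sum_insert (by decide), Finset.sum_insert (by decide),
    Finset.sum_insert (by decide), Finset.sum_singleton, n2, n4] at h1
  linarith

/-- the harmonic 2 of `w g` -/
theorem w_harm2 (η : ℂ) {g : ℝ → ℝ} {C : ℝ} (h : BM (fun t => ((g t : ℝ) : ℂ)) C) :
    ‖fc (fun t => ((wR η 0 0 t * g t : ℝ) : ℂ)) 2‖ ^ 2 ≤ (1 / 2 + 3 / 2 * ‖η‖ ^ 2) * mean (fun t => g t ^ 2) := by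
  have e : (fun t => ((wR η 0 0 t * g t : ℝ) : ℂ)) = fun t => (wR η 0 0 t : ℂ) * ((g t : ℝ) : ℂ) := by
    funext t; push_cast; rfl
  rw [e, fc_w η h]
  have hb := bes3 h
  set f := fc (fun t => ((g t : ℝ) : ℂ)) with hf
  set M := mean (fun t => g t ^ 2) with hM
  have h1 : ‖wm η f 2‖ ≤ ‖f 2‖ + ‖η‖ * ‖f 0‖ + ‖η‖ * ‖f 4‖ := by
    unfold wm
    have e0 : (2 : ℤ) - 2 = 0 := by norm_num
    have e4 : (2 : ℤ) + 2 = 4 := by norm_num
    rw [e0, e4]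
    refine (norm_add₃_le).trans ?_
    rw [norm_mul, norm_mul, Complex.norm_conj]
  have n0 := norm_nonneg (f 0)
  have n2 := norm_nonneg (f 2)
  have n4 := norm_nonneg (f 4)
  have nη := norm_nonneg η
  have h2 := pow_le_pow_left₀ (norm_nonneg (wm η f 2)) h1 2
  refine h2.trans ?_
  have h3 : (‖f 2‖ + ‖η‖ * ‖f 0‖ + ‖η‖ * ‖f 4‖) ^ 2 ≤
      (1 / 2 + 3 / 2 * ‖η‖ ^ 2) * (‖f 0‖ ^ 2 + 2 * ‖f 2‖ ^ 2 + 2 * ‖f 4‖ ^ 2) := by
    nlinarith [sq_nonneg (2 * ‖η‖ * ‖f 2‖ - ‖f 0‖), sq_nonneg (‖η‖ * ‖f 2‖ - ‖f 4‖),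
      sq_nonneg (‖η‖ * (‖f 0‖ - 2 * ‖f 4‖)), sq_nonneg (‖η‖ * (‖f 0‖ - ‖f 4‖)),
      sq_nonneg (‖f 2‖ * 2 * ‖η‖ - ‖f 0‖)]
  exact h3.trans (mul_le_mul_of_nonneg_left hb (by positivity))

theorem bm_b2 (h : AdmQ 2 b z) : BM (fun t => (((b t).re : ℝ) : ℂ)) 1 := by
  have hb := b_bm h
  refine ⟨Complex.measurable_ofReal.comp (Complex.measurable_re.comp hb.m), fun t => ?_⟩
  rw [Complex.norm_real]
  exact (Complex.abs_re_le_norm _).trans (hb.b t)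

theorem bm_b3 (h : AdmQ 2 b z) : BM (fun t => (((b t).im : ℝ) : ℂ)) 1 := by
  have hb := b_bm h
  refine ⟨Complex.measurable_ofReal.comp (Complex.measurable_im.comp hb.m), fun t => ?_⟩
  rw [Complex.norm_real]
  exact (Complex.abs_im_le_norm _).trans (hb.b t)

/-- **near data: `sig`** -/
theorem sig_sq (h : AdmQ 2 b z) (hn : Near b z) :
    ‖P.sig b‖ ^ 2 ≤ 17 / 54 * (1 / 2 + 3 / 2 * ‖P.eta‖ ^ 2) := by
  have hb := near_b h hn
  have p2 := w_harm2 P.eta (bm_b2 h)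
  have q2 := w_harm2 P.eta (bm_b3 h)
  have e : ‖P.sig b‖ ≤ ‖fc (fun t => ((wR P.eta 0 0 t * (b t).re : ℝ) : ℂ)) 2‖
      + ‖fc (fun t => ((wR P.eta 0 0 t * (b t).im : ℝ) : ℂ)) 2‖ := by
    refine (norm_sub_le _ _).trans ?_
    rw [norm_mul, Complex.norm_I, one_mul]
    exact le_rfl
  set p := ‖fc (fun t => ((wR P.eta 0 0 t * (b t).re : ℝ) : ℂ)) 2‖ with hp
  set q := ‖fc (fun t => ((wR P.eta 0 0 t * (b t).im : ℝ) : ℂ)) 2‖ with hq
  set x := mean (fun t => (b t).re ^ 2) with hx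
  set y := mean (fun t => (b t).im ^ 2) with hy
  set K := 1 / 2 + 3 / 2 * ‖P.eta‖ ^ 2 with hK
  have K0 : 0 ≤ K := by positivity
  have h1 := pow_le_pow_left₀ (norm_nonneg (P.sig b)) e 2
  have h2 : (p + q) ^ 2 ≤ 85 / 108 * (12 / 5 * p ^ 2 + 27 / 10 * q ^ 2) := by
    nlinarith [sq_nonneg (12 / 5 * p - 27 / 10 * q)]
  have h3 : 12 / 5 * p ^ 2 + 27 / 10 * q ^ 2 ≤ K * (2 / 5) := by
    have : 12 / 5 * p ^ 2 + 27 / 10 * q ^ 2 ≤ K * (12 / 5 * x + 27 / 10 * y) := by linarith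
    exact this.trans (mul_le_mul_of_nonneg_left hb.le K0)
  linarith

/-- **the condition `Cs`** -/
theorem cs_of (h : AdmQ 2 b z) (hn : Near b z) (h0 : 0 ≤ P.cs)
    (hc : 17 / 243 * (1 + 3 * ‖P.eta‖ ^ 2) ≤ P.cs ^ 2) : P.Cs b := by
  have h1 := sig_sq (P := P) h hn
  unfold Par.Cs
  refine abs_le_of_sq_le_sq' ?_ h0 |>.2
  nlinarith

/-- `H₀` -/
theorem H0_eq (h : AdmQ 2 b z) (hr : P.Reg) :
    P.H0 b = mean (fun t => P.w t * (b t).re) - (fc P.a0 0).re := by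
  have hb : Helper95.RC.BF b := Helper95.RC.AdmQ.bfb h
  unfold Par.H0
  rw [Helper95.SH.fc_dal hr hb]
  obtain ⟨E, hE⟩ := alP_bm h hr
  have e1 := fc0_re hE
  have e2 : (fun t => (P.al b t).re) = fun t => P.w t * (b t).re := by
    funext t
    show (Pool.Agent.Helper20.RC.alQ P.w 2 b t).re = _
    unfold Pool.Agent.Helper20.RC.alQ
    rw [Complex.re_ofReal_mul]
    simp
  rw [e2] at e1
  rw [← e1]
  simp

/-- the effect of the weight on the mean -/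
theorem x0_diff (h : AdmQ 2 b z) (hn : Near b z) :
    |mean (fun t => P.w t * (b t).re) - mean (fun t => (b t).re)| ≤ 3 / 5 * ‖P.eta‖ := by
  have hb := near_b h hn
  have i2 : 0 ≤ mean (fun t => (b t).im ^ 2) := mean_nonneg fun t => sq_nonneg _
  have hB := bes3 (bm_b2 h)
  set f := fc (fun t => (((b t).re : ℝ) : ℂ)) with hf
  have e1 : mean (fun t => P.w t * (b t).re) = (wm P.eta f 0).re := by
    have k1 := fc_w P.eta (bm_b2 h) 0
    rw [← hf] at k1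
    rw [← k1]
    obtain ⟨C, hC⟩ : ∃ C, BM (fun t => (wR P.eta 0 0 t : ℂ) * (((b t).re : ℝ) : ℂ)) C := by
      refine ⟨(1 + 2 * (‖P.eta‖ + ‖(0 : ℂ)‖ + ‖(0 : ℂ)‖)) * 1, BM.mul ⟨?_, fun t => ?_⟩ (bm_b2 h)⟩
      · exact Complex.measurable_ofReal.comp (Pool.Agent.Helper20.RC.wR_meas _ _ _)
      · rw [Complex.norm_real, Real.norm_eq_abs]
        have := abs_le.1 (Pool.Agent.Helper20.RC.wR_bd P.eta 0 0 t)
        have n0 := norm_nonneg P.eta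
        rw [abs_le]
        constructor <;> linarith [norm_nonneg (0 : ℂ)]
    rw [fc0_re hC]
    refine mean_congr fun t => ?_
    rw [Complex.re_ofReal_mul, Complex.ofReal_re]
    rfl
  have e0 : mean (fun t => (b t).re) = (f 0).re := by
    rw [hf, fc0_re (bm_b2 h)]
    refine mean_congr fun t => ?_
    rw [Complex.ofReal_re]
  have n2 : ‖f (-2)‖ = ‖f 2‖ := by
    rw [hf, Helper95.RC.fc_real_neg, Complex.norm_conj]
  rw [e1, e0]
  unfold wm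
  have x1 : (f 0 + P.eta * f (0 - 2) + (starRingEnd ℂ) P.eta * f (0 + 2)).re - (f 0).re =
      (P.eta * f (0 - 2) + (starRingEnd ℂ) P.eta * f (0 + 2)).re := by
    rw [add_assoc, Complex.add_re]; ring
  rw [x1]
  refine (Complex.abs_re_le_norm _).trans ?_
  refine (norm_add_le _ _).trans ?_
  rw [norm_mul, norm_mul, Complex.norm_conj, zero_sub, zero_add, n2]
  have x2 : ‖f 2‖ ≤ 3 / 10 := by
    have a := norm_nonneg (f 0)
    have c := norm_nonneg (f 4)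
    have d := norm_nonneg (f 2)
    nlinarith
  have x3 := norm_nonneg P.eta
  nlinarith

/-- the length -/
theorem s00_le (h : AdmQ 2 b z) (hr : P.Reg) :
    P.s00 b z ≤ (1 + 2 * ‖P.eta‖) * (Sp b z + 2 - mean (fun t => (b t).re)) := by
  obtain ⟨D, f1, f2⟩ := F_bm (P := P) h hr
  obtain ⟨p1, p2⟩ := F_per (P := P) h hr
  obtain ⟨D', k1, k2, _⟩ := g_bm h
  have q1 : ∀ θ, ‖P.F1 b z (θ + 2 * Real.pi)‖ = ‖P.F1 b z θ‖ := fun θ => by rw [p1]
  have q2 : ∀ θ, ‖P.F2 b z (θ + 2 * Real.pi)‖ = ‖P.F2 b z θ‖ := fun θ => by rw [p2]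
  have m1 := mean_sh (f := fun θ => ‖P.F1 b z θ‖) q1 (Real.pi / 3)
  have m2 := mean_sh (f := fun θ => ‖P.F2 b z θ‖) q2 (2 * Real.pi / 3)
  have w0 := fun t => hr.w0 (P := P) t
  have a1 : ∀ t, ‖P.F1 b z (t + Real.pi / 3)‖ ≤ (1 + 2 * ‖P.eta‖) * ‖g1 (b t) (z t)‖ := fun t => by
    rw [F1_at, norm_mul, norm_mul, norm_ee, one_mul, Complex.norm_real, Real.norm_eq_abs, abs_of_nonneg (w0 t)]
    exact mul_le_mul_of_nonneg_right (hr.wle t) (norm_nonneg _)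
  have a2 : ∀ t, ‖P.F2 b z (t + 2 * Real.pi / 3)‖ ≤ (1 + 2 * ‖P.eta‖) * ‖g2 (b t) (z t)‖ := fun t => by
    rw [F2_at, norm_mul, norm_mul, norm_ee, one_mul, Complex.norm_real, Real.norm_eq_abs, abs_of_nonneg (w0 t)]
    exact mul_le_mul_of_nonneg_right (hr.wle t) (norm_nonneg _)
  have n1 := BR.nrm k1
  have n2 := BR.nrm k2
  have s1 := mean_mono ((BR.nrm f1).sh (Real.pi / 3)) (n1.cmul (1 + 2 * ‖P.eta‖)) a1
  have s2 := mean_mono ((BR.nrm f2).sh (2 * Real.pi / 3)) (n2.cmul (1 + 2 * ‖P.eta‖)) a2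
  rw [m1, mean_cmul] at s1
  rw [m2, mean_cmul] at s2
  unfold Par.s00
  rw [s00_eq f1 f2, mean_add (BR.nrm f1) (BR.nrm f2)]
  have e : Sp b z + 2 - mean (fun t => (b t).re) = mean (fun t => ‖g1 (b t) (z t)‖) + mean (fun t => ‖g2 (b t) (z t)‖) := by
    unfold Sp
    rw [mean_add n1 n2, fc0_re (b_bm h)]
    ring
  rw [e]
  linarith

/-- **THE CRITERION FOR `Lam`**: `c0 ≤ 2 lam` and `c_y² G ≤ 4 pr2 (2 lam - c0)`, where
`c_y = 2 + ν (1 + 2|η|)`, `c0 = ν ((1 + 2|η|)(11/5 - Re a0^(0) - h0 + (3/5)|η|) + 2 Σ |γ|) - 2 h0`, `G` an upper bound of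
`s₀₀ - e₀₀` -/
theorem lam_crit (h : AdmQ 2 b z) (hn : Near b z) (hr : P.Reg) {G : ℝ}
    (g0 : 0 ≤ P.s00 b z - P.e00 b z) (hG : P.s00 b z - P.e00 b z ≤ G) (hp : 0 ≤ P.pr2)
    (h1 : P.nu * ((1 + 2 * ‖P.eta‖) * (11 / 5 - (fc P.a0 0).re - P.h0 + 3 / 5 * ‖P.eta‖) + 2 * ∑' k, ‖P.ga k‖)
      - 2 * P.h0 ≤ 2 * P.lam)
    (h2 : (2 + P.nu * (1 + 2 * ‖P.eta‖)) ^ 2 * G ≤ 4 * P.pr2 * (2 * P.lam
      - (P.nu * ((1 + 2 * ‖P.eta‖) * (11 / 5 - (fc P.a0 0).re - P.h0 + 3 / 5 * ‖P.eta‖) + 2 * ∑' k, ‖P.ga k‖)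
        - 2 * P.h0))) : P.Lam b z := by
  have hn' : Sp b z + 3 / 4 * mean (fun t => (b t).re ^ 2) < 1 / 5 := hn
  have i2 : 0 ≤ mean (fun t => (b t).re ^ 2) := mean_nonneg fun t => sq_nonneg _
  have hs := s00_le h hr
  have hx := abs_le.1 (x0_diff (P := P) h hn)
  have hH := H0_eq h hr
  have nu0 := hr.nu0
  set Γ := ∑' k, ‖P.ga k‖ with hΓ
  set S := P.s00 b z
  set g := P.s00 b z - P.e00 b z with hg
  set β := mean (fun t => (b t).re) with hβ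
  set X := mean (fun t => P.w t * (b t).re) with hX
  set ε := ‖P.eta‖ with hε
  have ε0 : 0 ≤ ε := norm_nonneg _
  set cy := 2 + P.nu * (1 + 2 * ε) with hcy
  set c0 := P.nu * ((1 + 2 * ε) * (11 / 5 - (fc P.a0 0).re - P.h0 + 3 / 5 * ε) + 2 * Γ) - 2 * P.h0 with hc0
  set y := P.H0 b - P.h0 with hy
  have s1 : S ≤ (1 + 2 * ε) * (11 / 5 - (fc P.a0 0).re - P.h0 + 3 / 5 * ε - y) := by
    refine hs.trans (mul_le_mul_of_nonneg_left ?_ (by linarith))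
    rw [hy, hH]
    linarith
  have s2 : P.nu * (S + 2 * Γ) - 2 * P.H0 b ≤ c0 - cy * y := by
    have := mul_le_mul_of_nonneg_left s1 nu0.le
    have e : P.H0 b = y + P.h0 := by rw [hy]; ring
    rw [e, hc0, hcy]
    nlinarith
  unfold Par.Lam
  show (P.nu * (S + 2 * Γ) - 2 * P.H0 b) * g ≤ 2 * P.lam * g + P.pr2 * (P.H0 b - P.h0) ^ 2
  have s3 := mul_le_mul_of_nonneg_right s2 g0
  rcases g0.eq_or_lt with hz | hz
  · rw [← hz, mul_zero, mul_zero, zero_add]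
    positivity
  · have D0 : 0 ≤ 2 * P.lam - c0 := by linarith
    have k1 : cy ^ 2 * g ≤ 4 * P.pr2 * (2 * P.lam - c0) := by
      have : cy ^ 2 * g ≤ cy ^ 2 * G := mul_le_mul_of_nonneg_left hG (sq_nonneg _)
      linarith
    -- pr2 y² + cy y g + D g ≥ 0
    have k2 : 0 ≤ P.pr2 * y ^ 2 + cy * y * g + (2 * P.lam - c0) * g := by
      rcases hp.eq_or_lt with hp0 | hp0
      · rw [← hp0] at k1 ⊢
        have : cy ^ 2 * g ≤ 0 := by linarith
        have c1 : cy = 0 := by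
          by_contra hne
          have : 0 < cy ^ 2 := by positivity
          nlinarith
        rw [c1]
        have := mul_nonneg D0 hz.le
        linarith
      · have k3 : 0 ≤ 4 * P.pr2 * (P.pr2 * y ^ 2 + cy * y * g + (2 * P.lam - c0) * g) := by
          have : 4 * P.pr2 * (P.pr2 * y ^ 2 + cy * y * g + (2 * P.lam - c0) * g) =
              (2 * P.pr2 * y + cy * g) ^ 2 + g * (4 * P.pr2 * (2 * P.lam - c0) - cy ^ 2 * g) := by ring
          rw [this]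
          have := mul_nonneg hz.le (sub_nonneg.2 k1)
          positivity
        exact (mul_nonneg_iff_of_pos_left (by positivity)).1 k3
    have e : (c0 - cy * y) * g = c0 * g - cy * y * g := by ring
    rw [e] at s3
    linarith

end Helper44.Far
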