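import Pool.Agent.Helper44.RC.M_GEN

/-! # Project RC: general hexagon families: the bounds A00, A0Q, COE, CUT -/

open MeasureTheory Set Filter Metric

namespace Helper44.RCG

open Helper49.LT hiding sg
open Helper49.RC
open Helper87.RC hiding cut_gen sgs_abs sgs_meas sgs_per
open Helper44.RC (sgs yv E0 E1 E2 vv dbl dbl_add dbl_swap dbl_const dbl_mono tSeg meas_im cx cx_eq
  cx_rot core biaff int_sgs two_pi_nonneg im_le' F1 F2 sgs_abs sgs_sq sgs_meas sgs_per nom sum_nom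
  im_int per_ext int_congr_choice sg_le_abs vv_meas E0_meas E0_le E1_meas E1_le E2_meas E2_le vv_le
  E0_anti E1_anti E2_anti vv_pi om_eq conj_om f1_eq f2_eq Tb Reg_iff)

variable {A0 A B v : ℝ → ℂ} {C : ℝ}

theorem G1_per (h : Fam A B v C) (θ : ℝ) : G1 A v (θ + 2 * Real.pi) = G1 A v θ := by
  unfold G1
  rw [show θ + 2 * Real.pi - Real.pi / 3 = θ - Real.pi / 3 + 2 * Real.pi by ring, two_per h.pA,
    two_per' h.pv]

theorem G2_per (h : Fam A B v C) (θ : ℝ) : G2 B v (θ + 2 * Real.pi) = G2 B v θ := by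
  unfold G2
  rw [show θ + 2 * Real.pi - 2 * Real.pi / 3 = θ - 2 * Real.pi / 3 + 2 * Real.pi by ring,
    two_per h.pB, two_per' h.pv]

/-- the family of the edge `l` -/
noncomputable def FG (A B v : ℝ → ℂ) : Fin 4 → ℝ → ℂ := ![G1 A v, G2 B v, G1 A v, G2 B v]

theorem qq_FG (h : Fam A B v C) (s : ℝ) (l : Fin 4) : qq A B v s l = FG A B v l (s + nom l) := by
  fin_cases l
  · show A s + v s = A (s + Real.pi / 3 - Real.pi / 3) + v (s + Real.pi / 3 - Real.pi / 3)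
    rw [add_sub_cancel_right]
  · show B s - v s = B (s + 2 * Real.pi / 3 - 2 * Real.pi / 3) - v (s + 2 * Real.pi / 3 - 2 * Real.pi / 3)
    rw [add_sub_cancel_right]
  · show -A s + v s = A (s + 4 * Real.pi / 3 - Real.pi / 3) + v (s + 4 * Real.pi / 3 - Real.pi / 3)
    rw [show s + 4 * Real.pi / 3 - Real.pi / 3 = s + Real.pi by ring, h.pA, h.pv]
  · show -B s - v s = B (s + 5 * Real.pi / 3 - 2 * Real.pi / 3)
      - v (s + 5 * Real.pi / 3 - 2 * Real.pi / 3)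
    rw [show s + 5 * Real.pi / 3 - 2 * Real.pi / 3 = s + Real.pi by ring, h.pB, h.pv]

theorem G1_meas (h : Fam A B v C) : Measurable (G1 A v) :=
  (h.mA.comp (measurable_id.sub_const _)).add (h.mv.comp (measurable_id.sub_const _))

theorem G2_meas (h : Fam A B v C) : Measurable (G2 B v) :=
  (h.mB.comp (measurable_id.sub_const _)).sub (h.mv.comp (measurable_id.sub_const _))

theorem G1_le (h : Fam A B v C) (θ : ℝ) : ‖G1 A v θ‖ ≤ 2 * C := by
  unfold G1
  refine (norm_add_le _ _).trans ?_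
  linarith [h.bA (θ - Real.pi / 3), h.bv (θ - Real.pi / 3)]

theorem G2_le (h : Fam A B v C) (θ : ℝ) : ‖G2 B v θ‖ ≤ 2 * C := by
  unfold G2
  refine (norm_sub_le _ _).trans ?_
  linarith [h.bB (θ - 2 * Real.pi / 3), h.bv (θ - 2 * Real.pi / 3)]

theorem FG_meas (h : Fam A B v C) (l : Fin 4) : Measurable (FG A B v l) := by
  fin_cases l
  · exact G1_meas h
  · exact G2_meas h
  · exact G1_meas h
  · exact G2_meas h

theorem FG_le (h : Fam A B v C) (l : Fin 4) (θ : ℝ) : ‖FG A B v l θ‖ ≤ 2 * C := by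
  fin_cases l
  · exact G1_le h θ
  · exact G2_le h θ
  · exact G1_le h θ
  · exact G2_le h θ

theorem sum_FG (h : Fam A B v C) (s : ℝ) : ∑ l, FG A B v l (s + nom l) = 0 := by
  rw [← qq_sum (A := A) (B := B) (v := v) s]
  exact Finset.sum_congr rfl fun l _ => (qq_FG h s l).symm

/-- The general cut lemma for families. -/
theorem cut_genG (h : Fam A B v C) {K : ℝ × ℝ → ℝ} (Km : Measurable K) {C' : ℝ}
    (Kb : ∀ q, |K q| ≤ C')
    {J1 J2 : ℝ → ℝ → ℂ} (g1 : Measurable (fun q : ℝ × ℝ => J1 q.1 q.2))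
    (g2 : Measurable (fun q : ℝ × ℝ => J2 q.1 q.2)) {D : ℝ} (d1 : ∀ θ t, ‖J1 θ t‖ ≤ D)
    (d2 : ∀ θ t, ‖J2 θ t‖ ≤ D) (p1 : ∀ θ t, J1 (θ + 2 * Real.pi) t = J1 θ t)
    (p2 : ∀ θ t, J2 (θ + 2 * Real.pi) t = J2 θ t) {Z1 Z2 : ℝ → ℂ} {c : ℂ}
    (z1 : ∀ θ, ∫ t in (0 : ℝ)..(2 * Real.pi), J1 θ t = Z1 θ + c)
    (z2 : ∀ θ, ∫ t in (0 : ℝ)..(2 * Real.pi), J2 θ t = Z2 θ + c)
    (hK : ∀ t s, ∑ l, (FG A B v l (s + nom l) * (starRingEnd ℂ)
      ((![J1, J2, J1, J2] : Fin 4 → ℝ → ℝ → ℂ) l (s + nom l) t)).im ≤ K (t, s)) :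
    2 * ∫ θ in (0 : ℝ)..(2 * Real.pi), ((G1 A v θ * (starRingEnd ℂ) (Z1 θ)).im
      + (G2 B v θ * (starRingEnd ℂ) (Z2 θ)).im) ≤ dbl K := by
  set GG : Fin 4 → ℝ → ℝ → ℂ := ![J1, J2, J1, J2] with hGG
  set ZZ : Fin 4 → ℝ → ℂ := ![Z1, Z2, Z1, Z2] with hZZ
  have gm : ∀ l, Measurable (fun q : ℝ × ℝ => GG l q.1 q.2) := by
    intro l
    fin_cases l
    · exact g1
    · exact g2
    · exact g1
    · exact g2
  have gd : ∀ l θ t, ‖GG l θ t‖ ≤ D := by
    intro l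
    fin_cases l
    · exact d1
    · exact d2
    · exact d1
    · exact d2
  have gz : ∀ l θ, ∫ t in (0 : ℝ)..(2 * Real.pi), GG l θ t = ZZ l θ + c := by
    intro l
    fin_cases l
    · exact z1
    · exact z2
    · exact z1
    · exact z2
  set g : ℝ × ℝ → ℝ := fun q => ∑ l, (FG A B v l (q.2 + nom l) * (starRingEnd ℂ)
      (GG l (q.2 + nom l) q.1)).im with hg
  have gM : Measurable g := by
    refine Finset.measurable_sum _ fun l _ => ?_
    refine meas_im ((FG_meas h l).comp (measurable_snd.add_const _)) ?_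
    exact (gm l).comp ((measurable_snd.add_const _).prodMk measurable_fst)
  have gB : ∀ q, |g q| ≤ 4 * (2 * C * D) := by
    intro q
    refine (Finset.abs_sum_le_sum_abs _ _).trans ?_
    refine (Finset.sum_le_sum fun l _ => im_le' (FG_le h l _) (gd l _ _)).trans ?_
    simp
  have hle : dbl g ≤ dbl K := dbl_mono gM Km gB Kb fun q => hK q.1 q.2
  refine le_trans (le_of_eq ?_) hle
  rw [dbl_swap gM gB]
  have zm : ∀ {G : ℝ → ℝ → ℂ} {Z : ℝ → ℂ}, Measurable (fun q : ℝ × ℝ => G q.1 q.2) →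
      (∀ θ, ∫ t in (0 : ℝ)..(2 * Real.pi), G θ t = Z θ + c) → Measurable Z := by
    intro G Z hG hZ
    have h1 : StronglyMeasurable (fun q : ℝ × ℝ => G q.1 q.2) := hG.stronglyMeasurable
    have h2 := (h1.integral_prod_right' (ν := volume.restrict (Ioc 0 (2 * Real.pi)))).measurable
    have h3 : Z = fun θ => (∫ t, G θ t ∂(volume.restrict (Ioc 0 (2 * Real.pi)))) - c := by
      funext θ
      rw [← intervalIntegral.integral_of_le two_pi_nonneg, hZ]
      ring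
    rw [h3]
    exact h2.sub_const c
  have zb : ∀ {G : ℝ → ℝ → ℂ} {Z : ℝ → ℂ}, (∀ θ t, ‖G θ t‖ ≤ D) →
      (∀ θ, ∫ t in (0 : ℝ)..(2 * Real.pi), G θ t = Z θ + c) → ∀ θ,
      ‖Z θ‖ ≤ D * |2 * Real.pi - 0| + ‖c‖ := by
    intro G Z hG hZ θ
    have h1 : ‖∫ t in (0 : ℝ)..(2 * Real.pi), G θ t‖ ≤ D * |2 * Real.pi - 0| :=
      intervalIntegral.norm_integral_le_of_norm_le_const fun s _ => hG θ s
    have h2 : Z θ = (∫ t in (0 : ℝ)..(2 * Real.pi), G θ t) - c := by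
      rw [hZ]
      ring
    rw [h2]
    exact (norm_sub_le _ _).trans (by linarith)
  have zp : ∀ {G : ℝ → ℝ → ℂ} {Z : ℝ → ℂ}, (∀ θ t, G (θ + 2 * Real.pi) t = G θ t) →
      (∀ θ, ∫ t in (0 : ℝ)..(2 * Real.pi), G θ t = Z θ + c) → ∀ θ,
      Z (θ + 2 * Real.pi) = Z θ := by
    intro G Z hG hZ θ
    have h1 := hZ (θ + 2 * Real.pi)
    simp_rw [hG] at h1
    rw [hZ θ] at h1
    exact (add_right_cancel h1).symm
  set H1 : ℝ → ℝ := fun θ => (G1 A v θ * (starRingEnd ℂ) (Z1 θ)).im with hH1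
  set H2 : ℝ → ℝ := fun θ => (G2 B v θ * (starRingEnd ℂ) (Z2 θ)).im with hH2
  have mim : ∀ {f g : ℝ → ℂ}, Measurable f → Measurable g →
      Measurable (fun q => (f q * (starRingEnd ℂ) (g q)).im) := fun hf hg =>
    Complex.measurable_im.comp (hf.mul (Complex.continuous_conj.measurable.comp hg))
  have hs := sum_nom (H1 := H1) (H2 := H2) (mim (G1_meas h) (zm g1 z1)) (mim (G2_meas h) (zm g2 z2))
    (C := 2 * C * (D * |2 * Real.pi - 0| + ‖c‖)) (fun θ => im_le' (G1_le h θ) (zb d1 z1 θ))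
    (fun θ => im_le' (G2_le h θ) (zb d2 z2 θ))
    (fun θ => by simp only [hH1]; rw [G1_per h, zp p1 z1])
    (fun θ => by simp only [hH2]; rw [G2_per h, zp p2 z2])
  rw [← hs]
  unfold dbl
  congr 1
  funext s
  have e1 : ∀ l, ∫ t in (0 : ℝ)..(2 * Real.pi), (FG A B v l (s + nom l) * (starRingEnd ℂ)
      (GG l (s + nom l) t)).im = (FG A B v l (s + nom l) * (starRingEnd ℂ)
      (ZZ l (s + nom l) + c)).im := by
    intro l
    rw [im_int, gz]
    exact intg_of_bddC ((gm l).comp (measurable_const.prodMk measurable_id)) (fun t => gd l _ t) _ _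
  have e2 : ∫ t in (0 : ℝ)..(2 * Real.pi), g (t, s) = ∑ l, (FG A B v l (s + nom l) * (starRingEnd ℂ)
      (ZZ l (s + nom l) + c)).im := by
    simp only [hg]
    rw [intervalIntegral.integral_finset_sum]
    · exact Finset.sum_congr rfl fun l _ => e1 l
    · intro l _
      refine intg_of_bdd (C := 2 * C * D) ?_ (fun t => im_le' (FG_le h l _) (gd l _ t)) _ _
      exact mim measurable_const ((gm l).comp (measurable_const.prodMk measurable_id))
  have e3 : ∑ l, (FG A B v l (s + nom l) * (starRingEnd ℂ) (ZZ l (s + nom l) + c)).im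
      = ∑ l, (FG A B v l (s + nom l) * (starRingEnd ℂ) (ZZ l (s + nom l))).im := by
    have h4 : ∑ l, (FG A B v l (s + nom l) * (starRingEnd ℂ) c).im = 0 := by
      rw [← Complex.im_sum, ← Finset.sum_mul, sum_FG h]
      simp
    simp_rw [map_add, mul_add, Complex.add_im]
    rw [Finset.sum_add_distrib, h4, add_zero]
  show _ = ∫ t in (0 : ℝ)..(2 * Real.pi), g (t, s)
  rw [e2, e3, Fin.sum_univ_four, Fin.sum_univ_four]
  rfl

/-- The segments among themselves. -/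
theorem a00G (h : Hex A0 A B v C) :
    1 / (4 * Real.pi) * ∫ θ in (0 : ℝ)..(2 * Real.pi),
    (A0 θ * (starRingEnd ℂ) (∫ t in (θ - Real.pi)..θ, A0 t)).im ≤ A00G A0 := by
  set g : ℝ × ℝ → ℝ := fun q => (A0 q.2 * (starRingEnd ℂ) ((sgs (q.2 - q.1) : ℂ) * A0 q.1)).im
    with hg
  have hsm : Measurable (fun q : ℝ × ℝ => (sgs (q.2 - q.1) : ℂ) * A0 q.1) :=
    (Complex.measurable_ofReal.comp (sgs_meas.comp (measurable_snd.sub measurable_fst))).mul
      (h.m0.comp measurable_fst)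
  have hsb : ∀ x t : ℝ, ‖(sgs x : ℂ) * A0 t‖ ≤ C := by
    intro x t
    rw [norm_mul, Complex.norm_real, Real.norm_eq_abs]
    have := mul_le_mul (sgs_abs x) (h.b0 t) (norm_nonneg _) (by norm_num)
    linarith
  have gM : Measurable g := meas_im (h.m0.comp measurable_snd) hsm
  have gB : ∀ q, |g q| ≤ C * C := fun q => im_le' (h.b0 _) (hsb _ _)
  have uM : Measurable (fun q : ℝ × ℝ => |(A0 q.2 * (starRingEnd ℂ) (A0 q.1)).im|) :=
    (meas_im (h.m0.comp measurable_snd) (h.m0.comp measurable_fst)).abs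
  have uB : ∀ q : ℝ × ℝ, |(|(A0 q.2 * (starRingEnd ℂ) (A0 q.1)).im|)| ≤ C * C := fun q => by
    rw [abs_abs]
    exact im_le' (h.b0 _) (h.b0 _)
  have hle := dbl_mono gM uM gB uB fun q => by
    have : g q = sgs (q.2 - q.1) * (A0 q.2 * (starRingEnd ℂ) (A0 q.1)).im := by
      simp only [hg]
      rw [map_mul, Complex.conj_ofReal, ← Complex.im_ofReal_mul]
      congr 1
      ring
    rw [this]
    exact sg_le_abs (sgs_abs _)
  have e1 : dbl g = ∫ s in (0 : ℝ)..(2 * Real.pi),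
      (A0 s * (starRingEnd ℂ) (2 * ∫ t in (s - Real.pi)..s, A0 t)).im := by
    rw [dbl_swap gM gB]
    unfold dbl
    congr 1
    funext s
    show (∫ t in (0 : ℝ)..(2 * Real.pi),
      (A0 s * (starRingEnd ℂ) ((sgs (s - t) : ℂ) * A0 t)).im) = _
    rw [im_int, int_sgs h.m0 h.b0 h.p0]
    refine intg_of_bddC (C := C) ?_ (fun t => hsb _ t) _ _
    exact (Complex.measurable_ofReal.comp (sgs_meas.comp (measurable_const.sub measurable_id))).mul
      h.m0
  have e2 : ∫ s in (0 : ℝ)..(2 * Real.pi),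
      (A0 s * (starRingEnd ℂ) (2 * ∫ t in (s - Real.pi)..s, A0 t)).im
      = 2 * ∫ s in (0 : ℝ)..(2 * Real.pi),
      (A0 s * (starRingEnd ℂ) (∫ t in (s - Real.pi)..s, A0 t)).im := by
    rw [← intervalIntegral.integral_const_mul]
    congr 1
    funext s
    have h2 : (2 : ℂ) = ((2 : ℝ) : ℂ) := by norm_num
    rw [map_mul, h2, Complex.conj_ofReal, ← Complex.im_ofReal_mul]
    congr 1
    ring
  rw [A00G_eq]
  have hpi := Real.pi_pos
  have e3 : 1 / (4 * Real.pi) * ∫ θ in (0 : ℝ)..(2 * Real.pi),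
      (A0 θ * (starRingEnd ℂ) (∫ t in (θ - Real.pi)..θ, A0 t)).im
      = 1 / (8 * Real.pi) * dbl g := by
    rw [e1, e2]
    field_simp
    ring
  rw [e3]
  exact mul_le_mul_of_nonneg_left hle (by positivity)

/-- The segments and the quadrilaterals, arbitrary measurable alignments. -/
theorem a0qG (h : Hex A0 A B v C) {φ1 φ2 : ℝ → ℝ} (hφ1 : Measurable φ1) (hφ2 : Measurable φ2) :
    1 / (4 * Real.pi) * ∫ θ in (0 : ℝ)..(2 * Real.pi),
    ((G1 A v θ * (starRingEnd ℂ) (∫ t in (φ1 θ - Real.pi)..(φ1 θ), A0 t)).im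
      + (G2 B v θ * (starRingEnd ℂ) (∫ t in (φ2 θ - Real.pi)..(φ2 θ), A0 t)).im)
      ≤ A0QG A0 A B v := by
  obtain ⟨ψ1, m1, p1, q1⟩ := per_ext hφ1
  obtain ⟨ψ2, m2, p2, q2⟩ := per_ext hφ2
  have gm : ∀ {ψ : ℝ → ℝ}, Measurable ψ →
      Measurable (fun q : ℝ × ℝ => (sgs (ψ q.1 - q.2) : ℂ) * A0 q.2) := fun hm =>
    (Complex.measurable_ofReal.comp (sgs_meas.comp ((hm.comp measurable_fst).sub
      measurable_snd))).mul (h.m0.comp measurable_snd)
  have hsb : ∀ x t : ℝ, ‖(sgs x : ℂ) * A0 t‖ ≤ C := by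
    intro x t
    rw [norm_mul, Complex.norm_real, Real.norm_eq_abs]
    have := mul_le_mul (sgs_abs x) (h.b0 t) (norm_nonneg _) (by norm_num)
    linarith
  have wm : Measurable (fun q : ℝ × ℝ =>
      ∑ l, |(qq A B v q.2 l * (starRingEnd ℂ) (A0 q.1)).im|) :=
    Finset.measurable_sum _ fun l _ =>
    (meas_im ((qq_meas h.q l).comp measurable_snd) (h.m0.comp measurable_fst)).abs
  have wb : ∀ q : ℝ × ℝ, |(∑ l, |(qq A B v q.2 l * (starRingEnd ℂ) (A0 q.1)).im|)|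
      ≤ 4 * (2 * C * C) := fun q => by
    refine (Finset.abs_sum_le_sum_abs _ _).trans ?_
    refine (Finset.sum_le_sum fun l _ => (by
      rw [abs_abs]; exact im_le' (qq_le h.q _ _) (h.b0 _) :
      |(|(qq A B v q.2 l * (starRingEnd ℂ) (A0 q.1)).im|)| ≤ 2 * C * C)).trans ?_
    simp
  have key := cut_genG h.q (K := fun q : ℝ × ℝ =>
      ∑ l, |(qq A B v q.2 l * (starRingEnd ℂ) (A0 q.1)).im|) wm wb
    (J1 := fun θ t => (sgs (ψ1 θ - t) : ℂ) * A0 t)
    (J2 := fun θ t => (sgs (ψ2 θ - t) : ℂ) * A0 t) (gm m1) (gm m2) (D := C)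
    (fun θ t => hsb _ t) (fun θ t => hsb _ t) (fun θ t => by rw [p1]) (fun θ t => by rw [p2])
    (Z1 := fun θ => 2 * ∫ t in (ψ1 θ - Real.pi)..(ψ1 θ), A0 t)
    (Z2 := fun θ => 2 * ∫ t in (ψ2 θ - Real.pi)..(ψ2 θ), A0 t) (c := 0)
    (fun θ => by rw [int_sgs h.m0 h.b0 h.p0, add_zero])
    (fun θ => by rw [int_sgs h.m0 h.b0 h.p0, add_zero])
    (fun t s => by
      refine Finset.sum_le_sum fun l _ => ?_
      rw [qq_FG h.q s l]
      have hc : ∀ (e : ℝ) (z w : ℂ), |e| ≤ 1 → (z * (starRingEnd ℂ) ((e : ℂ) * w)).im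
          ≤ |(z * (starRingEnd ℂ) w).im| := by
        intro e z w he
        have h5 : (z * (starRingEnd ℂ) ((e : ℂ) * w)).im = e * (z * (starRingEnd ℂ) w).im := by
          rw [map_mul, Complex.conj_ofReal, ← Complex.im_ofReal_mul]
          congr 1
          ring
        rw [h5]
        exact sg_le_abs he
      fin_cases l
      · exact hc _ _ _ (sgs_abs _)
      · exact hc _ _ _ (sgs_abs _)
      · exact hc _ _ _ (sgs_abs _)
      · exact hc _ _ _ (sgs_abs _))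
  have e1 : ∫ θ in (0 : ℝ)..(2 * Real.pi),
      ((G1 A v θ * (starRingEnd ℂ) (2 * ∫ t in (ψ1 θ - Real.pi)..(ψ1 θ), A0 t)).im
      + (G2 B v θ * (starRingEnd ℂ) (2 * ∫ t in (ψ2 θ - Real.pi)..(ψ2 θ), A0 t)).im)
      = 2 * ∫ θ in (0 : ℝ)..(2 * Real.pi),
    ((G1 A v θ * (starRingEnd ℂ) (∫ t in (φ1 θ - Real.pi)..(φ1 θ), A0 t)).im
      + (G2 B v θ * (starRingEnd ℂ) (∫ t in (φ2 θ - Real.pi)..(φ2 θ), A0 t)).im) := by
    rw [← intervalIntegral.integral_const_mul]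
    refine int_congr_choice fun θ h0 h1 => ?_
    rw [q1 θ h0 h1, q2 θ h0 h1]
    have h2 : (2 : ℂ) = ((2 : ℝ) : ℂ) := by norm_num
    rw [map_mul, map_mul, h2, Complex.conj_ofReal, mul_add, ← Complex.im_ofReal_mul,
      ← Complex.im_ofReal_mul]
    congr 2 <;> ring
  rw [e1] at key
  rw [A0QG_eq]
  have hpi := Real.pi_pos
  have h6 := mul_le_mul_of_nonneg_left key (by positivity : 0 ≤ 1 / (16 * Real.pi))
  refine le_trans (le_of_eq ?_) h6
  field_simp
  ring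

theorem yy_meas2 (h : Fam A B v C) {a b : ℝ × ℝ → ℝ} (ha : Measurable a) (hb : Measurable b) :
    Measurable (fun q : ℝ × ℝ => yy A B v q.2 (a q) (b q)) := by
  unfold yy
  have hA : Measurable (fun q : ℝ × ℝ => A q.2) := h.mA.comp measurable_snd
  have hB : Measurable (fun q : ℝ × ℝ => B q.2) := h.mB.comp measurable_snd
  have hV : Measurable (fun q : ℝ × ℝ => v q.2) := h.mv.comp measurable_snd
  have hac : Measurable (fun q : ℝ × ℝ => ((a q : ℝ) : ℂ)) := Complex.measurable_ofReal.comp ha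
  have hbc : Measurable (fun q : ℝ × ℝ => ((b q : ℝ) : ℂ)) := Complex.measurable_ofReal.comp hb
  have habc : Measurable (fun q : ℝ × ℝ => ((a q * b q : ℝ) : ℂ)) :=
    Complex.measurable_ofReal.comp (ha.mul hb)
  exact (((hac.mul hA).add (hbc.mul hB)).const_mul _).sub ((habc.const_mul _).mul hV)

/-- The quadrilaterals among themselves: arbitrary measurable signs (values in `[-1, 1]`). -/
theorem cut_QQG (h : Fam A B v C) (hq : QQ A B v) {a1 b1 a2 b2 : ℝ → ℝ → ℝ}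
    (ma1 : Measurable (fun q : ℝ × ℝ => a1 q.1 q.2)) (mb1 : Measurable (fun q : ℝ × ℝ => b1 q.1 q.2))
    (ma2 : Measurable (fun q : ℝ × ℝ => a2 q.1 q.2)) (mb2 : Measurable (fun q : ℝ × ℝ => b2 q.1 q.2))
    (la1 : ∀ θ t, |a1 θ t| ≤ 1) (lb1 : ∀ θ t, |b1 θ t| ≤ 1) (la2 : ∀ θ t, |a2 θ t| ≤ 1)
    (lb2 : ∀ θ t, |b2 θ t| ≤ 1)
    (pa1 : ∀ θ t, a1 (θ + 2 * Real.pi) t = a1 θ t) (pb1 : ∀ θ t, b1 (θ + 2 * Real.pi) t = b1 θ t)
    (pa2 : ∀ θ t, a2 (θ + 2 * Real.pi) t = a2 θ t) (pb2 : ∀ θ t, b2 (θ + 2 * Real.pi) t = b2 θ t)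
    {Z1 Z2 : ℝ → ℂ} {c : ℂ}
    (z1 : ∀ θ, ∫ t in (0 : ℝ)..(2 * Real.pi), yy A B v t (a1 θ t) (b1 θ t) = Z1 θ + c)
    (z2 : ∀ θ, ∫ t in (0 : ℝ)..(2 * Real.pi), yy A B v t (a2 θ t) (b2 θ t) = Z2 θ + c) :
    1 / (4 * Real.pi) * ∫ θ in (0 : ℝ)..(2 * Real.pi), ((G1 A v θ * (starRingEnd ℂ) (Z1 θ)).im
      + (G2 B v θ * (starRingEnd ℂ) (Z2 θ)).im) ≤ AQQG A B v := by
  have hpi := Real.pi_pos
  have kkm : Measurable (fun q : ℝ × ℝ => ∑ k, ∑ l, kr (qq A B v q.1 k) (qq A B v q.2 l)) :=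
    KK_meas (e := qq A B v) (qq_meas h)
  have kkl : ∀ q : ℝ × ℝ, |∑ k, ∑ l, kr (qq A B v q.1 k) (qq A B v q.2 l)|
      ≤ (4 : ℕ) * ((4 : ℕ) * (Real.pi * (2 * C * (2 * C)))) := fun q =>
    KK_le (e := qq A B v) (qq_le h) q.1 q.2
  have key := cut_genG h (K := fun q : ℝ × ℝ => 1 / (2 * Real.pi) *
      ∑ k, ∑ l, kr (qq A B v q.1 k) (qq A B v q.2 l))
    (kkm.const_mul _)
    (C' := |1 / (2 * Real.pi)| * ((4 : ℕ) * ((4 : ℕ) * (Real.pi * (2 * C * (2 * C))))))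
    (fun q => by
      rw [abs_mul]
      exact mul_le_mul_of_nonneg_left (kkl q) (abs_nonneg _))
    (J1 := fun θ t => yy A B v t (a1 θ t) (b1 θ t))
    (J2 := fun θ t => yy A B v t (a2 θ t) (b2 θ t))
    (yy_meas2 h ma1 mb1) (yy_meas2 h ma2 mb2) (D := 2 * C)
    (fun θ t => yy_le h t (la1 θ t) (lb1 θ t)) (fun θ t => yy_le h t (la2 θ t) (lb2 θ t))
    (fun θ t => by rw [pa1, pb1]) (fun θ t => by rw [pa2, pb2]) z1 z2
    (fun t s => by
      have h1 := hq t s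
        (fun l => (![a1, a2, a1, a2] : Fin 4 → ℝ → ℝ → ℝ) l (s + nom l) t)
        (fun l => (![b1, b2, b1, b2] : Fin 4 → ℝ → ℝ → ℝ) l (s + nom l) t)
        (fun l => by
          fin_cases l
          · exact la1 _ _
          · exact la2 _ _
          · exact la1 _ _
          · exact la2 _ _)
        (fun l => by
          fin_cases l
          · exact lb1 _ _
          · exact lb2 _ _
          · exact lb1 _ _
          · exact lb2 _ _)
      have h2 : ∑ l, (FG A B v l (s + nom l) * (starRingEnd ℂ)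
          ((![fun θ t => yy A B v t (a1 θ t) (b1 θ t), fun θ t => yy A B v t (a2 θ t) (b2 θ t),
          fun θ t => yy A B v t (a1 θ t) (b1 θ t), fun θ t => yy A B v t (a2 θ t) (b2 θ t)] :
          Fin 4 → ℝ → ℝ → ℂ) l (s + nom l) t)).im
          = ∑ l, (qq A B v s l * (starRingEnd ℂ) (yy A B v t
          ((![a1, a2, a1, a2] : Fin 4 → ℝ → ℝ → ℝ) l (s + nom l) t)
          ((![b1, b2, b1, b2] : Fin 4 → ℝ → ℝ → ℝ) l (s + nom l) t))).im := by
        refine Finset.sum_congr rfl fun l _ => ?_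
        rw [qq_FG h s l]
        fin_cases l <;> rfl
      rw [h2]
      rw [div_mul_eq_mul_div, one_mul, le_div_iff₀ (by positivity)]
      linarith)
  have e1 : dbl (fun q : ℝ × ℝ => 1 / (2 * Real.pi) *
      ∑ k, ∑ l, kr (qq A B v q.1 k) (qq A B v q.2 l))
      = 1 / (2 * Real.pi) * dbl (fun q : ℝ × ℝ =>
      ∑ k, ∑ l, kr (qq A B v q.1 k) (qq A B v q.2 l)) := dbl_const _ _
  rw [e1] at key
  rw [AQQG_eq]
  have h6 := mul_le_mul_of_nonneg_left key (by positivity : 0 ≤ 1 / (8 * Real.pi))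
  refine le_trans (le_of_eq ?_) (h6.trans (le_of_eq ?_))
  · field_simp
    ring
  · field_simp
    ring

/-- The arrangement bound with a measurable shift `ψ` (from helper87's general theorem). -/
theorem cutG (h : Fam A B v C) (hq : QQ A B v) {ψ : ℝ → ℝ} (hm : Measurable ψ)
    (hp : ∀ θ, ψ (θ + 2 * Real.pi) = ψ θ) (hb : ∀ θ, |ψ θ| ≤ Real.pi / 3) :
    1 / (4 * Real.pi) * ∫ θ in (0 : ℝ)..(2 * Real.pi),
    ((G1 A v θ * (starRingEnd ℂ) (Y2 A B v θ (θ - ψ θ))).im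
      + (G2 B v θ * (starRingEnd ℂ) (Y2 A B v (θ + ψ θ) θ)).im) ≤ AQQG A B v := by
  have h1 := Helper87.RC.cut_gen h hq hm hp hb
  have hpi := Real.pi_pos
  have h2 := mul_le_mul_of_nonneg_left h1 (by positivity : 0 ≤ 1 / 4 * (1 / (2 * Real.pi)) ^ 2)
  refine le_trans (le_of_eq ?_) h2
  have e : ∫ θ in (0 : ℝ)..(2 * Real.pi), ((G1 A v θ * (starRingEnd ℂ) (Y2 A B v θ (θ - ψ θ))).im
      + (G2 B v θ * (starRingEnd ℂ) (Y2 A B v (θ + ψ θ) θ)).im)
      = ∫ θ in (0 : ℝ)..(2 * Real.pi), (H1 A B v ψ θ + H2 A B v ψ θ) := rfl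
  rw [e]
  field_simp
  ring

/-- Coercivity: the quadrilateral contains its diagonal `A + B`. -/
theorem coeG (h : Fam A B v C) (hq : QQ A B v) {φ1 φ2 : ℝ → ℝ} (hφ1 : Measurable φ1)
    (hφ2 : Measurable φ2) :
    1 / (4 * Real.pi) * ∫ θ in (0 : ℝ)..(2 * Real.pi),
    ((G1 A v θ * (starRingEnd ℂ) (∫ t in (φ1 θ - Real.pi)..(φ1 θ), (A t + B t))).im
      + (G2 B v θ * (starRingEnd ℂ) (∫ t in (φ2 θ - Real.pi)..(φ2 θ), (A t + B t))).im)
    ≤ AQQG A B v := by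
  obtain ⟨ψ1, m1, p1, q1⟩ := per_ext hφ1
  obtain ⟨ψ2, m2, p2, q2⟩ := per_ext hφ2
  have hm : ∀ {ψ : ℝ → ℝ}, Measurable ψ → Measurable (fun q : ℝ × ℝ => sgs (ψ q.1 - q.2)) :=
    fun hψ => sgs_meas.comp ((hψ.comp measurable_fst).sub measurable_snd)
  have hz : ∀ φ : ℝ, ∫ t in (0 : ℝ)..(2 * Real.pi), yy A B v t (sgs (φ - t)) (sgs (φ - t))
      = (∫ t in (φ - Real.pi)..φ, (A t + B t))
        + -(1 / 2 * ∫ t in (0 : ℝ)..(2 * Real.pi), v t) := by
    intro φ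
    have e1 : (fun t => yy A B v t (sgs (φ - t)) (sgs (φ - t)))
        = fun t => (1 / 2 : ℂ) * ((sgs (φ - t) : ℂ) * (A t + B t))
          - (1 / 2 : ℂ) * v t := by
      funext t
      have h2 : ((sgs (φ - t) * sgs (φ - t) : ℝ) : ℂ) = 1 := by
        rw [sgs_sq]
        norm_num
      unfold yy
      rw [h2]
      ring
    have i1 : IntervalIntegrable (fun t => (sgs (φ - t) : ℂ) * (A t + B t)) volume 0
        (2 * Real.pi) := by
      refine intg_of_bddC (C := 1 * (C + C)) ?_ ?_ _ _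
      · exact (Complex.measurable_ofReal.comp (sgs_meas.comp
          (measurable_const.sub measurable_id))).mul (h.mA.add h.mB)
      · intro t
        rw [norm_mul, Complex.norm_real, Real.norm_eq_abs]
        exact mul_le_mul (sgs_abs _) ((norm_add_le _ _).trans (add_le_add (h.bA t) (h.bB t)))
          (norm_nonneg _) (by norm_num)
    have i2 : IntervalIntegrable v volume 0 (2 * Real.pi) := h.iv _ _
    rw [e1, intervalIntegral.integral_sub (i1.const_mul _) (i2.const_mul _),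
      intervalIntegral.integral_const_mul, intervalIntegral.integral_const_mul,
      int_sgs (G := fun t => A t + B t) (C := C + C) (h.mA.add h.mB)
        (fun t => (norm_add_le _ _).trans (add_le_add (h.bA t) (h.bB t)))
        (fun t => by
          show A (t + Real.pi) + B (t + Real.pi) = -(A t + B t)
          rw [h.pA, h.pB]; ring)]
    ring
  have key := cut_QQG h hq (a1 := fun θ t => sgs (ψ1 θ - t)) (b1 := fun θ t => sgs (ψ1 θ - t))
    (a2 := fun θ t => sgs (ψ2 θ - t)) (b2 := fun θ t => sgs (ψ2 θ - t)) (hm m1) (hm m1) (hm m2)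
    (hm m2) (fun _ _ => sgs_abs _) (fun _ _ => sgs_abs _) (fun _ _ => sgs_abs _)
    (fun _ _ => sgs_abs _) (fun θ t => by rw [p1]) (fun θ t => by rw [p1]) (fun θ t => by rw [p2])
    (fun θ t => by rw [p2]) (c := -(1 / 2 * ∫ t in (0 : ℝ)..(2 * Real.pi), v t))
    (Z1 := fun θ => ∫ t in (ψ1 θ - Real.pi)..(ψ1 θ), (A t + B t))
    (Z2 := fun θ => ∫ t in (ψ2 θ - Real.pi)..(ψ2 θ), (A t + B t))
    (fun θ => hz _) (fun θ => hz _)
  refine le_trans (le_of_eq ?_) key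
  congr 1
  refine int_congr_choice fun θ h0 h1 => ?_
  rw [q1 θ h0 h1, q2 θ h0 h1]

end Helper44.RCG
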