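import Pool.Agent.Helper44.RC.M_NR3
import Pool.Agent.Helper33.SH.Inst
import Pool.Agent.Helper51.RC.M_REG

/-!
# Project RC, SHARP: the near constants, 4

`gap_gen`: the excess over the alignments, any certificate. `lamI`, `csI`: the conditions `Lam` and `Cs` for the
instance of zone I, `A + (3/2)|B| ≤ 1/5`.
-/

open MeasureTheory Set Filter Topology

namespace Helper44.Far

open Helper49.LT hiding sg
open Helper49.RC Helper44.GQ
open Helper56.RC (fc)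
open Helper87.RC (BM pars)
open Helper49.Sharp
open Helper95.RC (Lf)
open Pool.Agent.Helper20.RC (wR)

variable {b z : ℝ → ℂ} {P : Par}

/-- the affine functional of the alignments -/
noncomputable def LamA (P : Par) (b z : ℝ → ℂ) (t : ℝ) : ℝ :=
  ((starRingEnd ℂ) (om - P.v1 t) * g1 (b t) (z t)).re + ((starRingEnd ℂ) (om ^ 2 - P.v2 t) * g2 (b t) (z t)).re

theorem om_bm : BM (fun _ : ℝ => om) 1 := ⟨measurable_const, fun _ => by unfold om; rw [norm_ee]⟩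
theorem om2_bm : BM (fun _ : ℝ => om ^ 2) 1 := ⟨measurable_const, fun _ => by unfold om; rw [norm_pow, norm_ee, one_pow]⟩

theorem LamA_br (h : AdmQ 2 b z) (hr : P.Reg) : BR (LamA P b z) := by
  obtain ⟨D, k1, k2, _⟩ := g_bm h
  exact (BR.re ((om_bm.sub (v1_bm hr)).conj.mul k1)).add (BR.re ((om2_bm.sub (v2_bm hr)).conj.mul k2))

/-- the excess over the alignments is nonnegative -/
theorem gap_nn (h : AdmQ 2 b z) (hr : P.Reg) : 0 ≤ P.s00 b z - P.e00 b z := by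
  rw [step_G h hr]
  refine mean_nonneg fun t => mul_nonneg (hr.w0 t) ?_
  unfold Xt Ut
  have e1 := exc_sub (P.u1 t) (P.v1 t) (g1 (b t) (z t))
  have e2 := exc_sub (P.u2 t) (P.v2 t) (g2 (b t) (z t))
  have k : ∀ v g : ℂ, ‖v‖ = 1 → 0 ≤ exc v g := by
    intro v g hv
    unfold exc
    have := Complex.re_le_norm ((starRingEnd ℂ) v * g)
    rw [norm_mul, Complex.norm_conj, hv, one_mul] at this
    linarith
  have n1 := k (P.v1 t) (g1 (b t) (z t)) (by unfold Par.v1; rw [norm_ee])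
  have n2 := k (P.v2 t) (g2 (b t) (z t)) (by unfold Par.v2; rw [norm_ee])
  linarith

/-- **the excess over the alignments, any certificate** -/
theorem gap_gen (h : AdmQ 2 b z) (hr : P.Reg) :
    P.s00 b z - P.e00 b z ≤ (1 + 2 * ‖P.eta‖) * (Sp b z + mean (LamA P b z)) := by
  obtain ⟨D, k1, k2, _⟩ := g_bm h
  have hX := Xt_br (P := P) h hr
  have hU := Ut_br (P := P) h hr
  have n1 := BR.nrm k1
  have n2 := BR.nrm k2
  have o1 := BR.re (om_bm.conj.mul k1)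
  have o2 := BR.re (om2_bm.conj.mul k2)
  -- pointwise
  have k : ∀ v g : ℂ, ‖v‖ = 1 → 0 ≤ exc v g := by
    intro v g hv
    unfold exc
    have := Complex.re_le_norm ((starRingEnd ℂ) v * g)
    rw [norm_mul, Complex.norm_conj, hv, one_mul] at this
    linarith
  have e : ∀ t, Xt P b z t + Ut P b z t = exc (P.v1 t) (g1 (b t) (z t)) + exc (P.v2 t) (g2 (b t) (z t)) := by
    intro t
    have e1 := exc_sub (P.u1 t) (P.v1 t) (g1 (b t) (z t))
    have e2 := exc_sub (P.u2 t) (P.v2 t) (g2 (b t) (z t))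
    unfold Xt Ut
    linarith
  have p0 : ∀ t, 0 ≤ Xt P b z t + Ut P b z t := by
    intro t
    rw [e]
    exact add_nonneg (k _ _ (by unfold Par.v1; rw [norm_ee])) (k _ _ (by unfold Par.v2; rw [norm_ee]))
  rw [step_G h hr]
  have m1 : mean (fun t => P.w t * (Xt P b z t + Ut P b z t)) ≤
      (1 + 2 * ‖P.eta‖) * mean (fun t => Xt P b z t + Ut P b z t) := by
    rw [← mean_cmul]
    exact mean_mono ((w_br hr).mul (hX.add hU)) ((hX.add hU).cmul _) fun t =>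
      mul_le_mul_of_nonneg_right (hr.wle t) (p0 t)
  refine m1.trans (le_of_eq ?_)
  congr 1
  -- the fixed directions
  have c4 : ∀ c : ℝ, mean (fun _ => c) = c := Pool.Agent.Helper51.RC.mean_const
  have hper : ∀ t, ((starRingEnd ℂ) om * g1 (b (t + 2 * Real.pi)) (z (t + 2 * Real.pi))).re
      + ((starRingEnd ℂ) (om ^ 2) * g2 (b (t + 2 * Real.pi)) (z (t + 2 * Real.pi))).re =
      ((starRingEnd ℂ) om * g1 (b t) (z t)).re + ((starRingEnd ℂ) (om ^ 2) * g2 (b t) (z t)).re := fun t => by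
    rw [z_per2 h, per2 h.perb]
  have f0 : mean (fun t => ((starRingEnd ℂ) om * g1 (b t) (z t)).re + ((starRingEnd ℂ) (om ^ 2) * g2 (b t) (z t)).re)
      = 2 - mean (fun t => (b t).re) := by
    rw [mean_pair (o1.add o2) hper]
    have e4 : ∀ t, ((starRingEnd ℂ) om * g1 (b t) (z t)).re + ((starRingEnd ℂ) (om ^ 2) * g2 (b t) (z t)).re
        + (((starRingEnd ℂ) om * g1 (b (t + Real.pi)) (z (t + Real.pi))).re
        + ((starRingEnd ℂ) (om ^ 2) * g2 (b (t + Real.pi)) (z (t + Real.pi))).re) = 4 - 2 * (b t).re := by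
      intro t
      rw [h.perb, h.perz]
      have r2 : Real.sqrt 3 ^ 2 = 3 := Real.sq_sqrt (by norm_num)
      have omr : om.re = 1 / 2 := by rw [Helper95.RC.om_val]; simp
      have omi : om.im = Real.sqrt 3 / 2 := by rw [Helper95.RC.om_val]; simp
      have osr : (om ^ 2).re = -(1 / 2) := by rw [sq, Complex.mul_re, omr, omi]; nlinarith
      have osi : (om ^ 2).im = Real.sqrt 3 / 2 := by rw [sq, Complex.mul_im, omr, omi]; ring
      rw [Complex.mul_re, Complex.mul_re, Complex.mul_re, Complex.mul_re, Complex.conj_re, Complex.conj_im,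
        Complex.conj_re, Complex.conj_im, omr, omi, osr, osi, g1_re, g1_im, g2_re, g2_im, g1_re, g1_im, g2_re, g2_im]
      simp only [Complex.neg_re, Complex.neg_im]
      linear_combination (1 - (b t).re) * r2
    rw [mean_congr e4, mean_sub (BR.const 4) ((br_re h).cmul 2), c4, mean_cmul]
    ring
  have e5 : ∀ t, Xt P b z t + Ut P b z t = ((‖g1 (b t) (z t)‖ + ‖g2 (b t) (z t)‖)
      - (((starRingEnd ℂ) om * g1 (b t) (z t)).re + ((starRingEnd ℂ) (om ^ 2) * g2 (b t) (z t)).re))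
      + LamA P b z t := by
    intro t
    rw [e]
    unfold exc LamA
    rw [map_sub, map_sub, sub_mul, sub_mul, Complex.sub_re, Complex.sub_re]
    ring
  rw [mean_congr e5, mean_add ((n1.add n2).sub (o1.add o2)) (LamA_br h hr), mean_sub (n1.add n2) (o1.add o2), f0]
  unfold Sp
  rw [fc0_re (b_bm h)]
  ring

/-! ### zone I -/

open Pool.Agent.Helper33.SH (PI ZC z0I)
open Pool.Agent.Helper51.RC (qq tq tq_mean tq_br nsq mean_const mean_qz mc mf)
open Pool.Agent.Helper43.SH (zB_eq)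

/-- the monomials of `Lf (z0)` -/
noncomputable def LL : List (ℝ × ℕ × ℕ × ℕ × ℕ) := [(1, 1, 0, 1, 0), (3 / 4, 0, 1, 0, 1), (3 / 2, 0, 1, 1, 0), (-3 / 8, 0, 2, 0, 0),
  (1 / 2, 2, 0, 0, 0)]

theorem z0_uv (A : ℝ) (B : ℂ) (t : ℝ) : z0I A B t = (A : ℂ) * ee (-3 * t) + B * ee (-5 * t)
    - 1 / 2 * (starRingEnd ℂ) (B * ee (-5 * t)) := by
  unfold z0I
  rw [zB_eq, map_mul]
  have h5 : (starRingEnd ℂ) (ee (-5 * t)) = ee (5 * t) := by
    rw [← ee_neg]; congr 1; ring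
  rw [h5]

theorem Lf_z0 (A : ℝ) (B : ℂ) (t : ℝ) : Lf (z0I A B t) = tq (A : ℂ) B LL t := by
  rw [z0_uv]
  unfold tq LL mc
  simp only [List.map_cons, List.map_nil, List.sum_cons, List.sum_nil]
  set u := (A : ℂ) * ee (-3 * t)
  set v := B * ee (-5 * t)
  unfold Lf
  simp only [pow_zero, pow_one, one_mul, mul_one]
  simp only [Complex.add_re, Complex.sub_re, Complex.mul_re, Complex.conj_re, Complex.conj_im, Complex.add_im,
    Complex.sub_im, Complex.mul_im, Complex.ofReal_re, Complex.ofReal_im, Complex.one_re, Complex.one_im, pow_two,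
    Complex.div_ofNat_re, Complex.div_ofNat_im]
  ring

theorem mean_Lf_z0 (A : ℝ) (B : ℂ) : mean (fun t => Lf (z0I A B t)) = A ^ 2 + 3 / 4 * ‖B‖ ^ 2 := by
  rw [mean_congr (Lf_z0 A B)]
  show mean (tq (A : ℂ) B LL) = _
  rw [tq_mean]
  have e1 : ‖B‖ ^ 2 = (B * (starRingEnd ℂ) B).re := by rw [nsq, Complex.ofReal_re]
  have f1 : mf (1, 1, 0, 1, 0) = 0 := by unfold mf; norm_num
  have f2 : mf (3 / 4, 0, 1, 0, 1) = 0 := by unfold mf; norm_num
  have f3 : mf (3 / 2, 0, 1, 1, 0) ≠ 0 := by unfold mf; norm_num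
  have f4 : mf (-3 / 8, 0, 2, 0, 0) ≠ 0 := by unfold mf; norm_num
  have f5 : mf (1 / 2, 2, 0, 0, 0) ≠ 0 := by unfold mf; norm_num
  unfold LL
  simp only [List.map_cons, List.map_nil, List.sum_cons, List.sum_nil, if_pos f1, if_pos f2, if_neg f3, if_neg f4,
    if_neg f5]
  unfold mc
  rw [e1]
  simp only [pow_zero, pow_one, one_mul, mul_one]
  simp
  ring

/-- the bilinear form of `Lf` -/
theorem bil_z0 (A : ℝ) (B z : ℂ) (t : ℝ) : 3 / 2 * ((z0I A B t).re * z.re) + 1 / 2 * ((z0I A B t).im * z.im) =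
    ((starRingEnd ℂ) (qq (A : ℂ) (3 / 4 * B) t) * z).re + 1 / 2 * ((A : ℂ) * ee (-3 * t) * z).re := by
  rw [z0_uv]
  have hq : qq (A : ℂ) (3 / 4 * B) t = (A : ℂ) * ee (-3 * t) + 3 / 4 * (B * ee (-5 * t)) := by
    unfold qq; ring
  rw [hq]
  set u := (A : ℂ) * ee (-3 * t)
  set v := B * ee (-5 * t)
  simp only [Complex.add_re, Complex.sub_re, Complex.mul_re, Complex.conj_re, Complex.conj_im, Complex.add_im,
    Complex.sub_im, Complex.mul_im, Complex.one_re, Complex.one_im, map_add, map_mul,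
    Complex.div_ofNat_re, Complex.div_ofNat_im]
  simp
  ring

/-- **the excess over the alignments in zone I** -/
theorem gapI (c : ZC) {A : ℝ} {B : ℂ} (h : AdmQ 2 b z) (hn : Near b z) (hr : (PI c A B).Reg) (hA : 0 ≤ A)
    (hAB : A + 3 / 2 * ‖B‖ ≤ 1 / 5) (h3 : fc z (-3) = (A : ℂ)) (h5 : fc z (-5) = B) :
    (PI c A B).s00 b z - (PI c A B).e00 b z ≤ 39 / 100 := by
  set P := PI c A B with hP
  set ρ := A + 3 / 2 * ‖B‖ with hρ
  have nB := norm_nonneg B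
  have ρ0 : 0 ≤ ρ := by positivity
  have hz : ∀ t, ‖z0I A B t‖ ≤ ρ := fun t => by
    have := Pool.Agent.Helper33.SH.norm_z0I A B t
    rwa [abs_of_nonneg hA] at this
  have v1e : ∀ t, P.v1 t = om * ev ((starRingEnd ℂ) om * z0I A B t) := by
    intro t
    rw [hP, Pool.Agent.Helper33.SH.v1_eq, Pool.Agent.Helper33.SH.u1_eq c A B t (by linarith [hz t])]
    rfl
  have v2e : ∀ t, P.v2 t = om ^ 2 * ev (om * z0I A B t) := by
    intro t
    rw [hP, Pool.Agent.Helper33.SH.v2_eq, Pool.Agent.Helper33.SH.u2_eq c A B t (by linarith [hz t])]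
    rfl
  have zpi : ∀ t, z0I A B (t + Real.pi) = -z0I A B t := fun t => Pool.Agent.Helper43.SH.zB_pi _ _ t
  have hper : ∀ t, LamA P b z (t + 2 * Real.pi) = LamA P b z t := by
    intro t
    have e : z0I A B (t + 2 * Real.pi) = z0I A B t := by
      rw [show t + 2 * Real.pi = t + Real.pi + Real.pi by ring, zpi, zpi, neg_neg]
    unfold LamA
    rw [v1e, v2e, v1e, v2e, e, z_per2 h, per2 h.perb]
  have hL := LamA_br (P := P) h hr
  -- the pair
  have pair : ∀ t, LamA P b z t + LamA P b z (t + Real.pi) ≤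
      2 * (17 / 30 * Lf (z0I A B t) - ((starRingEnd ℂ) (qq (A : ℂ) (3 / 4 * B) t) * z t).re
        + (1 / 2 * A + 16 / 5 * ρ ^ 3) * ‖z t‖ + 3 / 4 * (b t).re ^ 2
        + 11 / 5 * ρ ^ 2 * (13 / 10) * (b t).im ^ 2 + (49 / 75 * ρ ^ 4 + 11 / 5 * ρ ^ 2 * (5 / 26))) := by
    intro t
    have k := pw (b t) (z t) (z0I A B t) ((hz t).trans hAB)
    have e : LamA P b z t + LamA P b z (t + Real.pi) =
        ((starRingEnd ℂ) (om - om * ev ((starRingEnd ℂ) om * z0I A B t)) * g1 (b t) (z t)).re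
        + ((starRingEnd ℂ) (om ^ 2 - om ^ 2 * ev (om * z0I A B t)) * g2 (b t) (z t)).re
        + (((starRingEnd ℂ) (om - om * ev ((starRingEnd ℂ) om * (-z0I A B t))) * g1 (b t) (-z t)).re
        + ((starRingEnd ℂ) (om ^ 2 - om ^ 2 * ev (om * (-z0I A B t))) * g2 (b t) (-z t)).re) := by
      unfold LamA
      rw [v1e, v2e, v1e, v2e, zpi, h.perb, h.perz]
    rw [e]
    refine k.trans ?_
    rw [bil_z0]
    have n0 := norm_nonneg (z0I A B t)
    have nz := norm_nonneg (z t)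
    have c1 : ‖z0I A B t‖ ^ 3 * ‖z t‖ ≤ ρ ^ 3 * ‖z t‖ :=
      mul_le_mul_of_nonneg_right (pow_le_pow_left₀ n0 (hz t) 3) nz
    have c2 : ‖z0I A B t‖ ^ 2 * |(b t).re| ≤ ρ ^ 2 * |(b t).re| :=
      mul_le_mul_of_nonneg_right (pow_le_pow_left₀ n0 (hz t) 2) (abs_nonneg _)
    have c3 : ‖z0I A B t‖ ^ 2 * |(b t).im| ≤ ρ ^ 2 * |(b t).im| :=
      mul_le_mul_of_nonneg_right (pow_le_pow_left₀ n0 (hz t) 2) (abs_nonneg _)
    have c4 : -(1 / 2 * A * ‖z t‖) ≤ 1 / 2 * ((A : ℂ) * ee (-3 * t) * z t).re := by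
      have h1 := (abs_le.1 (Complex.abs_re_le_norm ((A : ℂ) * ee (-3 * t) * z t))).1
      rw [norm_mul, norm_mul, norm_ee, mul_one, Complex.norm_real, Real.norm_eq_abs, abs_of_nonneg hA] at h1
      linarith
    have c5 : 7 / 5 * (ρ ^ 2 * |(b t).re|) ≤ 3 / 4 * (b t).re ^ 2 + 49 / 75 * ρ ^ 4 := by
      have := sq_abs (b t).re
      nlinarith [sq_nonneg (|(b t).re| - 14 / 15 * ρ ^ 2)]
    have c6 : |(b t).im| ≤ 13 / 10 * (b t).im ^ 2 + 5 / 26 := by
      have := sq_abs (b t).im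
      nlinarith [sq_nonneg (|(b t).im| - 5 / 13)]
    have c7 : ρ ^ 2 * |(b t).im| ≤ ρ ^ 2 * (13 / 10 * (b t).im ^ 2 + 5 / 26) :=
      mul_le_mul_of_nonneg_left c6 (by positivity)
    linarith
  obtain ⟨Dz, _, _, kz⟩ := g_bm h
  have bq : BR (fun t => ((starRingEnd ℂ) (qq (A : ℂ) (3 / 4 * B) t) * z t).re) := by
    have hq : BM (fun t => qq (A : ℂ) (3 / 4 * B) t) (‖(A : ℂ)‖ * 1 + ‖3 / 4 * B‖ * 1) := by
      have h1 : BM (fun t => (A : ℂ) * ee (((-3 : ℤ) : ℝ) * t)) (‖(A : ℂ)‖ * 1) :=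
        (Helper87.RC.BM.eec _).cmul _
      have h2 : BM (fun t => (3 / 4 * B) * ee (((-5 : ℤ) : ℝ) * t)) (‖3 / 4 * B‖ * 1) :=
        (Helper87.RC.BM.eec _).cmul _
      have h3 := h1.add h2
      push_cast at h3
      exact h3
    exact BR.re (hq.conj.mul kz)
  have bL : BR (fun t => Lf (z0I A B t)) := by
    have e : (fun t => Lf (z0I A B t)) = tq (A : ℂ) B LL := funext (Lf_z0 A B)
    rw [e]
    exact tq_br _ _ _
  have bz := br_z h
  have b2 := (br_re h).sq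
  have b3 := (br_im h).sq
  have i0 := (bL.cmul (17 / 30)).sub bq
  have i1 := i0.add (bz.cmul (1 / 2 * A + 16 / 5 * ρ ^ 3))
  have i2 := i1.add (b2.cmul (3 / 4))
  have i3 := i2.add (b3.cmul (11 / 5 * ρ ^ 2 * (13 / 10)))
  have i4 := i3.add (BR.const (49 / 75 * ρ ^ 4 + 11 / 5 * ρ ^ 2 * (5 / 26)))
  have mL : mean (LamA P b z) ≤ 17 / 30 * (A ^ 2 + 3 / 4 * ‖B‖ ^ 2) - (A ^ 2 + 3 / 4 * ‖B‖ ^ 2)
      + (1 / 2 * A + 16 / 5 * ρ ^ 3) * mean (fun t => ‖z t‖) + 3 / 4 * mean (fun t => (b t).re ^ 2)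
      + 11 / 5 * ρ ^ 2 * (13 / 10) * mean (fun t => (b t).im ^ 2) + (49 / 75 * ρ ^ 4 + 11 / 5 * ρ ^ 2 * (5 / 26)) := by
    rw [mean_pair hL hper]
    have m := mean_mono (hL.add (hL.sh _)) (i4.cmul 2) pair
    rw [mean_cmul, mean_add i3 (BR.const _), mean_add i2 (b3.cmul _), mean_add i1 (b2.cmul _),
      mean_add i0 (bz.cmul _), mean_sub (bL.cmul _) bq, mean_cmul, mean_cmul, mean_cmul, mean_cmul, mean_const,
      mean_Lf_z0, mean_qz _ _ kz, h3, h5] at m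
    have e : ((starRingEnd ℂ) (A : ℂ) * (A : ℂ) + (starRingEnd ℂ) (3 / 4 * B) * B).re = A ^ 2 + 3 / 4 * ‖B‖ ^ 2 := by
      have e1 : ‖B‖ ^ 2 = (B * (starRingEnd ℂ) B).re := by rw [nsq, Complex.ofReal_re]
      rw [e1, map_mul]
      simp only [Complex.add_re, Complex.mul_re, Complex.conj_re, Complex.conj_im, Complex.ofReal_re,
        Complex.ofReal_im, Complex.mul_im, Complex.div_ofNat_re, Complex.div_ofNat_im]
      simp
      ring
    rw [e] at m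
    linarith
  have hb := near_b h hn
  have hzm := near_z h hn
  have hn' : Sp b z + 3 / 4 * mean (fun t => (b t).re ^ 2) < 1 / 5 := hn
  have hg := gap_gen (P := P) h hr
  have x2 : 0 ≤ mean (fun t => (b t).re ^ 2) := mean_nonneg fun t => sq_nonneg _
  have x3 : 0 ≤ mean (fun t => (b t).im ^ 2) := mean_nonneg fun t => sq_nonneg _
  have xz : 0 ≤ mean (fun t => ‖z t‖) := mean_nonneg fun t => norm_nonneg _
  have heta : ‖P.eta‖ = 2 * (A * ‖B‖) := by
    show ‖-2 * (A : ℂ) * (starRingEnd ℂ) B‖ = _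
    rw [norm_mul, norm_mul, Complex.norm_conj, Complex.norm_real, Real.norm_eq_abs, abs_of_nonneg hA, norm_neg,
      Complex.norm_ofNat]
    ring
  have hAB2 : A * ‖B‖ ≤ 1 / 150 := by nlinarith [sq_nonneg (A - 3 / 2 * ‖B‖)]
  have hAB0 : 0 ≤ A * ‖B‖ := mul_nonneg hA nB
  have hA5 : A ≤ 1 / 5 := by linarith
  have p3 : ρ ^ 3 ≤ 1 / 125 := by
    calc ρ ^ 3 ≤ (1 / 5) ^ 3 := pow_le_pow_left₀ ρ0 hAB 3
      _ = 1 / 125 := by norm_num
  have p2 : ρ ^ 2 ≤ 1 / 25 := by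
    calc ρ ^ 2 ≤ (1 / 5) ^ 2 := pow_le_pow_left₀ ρ0 hAB 2
      _ = 1 / 25 := by norm_num
  have p4 : ρ ^ 4 ≤ 1 / 625 := by
    calc ρ ^ 4 ≤ (1 / 5) ^ 4 := pow_le_pow_left₀ ρ0 hAB 4
      _ = 1 / 625 := by norm_num
  have t1 : (1 / 2 * A + 16 / 5 * ρ ^ 3) * mean (fun t => ‖z t‖) ≤ (1 / 2 * (1 / 5) + 16 / 5 * (1 / 125)) * (107 / 100) :=
    mul_le_mul (by linarith) hzm xz (by norm_num)
  have t2 : 11 / 5 * ρ ^ 2 * (13 / 10) * mean (fun t => (b t).im ^ 2) ≤ 11 / 5 * (1 / 25) * (13 / 10) * (4 / 27) :=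
    mul_le_mul (by linarith) (by linarith) x3 (by norm_num)
  have tot : Sp b z + mean (LamA P b z) ≤ 37 / 100 := by
    have : 0 ≤ A ^ 2 + 3 / 4 * ‖B‖ ^ 2 := by positivity
    linarith
  have e37 : (1 + 2 * ‖P.eta‖) * (Sp b z + mean (LamA P b z)) ≤ (1 + 2 * (2 * (1 / 150))) * (37 / 100) := by
    have q1 : (1 + 2 * ‖P.eta‖) * (Sp b z + mean (LamA P b z)) ≤ (1 + 2 * ‖P.eta‖) * (37 / 100) :=
      mul_le_mul_of_nonneg_left tot (by rw [heta]; linarith)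
    have q2 : (1 + 2 * ‖P.eta‖) * (37 / 100 : ℝ) ≤ (1 + 2 * (2 * (1 / 150))) * (37 / 100) :=
      mul_le_mul_of_nonneg_right (by rw [heta]; linarith) (by norm_num)
    exact q1.trans q2
  refine (hg.trans e37).trans ?_
  norm_num

/-- **the condition `Lam` in zone I** -/
theorem lamI (c : ZC) {A : ℝ} {B : ℂ} (h : AdmQ 2 b z) (hn : Near b z) (hr : (PI c A B).Reg) (hA : 0 ≤ A)
    (hAB : A + 3 / 2 * ‖B‖ ≤ 1 / 5) (h3 : fc z (-3) = (A : ℂ)) (h5 : fc z (-5) = B) (hl : c.lam = 33 / 250)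
    (hp : c.pr2 = 6) (hh : c.h0 = 33 / 200 * A ^ 2 - 9 / 40 * ‖B‖ ^ 2) : (PI c A B).Lam b z := by
  have hG := gapI c h hn hr hA hAB h3 h5
  have nB := norm_nonneg B
  have heta : ‖(PI c A B).eta‖ = 2 * (A * ‖B‖) := by
    show ‖-2 * (A : ℂ) * (starRingEnd ℂ) B‖ = _
    rw [norm_mul, norm_mul, Complex.norm_conj, Complex.norm_real, Real.norm_eq_abs, abs_of_nonneg hA, norm_neg,
      Complex.norm_ofNat]
    ring
  have e0 : fc (PI c A B).a0 0 = 0 := by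
    show fc (fun _ => (0 : ℂ)) 0 = 0
    unfold fc
    simp
  have e1 : ∑' k, ‖(PI c A B).ga k‖ = 0 := by
    show ∑' _ : ℕ, ‖(0 : ℂ)‖ = 0
    simp
  have e2 : (PI c A B).nu = 1 / 12 := rfl
  have e3 : (PI c A B).lam = 33 / 250 := hl
  have e4 : (PI c A B).pr2 = 6 := hp
  have e5 : (PI c A B).h0 = 33 / 200 * A ^ 2 - 9 / 40 * ‖B‖ ^ 2 := hh
  have x : A * ‖B‖ ≤ 1 / 150 := by nlinarith [sq_nonneg (A - 3 / 2 * ‖B‖)]
  have x0 : 0 ≤ A * ‖B‖ := mul_nonneg hA nB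
  set y := ‖B‖ with hy
  have hA5 : A ≤ 1 / 5 := by linarith
  have hy5 : y ≤ 2 / 15 := by linarith
  have key : 1 / 12 * ((1 + 2 * (2 * (A * y))) * (11 / 5 - (33 / 200 * A ^ 2 - 9 / 40 * y ^ 2) + 3 / 5 * (2 * (A * y))))
      - 2 * (33 / 200 * A ^ 2 - 9 / 40 * y ^ 2) ≤ 77 / 400 := by
    have a1 : (A * y) ^ 2 ≤ 1 / 150 * (A * y) := by nlinarith
    have a2 : A * y * y ^ 2 ≤ A * y * (4 / 225) := mul_le_mul_of_nonneg_left (by nlinarith) x0
    have a3 : 0 ≤ A * y * A ^ 2 := by positivity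
    nlinarith [sq_nonneg (A - 3 / 2 * y), mul_nonneg hA nB, mul_nonneg (sub_nonneg.2 hAB) nB,
      mul_nonneg (sub_nonneg.2 hAB) hA]
  refine lam_crit h hn hr (gap_nn h hr) hG (by rw [e4]; norm_num) ?_ ?_
  · rw [e0, e1, e2, e3, e5, heta]
    simp only [Complex.zero_re]
    linarith
  · rw [e0, e1, e2, e3, e4, e5, heta]
    simp only [Complex.zero_re]
    have b1 : (2 + 1 / 12 * (1 + 2 * (2 * (A * y)))) ^ 2 ≤ (2 + 1 / 12 * (1 + 2 * (2 * (1 / 150)))) ^ 2 := by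
      apply pow_le_pow_left₀ (by positivity)
      linarith
    have b2 : (2 + 1 / 12 * (1 + 2 * (2 * (A * y)))) ^ 2 * (39 / 100 : ℝ) ≤
        (2 + 1 / 12 * (1 + 2 * (2 * (1 / 150)))) ^ 2 * (39 / 100) :=
      mul_le_mul_of_nonneg_right b1 (by norm_num)
    refine b2.trans ?_
    norm_num
    linarith

/-- **the condition `Cs` in zone I** -/
theorem csI (c : ZC) {A : ℝ} {B : ℂ} (h : AdmQ 2 b z) (hn : Near b z) (hA : 0 ≤ A) (hAB : A + 3 / 2 * ‖B‖ ≤ 1 / 5)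
    (hc : c.cs = 11 / 40) : (PI c A B).Cs b := by
  have nB := norm_nonneg B
  have heta : ‖(PI c A B).eta‖ = 2 * (A * ‖B‖) := by
    show ‖-2 * (A : ℂ) * (starRingEnd ℂ) B‖ = _
    rw [norm_mul, norm_mul, Complex.norm_conj, Complex.norm_real, Real.norm_eq_abs, abs_of_nonneg hA, norm_neg,
      Complex.norm_ofNat]
    ring
  have x : A * ‖B‖ ≤ 1 / 150 := by nlinarith [sq_nonneg (A - 3 / 2 * ‖B‖)]
  have x0 : 0 ≤ A * ‖B‖ := mul_nonneg hA nB
  have e : (PI c A B).cs = 11 / 40 := hc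
  refine cs_of h hn (by rw [e]; norm_num) ?_
  rw [e, heta]
  have : (2 * (A * ‖B‖)) ^ 2 ≤ (1 / 75) ^ 2 := pow_le_pow_left₀ (by positivity) (by linarith) 2
  nlinarith

end Helper44.Far
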