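import Pool.Agent.Helper44.RC.StGQ
import Pool.Agent.Helper87.RC.M_KSD1

/-!
# Project RC: the duality in the gauge `q`
-/

open MeasureTheory Set Filter Metric

namespace Helper44.GQ

open Helper97.CB Helper49.LT Helper49.RC Pool.Agent.Helper71.RC
open Helper87.RC (sqrt_line)

noncomputable section

/-- the rotated coordinates -/
def X1 (er ei : ℝ) (x : Fin 6 → ℂ) : ℝ := er * Xr x + ei * Xi x
def X2 (er ei : ℝ) (x : Fin 6 → ℂ) : ℝ := er * Xi x - ei * Xr x
def V1 (er ei : ℝ) (x : Fin 6 → ℂ) : ℝ := er * Vr x + ei * Vi x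
def V2 (er ei : ℝ) (x : Fin 6 → ℂ) : ℝ := er * Vi x - ei * Vr x

/-- the boosted coordinate -/
def W2 (ch sh er ei : ℝ) (x : Fin 6 → ℂ) : ℝ := ch * V2 er ei x - sh * X2 er ei x

/-- the functional -/
def FQ (M ch sh er ei : ℝ) (x : Fin 6 → ℂ) : ℝ :=
  2 * X1 er ei x - 2 * Real.sqrt (M + (V1 er ei x ^ 2 + W2 ch sh er ei x ^ 2))

theorem continuous_FQ (M ch sh er ei : ℝ) : Continuous (FQ M ch sh er ei) := by
  unfold FQ W2 X1 X2 V1 V2 Xr Xi Vr Vi
  have hre : ∀ k : Fin 6, Continuous fun x : Fin 6 → ℂ => (x k).re := fun k =>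
    Complex.continuous_re.comp (continuous_apply k)
  have him : ∀ k : Fin 6, Continuous fun x : Fin 6 → ℂ => (x k).im := fun k =>
    Complex.continuous_im.comp (continuous_apply k)
  fun_prop

theorem X1_seg (er ei : ℝ) (xs x : Fin 6 → ℂ) (τ : ℝ) :
    X1 er ei (fun k => xs k + τ • (x k - xs k)) = X1 er ei xs + τ * (X1 er ei x - X1 er ei xs) := by
  unfold X1 Xr Xi
  simp only [Complex.add_re, Complex.add_im, Complex.real_smul, Complex.re_ofReal_mul,
    Complex.im_ofReal_mul, Complex.sub_re, Complex.sub_im]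
  ring

theorem V1_seg (er ei : ℝ) (xs x : Fin 6 → ℂ) (τ : ℝ) :
    V1 er ei (fun k => xs k + τ • (x k - xs k)) = V1 er ei xs + τ * (V1 er ei x - V1 er ei xs) := by
  unfold V1 Vr Vi
  simp only [Complex.add_re, Complex.add_im, Complex.real_smul, Complex.re_ofReal_mul,
    Complex.im_ofReal_mul, Complex.sub_re, Complex.sub_im]
  ring

theorem W2_seg (ch sh er ei : ℝ) (xs x : Fin 6 → ℂ) (τ : ℝ) :
    W2 ch sh er ei (fun k => xs k + τ • (x k - xs k)) =
      W2 ch sh er ei xs + τ * (W2 ch sh er ei x - W2 ch sh er ei xs) := by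
  unfold W2 V2 X2 Vr Vi Xr Xi
  simp only [Complex.add_re, Complex.add_im, Complex.real_smul, Complex.re_ofReal_mul,
    Complex.im_ofReal_mul, Complex.sub_re, Complex.sub_im]
  ring

theorem hKSDQ (q : ℝ) (hq0 : 0 < q) : StKsdQ q := by
  intro K M hK hM0 hM t ε hε
  obtain ⟨hconv, hcomp, hint⟩ := hK
  obtain ⟨x0, hx0⟩ := hint
  have hx0K : x0 ∈ K := interior_subset hx0
  have hne : K.Nonempty := ⟨x0, hx0K⟩
  set e : ℂ := ee t with he
  have hee : e * (starRingEnd ℂ) e = 1 := ee_mul_conj t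
  have hen : e.re ^ 2 + e.im ^ 2 = 1 := by
    rw [he, ee_re, ee_im]; exact Real.cos_sq_add_sin_sq t
  set ch : ℝ := (q + 1 / q) / 2 with hch
  set sh : ℝ := (q - 1 / q) / 2 with hsh
  have hcs : ch ^ 2 - sh ^ 2 = 1 := by
    rw [hch, hsh]; field_simp; ring
  have hcsm : ch - sh = 1 / q := by rw [hch, hsh]; ring
  have hcsp : ch + sh = q := by rw [hch, hsh]; ring
  -- the compact sets
  set Kp : Set (Fin 6 → ℂ) := Set.pi Set.univ (fun _ => K) with hKp
  have hKpc : IsCompact Kp := isCompact_univ_pi fun _ => hcomp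
  have hKpv : Convex ℝ Kp := convex_pi fun _ _ => hconv
  have hclosed : IsClosed {x : Fin 6 → ℂ | x 1 - x 2 + x 4 - x 5 = 0} :=
    isClosed_eq (by fun_prop) continuous_const
  have hCc : IsCompact (Kp ∩ {x : Fin 6 → ℂ | x 1 - x 2 + x 4 - x 5 = 0}) :=
    hKpc.inter_right hclosed
  have hcst : (fun _ : Fin 6 => x0) ∈ Kp ∩ {x : Fin 6 → ℂ | x 1 - x 2 + x 4 - x 5 = 0} :=
    ⟨fun _ _ => hx0K, by simp⟩
  obtain ⟨xs, hxs, hmax⟩ := hCc.exists_isMaxOn ⟨_, hcst⟩
    (continuous_FQ M ch sh e.re e.im).continuousOn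
  set v1 : ℝ := V1 e.re e.im xs with hv1
  set v2 : ℝ := W2 ch sh e.re e.im xs with hv2
  set n2 : ℝ := v1 ^ 2 + v2 ^ 2 with hn2
  have hn20 : 0 ≤ n2 := by rw [hn2]; positivity
  set S : ℝ := Real.sqrt (M + n2) with hS
  have hS2 : S ^ 2 = M + n2 := Real.sq_sqrt (by linarith)
  have hS0 : 0 < S := Real.sqrt_pos.2 (by linarith)
  -- the parameter
  set b : ℂ := ⟨-(v1 / S), -(v2 / S)⟩ with hb
  set Z : ℂ := e * ⟨1, -(b.im * sh)⟩ with hZ
  set V : ℂ := -(e * ⟨b.re, b.im * ch⟩) with hV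
  -- the value of the maximum
  have hF : FQ M ch sh e.re e.im xs ≤ 0 := by
    have h1 := hM xs (fun k => hxs.1 k (Set.mem_univ _)) hxs.2
    rw [ar6_eq xs hxs.2] at h1
    have h3 : 0 < 3 * Real.sqrt 3 := by positivity
    have h2 : Xr xs ^ 2 + Xi xs ^ 2 - (Vr xs ^ 2 + Vi xs ^ 2) ≤ M := le_of_mul_le_mul_left h1 h3
    have h21 : Xr xs ^ 2 + Xi xs ^ 2 = X1 e.re e.im xs ^ 2 + X2 e.re e.im xs ^ 2 := by
      have : X1 e.re e.im xs ^ 2 + X2 e.re e.im xs ^ 2 =
        (e.re ^ 2 + e.im ^ 2) * (Xr xs ^ 2 + Xi xs ^ 2) := by unfold X1 X2; ring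
      rw [this, hen, one_mul]
    have h22 : Vr xs ^ 2 + Vi xs ^ 2 = V1 e.re e.im xs ^ 2 + V2 e.re e.im xs ^ 2 := by
      have : V1 e.re e.im xs ^ 2 + V2 e.re e.im xs ^ 2 =
        (e.re ^ 2 + e.im ^ 2) * (Vr xs ^ 2 + Vi xs ^ 2) := by unfold V1 V2; ring
      rw [this, hen, one_mul]
    rw [h21, h22] at h2
    have h23 : X2 e.re e.im xs ^ 2 - V2 e.re e.im xs ^ 2 =
        (ch * X2 e.re e.im xs - sh * V2 e.re e.im xs) ^ 2 - W2 ch sh e.re e.im xs ^ 2 := by
      have : (ch * X2 e.re e.im xs - sh * V2 e.re e.im xs) ^ 2 - W2 ch sh e.re e.im xs ^ 2 =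
        (ch ^ 2 - sh ^ 2) * (X2 e.re e.im xs ^ 2 - V2 e.re e.im xs ^ 2) := by unfold W2; ring
      rw [this, hcs, one_mul]
    have h24 := sq_nonneg (ch * X2 e.re e.im xs - sh * V2 e.re e.im xs)
    have h4 : X1 e.re e.im xs ^ 2 ≤ S ^ 2 := by
      rw [hS2, hn2, hv1, hv2]; linarith
    unfold FQ
    rw [← hv1, ← hv2, ← hn2, ← hS]
    have h6 := abs_le_of_sq_le_sq' h4 hS0.le
    linarith [h6.2]
  -- the first order condition
  have hfo : ∀ x ∈ Kp, x 1 - x 2 + x 4 - x 5 = 0 →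
      2 * X1 e.re e.im x - 2 * (v1 * V1 e.re e.im x + v2 * W2 ch sh e.re e.im x) / S
        ≤ 2 * M / S := by
    intro x hx hxl
    have key : (2 * X1 e.re e.im x - 2 * X1 e.re e.im xs)
        - (2 * (v1 * (V1 e.re e.im x - v1) + v2 * (W2 ch sh e.re e.im x - v2))) / S ≤ 0 := by
      refine lim_aux (B := ((V1 e.re e.im x - v1) ^ 2 + (W2 ch sh e.re e.im x - v2) ^ 2) / S)
        (by positivity) ?_
      intro τ h0 h1
      have hmem : (fun k => xs k + τ • (x k - xs k)) ∈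
          Kp ∩ {x : Fin 6 → ℂ | x 1 - x 2 + x 4 - x 5 = 0} := by
        refine ⟨fun k _ => hconv.add_smul_sub_mem (hxs.1 k (Set.mem_univ _))
          (hx k (Set.mem_univ _)) ⟨h0.le, h1⟩, ?_⟩
        have e1 : xs 1 - xs 2 + xs 4 - xs 5 = 0 := hxs.2
        simp only [mem_ofPred_eq, Complex.real_smul]
        linear_combination (1 - (τ : ℂ)) * e1 + (τ : ℂ) * hxl
      have h2 := hmax hmem
      simp only [mem_ofPred_eq] at h2
      unfold FQ at h2
      rw [X1_seg, V1_seg, W2_seg, ← hv1, ← hv2, ← hn2, ← hS] at h2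
      set r : ℝ := 2 * τ * (v1 * (V1 e.re e.im x - v1) + v2 * (W2 ch sh e.re e.im x - v2)) +
        τ ^ 2 * ((V1 e.re e.im x - v1) ^ 2 + (W2 ch sh e.re e.im x - v2) ^ 2) with hr
      have hq2 : M + ((v1 + τ * (V1 e.re e.im x - v1)) ^ 2 +
          (v2 + τ * (W2 ch sh e.re e.im x - v2)) ^ 2) = S ^ 2 + r := by rw [hS2, hr, hn2]; ring
      rw [hq2] at h2
      have hr0 : 0 ≤ S ^ 2 + r := by rw [← hq2]; positivity
      have h3 := sqrt_line hS0 (Real.sq_sqrt hr0).symm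
      have h4 : τ * ((2 * X1 e.re e.im x - 2 * X1 e.re e.im xs)
        - (2 * (v1 * (V1 e.re e.im x - v1) + v2 * (W2 ch sh e.re e.im x - v2))) / S) ≤
          τ * (τ * (((V1 e.re e.im x - v1) ^ 2 + (W2 ch sh e.re e.im x - v2) ^ 2) / S)) := by
        have h5 : 2 * (r / (2 * S)) = τ * (2 * (v1 * (V1 e.re e.im x - v1) +
              v2 * (W2 ch sh e.re e.im x - v2))) / S +
            τ * (τ * (((V1 e.re e.im x - v1) ^ 2 + (W2 ch sh e.re e.im x - v2) ^ 2) / S)) := by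
          rw [hr]; field_simp
        have h6 : τ * ((2 * (v1 * (V1 e.re e.im x - v1) + v2 * (W2 ch sh e.re e.im x - v2))) / S) =
          τ * (2 * (v1 * (V1 e.re e.im x - v1) + v2 * (W2 ch sh e.re e.im x - v2))) / S := by ring
        nlinarith [h2, h3, h5, h6]
      exact le_of_mul_le_mul_left h4 h0
    have h7 : FQ M ch sh e.re e.im xs = 2 * X1 e.re e.im xs - 2 * S := by
      unfold FQ; rw [← hv1, ← hv2, ← hn2, ← hS]
    have h8 : 2 * (v1 * V1 e.re e.im x + v2 * W2 ch sh e.re e.im x) / S =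
        (2 * (v1 * (V1 e.re e.im x - v1) + v2 * (W2 ch sh e.re e.im x - v2))) / S + 2 * n2 / S := by
      rw [hn2]; ring
    have h9 : 2 * S - 2 * n2 / S = 2 * M / S := by
      field_simp
      linarith
    linarith
  set G : ℝ := 3 * (2 * M / S) with hG
  have hSG : ∀ x ∈ Kp, x 1 - x 2 + x 4 - x 5 = 0 → SS Z V x ≤ G := by
    intro x hx hxl
    rw [SS_eq]
    have h1 := hfo x hx hxl
    have h2 : (Z.re * Xr x + Z.im * Xi x) - (V.re * Vr x + V.im * Vi x) =
        X1 e.re e.im x - (v1 * V1 e.re e.im x + v2 * W2 ch sh e.re e.im x) / S := by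
      simp only [hZ, hV, hb, Complex.mul_re, Complex.mul_im, Complex.neg_re, Complex.neg_im]
      unfold X1 V1 W2 V2 X2
      ring
    rw [hG]
    have h3 : 2 * (v1 * V1 e.re e.im x + v2 * W2 ch sh e.re e.im x) / S =
      2 * ((v1 * V1 e.re e.im x + v2 * W2 ch sh e.re e.im x) / S) := by ring
    linarith
  have hS0' : SS Z V (fun _ => x0) = 0 := by
    unfold SS; ring
  have hG0 : 0 ≤ G := by rw [hG]; positivity
  -- separation
  set φ : (Fin 6 → ℂ) → ℂ × ℝ := fun x => (x 1 - x 2 + x 4 - x 5, SS Z V x) with hφ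
  have hSlin : IsLinearMap ℝ φ := by
    constructor
    · intro x y
      simp only [hφ, Prod.mk_add_mk, Prod.mk.injEq, Pi.add_apply]
      refine ⟨by ring, ?_⟩
      unfold SS dt
      simp only [Pi.add_apply, Complex.add_re, Complex.add_im]
      ring
    · intro c x
      simp only [hφ, Prod.smul_mk, Prod.mk.injEq, Pi.smul_apply]
      refine ⟨?_, ?_⟩
      · simp only [Complex.real_smul]; ring
      · unfold SS dt
        simp only [Pi.smul_apply, Complex.real_smul, Complex.re_ofReal_mul,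
          Complex.im_ofReal_mul, smul_eq_mul]
        ring
  have hφc : Continuous φ := by
    have hre : ∀ k : Fin 6, Continuous fun x : Fin 6 → ℂ => (x k).re := fun k =>
      Complex.continuous_re.comp (continuous_apply k)
    have him : ∀ k : Fin 6, Continuous fun x : Fin 6 → ℂ => (x k).im := fun k =>
      Complex.continuous_im.comp (continuous_apply k)
    simp only [hφ]
    unfold SS dt
    fun_prop
  have hCconv : Convex ℝ (φ '' Kp) := hKpv.is_linear_image hSlin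
  have hCcl : IsClosed (φ '' Kp) := (hKpc.image hφc).isClosed
  have hnot : ((0 : ℂ), G + ε) ∉ φ '' Kp := by
    rintro ⟨x, hx, hxe⟩
    simp only [hφ, Prod.mk.injEq] at hxe
    have := hSG x hx hxe.1
    linarith [hxe.2]
  obtain ⟨f, u, hfu, hux⟩ := geometric_hahn_banach_closed_point hCconv hCcl hnot
  set l : ℝ := f ((0 : ℂ), (1 : ℝ)) with hl
  set v' : ℂ := ⟨f ((1 : ℂ), (0 : ℝ)), f (Complex.I, (0 : ℝ))⟩ with hv'
  have hf : ∀ (z : ℂ) (r : ℝ), f (z, r) = dt v' z + l * r := by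
    intro z r
    have e1 : ((z, r) : ℂ × ℝ) = z.re • ((1 : ℂ), (0 : ℝ)) + z.im • (Complex.I, (0 : ℝ))
        + r • ((0 : ℂ), (1 : ℝ)) := by
      refine Prod.ext ?_ ?_
      · apply Complex.ext <;> simp
      · simp
    rw [e1, map_add, map_add, map_smul, map_smul, map_smul]
    simp only [smul_eq_mul, dt, hv', hl]
    ring
  have hu0 : 0 < u := by
    have h1 := hfu _ ⟨_, hcst.1, rfl⟩
    simp only [hφ] at h1
    rw [hf, hS0'] at h1
    simp [dt] at h1
    exact h1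
  have hlG : u < l * (G + ε) := by
    rw [hf] at hux
    simp [dt] at hux
    exact hux
  have hGε : 0 < G + ε := by linarith
  have hl0 : 0 < l := by
    by_contra h
    push Not at h
    have := mul_nonpos_of_nonpos_of_nonneg h hGε.le
    linarith
  set v : ℂ := (l⁻¹ : ℝ) • v' with hv
  have hmain : ∀ x ∈ Kp, SS Z V x + dt v (x 1 - x 2 + x 4 - x 5) ≤ G + ε := by
    intro x hx
    have h1 := (hfu _ ⟨x, hx, rfl⟩).trans hlG
    simp only [hφ] at h1
    rw [hf] at h1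
    have e1 : dt v (x 1 - x 2 + x 4 - x 5) = l⁻¹ * dt v' (x 1 - x 2 + x 4 - x 5) := by
      simp only [hv, dt, Complex.real_smul, Complex.re_ofReal_mul, Complex.im_ofReal_mul]
      ring
    rw [e1]
    have h2 : l * (SS Z V x + l⁻¹ * dt v' (x 1 - x 2 + x 4 - x 5)) ≤ l * (G + ε) := by
      have e2 : l * (SS Z V x + l⁻¹ * dt v' (x 1 - x 2 + x 4 - x 5))
          = dt v' (x 1 - x 2 + x 4 - x 5) + l * SS Z V x := by
        field_simp
        ring
      rw [e2]; exact h1.le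
    exact le_of_mul_le_mul_left h2 hl0
  -- the supremum
  obtain ⟨y0, hy0, s0⟩ := sp_attain hcomp hne (Q0 Z V)
  obtain ⟨y1, hy1, s1⟩ := sp_attain hcomp hne (Q1 Z V + v)
  obtain ⟨y2, hy2, s2⟩ := sp_attain hcomp hne (Q2 Z V - v)
  obtain ⟨y3, hy3, s3⟩ := sp_attain hcomp hne (-(Q0 Z V))
  obtain ⟨y4, hy4, s4⟩ := sp_attain hcomp hne (-(Q1 Z V) + v)
  obtain ⟨y5, hy5, s5⟩ := sp_attain hcomp hne (-(Q2 Z V) - v)
  have hsum : sp K (Q0 Z V) + sp K (Q1 Z V + v) + sp K (Q2 Z V - v) + sp K (-(Q0 Z V))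
      + sp K (-(Q1 Z V) + v) + sp K (-(Q2 Z V) - v) ≤ G + ε := by
    have h1 := hmain ![y0, y1, y2, y3, y4, y5] (by
      intro k _
      fin_cases k <;> simp [hy0, hy1, hy2, hy3, hy4, hy5])
    rw [s0, s1, s2, s3, s4, s5]
    refine le_trans (le_of_eq ?_) h1
    unfold SS dt
    simp
    ring
  have hZV : Z - V = e * aQ q b := by
    have h1 : (⟨1, -(b.im * sh)⟩ : ℂ) + ⟨b.re, b.im * ch⟩ = aQ q b := by
      unfold aQ
      apply Complex.ext
      · simp
      · simp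
        have : -(b.im * sh) + b.im * ch = b.im * (ch - sh) := by ring
        rw [this, hcsm]; ring
    rw [hZ, hV, ← h1]; ring
  have hZpV : (Real.sqrt 3 / 2 : ℂ) * Complex.I * (Z + V) = e * cQ q b := by
    have h1 : Complex.I * ((⟨1, -(b.im * sh)⟩ : ℂ) - ⟨b.re, b.im * ch⟩) =
        Complex.I * (1 - (b.re : ℂ)) + ((q * b.im : ℝ) : ℂ) := by
      apply Complex.ext
      · simp
        have : b.im * ch + b.im * sh = b.im * (ch + sh) := by ring
        rw [this, hcsp]; ring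
      · simp
    unfold cQ
    rw [← h1, hZ, hV]; ring
  have homc : om = 1 / 2 + (Real.sqrt 3 / 2 : ℂ) * Complex.I := by
    apply Complex.ext
    · rw [om_re]; simp
    · rw [om_im]; simp
  have homc' : (starRingEnd ℂ) om = 1 / 2 - (Real.sqrt 3 / 2 : ℂ) * Complex.I := by
    apply Complex.ext
    · rw [Complex.conj_re, om_re]; simp
    · rw [Complex.conj_im, om_im]; simp
  have hI3 : ((Real.sqrt 3 / 2 : ℂ) * Complex.I) ^ 2 = -(3 / 4) := by
    have h3 : ((Real.sqrt 3 : ℝ) : ℂ) ^ 2 = 3 := by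
      rw [← Complex.ofReal_pow, Real.sq_sqrt (by norm_num)]; norm_num
    rw [mul_pow, Complex.I_sq, div_pow, h3]; norm_num
  have c0 : e * aQ q b = Q0 Z V := by
    rw [← hZV]; rfl
  have c1 : e * (cQ q b + 1 / 2 * aQ q b + (starRingEnd ℂ) e * v) = Q1 Z V + v := by
    have : e * (cQ q b + 1 / 2 * aQ q b + (starRingEnd ℂ) e * v) =
      e * cQ q b + 1 / 2 * (e * aQ q b) + (e * (starRingEnd ℂ) e) * v := by ring
    rw [this, hee, ← hZV, ← hZpV]
    unfold Q1
    rw [homc', homc]; ring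
  have c2 : e * (cQ q b - 1 / 2 * aQ q b - (starRingEnd ℂ) e * v) = Q2 Z V - v := by
    have : e * (cQ q b - 1 / 2 * aQ q b - (starRingEnd ℂ) e * v) =
      e * cQ q b - 1 / 2 * (e * aQ q b) - (e * (starRingEnd ℂ) e) * v := by ring
    rw [this, hee, ← hZV, ← hZpV]
    unfold Q2
    rw [homc', homc]
    linear_combination (V - Z) * hI3
  have c4 : -(e * (cQ q b + 1 / 2 * aQ q b + -((starRingEnd ℂ) e * v))) = -(Q1 Z V) + v := by
    have h1 : Q1 Z V = e * (cQ q b + 1 / 2 * aQ q b + (starRingEnd ℂ) e * v) - v := by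
      rw [c1]; ring
    rw [h1]
    linear_combination (2 * v) * hee
  have c5 : -(e * (cQ q b - 1 / 2 * aQ q b - -((starRingEnd ℂ) e * v))) = -(Q2 Z V) - v := by
    have h1 : Q2 Z V = e * (cQ q b - 1 / 2 * aQ q b - (starRingEnd ℂ) e * v) + v := by
      rw [c2]; ring
    rw [h1]
    linear_combination (-2 * v) * hee
  have cn : ‖b‖ ^ 2 = n2 / S ^ 2 := by
    rw [← Complex.normSq_eq_norm_sq, Complex.normSq_apply]
    simp only [hb, hn2]
    field_simp
  refine ⟨b, (starRingEnd ℂ) e * v, ?_, ?_⟩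
  · have h1 : ‖b‖ ^ 2 < 1 := by
      rw [cn, div_lt_one (by positivity), hS2]
      linarith
    nlinarith [norm_nonneg b]
  · have hsq : Real.sqrt (1 - n2 / S ^ 2) = Real.sqrt M / S := by
      have h1 : 1 - n2 / S ^ 2 = M / S ^ 2 := by
        rw [eq_div_iff (by positivity)]
        have : (1 - n2 / S ^ 2) * S ^ 2 = S ^ 2 - n2 := by field_simp
        rw [this, hS2]; ring
      rw [h1, Real.sqrt_div hM0.le, Real.sqrt_sq hS0.le]
    have hMM : 2 * Real.sqrt M * (Real.sqrt M / S) = 2 * M / S := by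
      have : Real.sqrt M * Real.sqrt M = M := Real.mul_self_sqrt hM0.le
      rw [← mul_div_assoc, mul_assoc, this]
    unfold PhG
    rw [← he, c0, c1, c2, c4, c5, cn, hsq, hMM]
    linarith [hsum, hG]

end

end Helper44.GQ
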