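import Pool.Agent.Helper44.RC.StGQ
import Pool.Agent.Helper36.RC.M_SELS

/-!
Project RC (MP_b21509_co), module SELQ: the parameters of the gauge `q` as step functions.
-/

set_option autoImplicit false

open MeasureTheory Set Filter Metric

namespace Helper44.GQ.SELQ

open Helper97.CB Helper49.LT Helper49.RC Helper44.GQ
open Pool.Agent.Helper61.RC (sp_lip norm_ee_sub ee_int_pi)
open Pool.Agent.Helper16.RC (T4 core2 coords)
open Pool.Agent.Helper36.RC (PhG_eq sp_ge sqrt3_bounds PhG_t PhG_int)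

theorem e32 : (Real.sqrt 3 / 2 : ℂ) = ((Real.sqrt 3 / 2 : ℝ) : ℂ) := by push_cast; rfl

theorem aQ_re (q : ℝ) (b : ℂ) : (aQ q b).re = 1 + b.re := by unfold aQ; simp

theorem aQ_im (q : ℝ) (b : ℂ) : (aQ q b).im = b.im / q := by
  unfold aQ
  rw [Complex.add_im, Complex.add_im, Complex.one_im, Complex.ofReal_im, Complex.I_mul_im,
    Complex.ofReal_re]
  ring

theorem cQ_re (q : ℝ) (b : ℂ) : (cQ q b).re = Real.sqrt 3 / 2 * (q * b.im) := by
  unfold cQ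
  rw [e32, Complex.re_ofReal_mul]
  simp

theorem cQ_im (q : ℝ) (b : ℂ) : (cQ q b).im = Real.sqrt 3 / 2 * (1 - b.re) := by
  unfold cQ
  rw [e32, Complex.im_ofReal_mul]
  simp

theorem b_bounds (b : ℂ) (hb : ‖b‖ < 1) : -1 < b.re ∧ b.re < 1 ∧ |b.im| ≤ 1 := by
  have h1 := Complex.abs_re_le_norm b
  have h2 := Complex.abs_im_le_norm b
  have h3 := abs_lt.1 (lt_of_le_of_lt h1 hb)
  exact ⟨h3.1, h3.2, h2.trans hb.le⟩

theorem norm_aQ_ge (q : ℝ) (b : ℂ) : 1 + b.re ≤ ‖aQ q b‖ := by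
  have h1 := Complex.abs_re_le_norm (aQ q b)
  rw [aQ_re] at h1
  exact (le_abs_self _).trans h1

theorem norm_cQ_ge (q : ℝ) (b : ℂ) : Real.sqrt 3 / 2 * (1 - b.re) ≤ ‖cQ q b‖ := by
  have h1 := Complex.abs_im_le_norm (cQ q b)
  rw [cQ_im] at h1
  exact (le_abs_self _).trans h1

theorem norm_aQ_le (q : ℝ) (hq : 0 < q) (b : ℂ) (hb : ‖b‖ < 1) : ‖aQ q b‖ ≤ 2 + 1 / q := by
  obtain ⟨h1, h2, h3⟩ := b_bounds b hb
  have h4 := Complex.norm_le_abs_re_add_abs_im (aQ q b)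
  rw [aQ_re, aQ_im, abs_of_nonneg (by linarith), abs_div, abs_of_pos hq] at h4
  have h5 : |b.im| / q ≤ 1 / q := div_le_div_of_nonneg_right h3 hq.le
  linarith

theorem norm_cQ_le (q : ℝ) (hq : 0 < q) (b : ℂ) (hb : ‖b‖ < 1) : ‖cQ q b‖ ≤ 2 + q := by
  obtain ⟨h1, h2, h3⟩ := b_bounds b hb
  obtain ⟨s1, s2, s3⟩ := sqrt3_bounds
  have h4 := Complex.norm_le_abs_re_add_abs_im (cQ q b)
  rw [cQ_re, cQ_im, abs_of_nonneg (by
    have : 0 < 1 - b.re := by linarith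
    positivity : (0 : ℝ) ≤ Real.sqrt 3 / 2 * (1 - b.re)), abs_mul, abs_mul, abs_of_pos hq,
    abs_of_nonneg (by positivity : (0 : ℝ) ≤ Real.sqrt 3 / 2)] at h4
  have h5 : q * |b.im| ≤ q := by nlinarith
  have h6 : 0 ≤ q * |b.im| := by positivity
  nlinarith

/-- the lower bound -/
theorem PhG_geQ (K : Set ℂ) (hK : IsCompact K) (ρ : ℝ) (hρ : 0 < ρ)
    (hball : closedBall (0 : ℂ) ρ ⊆ K) (t q : ℝ) (b : ℂ) (z : ℂ) :
    4 * ρ / 3 ≤ PhG K t (aQ q b) (cQ q b) z := by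
  have hg := sp_ge K hK ρ hρ hball
  obtain ⟨s1, s2, s3⟩ := sqrt3_bounds
  set a := aQ q b with ha
  set c := cQ q b with hc
  have na : 1 + b.re ≤ ‖a‖ := norm_aQ_ge q b
  have key : ρ / 3 * (2 * ‖a‖ + 4 * ‖c‖) ≤ PhG K t a c z := by
    have ne : ∀ q : ℂ, ‖ee t * q‖ = ‖q‖ := fun q => by rw [norm_mul, norm_ee, one_mul]
    have a0 := hg (ee t * a)
    have a1 := hg (ee t * (c + 1 / 2 * a + z))
    have a2 := hg (ee t * (c - 1 / 2 * a - z))
    have a3 := hg (-(ee t * a))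
    have a4 := hg (-(ee t * (c + 1 / 2 * a + -z)))
    have a5 := hg (-(ee t * (c - 1 / 2 * a - -z)))
    rw [norm_neg, ne] at a3 a4 a5
    rw [ne] at a0 a1 a2
    have h1 : 2 * ‖c‖ + 2 * ‖c‖ ≤ ‖c + 1 / 2 * a + z‖ + ‖c - 1 / 2 * a - z‖
        + ‖c + 1 / 2 * a + -z‖ + ‖c - 1 / 2 * a - -z‖ := by
      have i1 := norm_add_le (c + 1 / 2 * a + z) (c - 1 / 2 * a - z)
      have i2 := norm_add_le (c + 1 / 2 * a + -z) (c - 1 / 2 * a - -z)
      have j1 : (c + 1 / 2 * a + z) + (c - 1 / 2 * a - z) = 2 * c := by ring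
      have j2 : (c + 1 / 2 * a + -z) + (c - 1 / 2 * a - -z) = 2 * c := by ring
      have j3 : ‖2 * c‖ = 2 * ‖c‖ := by rw [norm_mul]; simp
      rw [j1, j3] at i1
      rw [j2, j3] at i2
      linarith
    have h2 := mul_le_mul_of_nonneg_left h1 hρ.le
    unfold PhG
    linarith
  have c1 : Real.sqrt 3 / 2 * (1 - b.re) ≤ ‖c‖ := norm_cQ_ge q b
  refine le_trans ?_ key
  have h3 : 4 ≤ 2 * ‖a‖ + 4 * ‖c‖ := by
    by_cases hb : b.re ≤ 1
    · nlinarith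
    · rw [not_le] at hb
      have := norm_nonneg c
      nlinarith
  have h4 := mul_le_mul_of_nonneg_left h3 (by positivity : (0 : ℝ) ≤ ρ / 3)
  linarith

/-- the region -/
def RgQ (q : ℝ) (b z : ℂ) : Prop :=
  ∃ X Y : ℝ, |X| ≤ 1 / 2 ∧ |Y| ≤ 1 ∧ z = (X : ℂ) * aQ q b + (Y : ℂ) * cQ q b

theorem RgQ_int (q : ℝ) (b z : ℂ) (m : ℤ) (h : RgQ q b z) : RgQ q b ((-1) ^ m * z) := by
  rcases Int.even_or_odd m with hm | hm
  · rw [hm.neg_one_zpow, one_mul]; exact h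
  · rw [hm.neg_one_zpow, neg_one_mul]
    obtain ⟨X, Y, hX, hY, hz⟩ := h
    refine ⟨-X, -Y, by rwa [abs_neg], by rwa [abs_neg], ?_⟩
    rw [hz]; push_cast; ring

theorem cr_ABQ (q : ℝ) (hq : 0 < q) (b : ℂ) : cr (cQ q b + 1 / 2 * aQ q b) (cQ q b - 1 / 2 * aQ q b)
    = Real.sqrt 3 / 2 * (1 - ‖b‖ ^ 2) := by
  have h2 : (1 / 2 * aQ q b).re = (1 + b.re) / 2 := by
    have e2 : (1 / 2 : ℂ) = ((1 / 2 : ℝ) : ℂ) := by push_cast; rfl
    rw [e2, Complex.re_ofReal_mul, aQ_re]; ring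
  have h3 : (1 / 2 * aQ q b).im = b.im / q / 2 := by
    have e2 : (1 / 2 : ℂ) = ((1 / 2 : ℝ) : ℂ) := by push_cast; rfl
    rw [e2, Complex.im_ofReal_mul, aQ_im]; ring
  unfold cr
  rw [Complex.add_re, Complex.add_im, Complex.sub_re, Complex.sub_im, cQ_re, cQ_im, h2, h3,
    ← Complex.normSq_eq_norm_sq, Complex.normSq_apply]
  field_simp
  ring

/-- one direction: the vector in the region -/
theorem region (K : Set ℂ) (hB : IsBody K) (t q : ℝ) (hq : 0 < q) (b : ℂ) (hb : ‖b‖ < 1) (z : ℂ) :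
    ∃ z' : ℂ, RgQ q b z' ∧ PhG K t (aQ q b) (cQ q b) z' ≤ PhG K t (aQ q b) (cQ q b) z := by
  obtain ⟨s1, s2, s3⟩ := sqrt3_bounds
  set A := cQ q b + 1 / 2 * aQ q b with hA
  set B := cQ q b - 1 / 2 * aQ q b with hBd
  have hne : cr A B ≠ 0 := by
    rw [hA, hBd, cr_ABQ q hq]
    have h1 : 0 < 1 - ‖b‖ ^ 2 := by nlinarith [norm_nonneg b]
    positivity
  have hp := coords hne z
  have hreg : ∀ x x' : ℝ, |x| + |x'| ≤ 1 → RgQ q b ((x : ℂ) * A + (x' : ℂ) * B) := by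
    intro x x' hx
    have i1 := abs_nonneg x
    have i2 := abs_nonneg x'
    refine ⟨(x - x') / 2, x + x', ?_, ?_, ?_⟩
    · rw [abs_div, abs_two]
      have := abs_sub x x'
      linarith
    · exact (abs_add_le x x').trans hx
    · rw [hA, hBd]
      push_cast
      ring
  by_cases hxy : |cr z B / cr A B| + |cr A z / cr A B| ≤ 1
  · refine ⟨z, ?_, le_refl _⟩
    have := hreg _ _ hxy
    rwa [← hp] at this
  · rw [not_le] at hxy
    have hadd : ∀ x y : ℂ, (fun z => sp K (ee t * z)) (x + y) ≤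
        (fun z => sp K (ee t * z)) x + (fun z => sp K (ee t * z)) y := by
      intro x y
      simp only [mul_add]
      exact Pool.Agent.Helper16.RC.sp_add hB _ _
    have hsm : ∀ c : ℝ, 0 ≤ c → ∀ x : ℂ, (fun z => sp K (ee t * z)) ((c : ℂ) * x) =
        c * (fun z => sp K (ee t * z)) x := by
      intro c hc x
      simp only [mul_left_comm (ee t)]
      exact Pool.Agent.Helper16.RC.sp_smul hB c hc _
    obtain ⟨x', y', h1, h2⟩ := core2 (H := fun z => sp K (ee t * z)) hadd hsm A B _ _ hxy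
    rw [← hp] at h2
    refine ⟨(x' : ℂ) * A + (y' : ℂ) * B, hreg x' y' h1, ?_⟩
    rw [PhG_eq, PhG_eq K t _ _ z]
    linarith

/-- **MODULE SELQ.** -/
theorem hSELQ (q : ℝ) (hq : 0 < q) : StSelQ q := by
  intro K C hB h0int hC hPhi ε₀ hε₀
  have hK := hB.2.1
  have h0 : (0 : ℂ) ∈ K := interior_subset h0int
  obtain ⟨ρ, hρ, hball⟩ := Metric.nhds_basis_closedBall.mem_iff.1
    (mem_interior_iff_mem_nhds.1 h0int)
  obtain ⟨R₀, hR₀⟩ := hK.isBounded.exists_norm_le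
  set R : ℝ := max R₀ 0 with hRdef
  have hR0 : 0 ≤ R := le_max_right _ _
  have hR : ∀ z ∈ K, ‖z‖ ≤ R := fun z hz => (hR₀ z hz).trans (le_max_left _ _)
  set ε : ℝ := min (ε₀ / 2) (ρ / 3) with hεdef
  have hε : 0 < ε := lt_min (by positivity) (by positivity)
  have hε1 : ε ≤ ε₀ / 2 := min_le_left _ _
  have hε2 : ε ≤ ρ / 3 := min_le_right _ _
  set δ : ℝ := (ρ / C) ^ 2 / 2 with hδ
  have hδ0 : 0 < δ := by positivity
  have hc : ∀ t : ℝ, ∃ p : ℂ × ℂ, RgQ q p.1 p.2 ∧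
      PhG K t (aQ q p.1) (cQ q p.1) p.2 ≤ C * Real.sqrt (1 - ‖p.1‖ ^ 2) + ε ∧
      ‖p.1‖ < 1 ∧ ‖p.1‖ ≤ 1 - δ := by
    intro t
    obtain ⟨b, z, hb, hz⟩ := hPhi t ε hε
    obtain ⟨z', hz', hz2⟩ := region K hB t q hq b hb z
    have g1 := PhG_geQ K hK ρ hρ hball t q b z
    have hbn := norm_nonneg b
    refine ⟨(b, z'), hz', hz2.trans hz, hb, ?_⟩
    show ‖b‖ ≤ 1 - δ
    have h1 : ρ ≤ C * Real.sqrt (1 - ‖b‖ ^ 2) := by linarith
    have h2 : ρ / C ≤ Real.sqrt (1 - ‖b‖ ^ 2) := by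
      rw [div_le_iff₀ hC]
      linarith
    have h3 : 0 ≤ 1 - ‖b‖ ^ 2 := by nlinarith
    have h4 : (ρ / C) ^ 2 ≤ 1 - ‖b‖ ^ 2 := by
      have := pow_le_pow_left₀ (by positivity) h2 2
      rwa [Real.sq_sqrt h3] at this
    have h5 : δ ≤ 1 / 2 := by
      rw [hδ]
      nlinarith
    have h6 : (ρ / C) ^ 2 = 2 * δ := by rw [hδ]; ring
    have h7 : ‖b‖ ^ 2 ≤ (1 - δ) ^ 2 := by nlinarith
    exact (abs_le_of_sq_le_sq h7 (by linarith)).trans' (le_abs_self _)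
  choose c hc1 hc2 hc3 hc4 using hc
  set D : ℝ := 3 * (2 + 1 / q) + 3 * (2 + q) with hD
  have hD0 : 0 ≤ D := by positivity
  obtain ⟨N, hN⟩ := exists_nat_gt (4 * R * D * Real.pi / ε₀)
  have hpi := Real.pi_pos
  have hN0 : 0 < (N : ℝ) := by
    refine lt_of_le_of_lt ?_ hN
    positivity
  have hNpos : (0 : ℤ) < (N : ℤ) := by exact_mod_cast hN0
  have hNε : 2 * R * D * (Real.pi / N) ≤ ε₀ / 2 := by
    rw [div_lt_iff₀ hε₀] at hN
    rw [mul_div_assoc', div_le_iff₀ hN0]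
    nlinarith
  let fl : ℝ → ℤ := fun t => ⌊(N : ℝ) * t / Real.pi⌋
  have hfl : Measurable fl := Int.measurable_floor.comp (by fun_prop)
  let gb : ℤ → ℂ := fun j => (c (((j % (N : ℤ) : ℤ) : ℝ) * Real.pi / N)).1
  let gp : ℤ → ℂ := fun j =>
    (-1) ^ (j / (N : ℤ)) * (c (((j % (N : ℤ) : ℤ) : ℝ) * Real.pi / N)).2
  have hper : ∀ t, fl (t + Real.pi) = fl t + (N : ℤ) := by
    intro t
    show ⌊(N : ℝ) * (t + Real.pi) / Real.pi⌋ = ⌊(N : ℝ) * t / Real.pi⌋ + (N : ℤ)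
    have : (N : ℝ) * (t + Real.pi) / Real.pi = (N : ℝ) * t / Real.pi + ((N : ℤ) : ℝ) := by
      push_cast; field_simp
    rw [this, Int.floor_add_intCast]
  have hmod : ∀ j : ℤ, (j + (N : ℤ)) % (N : ℤ) = j % (N : ℤ) := fun j => by
    rw [Int.add_emod_right]
  have hdiv : ∀ j : ℤ, (j + (N : ℤ)) / (N : ℤ) = j / (N : ℤ) + 1 := fun j => by
    have := Int.add_mul_ediv_right j 1 hNpos.ne'
    rwa [one_mul] at this
  refine ⟨fun t => gb (fl t), fun t => gp (fl t), ⟨?_, ?_, ?_, ?_, ⟨δ, hδ0, ?_⟩, ?_⟩, ?_⟩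
  · exact (measurable_from_top (f := gb)).comp hfl
  · exact (measurable_from_top (f := gp)).comp hfl
  · intro t
    show gb (fl (t + Real.pi)) = gb (fl t)
    rw [hper]
    simp only [gb]
    rw [hmod]
  · intro t
    show gp (fl (t + Real.pi)) = -gp (fl t)
    rw [hper]
    simp only [gp]
    rw [hmod, hdiv, zpow_add₀ (by norm_num : (-1 : ℂ) ≠ 0)]
    ring
  · intro t
    exact hc4 _
  · intro t
    exact RgQ_int _ _ _ _ (hc1 _)
  · intro t
    set j : ℤ := fl t with hj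
    set i : ℤ := j % (N : ℤ) with hi
    set m : ℤ := j / (N : ℤ) with hm
    have hij : i + (N : ℤ) * m = j := Int.emod_add_mul_ediv j N
    set ti : ℝ := (i : ℝ) * Real.pi / N with hti
    show PhG K t (aQ q (c ti).1) (cQ q (c ti).1) ((-1) ^ m * (c ti).2)
      ≤ C * Real.sqrt (1 - ‖(c ti).1‖ ^ 2) + ε₀
    set s : ℝ := t - (m : ℝ) * Real.pi with hs
    have e1 : t = s + (m : ℝ) * Real.pi := by rw [hs]; ring
    rw [e1, PhG_int]
    have hjr : (i : ℝ) + (N : ℝ) * m = j := by exact_mod_cast hij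
    have hf1 : (j : ℝ) ≤ (N : ℝ) * t / Real.pi := Int.floor_le _
    have hf2 : (N : ℝ) * t / Real.pi < (j : ℝ) + 1 := Int.lt_floor_add_one _
    have hst : s - ti = ((N : ℝ) * t / Real.pi - j) * (Real.pi / N) := by
      rw [hs, hti, ← hjr]
      field_simp
      ring
    have hst1 : |s - ti| ≤ Real.pi / N := by
      have h3 : 0 < Real.pi / N := by positivity
      rw [hst, abs_of_nonneg (mul_nonneg (by linarith) h3.le)]
      nlinarith
    have hb3 := hc3 ti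
    have na := norm_aQ_le q hq (c ti).1 hb3
    have nc := norm_cQ_le q hq (c ti).1 hb3
    have np : ‖(c ti).2‖ ≤ (2 + 1 / q) + (2 + q) := by
      obtain ⟨X, Y, hX, hY, hz⟩ := hc1 ti
      rw [hz]
      refine (norm_add_le _ _).trans ?_
      rw [norm_mul, norm_mul, Complex.norm_real, Complex.norm_real, Real.norm_eq_abs,
        Real.norm_eq_abs]
      have i1 := mul_le_mul hX na (norm_nonneg _) (by norm_num)
      have i2 := mul_le_mul hY nc (norm_nonneg _) (by norm_num)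
      have i3 : 0 < 1 / q := by positivity
      linarith
    have i3 : 0 < 1 / q := by positivity
    have h4 := PhG_t K hK h0 R hR hR0 ti s (aQ q (c ti).1) (cQ q (c ti).1) (c ti).2 D
      (by rw [hD]; linarith)
    have h5 := hc2 ti
    have h6 : 2 * R * D * |s - ti| ≤ 2 * R * D * (Real.pi / N) :=
      mul_le_mul_of_nonneg_left hst1 (by positivity)
    linarith

end Helper44.GQ.SELQ
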