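import Pool.Agent.Helper49.RC.M_REDS
import Pool.Agent.Helper44.RC.M_SELQ

/-!
# Project RC: assembly of the reduction in the gauge `q` with weights
-/

open MeasureTheory Set Filter Metric

namespace Helper44.GQ.REDQ

open Helper97.CB Helper49.LT Helper49.RC Pool.Agent.Helper61.RC Helper49.RC.RED Helper44.GQ
open Helper44.GQ.SELQ
open Helper49.RC.REDS (ii_of)

theorem aQ_meas (q : ℝ) (b : ℝ → ℂ) (hb : Measurable b) : Measurable fun t => aQ q (b t) := by
  have h1 : Measurable fun t => (((b t).re : ℝ) : ℂ) :=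
    Complex.measurable_ofReal.comp (Complex.measurable_re.comp hb)
  have h2 : Measurable fun t => (((b t).im / q : ℝ) : ℂ) :=
    Complex.measurable_ofReal.comp ((Complex.measurable_im.comp hb).div_const q)
  unfold aQ
  exact (measurable_const.add h1).add (measurable_const.mul h2)

theorem cQ_meas (q : ℝ) (b : ℝ → ℂ) (hb : Measurable b) : Measurable fun t => cQ q (b t) := by
  have h1 : Measurable fun t => (((b t).re : ℝ) : ℂ) :=
    Complex.measurable_ofReal.comp (Complex.measurable_re.comp hb)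
  have h2 : Measurable fun t => ((q * (b t).im : ℝ) : ℂ) :=
    Complex.measurable_ofReal.comp ((Complex.measurable_im.comp hb).const_mul q)
  unfold cQ
  exact measurable_const.mul ((measurable_const.mul (measurable_const.sub h1)).add h2)

/-- the sum of the three support values -/
noncomputable def S3 (K : Set ℂ) (q : ℝ) (b z : ℝ → ℂ) (t : ℝ) : ℝ :=
  sp K (ee t * aQ q (b t)) + sp K (ee t * (cQ q (b t) + 1 / 2 * aQ q (b t) + z t))
    + sp K (ee t * (cQ q (b t) - 1 / 2 * aQ q (b t) - z t))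

theorem S3_meas (K : Set ℂ) (hK : IsCompact K) (h0 : (0 : ℂ) ∈ K) (q : ℝ) (b z : ℝ → ℂ)
    (h : AdmQ q b z) : Measurable (S3 K q b z) := by
  have hs := (sp_cont K hK h0).measurable
  have he := meas_ee
  have hz := h.mz
  have ha : Measurable fun t => aQ q (b t) := aQ_meas q b h.mb
  have hc : Measurable fun t => cQ q (b t) := cQ_meas q b h.mb
  unfold S3
  exact ((hs.comp (he.mul ha)).add (hs.comp (he.mul ((hc.add (measurable_const.mul ha)).add hz)))).add
    (hs.comp (he.mul ((hc.sub (measurable_const.mul ha)).sub hz)))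

theorem data_bdd (q : ℝ) (hq : 0 < q) (b z : ℝ → ℂ) (h : AdmQ q b z) : ∃ D : ℝ, 0 ≤ D ∧
    (∀ t, ‖aQ q (b t)‖ ≤ D) ∧ (∀ t, ‖cQ q (b t)‖ ≤ D) ∧ ∀ t, ‖z t‖ ≤ D := by
  obtain ⟨δ, hδ, hb⟩ := h.bdb
  have hb1 : ∀ t, ‖b t‖ < 1 := fun t => by linarith [hb t]
  have ha : ∀ t, ‖aQ q (b t)‖ ≤ 2 + 1 / q := fun t => norm_aQ_le q hq _ (hb1 t)
  have hc : ∀ t, ‖cQ q (b t)‖ ≤ 2 + q := fun t => norm_cQ_le q hq _ (hb1 t)
  have hq1 : 0 < 1 / q := by positivity
  refine ⟨(2 + 1 / q) + (2 + q), by positivity, fun t => (ha t).trans (by linarith),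
    fun t => (hc t).trans (by linarith), fun t => ?_⟩
  obtain ⟨X, Y, hX, hY, hz⟩ := h.reg t
  rw [hz]
  calc ‖(X : ℂ) * aQ q (b t) + (Y : ℂ) * cQ q (b t)‖
      ≤ ‖(X : ℂ) * aQ q (b t)‖ + ‖(Y : ℂ) * cQ q (b t)‖ := norm_add_le _ _
    _ = |X| * ‖aQ q (b t)‖ + |Y| * ‖cQ q (b t)‖ := by
        rw [norm_mul, norm_mul, Complex.norm_real, Complex.norm_real, Real.norm_eq_abs,
          Real.norm_eq_abs]
    _ ≤ 1 / 2 * (2 + 1 / q) + 1 * (2 + q) :=
        add_le_add (mul_le_mul hX (ha t) (norm_nonneg _) (by norm_num))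
          (mul_le_mul hY (hc t) (norm_nonneg _) (by norm_num))
    _ ≤ (2 + 1 / q) + (2 + q) := by linarith

theorem S3_bdd (K : Set ℂ) (hK : IsCompact K) (h0 : (0 : ℂ) ∈ K) (q : ℝ) (hq : 0 < q) (b z : ℝ → ℂ)
    (h : AdmQ q b z) : ∃ C : ℝ, ∀ t, ‖S3 K q b z t‖ ≤ C := by
  obtain ⟨R, hR⟩ := hK.isBounded.exists_norm_le
  have hR0 : 0 ≤ R := le_trans (norm_nonneg _) (hR 0 h0)
  obtain ⟨D, hD0, hDa, hDc, hDz⟩ := data_bdd q hq b z h
  refine ⟨R * (9 * D), fun t => ?_⟩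
  have n0 : ‖ee t * aQ q (b t)‖ ≤ 3 * D := by
    rw [norm_mul, norm_ee, one_mul]
    linarith [hDa t]
  have hh : ‖(1 / 2 : ℂ) * aQ q (b t)‖ ≤ D := by
    rw [norm_mul]
    have : ‖(1 / 2 : ℂ)‖ = 1 / 2 := by norm_num
    rw [this]
    linarith [hDa t]
  have n1 : ‖ee t * (cQ q (b t) + 1 / 2 * aQ q (b t) + z t)‖ ≤ 3 * D := by
    rw [norm_mul, norm_ee, one_mul]
    have e1 := norm_add_le (cQ q (b t) + 1 / 2 * aQ q (b t)) (z t)
    have e2 := norm_add_le (cQ q (b t)) (1 / 2 * aQ q (b t))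
    linarith [hDc t, hDz t]
  have n2 : ‖ee t * (cQ q (b t) - 1 / 2 * aQ q (b t) - z t)‖ ≤ 3 * D := by
    rw [norm_mul, norm_ee, one_mul]
    have e1 := norm_sub_le (cQ q (b t) - 1 / 2 * aQ q (b t)) (z t)
    have e2 := norm_sub_le (cQ q (b t)) (1 / 2 * aQ q (b t))
    linarith [hDc t, hDz t]
  have s0 := sp_le_norm K hK h0 R hR (ee t * aQ q (b t))
  have s1 := sp_le_norm K hK h0 R hR (ee t * (cQ q (b t) + 1 / 2 * aQ q (b t) + z t))
  have s2 := sp_le_norm K hK h0 R hR (ee t * (cQ q (b t) - 1 / 2 * aQ q (b t) - z t))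
  have p0 := sp_nonneg K hK h0 (ee t * aQ q (b t))
  have p1 := sp_nonneg K hK h0 (ee t * (cQ q (b t) + 1 / 2 * aQ q (b t) + z t))
  have p2 := sp_nonneg K hK h0 (ee t * (cQ q (b t) - 1 / 2 * aQ q (b t) - z t))
  rw [Real.norm_eq_abs, abs_of_nonneg (by unfold S3; linarith)]
  unfold S3
  have q0 := mul_le_mul_of_nonneg_left n0 hR0
  have q1 := mul_le_mul_of_nonneg_left n1 hR0
  have q2 := mul_le_mul_of_nonneg_left n2 hR0
  nlinarith

theorem PhG_S3 (K : Set ℂ) (q : ℝ) (b z : ℝ → ℂ) (h : AdmQ q b z) (t : ℝ) :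
    PhG K t (aQ q (b t)) (cQ q (b t)) (z t) =
      (1 / 3) * (S3 K q b z t + S3 K q b z (t + Real.pi)) := by
  unfold PhG S3
  rw [h.perb, h.perz, ee_add_pi]
  have e0 : -ee t * aQ q (b t) = -(ee t * aQ q (b t)) := by ring
  have e1 : -ee t * (cQ q (b t) + 1 / 2 * aQ q (b t) + -z t) =
      -(ee t * (cQ q (b t) + 1 / 2 * aQ q (b t) + -z t)) := by ring
  have e2 : -ee t * (cQ q (b t) - 1 / 2 * aQ q (b t) - -z t) =
      -(ee t * (cQ q (b t) - 1 / 2 * aQ q (b t) - -z t)) := by ring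
  rw [e0, e1, e2]
  ring

theorem S3_per (K : Set ℂ) (q : ℝ) (b z : ℝ → ℂ) (h : AdmQ q b z) (t : ℝ) :
    S3 K q b z (t + 2 * Real.pi) = S3 K q b z t := by
  have e : t + 2 * Real.pi = (t + Real.pi) + Real.pi := by ring
  have hb : b (t + 2 * Real.pi) = b t := by rw [e, h.perb, h.perb]
  have hz : z (t + 2 * Real.pi) = z t := by rw [e, h.perz, h.perz, neg_neg]
  unfold S3
  rw [hb, hz, ee_per]

theorem ii_of {f : ℝ → ℝ} (hm : Measurable f) (hb : ∃ C : ℝ, ∀ t, ‖f t‖ ≤ C) (p q : ℝ) :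
    IntervalIntegrable f volume p q := by
  obtain ⟨C, hC⟩ := hb
  have hc : IntervalIntegrable (fun _ : ℝ => C) volume p q := intervalIntegrable_const
  refine hc.mono_fun hm.aestronglyMeasurable ?_
  filter_upwards with x
  have := hC x
  have h2 : 0 ≤ C := le_trans (norm_nonneg _) this
  rw [Real.norm_eq_abs C, abs_of_nonneg h2]
  exact this

/-- the mean with the weight -/
theorem mean_leQ (K : Set ℂ) (hKB : IsBody K) (h0 : (0 : ℂ) ∈ K) (q : ℝ) (hq : 0 < q)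
    (b z : ℝ → ℂ) (h : AdmQ q b z) (w : ℝ → ℝ) (hw : Wgt w) (c ε : ℝ)
    (hg : ∀ t, PhG K t (aQ q (b t)) (cQ q (b t)) (z t) ≤ c * Real.sqrt (1 - ‖b t‖ ^ 2) + ε) :
    (2 / 3) * VVE K (A0Q w q b) (fun t => AAQ w q b t + vvS w z t) (fun t => BBQ w q b t - vvS w z t)
      ≤ c * mQ w b + ε * ((1 / (2 * Real.pi)) * ∫ t in (0 : ℝ)..(2 * Real.pi), w t) := by
  have hK := hKB.2.1
  have hpi := Real.pi_pos
  have h2pi : 0 < 2 * Real.pi := by positivity
  obtain ⟨Cw, hCw⟩ := hw.bd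
  obtain ⟨C3, hC3⟩ := S3_bdd K hK h0 q hq b z h
  have hS3m := S3_meas K hK h0 q b z h
  have hwn : ∀ t, ‖w t‖ ≤ Cw := fun t => by
    rw [Real.norm_eq_abs, abs_of_nonneg (hw.nonneg t)]; exact hCw t
  have hCw0 : 0 ≤ Cw := le_trans (hw.nonneg 0) (hCw 0)
  have hi1 : ∀ p r, IntervalIntegrable (fun t => w t * S3 K q b z t) volume p r :=
    ii_of (hw.m.mul hS3m) ⟨Cw * C3, fun t => by
      rw [norm_mul]; exact mul_le_mul (hwn t) (hC3 t) (norm_nonneg _) hCw0⟩
  have hi2 : IntervalIntegrable (fun t => w t * S3 K q b z (t + Real.pi)) volume 0 (2 * Real.pi) := by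
    refine ii_of (hw.m.mul (hS3m.comp (measurable_id.add_const _))) ⟨Cw * C3, fun t => ?_⟩ _ _
    show ‖w t * S3 K q b z (t + Real.pi)‖ ≤ _
    rw [norm_mul]
    exact mul_le_mul (hwn t) (hC3 _) (norm_nonneg _) hCw0
  have hrm : Measurable (fun t => Real.sqrt (1 - ‖b t‖ ^ 2)) :=
    (measurable_const.sub (h.mb.norm.pow_const 2)).sqrt
  have hrb : ∀ t, ‖Real.sqrt (1 - ‖b t‖ ^ 2)‖ ≤ 1 := fun t => by
    rw [Real.norm_eq_abs, abs_of_nonneg (Real.sqrt_nonneg _)]
    apply Real.sqrt_le_iff.2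
    exact ⟨zero_le_one, by nlinarith [sq_nonneg ‖b t‖]⟩
  have hi3 : IntervalIntegrable (fun t => w t * Real.sqrt (1 - ‖b t‖ ^ 2)) volume 0 (2 * Real.pi) :=
    ii_of (hw.m.mul hrm) ⟨Cw * 1, fun t => by
      show ‖w t * Real.sqrt (1 - ‖b t‖ ^ 2)‖ ≤ _
      rw [norm_mul]; exact mul_le_mul (hwn t) (hrb t) (norm_nonneg _) hCw0⟩ _ _
  have hi4 : IntervalIntegrable w volume 0 (2 * Real.pi) := ii_of hw.m ⟨Cw, hwn⟩ _ _
  have h1 := intervalIntegral.integral_mono_on h2pi.le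
    (((hi1 0 (2 * Real.pi)).add hi2).const_mul (1 / 3)) ((hi3.const_mul c).add (hi4.const_mul ε))
    (fun t _ => by
      have h2 := mul_le_mul_of_nonneg_left (hg t) (hw.nonneg t)
      rw [PhG_S3 K q b z h t] at h2
      have e1 : 1 / 3 * (w t * S3 K q b z t + w t * S3 K q b z (t + Real.pi)) =
        w t * (1 / 3 * (S3 K q b z t + S3 K q b z (t + Real.pi))) := by ring
      have e2 : c * (w t * Real.sqrt (1 - ‖b t‖ ^ 2)) + ε * w t =
        w t * (c * Real.sqrt (1 - ‖b t‖ ^ 2) + ε) := by ring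
      show 1 / 3 * (w t * S3 K q b z t + w t * S3 K q b z (t + Real.pi)) ≤
        c * (w t * Real.sqrt (1 - ‖b t‖ ^ 2)) + ε * w t
      rw [e1, e2]
      exact h2)
  rw [intervalIntegral.integral_const_mul, intervalIntegral.integral_add (hi1 _ _) hi2,
    intervalIntegral.integral_add (hi3.const_mul c) (hi4.const_mul ε),
    intervalIntegral.integral_const_mul, intervalIntegral.integral_const_mul] at h1
  have e2 : ∫ t in (0 : ℝ)..(2 * Real.pi), w t * S3 K q b z (t + Real.pi) =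
      ∫ t in (0 : ℝ)..(2 * Real.pi), w t * S3 K q b z t := by
    have e3 : (fun t => w t * S3 K q b z (t + Real.pi)) =
        fun t => (fun s => w s * S3 K q b z s) (t + Real.pi) := by
      funext t
      show w t * S3 K q b z (t + Real.pi) = w (t + Real.pi) * S3 K q b z (t + Real.pi)
      rw [hw.per]
    rw [e3]
    refine integral_shift (fun s => w s * S3 K q b z s) (fun t => ?_) Real.pi
    have e4 : w (t + 2 * Real.pi) = w t := by
      rw [show t + 2 * Real.pi = (t + Real.pi) + Real.pi by ring, hw.per, hw.per]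
    show w (t + 2 * Real.pi) * S3 K q b z (t + 2 * Real.pi) = w t * S3 K q b z t
    rw [e4, S3_per K q b z h]
  rw [e2] at h1
  have e3 : VVE K (A0Q w q b) (fun t => AAQ w q b t + vvS w z t)
      (fun t => BBQ w q b t - vvS w z t) =
      (1 / (2 * Real.pi)) * ∫ t in (0 : ℝ)..(2 * Real.pi), w t * S3 K q b z t := by
    unfold VVE
    congr 1
    apply intervalIntegral.integral_congr
    intro t _
    have k0 := Pool.Agent.Helper16.RC.sp_smul hKB (w t) (hw.nonneg t) (ee t * aQ q (b t))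
    have k1 := Pool.Agent.Helper16.RC.sp_smul hKB (w t) (hw.nonneg t)
      (ee t * (cQ q (b t) + 1 / 2 * aQ q (b t) + z t))
    have k2 := Pool.Agent.Helper16.RC.sp_smul hKB (w t) (hw.nonneg t)
      (ee t * (cQ q (b t) - 1 / 2 * aQ q (b t) - z t))
    have g1 : AAQ w q b t + vvS w z t =
        (w t : ℂ) * (ee t * (cQ q (b t) + 1 / 2 * aQ q (b t) + z t)) := by
      unfold AAQ vvS; ring
    have g2 : BBQ w q b t - vvS w z t =
        (w t : ℂ) * (ee t * (cQ q (b t) - 1 / 2 * aQ q (b t) - z t)) := by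
      unfold BBQ vvS; ring
    show sp K (A0Q w q b t) + sp K (AAQ w q b t + vvS w z t) + sp K (BBQ w q b t - vvS w z t) =
      w t * S3 K q b z t
    rw [g1, g2, k1, k2]
    unfold A0Q
    rw [k0]
    unfold S3
    ring
  rw [e3]
  unfold mQ
  set X := ∫ t in (0 : ℝ)..(2 * Real.pi), w t * S3 K q b z t
  set Y := ∫ t in (0 : ℝ)..(2 * Real.pi), w t * Real.sqrt (1 - ‖b t‖ ^ 2)
  set W := ∫ t in (0 : ℝ)..(2 * Real.pi), w t
  have e4 : (2 / 3) * (1 / (2 * Real.pi) * X) = ((1 / 3) * (X + X)) / (2 * Real.pi) := by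
    field_simp
    ring
  have e5 : c * (1 / (2 * Real.pi) * Y) + ε * (1 / (2 * Real.pi) * W) =
      (c * Y + ε * W) / (2 * Real.pi) := by
    field_simp
  rw [e4, e5]
  exact div_le_div_of_nonneg_right h1 h2pi.le

/-- Module REDQ: the reduction in the gauge `q` with weights -/
theorem hREDQ (q : ℝ) (hq : 0 < q) (hsix : StSix) (hksd : StKsdQ q) (hsel : StSelQ q)
    (hmix : StMixE) (hpoc : StPoc) (haff : StAff) (hsml : StSml) : StRedQ q := by
  intro κ hκ hR K hK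
  by_contra hT
  have hpi := Real.pi_pos
  obtain ⟨K2, M, hK2, hM0, hM1, h02, hhf, hA2, hsix'⟩ := prep hsix hpoc haff hsml κ hκ K hK hT
  have h00 : (0 : ℂ) ∈ K2 := interior_subset h02
  obtain ⟨ρ, hρ, hb⟩ := Metric.nhds_basis_closedBall.mem_iff.1
    (mem_interior_iff_mem_nhds.1 h02)
  have hsM0 : 0 < Real.sqrt M := Real.sqrt_pos.2 hM0
  have hsM : Real.sqrt M < 1 := by
    rw [Real.sqrt_lt' one_pos]; simpa using hM1
  set c0 := ρ / 3 with hc0
  have hc0p : 0 < c0 := by positivity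
  set ε := c0 * (1 - Real.sqrt M) / 4 with hε
  have hεp : 0 < ε := by
    have : 0 < 1 - Real.sqrt M := by linarith
    positivity
  obtain ⟨b, z, hadm, hphi⟩ := hsel K2 (2 * Real.sqrt M) hK2 h02 (by positivity)
    (fun t ε' hε' => hksd K2 M hK2 hM0 hsix' t ε' hε') ε hεp
  obtain ⟨w, hw, hRw⟩ := hR b z hadm
  have hmean := mean_leQ K2 hK2 h00 q hq b z hadm w hw _ ε hphi
  obtain ⟨D, hD0, hDa, hDc, hDz⟩ := data_bdd q hq b z hadm
  obtain ⟨Cw, hCw⟩ := hw.bd
  have hCw0 : 0 ≤ Cw := le_trans (hw.nonneg 0) (hCw 0)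
  have hwn : ∀ t, ‖(w t : ℂ)‖ ≤ Cw := fun t => by
    rw [Complex.norm_real, Real.norm_eq_abs, abs_of_nonneg (hw.nonneg t)]; exact hCw t
  have hwm : Measurable fun t => ((w t : ℝ) : ℂ) := Complex.measurable_ofReal.comp hw.m
  have he := meas_ee
  have ham : Measurable fun t => aQ q (b t) := aQ_meas q b hadm.mb
  have hcm : Measurable fun t => cQ q (b t) := cQ_meas q b hadm.mb
  have hh : ∀ t, ‖(1 / 2 : ℂ) * aQ q (b t)‖ ≤ D := by
    intro t
    rw [norm_mul]
    have : ‖(1 / 2 : ℂ)‖ = 1 / 2 := by norm_num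
    rw [this]
    linarith [hDa t]
  have g1 : ∀ t, AAQ w q b t + vvS w z t =
      (w t : ℂ) * (ee t * (cQ q (b t) + 1 / 2 * aQ q (b t) + z t)) := by
    intro t; unfold AAQ vvS; ring
  have g2 : ∀ t, BBQ w q b t - vvS w z t =
      (w t : ℂ) * (ee t * (cQ q (b t) - 1 / 2 * aQ q (b t) - z t)) := by
    intro t; unfold BBQ vvS; ring
  obtain ⟨hV0, hV1⟩ := hmix K2 (A0Q w q b) (fun t => AAQ w q b t + vvS w z t)
    (fun t => BBQ w q b t - vvS w z t) (Cw * (3 * D)) hK2 h02 hhf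
    (by unfold A0Q; exact hwm.mul (he.mul ham))
    (by
      simp only [g1]
      exact hwm.mul (he.mul ((hcm.add (measurable_const.mul ham)).add hadm.mz)))
    (by
      simp only [g2]
      exact hwm.mul (he.mul ((hcm.sub (measurable_const.mul ham)).sub hadm.mz)))
    (by
      intro t
      unfold A0Q
      rw [norm_mul, norm_mul, norm_ee, one_mul]
      exact mul_le_mul (hwn t) (by linarith [hDa t]) (norm_nonneg _) hCw0)
    (by
      intro t
      show ‖AAQ w q b t + vvS w z t‖ ≤ _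
      rw [g1, norm_mul, norm_mul, norm_ee, one_mul]
      refine mul_le_mul (hwn t) ?_ (norm_nonneg _) hCw0
      have e1 := norm_add_le (cQ q (b t) + 1 / 2 * aQ q (b t)) (z t)
      have e2 := norm_add_le (cQ q (b t)) (1 / 2 * aQ q (b t))
      linarith [hDc t, hDz t, hh t])
    (by
      intro t
      show ‖BBQ w q b t - vvS w z t‖ ≤ _
      rw [g2, norm_mul, norm_mul, norm_ee, one_mul]
      refine mul_le_mul (hwn t) ?_ (norm_nonneg _) hCw0
      have e1 := norm_sub_le (cQ q (b t) - 1 / 2 * aQ q (b t)) (z t)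
      have e2 := norm_sub_le (cQ q (b t)) (1 / 2 * aQ q (b t))
      linarith [hDc t, hDz t, hh t])
    (by
      intro t
      show A0Q w q b (t + Real.pi) + (AAQ w q b (t + Real.pi) + vvS w z (t + Real.pi)) +
        (BBQ w q b (t + Real.pi) - vvS w z (t + Real.pi)) =
        -(A0Q w q b t + (AAQ w q b t + vvS w z t) + (BBQ w q b t - vvS w z t))
      unfold A0Q AAQ BBQ vvS
      rw [hw.per, hadm.perb, hadm.perz, ee_add_pi]
      ring)
  rw [hA2] at hV1
  have hRw' : 9 * κ * (mQ w b) ^ 2 ≤ FME (A0Q w q b) (fun t => AAQ w q b t + vvS w z t)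
    (fun t => BBQ w q b t - vvS w z t) := hRw
  set VV' := VVE K2 (A0Q w q b) (fun t => AAQ w q b t + vvS w z t)
    (fun t => BBQ w q b t - vvS w z t) with hVV'
  set FF := FME (A0Q w q b) (fun t => AAQ w q b t + vvS w z t)
    (fun t => BBQ w q b t - vvS w z t) with hFF
  have hV2 : FF ≤ κ * VV' ^ 2 := by
    have : Real.pi / κ * FF = Real.pi * (FF / κ) := by ring
    rw [this] at hV1
    have h3 := le_of_mul_le_mul_left hV1 hpi
    rw [div_le_iff₀ hκ] at h3
    linarith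
  set wb := (1 / (2 * Real.pi)) * ∫ t in (0 : ℝ)..(2 * Real.pi), w t with hwb
  have hwbp : 0 < wb := by
    have := hw.pos
    positivity
  have hmS : (c0 - ε) / 2 * wb ≤ mQ w b := by
    have hpt : ∀ t, w t * ((c0 - ε) / 2) ≤ w t * Real.sqrt (1 - ‖b t‖ ^ 2) := by
      intro t
      apply mul_le_mul_of_nonneg_left _ (hw.nonneg t)
      have h1 := PhG_geQ K2 hK2.2.1 ρ hρ hb t q (b t) (z t)
      have h2 := hphi t
      have h3 : 0 ≤ Real.sqrt (1 - ‖b t‖ ^ 2) := Real.sqrt_nonneg _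
      nlinarith
    have hrm : Measurable (fun t => Real.sqrt (1 - ‖b t‖ ^ 2)) :=
      (measurable_const.sub (hadm.mb.norm.pow_const 2)).sqrt
    have hwn' : ∀ t, ‖w t‖ ≤ Cw := fun t => by
      rw [Real.norm_eq_abs, abs_of_nonneg (hw.nonneg t)]; exact hCw t
    have hi3 : IntervalIntegrable (fun t => w t * Real.sqrt (1 - ‖b t‖ ^ 2)) volume 0 (2 * Real.pi) :=
      ii_of (hw.m.mul hrm) ⟨Cw * 1, fun t => by
        show ‖w t * Real.sqrt (1 - ‖b t‖ ^ 2)‖ ≤ _
        rw [norm_mul]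
        refine mul_le_mul (hwn' t) ?_ (norm_nonneg _) hCw0
        rw [Real.norm_eq_abs, abs_of_nonneg (Real.sqrt_nonneg _)]
        apply Real.sqrt_le_iff.2
        exact ⟨zero_le_one, by nlinarith [sq_nonneg ‖b t‖]⟩⟩ _ _
    have hi4 : IntervalIntegrable (fun t => w t * ((c0 - ε) / 2)) volume 0 (2 * Real.pi) :=
      (ii_of hw.m ⟨Cw, hwn'⟩ _ _).mul_const _
    have h1 := intervalIntegral.integral_mono_on (by positivity : (0 : ℝ) ≤ 2 * Real.pi)
      hi4 hi3 (fun x _ => hpt x)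
    rw [intervalIntegral.integral_mul_const] at h1
    unfold mQ
    rw [hwb, show (c0 - ε) / 2 * (1 / (2 * Real.pi) * ∫ t in (0 : ℝ)..(2 * Real.pi), w t) =
      1 / (2 * Real.pi) * ((∫ t in (0 : ℝ)..(2 * Real.pi), w t) * ((c0 - ε) / 2)) by ring]
    exact mul_le_mul_of_nonneg_left h1 (by positivity)
  have hεc : 4 * ε = c0 * (1 - Real.sqrt M) := by rw [hε]; ring
  have hεle : ε ≤ c0 / 4 := by nlinarith
  have hmW0 : 0 ≤ mQ w b := by
    refine le_trans ?_ hmS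
    apply mul_nonneg _ hwbp.le
    linarith
  have h5 : 3 * mQ w b ≤ VV' := by
    have h6 : κ * (3 * mQ w b) ^ 2 ≤ κ * VV' ^ 2 := by nlinarith
    have h7 := le_of_mul_le_mul_left h6 hκ
    exact (sq_le_sq₀ (by positivity) hV0).1 h7
  have h6 : mQ w b * (1 - Real.sqrt M) ≤ ε * wb / 2 := by linarith
  have h7 := mul_le_mul_of_nonneg_right hmS (by linarith : (0 : ℝ) ≤ 1 - Real.sqrt M)
  have h8 : (c0 - ε) / 2 * wb * (1 - Real.sqrt M) ≤ ε * wb / 2 := h7.trans h6
  have h9 : (c0 - ε) * (1 - Real.sqrt M) * wb ≤ ε * wb := by linarith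
  have h10 : (c0 - ε) * (1 - Real.sqrt M) ≤ ε := le_of_mul_le_mul_right h9 hwbp
  nlinarith

end Helper44.GQ.REDQ
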