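import Pool.Agent.Helper49.RC.All
import Pool.Agent.Helper44.RC.M_KSDQ
import Pool.Agent.Helper44.RC.M_REDQ

/-!
# Project RC: the reduction in the gauge `q`, closed

`stRedQ q : 0 < q → StRedQ q`, no hypotheses: `Rq q κ` implies `theta K ≤ 1/(κ m0)` for every planar convex body `K`.
-/

namespace Helper44.GQ

open Helper49.RC

/-- THE REDUCTION with the target `Rq q κ` -/
theorem stRedQ (q : ℝ) (hq : 0 < q) : StRedQ q :=
  REDQ.hREDQ q hq stSix (hKSDQ q hq) (SELQ.hSELQ q hq) stMixE stPoc Pool.Agent.Helper73.LT.hAFF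
    Helper97.CB.stSml

end Helper44.GQ
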