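import Pool.Agent.Helper44.RC.M_INTL

/-! # Project RC: the general cut lemma; modules A00, A0Q, COE, and CUT from INT -/

open MeasureTheory Set Filter Metric

namespace Helper44.RC

open Helper49.LT hiding sg
open Helper49.RC
open Helper87.RC

variable {β P : ℝ → ℂ}

theorem FF_meas (h : Adm β P) (l : Fin 4) : Measurable (FF β P l) := by
  fin_cases l
  · exact F1_meas h
  · exact F2_meas h
  · exact F1_meas h
  · exact F2_meas h

theorem FF_le (h : Adm β P) (l : Fin 4) (θ : ℝ) : ‖FF β P l θ‖ ≤ 9 := by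
  fin_cases l
  · exact F1_le h θ
  · exact F2_le h θ
  · exact F1_le h θ
  · exact F2_le h θ

theorem sum_FF (h : Adm β P) (s : ℝ) : ∑ l, FF β P l (s + nom l) = 0 := by
  rw [← sum_q4 s (β s) (P s)]
  exact Finset.sum_congr rfl fun l _ => (q4_FF h s l).symm

theorem im_le' {u v : ℂ} {A B : ℝ} (hu : ‖u‖ ≤ A) (hv : ‖v‖ ≤ B) :
    |(u * (starRingEnd ℂ) v).im| ≤ A * B := by
  refine (Complex.abs_im_le_norm _).trans ?_
  rw [norm_mul, Complex.norm_conj]
  exact mul_le_mul hu hv (norm_nonneg _) ((norm_nonneg _).trans hu)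

theorem cut_gen (h : Adm β P) {K : ℝ × ℝ → ℝ} (Km : Measurable K) {C : ℝ} (Kb : ∀ q, |K q| ≤ C)
    {G1 G2 : ℝ → ℝ → ℂ} (g1 : Measurable (fun q : ℝ × ℝ => G1 q.1 q.2))
    (g2 : Measurable (fun q : ℝ × ℝ => G2 q.1 q.2)) {D : ℝ} (d1 : ∀ θ t, ‖G1 θ t‖ ≤ D)
    (d2 : ∀ θ t, ‖G2 θ t‖ ≤ D) (p1 : ∀ θ t, G1 (θ + 2 * Real.pi) t = G1 θ t)
    (p2 : ∀ θ t, G2 (θ + 2 * Real.pi) t = G2 θ t) {Z1 Z2 : ℝ → ℂ} {c : ℂ}
    (z1 : ∀ θ, ∫ t in (0 : ℝ)..(2 * Real.pi), G1 θ t = Z1 θ + c)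
    (z2 : ∀ θ, ∫ t in (0 : ℝ)..(2 * Real.pi), G2 θ t = Z2 θ + c)
    (hK : ∀ t s, ∑ l, (FF β P l (s + nom l) * (starRingEnd ℂ)
      ((![G1, G2, G1, G2] : Fin 4 → ℝ → ℝ → ℂ) l (s + nom l) t)).im ≤ K (t, s)) :
    2 * ∫ θ in (0 : ℝ)..(2 * Real.pi), ((F1 β P θ * (starRingEnd ℂ) (Z1 θ)).im
      + (F2 β P θ * (starRingEnd ℂ) (Z2 θ)).im) ≤ dbl K := by
  set GG : Fin 4 → ℝ → ℝ → ℂ := ![G1, G2, G1, G2] with hGG
  set ZZ : Fin 4 → ℝ → ℂ := ![Z1, Z2, Z1, Z2] with hZZ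
  have gm : ∀ l, Measurable (fun q : ℝ × ℝ => GG l q.1 q.2) := by
    intro l
    fin_cases l
    · exact g1
    · exact g2
    · exact g1
    · exact g2
  have gd : ∀ l θ t, ‖GG l θ t‖ ≤ D := by
    intro l
    fin_cases l
    · exact d1
    · exact d2
    · exact d1
    · exact d2
  have gz : ∀ l θ, ∫ t in (0 : ℝ)..(2 * Real.pi), GG l θ t = ZZ l θ + c := by
    intro l
    fin_cases l
    · exact z1
    · exact z2
    · exact z1
    · exact z2
  set g : ℝ × ℝ → ℝ := fun q => ∑ l, (FF β P l (q.2 + nom l) * (starRingEnd ℂ)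
      (GG l (q.2 + nom l) q.1)).im with hg
  have gM : Measurable g := by
    refine Finset.measurable_sum _ fun l _ => ?_
    refine meas_im ((FF_meas h l).comp (measurable_snd.add_const _)) ?_
    exact (gm l).comp ((measurable_snd.add_const _).prodMk measurable_fst)
  have gB : ∀ q, |g q| ≤ 4 * (9 * D) := by
    intro q
    refine (Finset.abs_sum_le_sum_abs _ _).trans ?_
    refine (Finset.sum_le_sum fun l _ => im_le' (FF_le h l _) (gd l _ _)).trans ?_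
    simp
  have hle : dbl g ≤ dbl K := dbl_mono gM Km gB Kb fun q => hK q.1 q.2
  refine le_trans (le_of_eq ?_) hle
  rw [dbl_swap gM gB]
  have zm : ∀ {G : ℝ → ℝ → ℂ} {Z : ℝ → ℂ}, Measurable (fun q : ℝ × ℝ => G q.1 q.2) →
      (∀ θ, ∫ t in (0 : ℝ)..(2 * Real.pi), G θ t = Z θ + c) → Measurable Z := by
    intro G Z hG hZ
    have h1 : StronglyMeasurable (fun q : ℝ × ℝ => G q.1 q.2) := hG.stronglyMeasurable
    have h2 := (h1.integral_prod_right' (ν := volume.restrict (Ioc 0 (2 * Real.pi)))).measurable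
    have h3 : Z = fun θ => (∫ t, G θ t ∂(volume.restrict (Ioc 0 (2 * Real.pi)))) - c := by
      funext θ
      rw [← intervalIntegral.integral_of_le two_pi_nonneg, hZ]
      ring
    rw [h3]
    exact h2.sub_const c
  have zb : ∀ {G : ℝ → ℝ → ℂ} {Z : ℝ → ℂ}, (∀ θ t, ‖G θ t‖ ≤ D) →
      (∀ θ, ∫ t in (0 : ℝ)..(2 * Real.pi), G θ t = Z θ + c) → ∀ θ,
      ‖Z θ‖ ≤ D * |2 * Real.pi - 0| + ‖c‖ := by
    intro G Z hG hZ θ
    have h1 : ‖∫ t in (0 : ℝ)..(2 * Real.pi), G θ t‖ ≤ D * |2 * Real.pi - 0| :=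
      intervalIntegral.norm_integral_le_of_norm_le_const fun s _ => hG θ s
    have h2 : Z θ = (∫ t in (0 : ℝ)..(2 * Real.pi), G θ t) - c := by
      rw [hZ]
      ring
    rw [h2]
    exact (norm_sub_le _ _).trans (by linarith)
  have zp : ∀ {G : ℝ → ℝ → ℂ} {Z : ℝ → ℂ}, (∀ θ t, G (θ + 2 * Real.pi) t = G θ t) →
      (∀ θ, ∫ t in (0 : ℝ)..(2 * Real.pi), G θ t = Z θ + c) → ∀ θ,
      Z (θ + 2 * Real.pi) = Z θ := by
    intro G Z hG hZ θ
    have h1 := hZ (θ + 2 * Real.pi)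
    simp_rw [hG] at h1
    rw [hZ θ] at h1
    exact (add_right_cancel h1).symm
  set H1 : ℝ → ℝ := fun θ => (F1 β P θ * (starRingEnd ℂ) (Z1 θ)).im with hH1
  set H2 : ℝ → ℝ := fun θ => (F2 β P θ * (starRingEnd ℂ) (Z2 θ)).im with hH2
  have mim : ∀ {f g : ℝ → ℂ}, Measurable f → Measurable g →
      Measurable (fun q => (f q * (starRingEnd ℂ) (g q)).im) := fun hf hg =>
    Complex.measurable_im.comp (hf.mul (Complex.continuous_conj.measurable.comp hg))
  have hs := sum_nom (H1 := H1) (H2 := H2) (mim (F1_meas h) (zm g1 z1)) (mim (F2_meas h) (zm g2 z2))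
    (C := 9 * (D * |2 * Real.pi - 0| + ‖c‖)) (fun θ => im_le' (F1_le h θ) (zb d1 z1 θ))
    (fun θ => im_le' (F2_le h θ) (zb d2 z2 θ))
    (fun θ => by simp only [hH1]; rw [F1_per h, zp p1 z1])
    (fun θ => by simp only [hH2]; rw [F2_per h, zp p2 z2])
  rw [← hs]
  unfold dbl
  congr 1
  funext s
  have e1 : ∀ l, ∫ t in (0 : ℝ)..(2 * Real.pi), (FF β P l (s + nom l) * (starRingEnd ℂ)
      (GG l (s + nom l) t)).im = (FF β P l (s + nom l) * (starRingEnd ℂ)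
      (ZZ l (s + nom l) + c)).im := by
    intro l
    rw [im_int, gz]
    exact intg_of_bddC ((gm l).comp (measurable_const.prodMk measurable_id)) (fun t => gd l _ t) _ _
  have e2 : ∫ t in (0 : ℝ)..(2 * Real.pi), g (t, s) = ∑ l, (FF β P l (s + nom l) * (starRingEnd ℂ)
      (ZZ l (s + nom l) + c)).im := by
    simp only [hg]
    rw [intervalIntegral.integral_finset_sum]
    · exact Finset.sum_congr rfl fun l _ => e1 l
    · intro l _
      refine intg_of_bdd (C := 9 * D) ?_ (fun t => im_le' (FF_le h l _) (gd l _ t)) _ _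
      exact mim measurable_const ((gm l).comp (measurable_const.prodMk measurable_id))
  have e3 : ∑ l, (FF β P l (s + nom l) * (starRingEnd ℂ) (ZZ l (s + nom l) + c)).im
      = ∑ l, (FF β P l (s + nom l) * (starRingEnd ℂ) (ZZ l (s + nom l))).im := by
    have h4 : ∑ l, (FF β P l (s + nom l) * (starRingEnd ℂ) c).im = 0 := by
      rw [← Complex.im_sum, ← Finset.sum_mul, sum_FF h]
      simp
    simp_rw [map_add, mul_add, Complex.add_im]
    rw [Finset.sum_add_distrib, h4, add_zero]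
  show _ = ∫ t in (0 : ℝ)..(2 * Real.pi), g (t, s)
  rw [e2, e3, Fin.sum_univ_four, Fin.sum_univ_four]
  rfl

/-- values of the double sums -/
theorem A0Q_eq : A0Q β P = 1 / (16 * Real.pi) * dbl (fun q =>
    ∑ l, |(q4 q.2 (β q.2) (P q.2) l * (starRingEnd ℂ) (E0 β q.1)).im|) := rfl

theorem AQQ_eq : AQQ β P = 1 / 4 * (1 / (2 * Real.pi)) ^ 2 * dbl (fun q =>
    ∑ k, ∑ l, kr (q4 q.1 (β q.1) (P q.1) k) (q4 q.2 (β q.2) (P q.2) l)) := rfl

theorem A00_eq : A00 β = 1 / (8 * Real.pi) * dbl (fun q =>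
    |(E0 β q.2 * (starRingEnd ℂ) (E0 β q.1)).im|) := rfl

theorem sg_le_abs {e x : ℝ} (he : |e| ≤ 1) : e * x ≤ |x| := by
  refine (le_abs_self _).trans ?_
  rw [abs_mul]
  have := mul_le_mul_of_nonneg_right he (abs_nonneg x)
  linarith

/-- Module A00. -/
theorem hA00 : StA00 := by
  intro β P h
  set g : ℝ × ℝ → ℝ := fun q => (E0 β q.2 * (starRingEnd ℂ) ((sgs (q.2 - q.1) : ℂ) * E0 β q.1)).im
    with hg
  have hsm : Measurable (fun q : ℝ × ℝ => (sgs (q.2 - q.1) : ℂ) * E0 β q.1) :=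
    (Complex.measurable_ofReal.comp (sgs_meas.comp (measurable_snd.sub measurable_fst))).mul
      ((E0_meas h).comp measurable_fst)
  have hsb : ∀ x t : ℝ, ‖(sgs x : ℂ) * E0 β t‖ ≤ 6 := by
    intro x t
    rw [norm_mul, Complex.norm_real, Real.norm_eq_abs]
    have := mul_le_mul (sgs_abs x) (E0_le h t) (norm_nonneg _) (by norm_num)
    linarith
  have gM : Measurable g := meas_im ((E0_meas h).comp measurable_snd) hsm
  have gB : ∀ q, |g q| ≤ 36 := fun q => im_le (E0_le h _) (hsb _ _)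
  have uM : Measurable (fun q : ℝ × ℝ => |(E0 β q.2 * (starRingEnd ℂ) (E0 β q.1)).im|) :=
    (meas_im ((E0_meas h).comp measurable_snd) ((E0_meas h).comp measurable_fst)).abs
  have uB : ∀ q : ℝ × ℝ, |(|(E0 β q.2 * (starRingEnd ℂ) (E0 β q.1)).im|)| ≤ 36 := fun q => by
    rw [abs_abs]
    exact im_le (E0_le h _) (E0_le h _)
  have hle := dbl_mono gM uM gB uB fun q => by
    have : g q = sgs (q.2 - q.1) * (E0 β q.2 * (starRingEnd ℂ) (E0 β q.1)).im := by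
      simp only [hg]
      rw [map_mul, Complex.conj_ofReal, ← Complex.im_ofReal_mul]
      congr 1
      ring
    rw [this]
    exact sg_le_abs (sgs_abs _)
  have e1 : dbl g = ∫ s in (0 : ℝ)..(2 * Real.pi),
      (E0 β s * (starRingEnd ℂ) (2 * ∫ t in (s - Real.pi)..s, E0 β t)).im := by
    rw [dbl_swap gM gB]
    unfold dbl
    congr 1
    funext s
    show (∫ t in (0 : ℝ)..(2 * Real.pi),
      (E0 β s * (starRingEnd ℂ) ((sgs (s - t) : ℂ) * E0 β t)).im) = _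
    rw [im_int, int_sgs (E0_meas h) (E0_le h) (E0_anti h)]
    refine intg_of_bddC (C := 6) ?_ (fun t => hsb _ t) _ _
    exact (Complex.measurable_ofReal.comp (sgs_meas.comp (measurable_const.sub measurable_id))).mul
      (E0_meas h)
  have e2 : ∫ s in (0 : ℝ)..(2 * Real.pi),
      (E0 β s * (starRingEnd ℂ) (2 * ∫ t in (s - Real.pi)..s, E0 β t)).im
      = 2 * ∫ s in (0 : ℝ)..(2 * Real.pi),
      (E0 β s * (starRingEnd ℂ) (∫ t in (s - Real.pi)..s, E0 β t)).im := by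
    rw [← intervalIntegral.integral_const_mul]
    congr 1
    funext s
    have h2 : (2 : ℂ) = ((2 : ℝ) : ℂ) := by norm_num
    rw [map_mul, h2, Complex.conj_ofReal, ← Complex.im_ofReal_mul]
    congr 1
    ring
  rw [A00_eq]
  have hpi := Real.pi_pos
  have e3 : 1 / (4 * Real.pi) * ∫ θ in (0 : ℝ)..(2 * Real.pi),
      (E0 β θ * (starRingEnd ℂ) (∫ t in (θ - Real.pi)..θ, E0 β t)).im
      = 1 / (8 * Real.pi) * dbl g := by
    rw [e1, e2]
    field_simp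
    ring
  rw [e3]
  exact mul_le_mul_of_nonneg_left hle (by positivity)

/-- change of the choice functions on the period -/
theorem int_congr_choice {f g : ℝ → ℝ} (h : ∀ θ, 0 ≤ θ → θ < 2 * Real.pi → f θ = g θ) :
    ∫ θ in (0 : ℝ)..(2 * Real.pi), f θ = ∫ θ in (0 : ℝ)..(2 * Real.pi), g θ := by
  refine intervalIntegral.integral_congr_ae ?_
  have h3 : ∀ᵐ t : ℝ, t ≠ 2 * Real.pi := by
    have := (measure_singleton (μ := (volume : Measure ℝ)) (2 * Real.pi))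
    exact compl_mem_ae_iff.2 this
  filter_upwards [h3] with t ht1 ht
  rw [uIoc_of_le two_pi_nonneg] at ht
  exact h t ht.1.le (lt_of_le_of_ne ht.2 ht1)

/-- Module A0Q. -/
theorem hA0Q : StA0Q := by
  intro β P h φ1 φ2 hφ1 hφ2
  obtain ⟨ψ1, m1, p1, q1⟩ := per_ext hφ1
  obtain ⟨ψ2, m2, p2, q2⟩ := per_ext hφ2
  have gm : ∀ {ψ : ℝ → ℝ}, Measurable ψ →
      Measurable (fun q : ℝ × ℝ => (sgs (ψ q.1 - q.2) : ℂ) * E0 β q.2) := fun hm =>
    (Complex.measurable_ofReal.comp (sgs_meas.comp ((hm.comp measurable_fst).sub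
      measurable_snd))).mul ((E0_meas h).comp measurable_snd)
  have hsb : ∀ x t : ℝ, ‖(sgs x : ℂ) * E0 β t‖ ≤ 6 := by
    intro x t
    rw [norm_mul, Complex.norm_real, Real.norm_eq_abs]
    have := mul_le_mul (sgs_abs x) (E0_le h t) (norm_nonneg _) (by norm_num)
    linarith
  have wm : Measurable (fun q : ℝ × ℝ =>
      ∑ l, |(q4 q.2 (β q.2) (P q.2) l * (starRingEnd ℂ) (E0 β q.1)).im|) :=
    Finset.measurable_sum _ fun l _ =>
    (meas_im ((q4_meas h l).comp measurable_snd) ((E0_meas h).comp measurable_fst)).abs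
  have wb : ∀ q : ℝ × ℝ, |(∑ l, |(q4 q.2 (β q.2) (P q.2) l * (starRingEnd ℂ) (E0 β q.1)).im|)|
      ≤ 4 * 36 := fun q => by
    refine (Finset.abs_sum_le_sum_abs _ _).trans ?_
    refine (Finset.sum_le_sum fun l _ => (by
      rw [abs_abs]; exact im_le (q4_le h _ _) (E0_le h _) :
      |(|(q4 q.2 (β q.2) (P q.2) l * (starRingEnd ℂ) (E0 β q.1)).im|)| ≤ 36)).trans ?_
    simp
  have key := cut_gen h (K := fun q : ℝ × ℝ =>
      ∑ l, |(q4 q.2 (β q.2) (P q.2) l * (starRingEnd ℂ) (E0 β q.1)).im|) wm wb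
    (G1 := fun θ t => (sgs (ψ1 θ - t) : ℂ) * E0 β t)
    (G2 := fun θ t => (sgs (ψ2 θ - t) : ℂ) * E0 β t) (gm m1) (gm m2) (D := 6)
    (fun θ t => hsb _ t) (fun θ t => hsb _ t) (fun θ t => by rw [p1]) (fun θ t => by rw [p2])
    (Z1 := fun θ => 2 * ∫ t in (ψ1 θ - Real.pi)..(ψ1 θ), E0 β t)
    (Z2 := fun θ => 2 * ∫ t in (ψ2 θ - Real.pi)..(ψ2 θ), E0 β t) (c := 0)
    (fun θ => by rw [int_sgs (E0_meas h) (E0_le h) (E0_anti h), add_zero])
    (fun θ => by rw [int_sgs (E0_meas h) (E0_le h) (E0_anti h), add_zero])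
    (fun t s => by
      refine Finset.sum_le_sum fun l _ => ?_
      rw [q4_FF h s l]
      have hc : ∀ (e : ℝ) (z w : ℂ), |e| ≤ 1 → (z * (starRingEnd ℂ) ((e : ℂ) * w)).im
          ≤ |(z * (starRingEnd ℂ) w).im| := by
        intro e z w he
        have h5 : (z * (starRingEnd ℂ) ((e : ℂ) * w)).im = e * (z * (starRingEnd ℂ) w).im := by
          rw [map_mul, Complex.conj_ofReal, ← Complex.im_ofReal_mul]
          congr 1
          ring
        rw [h5]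
        exact sg_le_abs he
      fin_cases l
      · exact hc _ _ _ (sgs_abs _)
      · exact hc _ _ _ (sgs_abs _)
      · exact hc _ _ _ (sgs_abs _)
      · exact hc _ _ _ (sgs_abs _))
  have e1 : ∫ θ in (0 : ℝ)..(2 * Real.pi),
      ((F1 β P θ * (starRingEnd ℂ) (2 * ∫ t in (ψ1 θ - Real.pi)..(ψ1 θ), E0 β t)).im
      + (F2 β P θ * (starRingEnd ℂ) (2 * ∫ t in (ψ2 θ - Real.pi)..(ψ2 θ), E0 β t)).im)
      = 2 * ∫ θ in (0 : ℝ)..(2 * Real.pi),
    ((F1 β P θ * (starRingEnd ℂ) (∫ t in (φ1 θ - Real.pi)..(φ1 θ), E0 β t)).im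
      + (F2 β P θ * (starRingEnd ℂ) (∫ t in (φ2 θ - Real.pi)..(φ2 θ), E0 β t)).im) := by
    rw [← intervalIntegral.integral_const_mul]
    refine int_congr_choice fun θ h0 h1 => ?_
    rw [q1 θ h0 h1, q2 θ h0 h1]
    have h2 : (2 : ℂ) = ((2 : ℝ) : ℂ) := by norm_num
    rw [map_mul, map_mul, h2, Complex.conj_ofReal, mul_add, ← Complex.im_ofReal_mul,
      ← Complex.im_ofReal_mul]
    congr 2 <;> ring
  rw [e1] at key
  rw [A0Q_eq]
  have hpi := Real.pi_pos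
  have h6 := mul_le_mul_of_nonneg_left key (by positivity : 0 ≤ 1 / (16 * Real.pi))
  refine le_trans (le_of_eq ?_) h6
  field_simp
  ring

theorem kk_meas (h : Adm β P) : Measurable (fun q : ℝ × ℝ =>
    ∑ k, ∑ l, kr (q4 q.1 (β q.1) (P q.1) k) (q4 q.2 (β q.2) (P q.2) l)) :=
  KK_meas (e := fun t => q4 t (β t) (P t)) (q4_meas h)

theorem kk_le (h : Adm β P) (q : ℝ × ℝ) :
    |∑ k, ∑ l, kr (q4 q.1 (β q.1) (P q.1) k) (q4 q.2 (β q.2) (P q.2) l)|
      ≤ (4 : ℕ) * ((4 : ℕ) * (Real.pi * (6 * 6))) :=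
  KK_le (e := fun t => q4 t (β t) (P t)) (q4_le h) q.1 q.2

theorem yv_le (h : Adm β P) (t : ℝ) {e1 e2 : ℝ} (h1 : |e1| ≤ 1) (h2 : |e2| ≤ 1) :
    ‖yv (β t) (P t) t e1 e2‖ ≤ 9 := by
  have e : yv (β t) (P t) t e1 e2 = (1 / 2 : ℂ) * ((e1 : ℂ) * E1 β t + (e2 : ℂ) * E2 β t)
      - (1 / 2 : ℂ) * (((e1 * e2 : ℝ) : ℂ) * vv P t) := by
    unfold yv E1 E2 vv
    push_cast
    ring
  rw [e]
  refine (norm_sub_le _ _).trans ?_
  have n1 : ‖(e1 : ℂ) * E1 β t‖ ≤ 6 := by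
    rw [norm_mul, Complex.norm_real, Real.norm_eq_abs]
    have := mul_le_mul h1 (E1_le h t) (norm_nonneg _) (by norm_num)
    linarith
  have n2 : ‖(e2 : ℂ) * E2 β t‖ ≤ 6 := by
    rw [norm_mul, Complex.norm_real, Real.norm_eq_abs]
    have := mul_le_mul h2 (E2_le h t) (norm_nonneg _) (by norm_num)
    linarith
  have n3 : ‖((e1 * e2 : ℝ) : ℂ) * vv P t‖ ≤ 3 := by
    rw [norm_mul, Complex.norm_real, Real.norm_eq_abs, abs_mul]
    have h3 := mul_le_mul h1 h2 (abs_nonneg _) (by norm_num)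
    have := mul_le_mul h3 (vv_le h t) (norm_nonneg _) (by norm_num)
    linarith
  have n4 : ‖(1 / 2 : ℂ) * ((e1 : ℂ) * E1 β t + (e2 : ℂ) * E2 β t)‖ ≤ 6 := by
    rw [norm_mul]
    have := norm_add_le ((e1 : ℂ) * E1 β t) ((e2 : ℂ) * E2 β t)
    norm_num
    linarith
  have n5 : ‖(1 / 2 : ℂ) * (((e1 * e2 : ℝ) : ℂ) * vv P t)‖ ≤ 3 := by
    rw [norm_mul]
    norm_num at n3 ⊢
    linarith
  linarith

theorem yv_meas (h : Adm β P) {a b : ℝ × ℝ → ℝ} (ha : Measurable a) (hb : Measurable b) :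
    Measurable (fun q : ℝ × ℝ => yv (β q.2) (P q.2) q.2 (a q) (b q)) := by
  unfold yv f1 f2
  have hβ : Measurable (fun q : ℝ × ℝ => β q.2) := h.mb.comp measurable_snd
  have hP : Measurable (fun q : ℝ × ℝ => P q.2) := h.mp.comp measurable_snd
  have hee : Measurable (fun q : ℝ × ℝ => ee q.2) := continuous_ee.measurable.comp measurable_snd
  have hac : Measurable (fun q : ℝ × ℝ => ((a q : ℝ) : ℂ)) := Complex.measurable_ofReal.comp ha
  have hbc : Measurable (fun q : ℝ × ℝ => ((b q : ℝ) : ℂ)) := Complex.measurable_ofReal.comp hb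
  have habc : Measurable (fun q : ℝ × ℝ => ((a q * b q : ℝ) : ℂ)) :=
    Complex.measurable_ofReal.comp (ha.mul hb)
  exact hee.mul (((((hac.mul ((measurable_const.add (hβ.const_mul _)).add_const _)).add
    (hbc.mul ((measurable_const.add (hβ.const_mul _)).sub_const _))).const_mul _).sub
    ((habc.const_mul _).mul hP)))

/-- The cut lemma for the quadrilaterals: arbitrary signs. -/
theorem cut_QQ (h : Adm β P) (hb : ∀ t, ‖β t‖ < 1) {a1 b1 a2 b2 : ℝ → ℝ → ℝ}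
    (ma1 : Measurable (fun q : ℝ × ℝ => a1 q.1 q.2)) (mb1 : Measurable (fun q : ℝ × ℝ => b1 q.1 q.2))
    (ma2 : Measurable (fun q : ℝ × ℝ => a2 q.1 q.2)) (mb2 : Measurable (fun q : ℝ × ℝ => b2 q.1 q.2))
    (la1 : ∀ θ t, |a1 θ t| ≤ 1) (lb1 : ∀ θ t, |b1 θ t| ≤ 1) (la2 : ∀ θ t, |a2 θ t| ≤ 1)
    (lb2 : ∀ θ t, |b2 θ t| ≤ 1)
    (pa1 : ∀ θ t, a1 (θ + 2 * Real.pi) t = a1 θ t) (pb1 : ∀ θ t, b1 (θ + 2 * Real.pi) t = b1 θ t)
    (pa2 : ∀ θ t, a2 (θ + 2 * Real.pi) t = a2 θ t) (pb2 : ∀ θ t, b2 (θ + 2 * Real.pi) t = b2 θ t)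
    {Z1 Z2 : ℝ → ℂ} {c : ℂ}
    (z1 : ∀ θ, ∫ t in (0 : ℝ)..(2 * Real.pi), yv (β t) (P t) t (a1 θ t) (b1 θ t) = Z1 θ + c)
    (z2 : ∀ θ, ∫ t in (0 : ℝ)..(2 * Real.pi), yv (β t) (P t) t (a2 θ t) (b2 θ t) = Z2 θ + c) :
    1 / (4 * Real.pi) * ∫ θ in (0 : ℝ)..(2 * Real.pi), ((F1 β P θ * (starRingEnd ℂ) (Z1 θ)).im
      + (F2 β P θ * (starRingEnd ℂ) (Z2 θ)).im) ≤ AQQ β P := by
  have hpi := Real.pi_pos
  have key := cut_gen h (K := fun q : ℝ × ℝ => 1 / (2 * Real.pi) *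
      ∑ k, ∑ l, kr (q4 q.1 (β q.1) (P q.1) k) (q4 q.2 (β q.2) (P q.2) l))
    ((kk_meas h).const_mul _) (C := |1 / (2 * Real.pi)| * ((4 : ℕ) * ((4 : ℕ) * (Real.pi * (6 * 6)))))
    (fun q => by
      rw [abs_mul]
      exact mul_le_mul_of_nonneg_left (kk_le h q) (abs_nonneg _))
    (G1 := fun θ t => yv (β t) (P t) t (a1 θ t) (b1 θ t))
    (G2 := fun θ t => yv (β t) (P t) t (a2 θ t) (b2 θ t))
    (yv_meas h ma1 mb1) (yv_meas h ma2 mb2) (D := 9)
    (fun θ t => yv_le h t (la1 θ t) (lb1 θ t)) (fun θ t => yv_le h t (la2 θ t) (lb2 θ t))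
    (fun θ t => by rw [pa1, pb1]) (fun θ t => by rw [pa2, pb2]) z1 z2
    (fun t s => by
      have h1 := tQQ (β t) (P t) (β s) (P s) t s (hb t) (h.reg t)
        (fun l => (![a1, a2, a1, a2] : Fin 4 → ℝ → ℝ → ℝ) l (s + nom l) t)
        (fun l => (![b1, b2, b1, b2] : Fin 4 → ℝ → ℝ → ℝ) l (s + nom l) t)
        (fun l => by
          fin_cases l
          · exact la1 _ _
          · exact la2 _ _
          · exact la1 _ _
          · exact la2 _ _)
        (fun l => by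
          fin_cases l
          · exact lb1 _ _
          · exact lb2 _ _
          · exact lb1 _ _
          · exact lb2 _ _)
      have h2 : ∑ l, (FF β P l (s + nom l) * (starRingEnd ℂ)
          ((![fun θ t => yv (β t) (P t) t (a1 θ t) (b1 θ t), fun θ t => yv (β t) (P t) t (a2 θ t) (b2 θ t),
          fun θ t => yv (β t) (P t) t (a1 θ t) (b1 θ t), fun θ t => yv (β t) (P t) t (a2 θ t) (b2 θ t)] :
          Fin 4 → ℝ → ℝ → ℂ) l (s + nom l) t)).im
          = ∑ l, (q4 s (β s) (P s) l * (starRingEnd ℂ) (yv (β t) (P t) t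
          ((![a1, a2, a1, a2] : Fin 4 → ℝ → ℝ → ℝ) l (s + nom l) t)
          ((![b1, b2, b1, b2] : Fin 4 → ℝ → ℝ → ℝ) l (s + nom l) t))).im := by
        refine Finset.sum_congr rfl fun l _ => ?_
        rw [q4_FF h s l]
        fin_cases l <;> rfl
      rw [h2]
      rw [div_mul_eq_mul_div, one_mul, le_div_iff₀ (by positivity)]
      linarith)
  have e1 : dbl (fun q : ℝ × ℝ => 1 / (2 * Real.pi) *
      ∑ k, ∑ l, kr (q4 q.1 (β q.1) (P q.1) k) (q4 q.2 (β q.2) (P q.2) l))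
      = 1 / (2 * Real.pi) * dbl (fun q : ℝ × ℝ =>
      ∑ k, ∑ l, kr (q4 q.1 (β q.1) (P q.1) k) (q4 q.2 (β q.2) (P q.2) l)) := dbl_const _ _
  rw [e1] at key
  rw [AQQ_eq]
  have h6 := mul_le_mul_of_nonneg_left key (by positivity : 0 ≤ 1 / (8 * Real.pi))
  refine le_trans (le_of_eq ?_) (h6.trans (le_of_eq ?_))
  · field_simp
    ring
  · field_simp
    ring

/-- Module CUT. -/
theorem hCUT (hI : StInt) : StCut := by
  intro β P h hb ψ hψ hper hbd
  have m1 : Measurable (fun q : ℝ × ℝ => sgs (q.1 - q.2 - Real.pi / 3)) :=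
    sgs_meas.comp ((measurable_fst.sub measurable_snd).sub_const _)
  have m2 : Measurable (fun q : ℝ × ℝ => sgs (q.1 - q.2 - 2 * Real.pi / 3)) :=
    sgs_meas.comp ((measurable_fst.sub measurable_snd).sub_const _)
  have m3 : Measurable (fun q : ℝ × ℝ => sgs (q.1 - ψ q.1 - q.2 - 2 * Real.pi / 3)) :=
    sgs_meas.comp (((measurable_fst.sub (hψ.comp measurable_fst)).sub measurable_snd).sub_const _)
  have m4 : Measurable (fun q : ℝ × ℝ => sgs (q.1 + ψ q.1 - q.2 - Real.pi / 3)) :=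
    sgs_meas.comp (((measurable_fst.add (hψ.comp measurable_fst)).sub measurable_snd).sub_const _)
  refine cut_QQ h hb (a1 := fun θ t => sgs (θ - t - Real.pi / 3))
    (b1 := fun θ t => sgs (θ - ψ θ - t - 2 * Real.pi / 3))
    (a2 := fun θ t => sgs (θ + ψ θ - t - Real.pi / 3))
    (b2 := fun θ t => sgs (θ - t - 2 * Real.pi / 3)) m1 m3 m4 m2
    (fun _ _ => sgs_abs _) (fun _ _ => sgs_abs _) (fun _ _ => sgs_abs _) (fun _ _ => sgs_abs _)
    ?_ ?_ ?_ ?_ (c := -(1 / 2 * ∫ t in (0 : ℝ)..(2 * Real.pi), vv P t)) ?_ ?_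
  · intro θ t
    rw [← sgs_per (θ - t - Real.pi / 3)]
    congr 1
    ring
  · intro θ t
    show sgs (θ + 2 * Real.pi - ψ (θ + 2 * Real.pi) - t - 2 * Real.pi / 3) = _
    rw [hper, ← sgs_per (θ - ψ θ - t - 2 * Real.pi / 3)]
    congr 1
    ring
  · intro θ t
    show sgs (θ + 2 * Real.pi + ψ (θ + 2 * Real.pi) - t - Real.pi / 3) = _
    rw [hper, ← sgs_per (θ + ψ θ - t - Real.pi / 3)]
    congr 1
    ring
  · intro θ t
    rw [← sgs_per (θ - t - 2 * Real.pi / 3)]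
    congr 1
    ring
  · intro θ
    have hb2 := abs_le.1 (hbd θ)
    rw [hI β P h θ (θ - ψ θ) (by linarith [Real.pi_pos]) (by linarith)]
    ring
  · intro θ
    have hb2 := abs_le.1 (hbd θ)
    rw [hI β P h (θ + ψ θ) θ (by linarith [Real.pi_pos]) (by linarith)]
    ring

/-- Module COE. -/
theorem hCOE : StCoe := by
  intro β P h hb φ1 φ2 hφ1 hφ2
  obtain ⟨ψ1, m1, p1, q1⟩ := per_ext hφ1
  obtain ⟨ψ2, m2, p2, q2⟩ := per_ext hφ2
  have hm : ∀ {ψ : ℝ → ℝ}, Measurable ψ → Measurable (fun q : ℝ × ℝ => sgs (ψ q.1 - q.2)) :=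
    fun hψ => sgs_meas.comp ((hψ.comp measurable_fst).sub measurable_snd)
  have hz : ∀ φ : ℝ, ∫ t in (0 : ℝ)..(2 * Real.pi), yv (β t) (P t) t (sgs (φ - t)) (sgs (φ - t))
      = (∫ t in (φ - Real.pi)..φ, (E1 β t + E2 β t))
        + -(1 / 2 * ∫ t in (0 : ℝ)..(2 * Real.pi), vv P t) := by
    intro φ
    have e1 : (fun t => yv (β t) (P t) t (sgs (φ - t)) (sgs (φ - t)))
        = fun t => (1 / 2 : ℂ) * ((sgs (φ - t) : ℂ) * (E1 β t + E2 β t))
          - (1 / 2 : ℂ) * vv P t := by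
      funext t
      have h2 : ((sgs (φ - t) * sgs (φ - t) : ℝ) : ℂ) = 1 := by
        rw [sgs_sq]
        norm_num
      unfold yv E1 E2 vv
      rw [h2]
      ring
    have i1 : IntervalIntegrable (fun t => (sgs (φ - t) : ℂ) * (E1 β t + E2 β t)) volume 0
        (2 * Real.pi) := by
      refine intg_of_bddC (C := 1 * (6 + 6)) ?_ ?_ _ _
      · exact (Complex.measurable_ofReal.comp (sgs_meas.comp
          (measurable_const.sub measurable_id))).mul ((E1_meas h).add (E2_meas h))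
      · intro t
        rw [norm_mul, Complex.norm_real, Real.norm_eq_abs]
        exact mul_le_mul (sgs_abs _) ((norm_add_le _ _).trans (add_le_add (E1_le h t) (E2_le h t)))
          (norm_nonneg _) (by norm_num)
    have i2 : IntervalIntegrable (vv P) volume 0 (2 * Real.pi) :=
      intg_of_bddC (vv_meas h) (vv_le h) _ _
    rw [e1, intervalIntegral.integral_sub (i1.const_mul _) (i2.const_mul _),
      intervalIntegral.integral_const_mul, intervalIntegral.integral_const_mul,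
      int_sgs (G := fun t => E1 β t + E2 β t) (C := 6 + 6) ((E1_meas h).add (E2_meas h))
        (fun t => (norm_add_le _ _).trans (add_le_add (E1_le h t) (E2_le h t)))
        (fun t => by
          show E1 β (t + Real.pi) + E2 β (t + Real.pi) = -(E1 β t + E2 β t)
          rw [E1_anti h, E2_anti h]; ring)]
    ring
  have key := cut_QQ h hb (a1 := fun θ t => sgs (ψ1 θ - t)) (b1 := fun θ t => sgs (ψ1 θ - t))
    (a2 := fun θ t => sgs (ψ2 θ - t)) (b2 := fun θ t => sgs (ψ2 θ - t)) (hm m1) (hm m1) (hm m2)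
    (hm m2) (fun _ _ => sgs_abs _) (fun _ _ => sgs_abs _) (fun _ _ => sgs_abs _)
    (fun _ _ => sgs_abs _) (fun θ t => by rw [p1]) (fun θ t => by rw [p1]) (fun θ t => by rw [p2])
    (fun θ t => by rw [p2]) (c := -(1 / 2 * ∫ t in (0 : ℝ)..(2 * Real.pi), vv P t))
    (Z1 := fun θ => ∫ t in (ψ1 θ - Real.pi)..(ψ1 θ), (E1 β t + E2 β t))
    (Z2 := fun θ => ∫ t in (ψ2 θ - Real.pi)..(ψ2 θ), (E1 β t + E2 β t))
    (fun θ => hz _) (fun θ => hz _)
  refine le_trans (le_of_eq ?_) key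
  congr 1
  refine int_congr_choice fun θ h0 h1 => ?_
  rw [q1 θ h0 h1, q2 θ h0 h1]

end Helper44.RC
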