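import Pool.Agent.Helper87.RC.M_CUT
import Pool.Agent.Helper44.RC.M_CUTG

/-!
# Project RC: general hexagon families (definitions)

`A0`, `A`, `B` antiperiodic (period `π`), `v` periodic (period `π`), measurable, bounded. The hexagon of the
direction `t` has the edges `A0 t, A t + v t, B t - v t, -A0 t, -A t + v t, -B t - v t`. Weights, gauges and the
rotation `ee t` are absorbed in the families. The case of `Adm β P` is `E0 β, E1 β, E2 β, vv P`.
-/

open MeasureTheory Set Filter Metric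

namespace Helper44.RCG

open Helper49.LT hiding sg
open Helper49.RC
open Helper87.RC
open Helper44.RC (sgs yv E0 E1 E2 vv dbl)

/-- general family -/
structure Hex (A0 A B v : ℝ → ℂ) (C : ℝ) : Prop where
  q : Fam A B v C
  m0 : Measurable A0
  p0 : ∀ t, A0 (t + Real.pi) = -A0 t
  b0 : ∀ t, ‖A0 t‖ ≤ C

/-- the Fourier coefficient of order `n` of the edge measure -/
noncomputable def sgG (A0 A B v : ℝ → ℂ) (n : ℕ) : ℂ :=
  (1 / (2 * Real.pi) : ℂ) * ∫ t in (0 : ℝ)..(2 * Real.pi),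
    (nn n (A0 t) + nn n (A t + v t) + nn n (B t - v t))

/-- the area form without the second harmonic -/
noncomputable def FMG (A0 A B v : ℝ → ℂ) : ℝ :=
  ‖sgG A0 A B v 0‖ ^ 2 - 2 * ∑' n : ℕ, ‖sgG A0 A B v (n + 3)‖ ^ 2 / (((n : ℝ) + 3) ^ 2 - 1)

/-- the interaction of the segments `± A0` -/
noncomputable def A00G (A0 : ℝ → ℂ) : ℝ :=
  1 / (8 * Real.pi) * ∫ t in (0 : ℝ)..(2 * Real.pi), ∫ s in (0 : ℝ)..(2 * Real.pi),
    |(A0 s * (starRingEnd ℂ) (A0 t)).im|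

/-- the interaction of the segments and the quadrilaterals -/
noncomputable def A0QG (A0 A B v : ℝ → ℂ) : ℝ :=
  1 / (16 * Real.pi) * ∫ t in (0 : ℝ)..(2 * Real.pi), ∫ s in (0 : ℝ)..(2 * Real.pi),
    ∑ l, |(qq A B v s l * (starRingEnd ℂ) (A0 t)).im|

/-- the interaction of the quadrilaterals -/
noncomputable def AQQG (A B v : ℝ → ℂ) : ℝ :=
  1 / 4 * (1 / (2 * Real.pi)) ^ 2 * ∫ t in (0 : ℝ)..(2 * Real.pi), ∫ s in (0 : ℝ)..(2 * Real.pi),
    ∑ k, ∑ l, kr (qq A B v t k) (qq A B v s l)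

/-- the families 1 and 2 in their nominal parameter `θ = t + 60`, `θ = t + 120` degrees -/
noncomputable def G1 (A v : ℝ → ℂ) (θ : ℝ) : ℂ := A (θ - Real.pi / 3) + v (θ - Real.pi / 3)
noncomputable def G2 (B v : ℝ → ℂ) (θ : ℝ) : ℂ :=
  B (θ - 2 * Real.pi / 3) - v (θ - 2 * Real.pi / 3)

/-- orientation and region at the direction `t`: `a = A0 t`, `A = c + a/2`, `B = c - a/2`,
`v = x a + y c`, `|x| ≤ 1/2`, `|y| ≤ 1`, and `c` is to the left of `a` (or everything vanishes) -/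
def Ori (a A B v : ℂ) : Prop := (A = 0 ∧ B = 0 ∧ v = 0) ∨ ∃ (c : ℂ) (x y : ℝ),
  0 < (c * (starRingEnd ℂ) a).im ∧ |x| ≤ 1 / 2 ∧ |y| ≤ 1 ∧ A = c + 1 / 2 * a ∧ B = c - 1 / 2 * a ∧
  v = (x : ℂ) * a + (y : ℂ) * c

end Helper44.RCG
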