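import Pool.Agent.Helper44.RC.StFar

/-!
# Project RC, SHARP: the far lemma, Fourier expansions of the pieces
-/

open MeasureTheory Set Filter Topology

namespace Helper44.Far

open Helper49.LT hiding sg
open Helper49.RC Helper87.RC Helper44.GQ
open Helper56.RC (fc)
open Helper44.RCG (Hex A00G A0QG AQQG G1 G2 sgG N0)
open Pool.Agent.Helper20.RC (wR al alQ L2b L2w L1 mom wR_wgt)

theorem w1_one (t : ℝ) : w1 t = 1 := by
  unfold w1 wR
  simp

theorem w1_wgt : Wgt w1 := wR_wgt (by simp)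

/-- sums over `ℤ` as limits of sums over pairs -/
theorem tend_int {f : ℤ → ℝ} {S : ℝ} (h : HasSum f S) :
    Tendsto (fun N : ℕ => f 0 + ∑ n ∈ Finset.range N, (f ((n : ℤ) + 1) + f (-((n : ℤ) + 1)))) atTop (𝓝 S) := by
  have h1 := h.nat_add_neg.tendsto_sum_nat
  have h2 := (tendsto_add_atTop_iff_nat 1).2 h1
  have h3 := h2.sub_const (f 0)
  rw [add_sub_cancel_right] at h3
  refine h3.congr fun N => ?_
  rw [Finset.sum_range_succ']
  push_cast
  simp only [neg_zero]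
  ring



open Helper95.RC (wc pc rc sc c1 c2 kq)

theorem pc_w1 (b : ℝ → ℂ) : pc w1 b = be b := by
  unfold pc be
  simp only [w1_one, one_mul]

theorem rc_w1 (b : ℝ → ℂ) : rc w1 b = ga b := by
  unfold rc ga
  simp only [w1_one, one_mul]

theorem be_neg (b : ℝ → ℂ) (n : ℤ) : be b (-n) = (starRingEnd ℂ) (be b n) :=
  Helper95.RC.fc_real_neg _ n

theorem ga_neg (b : ℝ → ℂ) (n : ℤ) : ga b (-n) = (starRingEnd ℂ) (ga b n) :=
  Helper95.RC.fc_real_neg _ n

theorem be0_real (b : ℝ → ℂ) : (be b 0).im = 0 := by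
  have h := be_neg b 0
  rw [neg_zero] at h
  have := Complex.conj_eq_iff_im.1 h.symm
  exact this

theorem ga0_real (b : ℝ → ℂ) : (ga b 0).im = 0 := by
  have h := ga_neg b 0
  rw [neg_zero] at h
  exact Complex.conj_eq_iff_im.1 h.symm

theorem nu_neg (g1 g2 : ℝ → ℂ) (l : ℤ) : nu g1 g2 (-l) = (starRingEnd ℂ) (nu g1 g2 l) := by
  unfold nu
  rw [map_mul]
  congr 1
  · simp only [map_div₀, map_one, map_mul, Complex.conj_ofReal, map_ofNat]
  · rw [intervalIntegral.integral_of_le (by positivity), intervalIntegral.integral_of_le (by positivity),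
      ← integral_conj]
    refine integral_congr_ae (Filter.Eventually.of_forall fun θ => ?_)
    have e : ∀ x : ℝ, (starRingEnd ℂ) (ee x) = ee (-x) := fun x => (ee_neg x).symm
    show _ = (starRingEnd ℂ) _
    rw [map_add, map_mul, map_mul, Complex.conj_ofReal, Complex.conj_ofReal, e, e]
    push_cast
    ring_nf

theorem nu0_real (g1 g2 : ℝ → ℂ) : (nu g1 g2 0).im = 0 := by
  have h := nu_neg g1 g2 0
  rw [neg_zero] at h
  exact Complex.conj_eq_iff_im.1 h.symm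

/-- the moment of order 0 -/
theorem nu0_re (g1 g2 : ℝ → ℂ) : (nu g1 g2 0).re =
    (1 / (2 * Real.pi)) * ∫ θ in (0 : ℝ)..(2 * Real.pi), (‖g1 θ‖ + ‖g2 θ‖) := by
  unfold nu
  have e : ∀ θ : ℝ, (‖g1 θ‖ : ℂ) * ee (-((0 : ℤ) : ℝ) * al g1 θ) + (‖g2 θ‖ : ℂ) * ee (-((0 : ℤ) : ℝ) * al g2 θ)
      = ((‖g1 θ‖ + ‖g2 θ‖ : ℝ) : ℂ) := by
    intro θ
    push_cast
    rw [neg_zero, zero_mul, zero_mul, ee_zero]
    ring
  simp only [e]
  rw [intervalIntegral.integral_ofReal]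
  have : (1 / (2 * Real.pi) : ℂ) * ((∫ θ in (0 : ℝ)..(2 * Real.pi), (‖g1 θ‖ + ‖g2 θ‖) : ℝ) : ℂ) =
      (((1 / (2 * Real.pi)) * ∫ θ in (0 : ℝ)..(2 * Real.pi), (‖g1 θ‖ + ‖g2 θ‖) : ℝ) : ℂ) := by
    push_cast
    ring
  rw [this, Complex.ofReal_re]

/-- the moments with respect to the true angles -/
theorem mom_al {g1 g2 : ℝ → ℂ} {C D : ℝ} (h1 : BM g1 C) (h2 : BM g2 D) (j : ℤ) :
    mom g1 (al g1) (2 * j + 1) + mom g2 (al g2) (2 * j + 1) = nu g1 g2 (-(2 * j)) := by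
  have key : ∀ (g : ℝ → ℂ) (θ : ℝ), ee (((2 * j + 1 : ℤ) : ℝ) * al g θ) * (starRingEnd ℂ) (g θ) =
      (‖g θ‖ : ℂ) * ee (-((-(2 * j) : ℤ) : ℝ) * al g θ) := by
    intro g θ
    have hg : g θ = (‖g θ‖ : ℂ) * ee (al g θ) := Pool.Agent.Helper20.RC.al_ee g θ
    have e1 : (starRingEnd ℂ) (g θ) = (‖g θ‖ : ℂ) * ee (-(al g θ)) := by
      conv_lhs => rw [hg]
      rw [map_mul, Complex.conj_ofReal, ← ee_neg]
    rw [e1, mul_left_comm, ← ee_add]
    congr 2
    push_cast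
    ring
  unfold mom nu
  simp only [key]
  rw [← mul_add, ← intervalIntegral.integral_add]
  · have bm : ∀ {g : ℝ → ℂ} {C : ℝ}, BM g C → IntervalIntegrable
      (fun θ => (‖g θ‖ : ℂ) * ee (-((-(2 * j) : ℤ) : ℝ) * al g θ)) volume 0 (2 * Real.pi) := by
      intro g C hg
      refine intg_of_bddC (C := C) ((Complex.measurable_ofReal.comp hg.m.norm).mul
        (continuous_ee.measurable.comp (measurable_const.mul (Pool.Agent.Helper20.RC.al_meas hg.m))))
        (fun θ => ?_) _ _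
      show ‖(‖g θ‖ : ℂ) * ee (-((-(2 * j) : ℤ) : ℝ) * al g θ)‖ ≤ C
      rw [norm_mul, norm_ee, mul_one, Complex.norm_real, norm_norm]
      exact hg.b θ
    exact bm h1
  · refine intg_of_bddC (C := D) ((Complex.measurable_ofReal.comp h2.m.norm).mul
        (continuous_ee.measurable.comp (measurable_const.mul (Pool.Agent.Helper20.RC.al_meas h2.m))))
        (fun θ => ?_) _ _
    show ‖(‖g2 θ‖ : ℂ) * ee (-((-(2 * j) : ℤ) : ℝ) * al g2 θ)‖ ≤ D
    rw [norm_mul, norm_ee, mul_one, Complex.norm_real, norm_norm]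
    exact h2.b θ

end Helper44.Far
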