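import Pool.Agent.Helper44.RC.M_FA1
import Pool.Agent.Helper20.RC.Frame

/-!
# Project RC, SHARP: the far lemma, the links 1 and 2
-/

open MeasureTheory Set Filter Topology

namespace Helper44.Far

open Helper49.LT hiding sg
open Helper49.RC Helper87.RC Helper44.GQ
open Helper56.RC (fc)
open Helper44.RCG (Hex A00G A0QG AQQG G1 G2 sgG N0)
open Pool.Agent.Helper20.RC (wR al alQ L2b L2w L2r L1 mom wR_wgt link1Q link2Q sumQ L2r_self L2b_hasSum alQ_bm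
  alQ_per hw)
open Helper95.RC (wc pc rc sc c1 c2 kq)

variable {b z : ℝ → ℂ}

/-- the coefficients of `α` -/
theorem fc_al (h : AdmQ 2 b z) (m : ℤ) : fc (alQ w1 2 b) m = be b m + Complex.I * ga b m / 2 := by
  obtain ⟨C1, h1⟩ := Helper95.RC.bmp h w1_wgt
  obtain ⟨C2, h2⟩ := Helper95.RC.bmr h w1_wgt
  have e : alQ w1 2 b = fun t => ((w1 t * (b t).re : ℝ) : ℂ) + (Complex.I / 2) * ((w1 t * (b t).im : ℝ) : ℂ) := by
    funext t
    unfold alQ
    push_cast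
    ring
  rw [e, fc_add h1 (h2.cmul _), fc_cmul]
  have e1 : fc (fun t => ((w1 t * (b t).re : ℝ) : ℂ)) m = be b m := congrFun (pc_w1 b) m
  have e2 : fc (fun t => ((w1 t * (b t).im : ℝ) : ℂ)) m = ga b m := congrFun (rc_w1 b) m
  rw [e1, e2]
  ring

theorem zero_le_half : ‖(0 : ℂ)‖ + ‖(0 : ℂ)‖ + ‖(0 : ℂ)‖ ≤ 1 / 2 := by simp

theorem fm_real (n : ℕ) : ((fm n : ℤ) : ℝ) = 2 * ((n : ℝ) + 1) := by
  unfold fm; push_cast; ring

theorem MM_pos (n : ℕ) : 0 < MM n := by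
  unfold MM
  have : (0 : ℝ) ≤ n := Nat.cast_nonneg n
  nlinarith

/-- link 1 as a limit -/
theorem far_A (h : AdmQ 2 b z) : ∃ L : ℝ, L ≤ A00G (A0Q w1 2 b) ∧
    Tendsto (fun N : ℕ => (1 + (be b 0).re) ^ 2 + (ga b 0).re ^ 2 / 4
      + ∑ n ∈ Finset.range N, cA n (be b (fm n)) (ga b (fm n))) atTop (𝓝 L) := by
  have h1 := link1Q (by norm_num) h zero_le_half
  have h2 := (sumQ (by norm_num : (0 : ℝ) < 2) h zero_le_half).hasSum
  have h3 := tend_int h2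
  refine ⟨_, h1, ?_⟩
  unfold L1
  have e0 : (1 - 2 * (‖(0 : ℂ)‖ ^ 2 / 3 + ‖(0 : ℂ)‖ ^ 2 / 35 + ‖(0 : ℂ)‖ ^ 2 / 99)
      + 2 * (fc (alQ (wR 0 0 0) 2 b) 0 + (starRingEnd ℂ) 0 * fc (alQ (wR 0 0 0) 2 b) 2 / 3
        - 0 * fc (alQ (wR 0 0 0) 2 b) (-2)
        + (starRingEnd ℂ) 0 * fc (alQ (wR 0 0 0) 2 b) 6 / 7 - 0 * fc (alQ (wR 0 0 0) 2 b) (-6) / 5
        + (starRingEnd ℂ) 0 * fc (alQ (wR 0 0 0) 2 b) 10 / 11 - 0 * fc (alQ (wR 0 0 0) 2 b) (-10) / 9).re : ℝ)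
      = 1 + 2 * (be b 0).re := by
    simp only [norm_zero, map_zero, zero_mul]
    have := fc_al h 0
    unfold w1 at this
    rw [this]
    have hg := ga0_real b
    simp only [Complex.add_re, Complex.sub_re, Complex.div_ofNat_re, Complex.mul_re, Complex.I_re, Complex.I_im, hg,
      Complex.zero_re]
    simp
  rw [e0]
  refine (h3.const_add (1 + 2 * (be b 0).re)).congr fun N => ?_
  rw [← add_assoc]
  have hw : wR 0 0 0 = w1 := rfl
  rw [hw]
  have hb := be0_real b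
  have hg := ga0_real b
  congr 1
  · rw [mul_zero, fc_al h 0, ← Complex.normSq_eq_norm_sq, Complex.normSq_apply]
    simp only [Complex.add_re, Complex.add_im, Complex.div_ofNat_re, Complex.div_ofNat_im, Complex.mul_re,
      Complex.mul_im, Complex.I_re, Complex.I_im, hb, hg]
    push_cast
    ring
  · refine Finset.sum_congr rfl fun n _ => ?_
    have e1 : (2 * ((n : ℤ) + 1)) = fm n := rfl
    have e2 : (2 * (-((n : ℤ) + 1))) = -fm n := by unfold fm; ring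
    rw [e1, e2, fc_al h, fc_al h, be_neg, ga_neg]
    set β := be b (fm n)
    set γ := ga b (fm n)
    unfold cA MM
    simp only [← Complex.normSq_eq_norm_sq, Complex.normSq_apply]
    simp only [Complex.add_re, Complex.add_im, Complex.div_ofNat_re, Complex.div_ofNat_im, Complex.mul_re,
      Complex.mul_im, Complex.I_re, Complex.I_im, Complex.conj_re, Complex.conj_im]
    have hn : (0 : ℝ) ≤ n := Nat.cast_nonneg n
    have d1 : (2 * (n : ℝ) + 3) ≠ 0 := by positivity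
    have d2 : (2 * (n : ℝ) + 1) ≠ 0 := by positivity
    have f1 : (2 * ((((n : ℤ) + 1 : ℤ) : ℝ)) + 1) = 2 * (n : ℝ) + 3 := by push_cast; ring
    have f2 : (2 * (((-((n : ℤ) + 1) : ℤ) : ℝ)) + 1) = -(2 * (n : ℝ) + 1) := by push_cast; ring
    have f3 : ((2 * ((n : ℝ) + 1)) ^ 2 - 1) = (2 * (n : ℝ) + 3) * (2 * (n : ℝ) + 1) := by ring
    rw [f1, f2, f3]
    field_simp
    ring

/-- link 2 as a limit -/
theorem far_C (h : AdmQ 2 b z) : ∃ L : ℝ, L ≤ 2 * A0QG (A0Q w1 2 b) (AAQ w1 2 b) (BBQ w1 2 b) (vvS w1 z) ∧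
    Tendsto (fun N : ℕ => 2 * (1 + (be b 0).re) * (nu (F1Q w1 2 b z) (F2Q w1 2 b z) 0).re
      + ∑ n ∈ Finset.range N, 2 * (XC n (be b (fm n)) (ga b (fm n))
        * (starRingEnd ℂ) (nu (F1Q w1 2 b z) (F2Q w1 2 b z) (fm n))).re) atTop (𝓝 L) := by
  obtain ⟨C, hC⟩ := hexQ (by norm_num : (0 : ℝ) < 2) h w1_wgt
  have hb1 : BM (F1Q w1 2 b z) (2 * C) := ⟨Helper44.RCG.G1_meas hC.q, Helper44.RCG.G1_le hC.q⟩
  have hb2 : BM (F2Q w1 2 b z) (2 * C) := ⟨Helper44.RCG.G2_meas hC.q, Helper44.RCG.G2_le hC.q⟩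
  obtain ⟨E, hE⟩ := alQ_bm (by norm_num : (0 : ℝ) < 2) h w1_wgt
  have h1 := link2Q (by norm_num) h zero_le_half (Pool.Agent.Helper20.RC.al_meas hb1.m)
    (Pool.Agent.Helper20.RC.al_meas hb2.m) (Pool.Agent.Helper20.RC.al_abs _) (Pool.Agent.Helper20.RC.al_abs _)
  have hww : wR 0 0 0 = w1 := rfl
  rw [hww] at h1
  rw [L2r_self, add_zero] at h1
  have h2 := L2b_hasSum hE (alQ_per h w1_wgt) hb1 hb2 (Pool.Agent.Helper20.RC.al_meas hb1.m)
    (Pool.Agent.Helper20.RC.al_meas hb2.m)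
  have h3 := tend_int h2
  have e0 : L2w 0 0 0 (F1Q w1 2 b z) (F2Q w1 2 b z) = (nu (F1Q w1 2 b z) (F2Q w1 2 b z) 0).re := by
    rw [nu0_re]
    unfold L2w hw
    simp
  rw [e0] at h1
  refine ⟨_, mul_le_mul_of_nonneg_left h1 (by norm_num : (0 : ℝ) ≤ 2), ?_⟩
  refine ((h3.const_add (nu (F1Q w1 2 b z) (F2Q w1 2 b z) 0).re).const_mul 2).congr fun N => ?_
  rw [← add_assoc, mul_add]
  have hb := be0_real b
  have hg := ga0_real b
  have hn := nu0_real (F1Q w1 2 b z) (F2Q w1 2 b z)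
  congr 1
  · rw [mom_al hb1 hb2, mul_zero, neg_zero, fc_al h 0]
    simp only [Complex.add_re, Complex.add_im, Complex.div_ofNat_re, Complex.div_ofNat_im, Complex.mul_re,
      Complex.mul_im, Complex.I_re, Complex.I_im, hb, hg, hn]
    push_cast
    simp [hg]
    ring
  · rw [Finset.mul_sum]
    refine Finset.sum_congr rfl fun n _ => ?_
    rw [mom_al hb1 hb2, mom_al hb1 hb2]
    have e1 : (2 * ((n : ℤ) + 1)) = fm n := rfl
    have e2 : (2 * (-((n : ℤ) + 1))) = -fm n := by unfold fm; ring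
    rw [e1, e2, fc_al h, fc_al h, be_neg, ga_neg, nu_neg, neg_neg]
    set β := be b (fm n)
    set γ := ga b (fm n)
    set ν := nu (F1Q w1 2 b z) (F2Q w1 2 b z) (fm n)
    unfold XC MM
    have hn0 : (0 : ℝ) ≤ n := Nat.cast_nonneg n
    have d1 : (2 * ((n : ℝ) + 1) + 1) ≠ 0 := by positivity
    have d2 : (-(2 * ((n : ℝ) + 1)) + 1) ≠ 0 := by
      intro hh
      linarith
    have d3 : ((2 * ((n : ℝ) + 1)) ^ 2 - 1) ≠ 0 := by nlinarith
    have c1 : (2 * (((n : ℤ) + 1 : ℤ) : ℂ) + 1) = ((2 * ((n : ℝ) + 1) + 1 : ℝ) : ℂ) := by push_cast; ring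
    have c2 : (2 * ((-((n : ℤ) + 1) : ℤ) : ℂ) + 1) = ((-(2 * ((n : ℝ) + 1)) + 1 : ℝ) : ℂ) := by push_cast; ring
    have c3 : Complex.I * (2 * ((n : ℂ) + 1)) * γ = ((2 * ((n : ℝ) + 1) : ℝ) : ℂ) * (Complex.I * γ) := by
      push_cast; ring
    rw [c1, c2, c3]
    set p : ℝ := 2 * ((n : ℝ) + 1) with hp
    simp only [div_eq_mul_inv, ← Complex.ofReal_inv]
    simp only [Complex.add_re, Complex.add_im, Complex.mul_re, Complex.mul_im, Complex.I_re, Complex.I_im,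
      Complex.conj_re, Complex.conj_im, Complex.ofReal_re, Complex.ofReal_im]
    norm_num
    field_simp
    ring

end Helper44.Far
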