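import Pool.Agent.Helper44.RC.M_FA2

/-!
# Project RC, SHARP: the far lemma, the aligned moments and the Parseval identity
-/

open MeasureTheory Set Filter Topology

namespace Helper44.Far

open Helper49.LT hiding sg
open Helper49.RC Helper87.RC Helper44.GQ
open Helper56.RC (fc)
open Helper44.RCG (Hex A00G A0QG AQQG G1 G2 sgG N0)
open Helper95.RC (wc pc rc sc c1 c2 kq)

variable {b z : ℝ → ℂ}

theorem wc_w1 (n : ℤ) : wc w1 n = if n = 0 then 1 else 0 := by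
  unfold wc
  simp only [w1_one, Complex.ofReal_one]
  exact Pool.Agent.Helper20.RC.fc_one n

/-- one family -/
theorem en_one {g : ℝ → ℂ} {C : ℝ} (hg : BM g C) (l : ℤ) :
    (1 / (2 * Real.pi) : ℂ) * (∫ θ in (0 : ℝ)..(2 * Real.pi),
      (((g θ * ee (-θ)).re : ℂ) - Complex.I * (l : ℂ) * ((g θ * ee (-θ)).im : ℂ)) * ee (-(l : ℝ) * θ))
    = (1 - (l : ℂ)) / 2 * fc g (l + 1) + (1 + (l : ℂ)) / 2 * (starRingEnd ℂ) (fc g (1 - l)) := by
  have e : ∀ θ : ℝ, (((g θ * ee (-θ)).re : ℂ) - Complex.I * (l : ℂ) * ((g θ * ee (-θ)).im : ℂ)) * ee (-(l : ℝ) * θ)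
      = (1 - (l : ℂ)) / 2 * (g θ * ee (-((l + 1 : ℤ) : ℝ) * θ))
        + (1 + (l : ℂ)) / 2 * ((starRingEnd ℂ) (g θ) * ee (-((-(1 - l) : ℤ) : ℝ) * θ)) := by
    intro θ
    set x := g θ * ee (-θ) with hx
    have h1 : g θ * ee (-((l + 1 : ℤ) : ℝ) * θ) = x * ee (-(l : ℝ) * θ) := by
      rw [hx, mul_assoc, ← ee_add]
      congr 2
      push_cast
      ring
    have h2 : (starRingEnd ℂ) (g θ) * ee (-((-(1 - l) : ℤ) : ℝ) * θ) = (starRingEnd ℂ) x * ee (-(l : ℝ) * θ) := by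
      rw [hx, map_mul, ← ee_neg, neg_neg, mul_assoc, ← ee_add]
      congr 2
      push_cast
      ring
    rw [h1, h2]
    have h3 : (x.re : ℂ) = (x + (starRingEnd ℂ) x) / 2 := by
      apply Complex.ext <;> simp
    have h4 : Complex.I * (x.im : ℂ) = (x - (starRingEnd ℂ) x) / 2 := by
      apply Complex.ext <;> simp
    have h5 : (x.re : ℂ) - Complex.I * (l : ℂ) * (x.im : ℂ) = (x.re : ℂ) - (l : ℂ) * (Complex.I * (x.im : ℂ)) := by
      ring
    rw [h5, h3, h4]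
    ring
  simp only [e]
  have hgc : BM (fun θ => (starRingEnd ℂ) (g θ)) C := ⟨Complex.continuous_conj.measurable.comp hg.m, fun θ => by
    rw [Complex.norm_conj]; exact hg.b θ⟩
  have I1 : ∀ n : ℤ, IntervalIntegrable (fun θ => g θ * ee (-(n : ℝ) * θ)) volume 0 (2 * Real.pi) := by
    intro n
    refine intg_of_bddC (C := C) (hg.m.mul (continuous_ee.measurable.comp (measurable_const.mul measurable_id)))
      (fun θ => ?_) _ _
    show ‖g θ * ee (-(n : ℝ) * θ)‖ ≤ C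
    rw [norm_mul, norm_ee, mul_one]
    exact hg.b θ
  have I2 : ∀ n : ℤ, IntervalIntegrable (fun θ => (starRingEnd ℂ) (g θ) * ee (-(n : ℝ) * θ)) volume 0
      (2 * Real.pi) := by
    intro n
    refine intg_of_bddC (C := C) (hgc.m.mul (continuous_ee.measurable.comp (measurable_const.mul measurable_id)))
      (fun θ => ?_) _ _
    show ‖(starRingEnd ℂ) (g θ) * ee (-(n : ℝ) * θ)‖ ≤ C
    rw [norm_mul, norm_ee, mul_one]
    exact hgc.b θ
  rw [intervalIntegral.integral_add ((I1 _).const_mul _) ((I2 _).const_mul _),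
    intervalIntegral.integral_const_mul, intervalIntegral.integral_const_mul]
  have h6 : (starRingEnd ℂ) (fc g (1 - l)) = fc (fun t => (starRingEnd ℂ) (g t)) (-(1 - l)) := by
    rw [fc_conj, neg_neg]
  rw [h6, fc_eq, fc_eq]
  ring

/-- both families -/
theorem en_two {g1 g2 : ℝ → ℂ} {C D : ℝ} (h1 : BM g1 C) (h2 : BM g2 D) (l : ℤ) : en g1 g2 l =
    (1 - (l : ℂ)) / 2 * (fc g1 (l + 1) + fc g2 (l + 1))
      + (1 + (l : ℂ)) / 2 * (starRingEnd ℂ) (fc g1 (1 - l) + fc g2 (1 - l)) := by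
  have I : ∀ {g : ℝ → ℂ} {C : ℝ}, BM g C → IntervalIntegrable
      (fun θ => (((g θ * ee (-θ)).re : ℂ) - Complex.I * (l : ℂ) * ((g θ * ee (-θ)).im : ℂ)) * ee (-(l : ℝ) * θ))
      volume 0 (2 * Real.pi) := by
    intro g C hg
    have hm : Measurable fun θ => g θ * ee (-θ) := hg.m.mul (continuous_ee.measurable.comp measurable_neg)
    refine intg_of_bddC (C := (1 + ‖(l : ℂ)‖) * C) (((Complex.measurable_ofReal.comp
      (Complex.measurable_re.comp hm)).sub ((Complex.measurable_ofReal.comp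
      (Complex.measurable_im.comp hm)).const_mul _)).mul
      (continuous_ee.measurable.comp (measurable_const.mul measurable_id))) (fun θ => ?_) _ _
    have hx : ‖g θ * ee (-θ)‖ ≤ C := by rw [norm_mul, norm_ee, mul_one]; exact hg.b θ
    show ‖(((g θ * ee (-θ)).re : ℂ) - Complex.I * (l : ℂ) * ((g θ * ee (-θ)).im : ℂ)) * ee (-(l : ℝ) * θ)‖ ≤ _
    rw [norm_mul, norm_ee, mul_one]
    refine (norm_sub_le _ _).trans ?_
    rw [norm_mul, norm_mul, Complex.norm_I, one_mul, Complex.norm_real, Complex.norm_real, Real.norm_eq_abs,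
      Real.norm_eq_abs]
    have a1 := (Complex.abs_re_le_norm (g θ * ee (-θ))).trans hx
    have a2 := (Complex.abs_im_le_norm (g θ * ee (-θ))).trans hx
    have a3 := mul_le_mul_of_nonneg_left a2 (norm_nonneg (l : ℂ))
    linarith
  unfold en
  rw [intervalIntegral.integral_add (I h1) (I h2), mul_add, en_one h1, en_one h2, map_add]
  ring

theorem s3sq : (Real.sqrt 3 : ℂ) ^ 2 = 3 := by
  rw [← Complex.ofReal_pow, Real.sq_sqrt (by norm_num)]
  norm_num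

theorem om_v : om = (1 / 2 : ℂ) + Complex.I * ((Real.sqrt 3 : ℂ) / 2) := by
  rw [Helper95.RC.om_val]; push_cast; ring

theorem om_c : (starRingEnd ℂ) om = (1 / 2 : ℂ) - Complex.I * ((Real.sqrt 3 : ℂ) / 2) := by
  rw [Helper95.RC.om_conj]; push_cast; ring

theorem kq_v : kq 2 = (Real.sqrt 3 : ℂ) + Complex.I / 4 := by
  unfold kq; push_cast; ring

theorem kq_c : (starRingEnd ℂ) (kq 2) = (Real.sqrt 3 : ℂ) - Complex.I / 4 := by
  rw [kq_v]
  simp only [map_add, map_div₀, Complex.conj_ofReal, Complex.conj_I, Complex.conj_ofNat]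
  ring

theorem ee60 : ee (-(Real.pi / 3)) = (starRingEnd ℂ) om := by
  unfold om
  rw [← ee_neg]

theorem ee120 : ee (-(2 * Real.pi / 3)) = (starRingEnd ℂ) om ^ 2 := by
  rw [← ee60, pow_two, ← ee_add]
  congr 1
  ring

theorem w1_bm1 (h : AdmQ 2 b z) : ∃ C, BM (F1Q w1 2 b z) C ∧ BM (F2Q w1 2 b z) C := by
  obtain ⟨C, hC⟩ := hexQ (by norm_num : (0 : ℝ) < 2) h w1_wgt
  exact ⟨2 * C, ⟨Helper44.RCG.G1_meas hC.q, Helper44.RCG.G1_le hC.q⟩,
    ⟨Helper44.RCG.G2_meas hC.q, Helper44.RCG.G2_le hC.q⟩⟩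

theorem fm_even (n : ℕ) : Even (fm n) := ⟨(n : ℤ) + 1, by unfold fm; ring⟩

/-- **the aligned moments, `m ≥ 2`** -/
theorem en_fm (h : AdmQ 2 b z) (n : ℕ) :
    en (F1Q w1 2 b z) (F2Q w1 2 b z) (fm n) = ebar n (be b (fm n)) (ga b (fm n)) := by
  obtain ⟨C, h1, h2⟩ := w1_bm1 h
  have hq : (0 : ℝ) < 2 := by norm_num
  rw [en_two h1 h2, Helper95.RC.fc_F1Q hq h w1_wgt, Helper95.RC.fc_F2Q hq h w1_wgt,
    Helper95.RC.fc_F1Q hq h w1_wgt, Helper95.RC.fc_F2Q hq h w1_wgt]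
  unfold Helper95.RC.c1 Helper95.RC.c2
  have hm0 : fm n ≠ 0 := by unfold fm; omega
  have i1 : fm n + 1 - 1 = fm n := by ring
  have i2 : 1 - fm n - 1 = -fm n := by ring
  rw [i1, i2, Helper95.RC.sc_even hq h w1_wgt (fm_even n), Helper95.RC.sc_even hq h w1_wgt (fm_even n).neg,
    wc_w1, wc_w1, if_neg hm0, if_neg (neg_ne_zero.2 hm0), pc_w1, rc_w1, be_neg, ga_neg]
  set β := be b (fm n)
  set γ := ga b (fm n)
  have x1 : ee (-((fm n + 1 : ℤ) : ℝ) * (Real.pi / 3)) =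
      ee (-(2 * ((n : ℝ) + 1)) * (Real.pi / 3)) * (starRingEnd ℂ) om := by
    rw [← ee60, ← ee_add]
    congr 1
    push_cast
    rw [fm_real]
    ring
  have x2 : ee (-((fm n + 1 : ℤ) : ℝ) * (2 * Real.pi / 3)) =
      ee (-(2 * ((n : ℝ) + 1)) * (2 * Real.pi / 3)) * (starRingEnd ℂ) om ^ 2 := by
    rw [← ee120, ← ee_add]
    congr 1
    push_cast
    rw [fm_real]
    ring
  have x3 : (starRingEnd ℂ) (ee (-((1 - fm n : ℤ) : ℝ) * (Real.pi / 3))) =
      ee (-(2 * ((n : ℝ) + 1)) * (Real.pi / 3)) * om := by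
    rw [← ee_neg]
    unfold om
    rw [← ee_add]
    congr 1
    push_cast
    rw [fm_real]
    ring
  have x4 : (starRingEnd ℂ) (ee (-((1 - fm n : ℤ) : ℝ) * (2 * Real.pi / 3))) =
      ee (-(2 * ((n : ℝ) + 1)) * (2 * Real.pi / 3)) * om ^ 2 := by
    rw [← ee_neg]
    unfold om
    rw [pow_two, ← ee_add, ← ee_add]
    congr 1
    push_cast
    rw [fm_real]
    ring
  rw [x1, x2]
  simp only [map_add, map_sub, map_mul, map_pow, map_zero, x3, x4, Complex.conj_conj]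
  have hm : ((fm n : ℤ) : ℂ) = 2 * ((n : ℂ) + 1) := by unfold fm; push_cast; ring
  rw [hm]
  unfold ebar
  set E1 := ee (-(2 * ((n : ℝ) + 1)) * (Real.pi / 3))
  set E2 := ee (-(2 * ((n : ℝ) + 1)) * (2 * Real.pi / 3))
  rw [om_c, om_v, kq_c, kq_v]
  have hI := Complex.I_sq
  have h3 := s3sq
  set s : ℂ := (Real.sqrt 3 : ℂ)
  set i : ℂ := Complex.I
  set m : ℂ := 2 * ((n : ℂ) + 1)
  have i3 : i ^ 3 = -i := by rw [pow_succ, hI]; ring
  have i4 : i ^ 4 = 1 := by rw [show (4 : ℕ) = 2 * 2 by norm_num, pow_mul, hI]; norm_num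
  have s3 : s ^ 3 = 3 * s := by rw [pow_succ, h3]
  have s4 : s ^ 4 = 9 := by rw [show (4 : ℕ) = 2 * 2 by norm_num, pow_mul, h3]; norm_num
  ring_nf
  simp only [hI, i3, i4, h3, s3, s4]
  ring

/-- **the aligned moment of order 0** -/
theorem en_zero (h : AdmQ 2 b z) :
    (en (F1Q w1 2 b z) (F2Q w1 2 b z) 0).re = 2 - (be b 0).re := by
  obtain ⟨C, h1, h2⟩ := w1_bm1 h
  have hq : (0 : ℝ) < 2 := by norm_num
  rw [en_two h1 h2, Helper95.RC.fc_F1Q hq h w1_wgt, Helper95.RC.fc_F2Q hq h w1_wgt,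
    Helper95.RC.fc_F1Q hq h w1_wgt, Helper95.RC.fc_F2Q hq h w1_wgt]
  unfold Helper95.RC.c1 Helper95.RC.c2
  have i1 : (0 : ℤ) + 1 - 1 = 0 := by ring
  have i2 : (1 : ℤ) - 0 - 1 = 0 := by ring
  rw [i1, i2, Helper95.RC.sc_even hq h w1_wgt Even.zero, wc_w1, if_pos rfl, pc_w1, rc_w1]
  have hb := be0_real b
  have hg := ga0_real b
  obtain ⟨β, hβ⟩ : ∃ β : ℝ, be b 0 = (β : ℂ) := ⟨(be b 0).re, by apply Complex.ext <;> simp [hb]⟩
  obtain ⟨γ, hγ⟩ : ∃ γ : ℝ, ga b 0 = (γ : ℂ) := ⟨(ga b 0).re, by apply Complex.ext <;> simp [hg]⟩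
  rw [hβ, hγ]
  have x1 : ee (-((0 + 1 : ℤ) : ℝ) * (Real.pi / 3)) = (starRingEnd ℂ) om := by
    rw [← ee60]; congr 1; push_cast; ring
  have x2 : ee (-((0 + 1 : ℤ) : ℝ) * (2 * Real.pi / 3)) = (starRingEnd ℂ) om ^ 2 := by
    rw [← ee120]; congr 1; push_cast; ring
  have x3 : ee (-((1 - 0 : ℤ) : ℝ) * (Real.pi / 3)) = (starRingEnd ℂ) om := by
    rw [← ee60]; congr 1; push_cast; ring
  have x4 : ee (-((1 - 0 : ℤ) : ℝ) * (2 * Real.pi / 3)) = (starRingEnd ℂ) om ^ 2 := by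
    rw [← ee120]; congr 1; push_cast; ring
  rw [x1, x2, x3, x4]
  have hI := Complex.I_sq
  have h3 := s3sq
  have key : (1 - ((0 : ℤ) : ℂ)) / 2 * ((starRingEnd ℂ) om * (om * 1 + (starRingEnd ℂ) om * (β : ℂ) + kq 2 * (γ : ℂ) + 0)
      + (starRingEnd ℂ) om ^ 2 * (om ^ 2 * 1 + (starRingEnd ℂ) om ^ 2 * (β : ℂ) + (starRingEnd ℂ) (kq 2) * (γ : ℂ) - 0))
      + (1 + ((0 : ℤ) : ℂ)) / 2 * (starRingEnd ℂ) ((starRingEnd ℂ) om * (om * 1 + (starRingEnd ℂ) om * (β : ℂ)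
        + kq 2 * (γ : ℂ) + 0)
      + (starRingEnd ℂ) om ^ 2 * (om ^ 2 * 1 + (starRingEnd ℂ) om ^ 2 * (β : ℂ) + (starRingEnd ℂ) (kq 2) * (γ : ℂ) - 0))
      = ((2 - β : ℝ) : ℂ) := by
    simp only [map_add, map_sub, map_mul, map_pow, map_zero, map_one, Complex.conj_conj, Complex.conj_ofReal]
    rw [om_c, om_v, kq_c, kq_v]
    push_cast
    set s : ℂ := (Real.sqrt 3 : ℂ)
    set i : ℂ := Complex.I
    have i3 : i ^ 3 = -i := by rw [pow_succ, hI]; ring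
    have i4 : i ^ 4 = 1 := by rw [show (4 : ℕ) = 2 * 2 by norm_num, pow_mul, hI]; norm_num
    have s3 : s ^ 3 = 3 * s := by rw [pow_succ, h3]
    have s4 : s ^ 4 = 9 := by rw [show (4 : ℕ) = 2 * 2 by norm_num, pow_mul, h3]; norm_num
    ring_nf
    simp only [hI, i3, i4, h3, s3, s4]
    ring
  rw [key, Complex.ofReal_re, Complex.ofReal_re]

/-- **Parseval** -/
theorem far_B (h : AdmQ 2 b z) :
    Tendsto (fun N : ℕ => ((be b 0).re ^ 2 + (ga b 0).re ^ 2)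
      + ∑ n ∈ Finset.range N, 2 * (‖be b (fm n)‖ ^ 2 + ‖ga b (fm n)‖ ^ 2)) atTop
      (𝓝 (1 / (2 * Real.pi) * ∫ t in (0 : ℝ)..(2 * Real.pi), ‖b t‖ ^ 2)) := by
  obtain ⟨C1, h1⟩ := Helper95.RC.bmp h w1_wgt
  obtain ⟨C2, h2⟩ := Helper95.RC.bmr h w1_wgt
  have p := (pars h1).add (pars h2)
  have e1 : ∀ n, fc (fun t => ((w1 t * (b t).re : ℝ) : ℂ)) n = be b n := fun n => congrFun (pc_w1 b) n
  have e2 : ∀ n, fc (fun t => ((w1 t * (b t).im : ℝ) : ℂ)) n = ga b n := fun n => congrFun (rc_w1 b) n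
  simp only [e1, e2] at p
  have eI : (1 / (2 * Real.pi)) * (∫ t in (0 : ℝ)..(2 * Real.pi), ‖((w1 t * (b t).re : ℝ) : ℂ)‖ ^ 2)
      + (1 / (2 * Real.pi)) * (∫ t in (0 : ℝ)..(2 * Real.pi), ‖((w1 t * (b t).im : ℝ) : ℂ)‖ ^ 2)
      = 1 / (2 * Real.pi) * ∫ t in (0 : ℝ)..(2 * Real.pi), ‖b t‖ ^ 2 := by
    rw [← mul_add, ← intervalIntegral.integral_add]
    · congr 1
      refine intervalIntegral.integral_congr fun t _ => ?_
      simp only [w1_one, one_mul, Complex.norm_real, Real.norm_eq_abs, sq_abs]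
      rw [← Complex.normSq_eq_norm_sq, Complex.normSq_apply]
      ring
    · refine intg_of_bdd (C := C1 ^ 2) (h1.m.norm.pow_const 2) (fun t => ?_) _ _
      rw [abs_of_nonneg (by positivity)]
      exact pow_le_pow_left₀ (norm_nonneg _) (h1.b t) 2
    · refine intg_of_bdd (C := C2 ^ 2) (h2.m.norm.pow_const 2) (fun t => ?_) _ _
      rw [abs_of_nonneg (by positivity)]
      exact pow_le_pow_left₀ (norm_nonneg _) (h2.b t) 2
  rw [eI] at p
  have hinj : Function.Injective (fun j : ℤ => 2 * j) := by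
    intro a b hab; simp only at hab; omega
  have p2 : HasSum ((fun n : ℤ => ‖be b n‖ ^ 2 + ‖ga b n‖ ^ 2) ∘ fun j : ℤ => 2 * j)
      (1 / (2 * Real.pi) * ∫ t in (0 : ℝ)..(2 * Real.pi), ‖b t‖ ^ 2) := by
    rw [Function.Injective.hasSum_iff hinj]
    · exact p
    · intro n hn
      have hodd : ¬ Even n := by
        intro he
        obtain ⟨k, hk⟩ := he
        exact hn ⟨k, by simp only; omega⟩
      have a1 := Helper95.RC.pc_odd h w1_wgt hodd
      have a2 := Helper95.RC.rc_odd h w1_wgt hodd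
      rw [pc_w1] at a1
      rw [rc_w1] at a2
      rw [a1, a2]
      simp
  have p3 := tend_int p2
  refine p3.congr fun N => ?_
  have hb := be0_real b
  have hg := ga0_real b
  congr 1
  · show ‖be b (2 * 0)‖ ^ 2 + ‖ga b (2 * 0)‖ ^ 2 = _
    rw [mul_zero, ← Complex.normSq_eq_norm_sq, Complex.normSq_apply, ← Complex.normSq_eq_norm_sq,
      Complex.normSq_apply, hb, hg]
    ring
  · refine Finset.sum_congr rfl fun n _ => ?_
    show ‖be b (2 * ((n : ℤ) + 1))‖ ^ 2 + ‖ga b (2 * ((n : ℤ) + 1))‖ ^ 2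
      + (‖be b (2 * -((n : ℤ) + 1))‖ ^ 2 + ‖ga b (2 * -((n : ℤ) + 1))‖ ^ 2) = _
    have e1 : (2 * ((n : ℤ) + 1)) = fm n := rfl
    have e2 : (2 * (-((n : ℤ) + 1))) = -fm n := by unfold fm; ring
    rw [e1, e2, be_neg, ga_neg, Complex.norm_conj, Complex.norm_conj]
    ring

end Helper44.Far
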