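import Pool.Agent.Helper44.RC.M_FA3

/-!
# Project RC, SHARP: the far lemma, the second harmonic and the bound of the perimeter
-/

open MeasureTheory Set Filter Topology

namespace Helper44.Far

open Helper49.LT hiding sg
open Helper49.RC Helper87.RC Helper44.GQ
open Helper56.RC (fc)
open Helper44.RCG (Hex A00G A0QG AQQG G1 G2 sgG N0)
open Helper95.RC (wc pc rc sc kq)
open Pool.Agent.Helper20.RC (al)

variable {b z : ℝ → ℂ}

/-- shift of a periodic integrand -/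
theorem int_shift {E : Type*} [NormedAddCommGroup E] [NormedSpace ℝ E] {F : ℝ → E}
    (hF : ∀ t, F (t + 2 * Real.pi) = F t) (c : ℝ) :
    ∫ t in (0 : ℝ)..(2 * Real.pi), F (t + c) = ∫ t in (0 : ℝ)..(2 * Real.pi), F t := by
  rw [intervalIntegral.integral_comp_add_right]
  have hp : Function.Periodic F (2 * Real.pi) := hF
  have := hp.intervalIntegral_add_eq c 0
  rw [zero_add] at this
  rw [zero_add, add_comm (2 * Real.pi) c]
  exact this

/-- the moment of an edge with its angle -/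
theorem nn2_al (g : ℝ → ℂ) (θ : ℝ) : nn 2 (g θ) = (‖g θ‖ : ℂ) * ee (-((2 : ℤ) : ℝ) * al g θ) := by
  have hg : g θ = (‖g θ‖ : ℂ) * ee (al g θ) := Pool.Agent.Helper20.RC.al_ee g θ
  by_cases h0 : ‖g θ‖ = 0
  · unfold nn
    rw [h0]
    simp
  · have hne : (‖g θ‖ : ℂ) ≠ 0 := by exact_mod_cast h0
    unfold nn
    congr 1
    have e1 : (starRingEnd ℂ) (g θ) = (‖g θ‖ : ℂ) * ee (-(al g θ)) := by
      conv_lhs => rw [hg]
      rw [map_mul, Complex.conj_ofReal, ← ee_neg]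
    rw [e1, mul_div_cancel_left₀ _ hne, pow_two, ← ee_add]
    congr 1
    push_cast
    ring

theorem nn2_norm (x : ℂ) : ‖nn 2 x‖ ≤ ‖x‖ := by
  unfold nn
  rw [norm_mul, norm_pow, norm_div, Complex.norm_conj, Complex.norm_real, norm_norm]
  by_cases h0 : ‖x‖ = 0
  · rw [h0]; simp
  · rw [div_self h0]; simp

theorem nn2_meas : Measurable (nn 2) := by
  unfold nn
  exact (Complex.measurable_ofReal.comp measurable_norm).mul
    ((Complex.continuous_conj.measurable.div (Complex.measurable_ofReal.comp measurable_norm)).pow_const 2)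

/-- the remainder of the second harmonic of `a` -/
noncomputable def rr (b : ℂ) : ℂ :=
  (starRingEnd ℂ) (aQ 2 b) ^ 2 / (‖aQ 2 b‖ : ℂ) - (1 + (b.re : ℂ) - Complex.I * (b.im : ℂ))

theorem aQ_meas : Measurable (aQ 2) := by
  unfold aQ
  exact (measurable_const.add (Complex.measurable_ofReal.comp Complex.measurable_re)).add
    ((Complex.measurable_ofReal.comp (Complex.measurable_im.div_const 2)).const_mul _)

theorem rr_meas : Measurable rr := by
  unfold rr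
  refine ((Complex.continuous_conj.measurable.comp aQ_meas).pow_const 2).div
    (Complex.measurable_ofReal.comp (measurable_norm.comp aQ_meas)) |>.sub ?_
  exact (measurable_const.add (Complex.measurable_ofReal.comp Complex.measurable_re)).sub
    ((Complex.measurable_ofReal.comp Complex.measurable_im).const_mul _)

/-- the second harmonic of the segments -/
theorem nn2_A0 (b : ℝ → ℂ) (t : ℝ) : nn 2 (A0Q w1 2 b t) =
    ee (-((2 : ℤ) : ℝ) * t) * (1 + ((b t).re : ℂ) - Complex.I * ((b t).im : ℂ) + rr (b t)) := by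
  unfold A0Q rr
  rw [w1_one, Complex.ofReal_one, one_mul]
  have e2 : ee (-((2 : ℤ) : ℝ) * t) = (starRingEnd ℂ) (ee t) ^ 2 := by
    rw [← ee_neg, pow_two, ← ee_add]
    congr 1
    push_cast
    ring
  rw [e2]
  unfold nn
  rw [norm_mul, norm_ee, one_mul, map_mul]
  set a := aQ 2 (b t)
  by_cases h0 : (‖a‖ : ℂ) = 0
  · rw [h0]
    simp only [zero_mul, div_zero]
    ring
  · field_simp
    ring

/-- the integral of a function of the family 1 -/
theorem int_F1 {E : Type*} [NormedAddCommGroup E] [NormedSpace ℝ E] (h : AdmQ 2 b z) (F : ℂ → E) :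
    ∫ θ in (0 : ℝ)..(2 * Real.pi), F (F1Q w1 2 b z θ) =
      ∫ t in (0 : ℝ)..(2 * Real.pi), F (AAQ w1 2 b t + vvS w1 z t) := by
  obtain ⟨C, hC⟩ := hexQ (by norm_num : (0 : ℝ) < 2) h w1_wgt
  have hper : ∀ t, F (AAQ w1 2 b (t + 2 * Real.pi) + vvS w1 z (t + 2 * Real.pi)) =
      F (AAQ w1 2 b t + vvS w1 z t) := by
    intro t
    have e : t + 2 * Real.pi = t + Real.pi + Real.pi := by ring
    rw [e, hC.q.pA, hC.q.pA, hC.q.pv, hC.q.pv, neg_neg]
  have := int_shift (F := fun t => F (AAQ w1 2 b t + vvS w1 z t)) hper (-(Real.pi / 3))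
  rw [← this]
  refine intervalIntegral.integral_congr fun θ _ => ?_
  show F (G1 (AAQ w1 2 b) (vvS w1 z) θ) = _
  unfold G1
  rw [sub_eq_add_neg]

/-- the integral of a function of the family 2 -/
theorem int_F2 {E : Type*} [NormedAddCommGroup E] [NormedSpace ℝ E] (h : AdmQ 2 b z) (F : ℂ → E) :
    ∫ θ in (0 : ℝ)..(2 * Real.pi), F (F2Q w1 2 b z θ) =
      ∫ t in (0 : ℝ)..(2 * Real.pi), F (BBQ w1 2 b t - vvS w1 z t) := by
  obtain ⟨C, hC⟩ := hexQ (by norm_num : (0 : ℝ) < 2) h w1_wgt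
  have hper : ∀ t, F (BBQ w1 2 b (t + 2 * Real.pi) - vvS w1 z (t + 2 * Real.pi)) =
      F (BBQ w1 2 b t - vvS w1 z t) := by
    intro t
    have e : t + 2 * Real.pi = t + Real.pi + Real.pi := by ring
    rw [e, hC.q.pB, hC.q.pB, hC.q.pv, hC.q.pv, neg_neg]
  have := int_shift (F := fun t => F (BBQ w1 2 b t - vvS w1 z t)) hper (-(2 * Real.pi / 3))
  rw [← this]
  refine intervalIntegral.integral_congr fun θ _ => ?_
  show F (G2 (BBQ w1 2 b) (vvS w1 z) θ) = _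
  unfold G2
  rw [sub_eq_add_neg θ (2 * Real.pi / 3)]

theorem ii_nn2 {g : ℝ → ℂ} {C : ℝ} (hg : BM g C) : IntervalIntegrable (fun θ => nn 2 (g θ)) volume 0
    (2 * Real.pi) :=
  intg_of_bddC (nn2_meas.comp hg.m) (fun θ => (nn2_norm _).trans (hg.b θ)) _ _

/-- **the second harmonic** -/
theorem sg2 (h : AdmQ 2 b z) : ∃ ρ : ℂ, sgG (A0Q w1 2 b) (AAQ w1 2 b) (BBQ w1 2 b) (vvS w1 z) 2 =
    (nu (F1Q w1 2 b z) (F2Q w1 2 b z) 2 + be b 2 - Complex.I * ga b 2) + ρ ∧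
    ‖ρ‖ ^ 2 ≤ 1 / (2 * Real.pi) * ∫ t in (0 : ℝ)..(2 * Real.pi), ‖rr (b t)‖ ^ 2 := by
  obtain ⟨C, hC⟩ := hexQ (by norm_num : (0 : ℝ) < 2) h w1_wgt
  have hb1 : BM (F1Q w1 2 b z) (2 * C) := ⟨Helper44.RCG.G1_meas hC.q, Helper44.RCG.G1_le hC.q⟩
  have hb2 : BM (F2Q w1 2 b z) (2 * C) := ⟨Helper44.RCG.G2_meas hC.q, Helper44.RCG.G2_le hC.q⟩
  have hb0 : BM (A0Q w1 2 b) C := ⟨hC.m0, hC.b0⟩
  obtain ⟨C1, h1⟩ := Helper95.RC.bmp h w1_wgt
  obtain ⟨C2, h2⟩ := Helper95.RC.bmr h w1_wgt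
  have hbA : BM (fun t => AAQ w1 2 b t + vvS w1 z t) (C + C) :=
    ⟨hC.q.mA.add hC.q.mv, fun t => (norm_add_le _ _).trans (add_le_add (hC.q.bA t) (hC.q.bv t))⟩
  have hbB : BM (fun t => BBQ w1 2 b t - vvS w1 z t) (C + C) :=
    ⟨hC.q.mB.sub hC.q.mv, fun t => (norm_sub_le _ _).trans (add_le_add (hC.q.bB t) (hC.q.bv t))⟩
  have hbr : BM (fun t => rr (b t)) (C + (1 + C1 + C2)) := by
    refine ⟨rr_meas.comp h.mb, fun t => ?_⟩
    have e := nn2_A0 b t
    have e2 : rr (b t) = ee (((2 : ℤ) : ℝ) * t) * nn 2 (A0Q w1 2 b t) -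
        (1 + ((w1 t * (b t).re : ℝ) : ℂ) - Complex.I * ((w1 t * (b t).im : ℝ) : ℂ)) := by
      rw [e, ← mul_assoc, ← ee_add, neg_mul, add_neg_cancel, ee_zero, w1_one]
      push_cast
      ring
    rw [e2]
    refine (norm_sub_le _ _).trans ?_
    refine add_le_add ?_ ?_
    · rw [norm_mul, norm_ee, one_mul]
      exact (nn2_norm _).trans (hb0.b t)
    · refine (norm_sub_le _ _).trans (add_le_add ((norm_add_le _ _).trans (add_le_add (by simp) (h1.b t))) ?_)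
      rw [norm_mul, Complex.norm_I, one_mul]
      exact h2.b t
  refine ⟨fc (fun t => rr (b t)) 2, ?_, ?_⟩
  · unfold sgG
    rw [intervalIntegral.integral_add ((ii_nn2 hb0).add (ii_nn2 hbA)) (ii_nn2 hbB),
      intervalIntegral.integral_add (ii_nn2 hb0) (ii_nn2 hbA), ← int_F1 h (nn 2), ← int_F2 h (nn 2)]
    have k0 : (1 / (2 * Real.pi) : ℂ) * (∫ t in (0 : ℝ)..(2 * Real.pi), nn 2 (A0Q w1 2 b t)) =
        be b 2 - Complex.I * ga b 2 + fc (fun t => rr (b t)) 2 := by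
      have k1 : fc (fun t => ((1 : ℂ) + ((w1 t * (b t).re : ℝ) : ℂ)
          + (-Complex.I) * ((w1 t * (b t).im : ℝ) : ℂ)) + rr (b t)) 2 =
          be b 2 - Complex.I * ga b 2 + fc (fun t => rr (b t)) 2 := by
        rw [fc_add (((Pool.Agent.Helper20.RC.bm_one).add h1).add (h2.cmul _)) hbr,
          fc_add ((Pool.Agent.Helper20.RC.bm_one).add h1) (h2.cmul _),
          fc_add (Pool.Agent.Helper20.RC.bm_one) h1, fc_cmul, Pool.Agent.Helper20.RC.fc_one, if_neg (by norm_num)]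
        have e1 : fc (fun t => ((w1 t * (b t).re : ℝ) : ℂ)) 2 = be b 2 := congrFun (pc_w1 b) 2
        have e2 : fc (fun t => ((w1 t * (b t).im : ℝ) : ℂ)) 2 = ga b 2 := congrFun (rc_w1 b) 2
        rw [e1, e2]
        ring
      rw [← k1, fc_eq]
      congr 1
      refine intervalIntegral.integral_congr fun t _ => ?_
      show nn 2 (A0Q w1 2 b t) = _
      rw [nn2_A0]
      simp only [w1_one]
      push_cast
      ring
    have kn : (1 / (2 * Real.pi) : ℂ) * ((∫ t in (0 : ℝ)..(2 * Real.pi), nn 2 (F1Q w1 2 b z t))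
        + ∫ t in (0 : ℝ)..(2 * Real.pi), nn 2 (F2Q w1 2 b z t)) = nu (F1Q w1 2 b z) (F2Q w1 2 b z) 2 := by
      unfold nu
      rw [← intervalIntegral.integral_add (ii_nn2 hb1) (ii_nn2 hb2)]
      congr 1
      refine intervalIntegral.integral_congr fun t _ => ?_
      show nn 2 (F1Q w1 2 b z t) + nn 2 (F2Q w1 2 b z t) = _
      rw [nn2_al, nn2_al]
    rw [add_assoc, mul_add, k0, kn]
    ring
  · have hp := pars hbr
    exact le_hasSum hp 2 (fun n _ => by positivity)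

/-- **the second harmonic, the lower bound** -/
theorem far_S (hK : StK) (h : AdmQ 2 b z) :
    8 / 15 * ‖nu (F1Q w1 2 b z) (F2Q w1 2 b z) 2 + be b 2 - Complex.I * ga b 2‖ ^ 2
      - 4 / 5 * (1 / (2 * Real.pi) * ∫ t in (0 : ℝ)..(2 * Real.pi), ‖b t‖ ^ 2)
      ≤ 2 / 3 * ‖sgG (A0Q w1 2 b) (AAQ w1 2 b) (BBQ w1 2 b) (vvS w1 z) 2‖ ^ 2 := by
  obtain ⟨ρ, e, hρ⟩ := sg2 h
  rw [e]
  set u := nu (F1Q w1 2 b z) (F2Q w1 2 b z) 2 + be b 2 - Complex.I * ga b 2
  obtain ⟨δ, hδ, hb⟩ := h.bdb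
  have hlt : ∀ t, ‖b t‖ < 1 := fun t => (hb t).trans_lt (by linarith)
  have hrr : ∀ t, ‖rr (b t)‖ ^ 2 ≤ 3 / 10 * ‖b t‖ ^ 2 := fun t => hK (b t) (hlt t)
  have hint : 1 / (2 * Real.pi) * (∫ t in (0 : ℝ)..(2 * Real.pi), ‖rr (b t)‖ ^ 2) ≤
      3 / 10 * (1 / (2 * Real.pi) * ∫ t in (0 : ℝ)..(2 * Real.pi), ‖b t‖ ^ 2) := by
    have i1 : IntervalIntegrable (fun t => ‖rr (b t)‖ ^ 2) volume 0 (2 * Real.pi) := by
      refine intg_of_bdd (C := 3 / 10) ((rr_meas.comp h.mb).norm.pow_const 2) (fun t => ?_) _ _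
      rw [abs_of_nonneg (by positivity)]
      show ‖rr (b t)‖ ^ 2 ≤ 3 / 10
      have := hlt t
      nlinarith [hrr t, norm_nonneg (b t)]
    have i2 : IntervalIntegrable (fun t => 3 / 10 * ‖b t‖ ^ 2) volume 0 (2 * Real.pi) := by
      refine intg_of_bdd (C := 3 / 10) ((h.mb.norm.pow_const 2).const_mul _) (fun t => ?_) _ _
      rw [abs_of_nonneg (by positivity)]
      have := hlt t
      nlinarith [norm_nonneg (b t)]
    have := intervalIntegral.integral_mono_on (by positivity) i1 i2 (fun t _ => hrr t)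
    rw [intervalIntegral.integral_const_mul] at this
    have hp : (0 : ℝ) ≤ 1 / (2 * Real.pi) := by positivity
    have := mul_le_mul_of_nonneg_left this hp
    linarith
  have hn : ‖u‖ ≤ ‖u + ρ‖ + ‖ρ‖ := by
    have := norm_sub_le (u + ρ) ρ
    rwa [add_sub_cancel_right] at this
  have h5 : 4 / 5 * ‖u‖ ^ 2 - 4 * ‖ρ‖ ^ 2 ≤ ‖u + ρ‖ ^ 2 := by
    have a1 := norm_nonneg u
    have a2 := norm_nonneg ρ
    have a3 := norm_nonneg (u + ρ)
    have : ‖u‖ ^ 2 ≤ (‖u + ρ‖ + ‖ρ‖) ^ 2 := by nlinarith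
    nlinarith [sq_nonneg (‖u + ρ‖ - 4 * ‖ρ‖)]
  linarith

/-- pointwise bound of the two edges -/
theorem two_edges (h : AdmQ 2 b z) (t : ℝ) :
    ‖AAQ w1 2 b t + vvS w1 z t‖ + ‖BBQ w1 2 b t - vvS w1 z t‖ ≤ 13 := by
  obtain ⟨δ, hδ, hb⟩ := h.bdb
  have hlt : ‖b t‖ < 1 := (hb t).trans_lt (by linarith)
  obtain ⟨X, Y, hX, hY, hz⟩ := h.reg t
  have hre := (Complex.abs_re_le_norm (b t)).trans hlt.le
  have him := (Complex.abs_im_le_norm (b t)).trans hlt.le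
  have ha : ‖aQ 2 (b t)‖ ≤ 5 / 2 := by
    unfold aQ
    refine (norm_add_le _ _).trans ?_
    have e1 : ‖(1 : ℂ) + ((b t).re : ℂ)‖ ≤ 1 + 1 := by
      refine (norm_add_le _ _).trans (add_le_add (by simp) ?_)
      rw [Complex.norm_real]
      exact hre
    have e2 : ‖Complex.I * (((b t).im / 2 : ℝ) : ℂ)‖ ≤ 1 / 2 := by
      rw [norm_mul, Complex.norm_I, one_mul, Complex.norm_real, Real.norm_eq_abs, abs_div]
      rw [abs_of_pos (by norm_num : (0 : ℝ) < 2)]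
      linarith
    linarith
  have hc : ‖cQ 2 (b t)‖ ≤ 4 := by
    unfold cQ
    rw [norm_mul]
    have h3 : Real.sqrt 3 ≤ 2 := by
      rw [show (2 : ℝ) = Real.sqrt 4 by rw [show (4 : ℝ) = 2 ^ 2 by norm_num]; exact (Real.sqrt_sq (by norm_num)).symm]
      exact Real.sqrt_le_sqrt (by norm_num)
    have e0 : ‖(Real.sqrt 3 / 2 : ℂ)‖ ≤ 1 := by
      rw [norm_div, Complex.norm_real, Real.norm_eq_abs, abs_of_nonneg (Real.sqrt_nonneg 3), Complex.norm_ofNat]
      linarith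
    have e1 : ‖Complex.I * (1 - ((b t).re : ℂ)) + ((2 * (b t).im : ℝ) : ℂ)‖ ≤ 4 := by
      refine (norm_add_le _ _).trans ?_
      rw [norm_mul, Complex.norm_I, one_mul, Complex.norm_real, Real.norm_eq_abs, abs_mul,
        abs_of_pos (by norm_num : (0 : ℝ) < 2)]
      have : ‖(1 : ℂ) - ((b t).re : ℂ)‖ ≤ 1 + 1 := by
        refine (norm_sub_le _ _).trans (add_le_add (by simp) ?_)
        rw [Complex.norm_real]
        exact hre
      linarith
    calc ‖(Real.sqrt 3 / 2 : ℂ)‖ * ‖Complex.I * (1 - ((b t).re : ℂ)) + ((2 * (b t).im : ℝ) : ℂ)‖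
        ≤ 1 * 4 := mul_le_mul e0 e1 (norm_nonneg _) (by norm_num)
      _ = 4 := by norm_num
  have eA : AAQ w1 2 b t + vvS w1 z t = ee t * (((1 / 2 + X : ℝ) : ℂ) * aQ 2 (b t) + ((1 + Y : ℝ) : ℂ) * cQ 2 (b t)) := by
    unfold AAQ vvS
    rw [w1_one, hz]
    push_cast
    ring
  have eB : BBQ w1 2 b t - vvS w1 z t = ee t * (((1 - Y : ℝ) : ℂ) * cQ 2 (b t) - ((1 / 2 + X : ℝ) : ℂ) * aQ 2 (b t)) := by
    unfold BBQ vvS
    rw [w1_one, hz]
    push_cast
    ring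
  rw [abs_le] at hX hY
  rw [eA, eB, norm_mul, norm_mul, norm_ee, one_mul, one_mul]
  have n1 := norm_add_le (((1 / 2 + X : ℝ) : ℂ) * aQ 2 (b t)) (((1 + Y : ℝ) : ℂ) * cQ 2 (b t))
  have n2 := norm_sub_le (((1 - Y : ℝ) : ℂ) * cQ 2 (b t)) (((1 / 2 + X : ℝ) : ℂ) * aQ 2 (b t))
  rw [norm_mul, norm_mul, Complex.norm_real, Complex.norm_real, Real.norm_eq_abs, Real.norm_eq_abs,
    abs_of_nonneg (by linarith), abs_of_nonneg (by linarith)] at n1 n2
  have a0 := norm_nonneg (aQ 2 (b t))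
  have k : (1 / 2 + X) * ‖aQ 2 (b t)‖ ≤ 1 * ‖aQ 2 (b t)‖ := mul_le_mul_of_nonneg_right (by linarith) a0
  linarith

/-- the moment of order 0 is at most 13 -/
theorem nu0_le (h : AdmQ 2 b z) : (nu (F1Q w1 2 b z) (F2Q w1 2 b z) 0).re ≤ 13 := by
  obtain ⟨C, hC⟩ := hexQ (by norm_num : (0 : ℝ) < 2) h w1_wgt
  have hb1 : BM (F1Q w1 2 b z) (2 * C) := ⟨Helper44.RCG.G1_meas hC.q, Helper44.RCG.G1_le hC.q⟩
  have hb2 : BM (F2Q w1 2 b z) (2 * C) := ⟨Helper44.RCG.G2_meas hC.q, Helper44.RCG.G2_le hC.q⟩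
  have hbA : BM (fun t => AAQ w1 2 b t + vvS w1 z t) (C + C) :=
    ⟨hC.q.mA.add hC.q.mv, fun t => (norm_add_le _ _).trans (add_le_add (hC.q.bA t) (hC.q.bv t))⟩
  have hbB : BM (fun t => BBQ w1 2 b t - vvS w1 z t) (C + C) :=
    ⟨hC.q.mB.sub hC.q.mv, fun t => (norm_sub_le _ _).trans (add_le_add (hC.q.bB t) (hC.q.bv t))⟩
  have ii : ∀ {g : ℝ → ℂ} {C : ℝ}, BM g C → IntervalIntegrable (fun θ => ‖g θ‖) volume 0 (2 * Real.pi) := by
    intro g C hg
    refine intg_of_bdd (C := C) hg.m.norm (fun t => ?_) _ _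
    rw [abs_of_nonneg (norm_nonneg _)]
    exact hg.b t
  rw [nu0_re, intervalIntegral.integral_add (ii hb1) (ii hb2), int_F1 h (fun x => ‖x‖), int_F2 h (fun x => ‖x‖),
    ← intervalIntegral.integral_add (ii hbA) (ii hbB)]
  have hp := Real.pi_pos
  have := intervalIntegral.integral_mono_on (a := 0) (b := 2 * Real.pi) (by positivity) ((ii hbA).add (ii hbB))
    (intervalIntegrable_const (c := (13 : ℝ))) (fun t _ => two_edges h t)
  rw [intervalIntegral.integral_const, sub_zero, smul_eq_mul] at this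
  calc 1 / (2 * Real.pi) * (∫ t in (0 : ℝ)..(2 * Real.pi), (‖AAQ w1 2 b t + vvS w1 z t‖
        + ‖BBQ w1 2 b t - vvS w1 z t‖)) ≤ 1 / (2 * Real.pi) * (2 * Real.pi * 13) :=
        mul_le_mul_of_nonneg_left this (by positivity)
    _ = 13 := by field_simp

end Helper44.Far
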