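import Pool.Agent.Helper44.RC.M_FA4

/-!
# Project RC, SHARP: the far lemma, assembly

`hFAR : StR → StI → StT4 → StT2 → StK → StConst → StFar`.
-/

open MeasureTheory Set Filter Topology

namespace Helper44.Far

open Helper49.LT hiding sg
open Helper49.RC Helper87.RC Helper44.GQ
open Helper56.RC (fc)
open Helper44.RCG (Hex A00G A0QG AQQG G1 G2 sgG N0)

variable {b z : ℝ → ℂ}

/-- completion of the square of one mode: `2 Re (X conj ν) + (1/2) |ν|²/M ≥ -2 M |X|²` -/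
theorem sq_mode (X ν : ℂ) {M : ℝ} (hM : 0 < M) :
    -(2 * M * ‖X‖ ^ 2) ≤ 2 * (X * (starRingEnd ℂ) ν).re + 1 / 2 * ‖ν‖ ^ 2 / M := by
  have h1 : 0 ≤ ‖(2 * M : ℂ) * X + ν‖ ^ 2 := by positivity
  have h2 : ‖(2 * M : ℂ) * X + ν‖ ^ 2 = 4 * M ^ 2 * ‖X‖ ^ 2 + 4 * M * (X * (starRingEnd ℂ) ν).re + ‖ν‖ ^ 2 := by
    simp only [← Complex.normSq_eq_norm_sq, Complex.normSq_apply]
    simp only [Complex.add_re, Complex.add_im, Complex.mul_re, Complex.mul_im, Complex.conj_re, Complex.conj_im,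
      Complex.ofReal_re, Complex.ofReal_im, Complex.re_ofNat, Complex.im_ofNat]
    ring
  rw [h2] at h1
  have h3 : 0 ≤ (4 * M ^ 2 * ‖X‖ ^ 2 + 4 * M * (X * (starRingEnd ℂ) ν).re + ‖ν‖ ^ 2) / (2 * M) :=
    div_nonneg h1 (by positivity)
  have h4 : (4 * M ^ 2 * ‖X‖ ^ 2 + 4 * M * (X * (starRingEnd ℂ) ν).re + ‖ν‖ ^ 2) / (2 * M) =
      2 * M * ‖X‖ ^ 2 + 2 * (X * (starRingEnd ℂ) ν).re + 1 / 2 * ‖ν‖ ^ 2 / M := by
    field_simp
    ring
  linarith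

/-- **THE FAR LEMMA** -/
theorem hFAR (hR : StR) (hI : StI) (hT4 : StT4) (hT2 : StT2) (hK : StK) (hC : StConst) : StFar := by
  intro b z h hS
  obtain ⟨LA, hA1, hA⟩ := far_A h
  obtain ⟨LC, hC1, hCC⟩ := far_C h
  obtain ⟨LR, hR1, hRR⟩ := hR b z h
  obtain ⟨C, hb1, hb2⟩ := w1_bm1 h
  obtain ⟨Chex, hCh⟩ := hexQ (by norm_num : (0 : ℝ) < 2) h w1_wgt
  have p1 : ∀ θ, F1Q w1 2 b z (θ + 2 * Real.pi) = F1Q w1 2 b z θ := by
    intro θ
    have e : θ + 2 * Real.pi - Real.pi / 3 = θ - Real.pi / 3 + Real.pi + Real.pi := by ring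
    show G1 (AAQ w1 2 b) (vvS w1 z) _ = G1 (AAQ w1 2 b) (vvS w1 z) _
    unfold G1
    rw [e, hCh.q.pA, hCh.q.pA, hCh.q.pv, hCh.q.pv, neg_neg]
  have p2 : ∀ θ, F2Q w1 2 b z (θ + 2 * Real.pi) = F2Q w1 2 b z θ := by
    intro θ
    have e : θ + 2 * Real.pi - 2 * Real.pi / 3 = θ - 2 * Real.pi / 3 + Real.pi + Real.pi := by ring
    show G2 (BBQ w1 2 b) (vvS w1 z) _ = G2 (BBQ w1 2 b) (vvS w1 z) _
    unfold G2
    rw [e, hCh.q.pB, hCh.q.pB, hCh.q.pv, hCh.q.pv, neg_neg]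
  obtain ⟨LI, hI0, hII⟩ := hI _ _ C C hb1 hb2 p1 p2
  have hB := far_B h
  have hSS := far_S hK h
  have hT := Pool.Agent.Helper20.RC.target_wR h zero_le_half
  have hw : Pool.Agent.Helper20.RC.wR 0 0 0 = w1 := rfl
  rw [hw] at hT
  simp only [w1_one, one_mul] at hT
  have hspl := splQ (by norm_num : (0 : ℝ) < 2) h w1_wgt
  set F1 := F1Q w1 2 b z with hF1
  set F2 := F2Q w1 2 b z with hF2
  set B2 := 1 / (2 * Real.pi) * ∫ t in (0 : ℝ)..(2 * Real.pi), ‖b t‖ ^ 2 with hB2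
  set ν0 := (nu F1 F2 0).re with hν0
  set β0 := (be b 0).re with hβ0
  set γ0 := (ga b 0).re with hγ0
  -- the perimeter
  have hS' : 1 / 5 ≤ ν0 - 2 + β0 := by
    rw [hν0, nu0_re]
    exact hS
  have hν13 : ν0 ≤ 13 := nu0_le h
  have hβ1 : |β0| ≤ 1 := by
    have h1 := (Complex.abs_re_le_norm (be b 0))
    refine h1.trans ?_
    obtain ⟨δ, hδ, hbb⟩ := h.bdb
    unfold be
    have hm : BM (fun t => ((b t).re : ℂ)) 1 := ⟨Complex.measurable_ofReal.comp (Complex.measurable_re.comp h.mb),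
      fun t => by
        rw [Complex.norm_real]
        exact (Complex.abs_re_le_norm (b t)).trans ((hbb t).trans (by linarith))⟩
    have hp := pars hm
    have h2 := le_hasSum hp 0 (fun n _ => by positivity)
    have hpi := Real.pi_pos
    have h3 : 1 / (2 * Real.pi) * (∫ t in (0 : ℝ)..(2 * Real.pi), ‖((b t).re : ℂ)‖ ^ 2) ≤ 1 := by
      have i1 : IntervalIntegrable (fun t => ‖((b t).re : ℂ)‖ ^ 2) volume 0 (2 * Real.pi) := by
        refine intg_of_bdd (C := 1) (hm.m.norm.pow_const 2) (fun t => ?_) _ _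
        rw [abs_of_nonneg (by positivity)]
        exact pow_le_one₀ (norm_nonneg _) (hm.b t)
      have := intervalIntegral.integral_mono_on (a := 0) (b := 2 * Real.pi) (by positivity) i1
        (intervalIntegrable_const (c := (1 : ℝ))) (fun t _ => pow_le_one₀ (norm_nonneg _) (hm.b t))
      rw [intervalIntegral.integral_const, sub_zero, smul_eq_mul] at this
      calc 1 / (2 * Real.pi) * (∫ t in (0 : ℝ)..(2 * Real.pi), ‖((b t).re : ℂ)‖ ^ 2)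
          ≤ 1 / (2 * Real.pi) * (2 * Real.pi * 1) := mul_le_mul_of_nonneg_left this (by positivity)
        _ = 1 := by field_simp
    have h4 : ‖fc (fun t => ((b t).re : ℂ)) 0‖ ^ 2 ≤ 1 := h2.trans h3
    nlinarith [norm_nonneg (fc (fun t => ((b t).re : ℂ)) 0)]
  have hCon := hC ν0 β0 γ0 hβ1 hS' hν13
  -- the limit
  have hlim := (((hA.add hCC).add hRR).add (hB.const_mul (41 / 5))).sub (hII.const_mul (1 / 4))
  have key : ∀ N : ℕ, 1 ≤ N → (0 : ℝ) ≤ 8 / 15 * ‖nu F1 F2 2 + be b 2 - Complex.I * ga b 2‖ ^ 2 - 9 +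
      ((1 + β0) ^ 2 + γ0 ^ 2 / 4 + ∑ n ∈ Finset.range N, cA n (be b (fm n)) (ga b (fm n))
      + (2 * (1 + β0) * ν0 + ∑ n ∈ Finset.range N, 2 * (XC n (be b (fm n)) (ga b (fm n))
        * (starRingEnd ℂ) (nu F1 F2 (fm n))).re)
      + (Real.sqrt 3 * kD * (1 - β0) * ν0 + ∑ n ∈ Finset.range N, 2 * (XR n (be b (fm n)) (ga b (fm n))
        * (starRingEnd ℂ) (nu F1 F2 (fm n))).re)
      + 41 / 5 * (β0 ^ 2 + γ0 ^ 2 + ∑ n ∈ Finset.range N, 2 * (‖be b (fm n)‖ ^ 2 + ‖ga b (fm n)‖ ^ 2))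
      - 1 / 4 * (ν0 * (ν0 - (en F1 F2 0).re) - 2 * ∑ n ∈ Finset.range N,
        ((nu F1 F2 (fm n) - en F1 F2 (fm n)) * (starRingEnd ℂ) (nu F1 F2 (fm n))).re / MM n)) := by
    intro N hN
    have e0 : (en F1 F2 0).re = 2 - β0 := en_zero h
    rw [e0]
    have hmode : ∀ n : ℕ, cA n (be b (fm n)) (ga b (fm n))
        + 2 * (XC n (be b (fm n)) (ga b (fm n)) * (starRingEnd ℂ) (nu F1 F2 (fm n))).re
        + 2 * (XR n (be b (fm n)) (ga b (fm n)) * (starRingEnd ℂ) (nu F1 F2 (fm n))).re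
        + 41 / 5 * (2 * (‖be b (fm n)‖ ^ 2 + ‖ga b (fm n)‖ ^ 2))
        + 1 / 2 * (((nu F1 F2 (fm n) - en F1 F2 (fm n)) * (starRingEnd ℂ) (nu F1 F2 (fm n))).re / MM n)
        = 82 / 5 * (‖be b (fm n)‖ ^ 2 + ‖ga b (fm n)‖ ^ 2) + cA n (be b (fm n)) (ga b (fm n))
          + 2 * (XX n (be b (fm n)) (ga b (fm n)) * (starRingEnd ℂ) (nu F1 F2 (fm n))).re
          + 1 / 2 * ‖nu F1 F2 (fm n)‖ ^ 2 / MM n := by
      intro n
      rw [show en F1 F2 (fm n) = ebar n (be b (fm n)) (ga b (fm n)) from en_fm h n]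
      set β := be b (fm n)
      set γ := ga b (fm n)
      set ν := nu F1 F2 (fm n)
      set e := ebar n β γ
      have hM := MM_pos n
      have x1 : ((ν - e) * (starRingEnd ℂ) ν).re = ‖ν‖ ^ 2 - (e * (starRingEnd ℂ) ν).re := by
        rw [sub_mul, Complex.sub_re, Complex.mul_conj, Complex.ofReal_re, Complex.normSq_eq_norm_sq]
      have x2 : (XX n β γ * (starRingEnd ℂ) ν).re = (XC n β γ * (starRingEnd ℂ) ν).re
          + (XR n β γ * (starRingEnd ℂ) ν).re - 1 / 4 * ((e * (starRingEnd ℂ) ν).re / MM n) := by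
        unfold XX
        have : (XC n β γ + XR n β γ - 1 / 4 * (ebar n β γ / (MM n : ℂ))) * (starRingEnd ℂ) ν =
            XC n β γ * (starRingEnd ℂ) ν + XR n β γ * (starRingEnd ℂ) ν
              - ((1 / 4 * (MM n)⁻¹ : ℝ) : ℂ) * (e * (starRingEnd ℂ) ν) := by
          push_cast
          ring
        rw [this, Complex.sub_re, Complex.add_re, Complex.re_ofReal_mul]
        ring
      rw [x1, x2]
      field_simp
      ring
    have hsum : ∑ n ∈ Finset.range N, cA n (be b (fm n)) (ga b (fm n))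
        + ∑ n ∈ Finset.range N, 2 * (XC n (be b (fm n)) (ga b (fm n)) * (starRingEnd ℂ) (nu F1 F2 (fm n))).re
        + ∑ n ∈ Finset.range N, 2 * (XR n (be b (fm n)) (ga b (fm n)) * (starRingEnd ℂ) (nu F1 F2 (fm n))).re
        + 41 / 5 * ∑ n ∈ Finset.range N, 2 * (‖be b (fm n)‖ ^ 2 + ‖ga b (fm n)‖ ^ 2)
        + 1 / 2 * ∑ n ∈ Finset.range N,
          ((nu F1 F2 (fm n) - en F1 F2 (fm n)) * (starRingEnd ℂ) (nu F1 F2 (fm n))).re / MM n
        = ∑ n ∈ Finset.range N, (82 / 5 * (‖be b (fm n)‖ ^ 2 + ‖ga b (fm n)‖ ^ 2)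
          + cA n (be b (fm n)) (ga b (fm n))
          + 2 * (XX n (be b (fm n)) (ga b (fm n)) * (starRingEnd ℂ) (nu F1 F2 (fm n))).re
          + 1 / 2 * ‖nu F1 F2 (fm n)‖ ^ 2 / MM n) := by
      rw [Finset.mul_sum, Finset.mul_sum, ← Finset.sum_add_distrib, ← Finset.sum_add_distrib,
        ← Finset.sum_add_distrib, ← Finset.sum_add_distrib]
      exact Finset.sum_congr rfl fun n _ => hmode n
    have hpos : 0 ≤ 8 / 15 * ‖nu F1 F2 2 + be b 2 - Complex.I * ga b 2‖ ^ 2 +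
        ∑ n ∈ Finset.range N, (82 / 5 * (‖be b (fm n)‖ ^ 2 + ‖ga b (fm n)‖ ^ 2)
          + cA n (be b (fm n)) (ga b (fm n))
          + 2 * (XX n (be b (fm n)) (ga b (fm n)) * (starRingEnd ℂ) (nu F1 F2 (fm n))).re
          + 1 / 2 * ‖nu F1 F2 (fm n)‖ ^ 2 / MM n) := by
      obtain ⟨M, rfl⟩ : ∃ M, N = M + 1 := ⟨N - 1, by omega⟩
      rw [Finset.sum_range_succ']
      have hs : 0 ≤ ∑ n ∈ Finset.range M, (82 / 5 * (‖be b (fm (n + 1))‖ ^ 2 + ‖ga b (fm (n + 1))‖ ^ 2)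
          + cA (n + 1) (be b (fm (n + 1))) (ga b (fm (n + 1)))
          + 2 * (XX (n + 1) (be b (fm (n + 1))) (ga b (fm (n + 1))) * (starRingEnd ℂ) (nu F1 F2 (fm (n + 1)))).re
          + 1 / 2 * ‖nu F1 F2 (fm (n + 1))‖ ^ 2 / MM (n + 1)) := by
        refine Finset.sum_nonneg fun n _ => ?_
        have h1 := sq_mode (XX (n + 1) (be b (fm (n + 1))) (ga b (fm (n + 1)))) (nu F1 F2 (fm (n + 1)))
          (MM_pos (n + 1))
        have h2 := hT4 (n + 1) (be b (fm (n + 1))) (ga b (fm (n + 1))) (by omega)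
        linarith
      have h0 := hT2 (be b 2) (ga b 2) (nu F1 F2 2)
      have f0 : fm 0 = 2 := rfl
      have m0 : MM 0 = 3 := by unfold MM; norm_num
      rw [f0, m0]
      have : 1 / 2 * ‖nu F1 F2 2‖ ^ 2 / 3 = 1 / 6 * ‖nu F1 F2 2‖ ^ 2 := by ring
      rw [this]
      linarith
    linarith
  have hfin : (0 : ℝ) ≤ 8 / 15 * ‖nu F1 F2 2 + be b 2 - Complex.I * ga b 2‖ ^ 2 - 9 +
      (LA + LC + LR + 41 / 5 * B2 - 1 / 4 * LI) :=
    ge_of_tendsto (hlim.const_add _) (Filter.eventually_atTop.2 ⟨1, key⟩)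
  rw [hspl]
  linarith

end Helper44.Far
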