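import Pool.Agent.Helper44.RC.M_FAR
import Pool.Agent.Helper49.RC.StSharp
import Pool.Agent.Helper20.RC.M_FI
import Pool.Agent.Helper20.RC.M_FK
import Pool.Agent.Helper20.RC.M_FT2

/-!
# Project RC, SHARP: the far lemma in the form of the skeleton
-/

open MeasureTheory Set Filter Topology

namespace Helper44.Far

open Helper49.LT hiding sg
open Helper49.RC Helper87.RC Helper44.GQ
open Helper56.RC (fc)
open Helper44.RCG (Hex A00G A0QG AQQG G1 G2 sgG N0)

/-- the module FAR of the skeleton from the far lemma -/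
theorem farS_of (hF : StFar) : Helper49.Sharp.StFarS := by
  intro b z h hS
  refine hF b z h ?_
  obtain ⟨C, hC⟩ := hexQ (by norm_num : (0 : ℝ) < 2) h w1_wgt
  have hb1 : BM (F1Q w1 2 b z) (2 * C) := ⟨Helper44.RCG.G1_meas hC.q, Helper44.RCG.G1_le hC.q⟩
  have hb2 : BM (F2Q w1 2 b z) (2 * C) := ⟨Helper44.RCG.G2_meas hC.q, Helper44.RCG.G2_le hC.q⟩
  have hbA : BM (fun t => AAQ w1 2 b t + vvS w1 z t) (C + C) :=
    ⟨hC.q.mA.add hC.q.mv, fun t => (norm_add_le _ _).trans (add_le_add (hC.q.bA t) (hC.q.bv t))⟩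
  have hbB : BM (fun t => BBQ w1 2 b t - vvS w1 z t) (C + C) :=
    ⟨hC.q.mB.sub hC.q.mv, fun t => (norm_sub_le _ _).trans (add_le_add (hC.q.bB t) (hC.q.bv t))⟩
  have ii : ∀ {g : ℝ → ℂ} {C : ℝ}, BM g C → IntervalIntegrable (fun θ => ‖g θ‖) volume 0 (2 * Real.pi) := by
    intro g C hg
    refine intg_of_bdd (C := C) hg.m.norm (fun t => ?_) _ _
    rw [abs_of_nonneg (norm_nonneg _)]
    exact hg.b t
  have e1 : (∫ θ in (0 : ℝ)..(2 * Real.pi), (‖F1Q w1 2 b z θ‖ + ‖F2Q w1 2 b z θ‖)) =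
      ∫ t in (0 : ℝ)..(2 * Real.pi), (‖Helper49.Sharp.g1 (b t) (z t)‖ + ‖Helper49.Sharp.g2 (b t) (z t)‖) := by
    rw [intervalIntegral.integral_add (ii hb1) (ii hb2), int_F1 h (fun x => ‖x‖), int_F2 h (fun x => ‖x‖),
      ← intervalIntegral.integral_add (ii hbA) (ii hbB)]
    refine intervalIntegral.integral_congr fun t _ => ?_
    show ‖AAQ w1 2 b t + vvS w1 z t‖ + ‖BBQ w1 2 b t - vvS w1 z t‖ = _
    have eA : AAQ w1 2 b t + vvS w1 z t = ee t * Helper49.Sharp.g1 (b t) (z t) := by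
      unfold AAQ vvS Helper49.Sharp.g1
      rw [w1_one]
      push_cast
      ring
    have eB : BBQ w1 2 b t - vvS w1 z t = ee t * Helper49.Sharp.g2 (b t) (z t) := by
      unfold BBQ vvS Helper49.Sharp.g2
      rw [w1_one]
      push_cast
      ring
    rw [eA, eB, norm_mul, norm_mul, norm_ee, one_mul, one_mul]
  have e2 : (fc b 0).re = (be b 0).re := by
    obtain ⟨C1, h1⟩ := Helper95.RC.bmp h w1_wgt
    obtain ⟨C2, h2⟩ := Helper95.RC.bmr h w1_wgt
    have e : b = fun t => ((w1 t * (b t).re : ℝ) : ℂ) + Complex.I * ((w1 t * (b t).im : ℝ) : ℂ) := by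
      funext t
      rw [w1_one, one_mul, one_mul, mul_comm]
      exact (Complex.re_add_im (b t)).symm
    have e3 : fc b 0 = be b 0 + Complex.I * ga b 0 := by
      conv_lhs => rw [e]
      rw [fc_add h1 (h2.cmul _), fc_cmul]
      have e1 : fc (fun t => ((w1 t * (b t).re : ℝ) : ℂ)) 0 = be b 0 := congrFun (pc_w1 b) 0
      have e2 : fc (fun t => ((w1 t * (b t).im : ℝ) : ℂ)) 0 = ga b 0 := congrFun (rc_w1 b) 0
      rw [e1, e2]
    rw [e3, Complex.add_re, Complex.mul_re, Complex.I_re, Complex.I_im, ga0_real]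
    ring
  rw [e1]
  unfold Helper49.Sharp.Sp Helper49.Sharp.mean at hS
  rw [e2] at hS
  exact hS

/-- the module FAR from the two inputs which remain -/
theorem hFARS (hR : StR) (hT4 : StT4) : Helper49.Sharp.StFarS :=
  farS_of (hFAR hR Pool.Agent.Helper20.RC.hI hT4 Pool.Agent.Helper20.RC.hT2 Pool.Agent.Helper20.RC.hK
    Pool.Agent.Helper20.RC.hConst)

end Helper44.Far
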