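import Pool.Agent.Helper51.RC.M_FT
import Pool.Agent.Helper20.RC.M_FT2
import Pool.Agent.Helper20.RC.M_FK

/-!
# Project RC, SHARP: the extended far lemma, tables

The far lemma holds under the weaker hypothesis `1/5 ≤ S' + (3/4) ⟨b₂²⟩`. Tables with the price `(45/8) |β|²`.
-/

open MeasureTheory Set Filter Topology

namespace Helper44.Far

open Helper49.LT hiding sg
open Pool.Agent.Helper51.RC (quad_core norm_form im_bd ebar0 ebar1 ebar2 XX_form s3lo s3hi sin_nn sin54)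

/-- (T), `m ≥ 4`, with the price -/
def StT4X : Prop := ∀ (n : ℕ) (β γ : ℂ), 1 ≤ n →
  2 * MM n * ‖XX n β γ‖ ^ 2 + 45 / 8 * ‖β‖ ^ 2 ≤ 82 / 5 * (‖β‖ ^ 2 + ‖γ‖ ^ 2) + cA n β γ

/-- (T), `m = 2`, with the price -/
def StT2X : Prop := ∀ β γ ν : ℂ,
  45 / 8 * ‖β‖ ^ 2 ≤ 82 / 5 * (‖β‖ ^ 2 + ‖γ‖ ^ 2) + cA 0 β γ + 2 * (XX 0 β γ * (starRingEnd ℂ) ν).re + 1 / 6 * ‖ν‖ ^ 2
    + 8 / 15 * ‖ν + β - Complex.I * γ‖ ^ 2

/-- the constant part, with the price -/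
def StConstX : Prop := ∀ ν0 β0 γ0 X : ℝ, |β0| ≤ 1 → 0 ≤ ν0 - 2 + β0 → ν0 ≤ 13 → 0 ≤ X →
  1 / 5 ≤ ν0 - 2 + β0 + 3 / 4 * (β0 ^ 2 + X) →
  0 ≤ 2 * (1 + β0) * ν0 + Real.sqrt 3 * kD * (1 - β0) * ν0 + (1 + β0) ^ 2 + γ0 ^ 2 / 4 - 9
    + 41 / 5 * (β0 ^ 2 + γ0 ^ 2) - 1 / 4 * (ν0 * (ν0 - (2 - β0))) + 45 / 16 * X

theorem MMp (n : ℕ) : 0 < MM n := Pool.Agent.Helper51.RC.MM_pos n

/-- the criterion with the price -/
theorem critX {M m X Y : ℝ} (hM : 0 < M) (hp : 0 ≤ 431 / 40 * M - 2 - 2 * X ^ 2)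
    (hq : 0 ≤ 82 / 5 * M - 1 / 2 - 2 * Y ^ 2)
    (hr : (m - 2 * (X * Y)) ^ 2 ≤ (431 / 40 * M - 2 - 2 * X ^ 2) * (82 / 5 * M - 1 / 2 - 2 * Y ^ 2)) (β γ : ℂ) :
    2 * M * ‖((X / M : ℝ) : ℂ) * β + Complex.I * ((Y / M : ℝ) : ℂ) * γ‖ ^ 2 + 45 / 8 * ‖β‖ ^ 2 ≤
      82 / 5 * (‖β‖ ^ 2 + ‖γ‖ ^ 2) + (-2 * (‖β‖ ^ 2 + ‖γ‖ ^ 2 / 4) + 2 * m * (β * (starRingEnd ℂ) γ).im) / M := by
  have h := quad_core hp hq hr (im_bd β γ)
  rw [norm_form]
  set a := ‖β‖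
  set c := ‖γ‖
  set ι := (β * (starRingEnd ℂ) γ).im
  have e : 82 / 5 * (a ^ 2 + c ^ 2) + (-2 * (a ^ 2 + c ^ 2 / 4) + 2 * m * ι) / M
      - (2 * M * ((X / M) ^ 2 * a ^ 2 + (Y / M) ^ 2 * c ^ 2 + 2 * (X / M * (Y / M)) * ι) + 45 / 8 * a ^ 2) =
      ((431 / 40 * M - 2 - 2 * X ^ 2) * a ^ 2 + (82 / 5 * M - 1 / 2 - 2 * Y ^ 2) * c ^ 2
        + 2 * (m - 2 * (X * Y)) * ι) / M := by
    field_simp
    ring
  have h2 : 0 ≤ ((431 / 40 * M - 2 - 2 * X ^ 2) * a ^ 2 + (82 / 5 * M - 1 / 2 - 2 * Y ^ 2) * c ^ 2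
        + 2 * (m - 2 * (X * Y)) * ι) / M := div_nonneg h hM.le
  linarith

/-- the criterion from bounds -/
theorem crit2X {M m X Y x y p q : ℝ} (hM : 0 < M) (hm : 0 ≤ m) (hX : |X| ≤ x) (hY : |Y| ≤ y)
    (hp : p ≤ 431 / 40 * M - 2 - 2 * x ^ 2) (hq : q ≤ 82 / 5 * M - 1 / 2 - 2 * y ^ 2) (hp0 : 0 ≤ p) (hq0 : 0 ≤ q)
    (hr : (m + 2 * (x * y)) ^ 2 ≤ p * q) (β γ : ℂ) :
    2 * M * ‖((X / M : ℝ) : ℂ) * β + Complex.I * ((Y / M : ℝ) : ℂ) * γ‖ ^ 2 + 45 / 8 * ‖β‖ ^ 2 ≤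
      82 / 5 * (‖β‖ ^ 2 + ‖γ‖ ^ 2) + (-2 * (‖β‖ ^ 2 + ‖γ‖ ^ 2 / 4) + 2 * m * (β * (starRingEnd ℂ) γ).im) / M := by
  have hX2 : X ^ 2 ≤ x ^ 2 := sq_le_sq' (abs_le.1 hX).1 (abs_le.1 hX).2
  have hY2 : Y ^ 2 ≤ y ^ 2 := sq_le_sq' (abs_le.1 hY).1 (abs_le.1 hY).2
  have hXY : |X * Y| ≤ x * y := by
    rw [abs_mul]
    exact mul_le_mul hX hY (abs_nonneg _) ((abs_nonneg _).trans hX)
  have h1 := abs_le.1 hXY
  refine critX hM (by linarith) (by linarith) ?_ β γ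
  have h2 : (m - 2 * (X * Y)) ^ 2 ≤ (m + 2 * (x * y)) ^ 2 := sq_le_sq' (by linarith) (by linarith)
  refine h2.trans (hr.trans ?_)
  exact mul_le_mul (by linarith) (by linarith) hq0 (by linarith)

/-- the criterion for one frequency -/
theorem T4X_of {n : ℕ} {β γ : ℂ} {ex ey x y p q : ℝ} (he : ebar n β γ = (ex : ℂ) * β + Complex.I * (ey : ℂ) * γ)
    (hX : |-2 - ex / 4 + Real.sqrt 3 / 2 * (-1) ^ (n + 1) * ((RD n - PD n) * MM n)| ≤ x)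
    (hY : |2 * ((n : ℝ) + 1) - ey / 4 - Real.sqrt 3 * (-1) ^ (n + 1) * ((PD n + RD n) * MM n)| ≤ y)
    (hp : p ≤ 431 / 40 * MM n - 2 - 2 * x ^ 2) (hq : q ≤ 82 / 5 * MM n - 1 / 2 - 2 * y ^ 2) (hp0 : 0 ≤ p)
    (hq0 : 0 ≤ q) (hr : (2 * ((n : ℝ) + 1) + 2 * (x * y)) ^ 2 ≤ p * q) :
    2 * MM n * ‖XX n β γ‖ ^ 2 + 45 / 8 * ‖β‖ ^ 2 ≤ 82 / 5 * (‖β‖ ^ 2 + ‖γ‖ ^ 2) + cA n β γ := by
  rw [XX_form n β γ ex ey he]
  exact crit2X (MMp n) (by positivity) hX hY hp hq hp0 hq0 hr β γ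

theorem T4X_1 (β γ : ℂ) : 2 * MM 1 * ‖XX 1 β γ‖ ^ 2 + 45 / 8 * ‖β‖ ^ 2 ≤ 82 / 5 * (‖β‖ ^ 2 + ‖γ‖ ^ 2) + cA 1 β γ := by
  have he : ebar 1 β γ = ((-11 / 2 : ℝ) : ℂ) * β + Complex.I * ((-29 / 8 : ℝ) : ℂ) * γ :=
    (ebar1 0 β γ).trans (by norm_num)
  have hM : MM 1 = 15 := by unfold MM; norm_num
  have hP : PD 1 = 4 / 25 * Real.sin (5 / 4) := by unfold PD; norm_num; ring
  have hR : RD 1 = 4 / 9 * Real.sin (3 / 4) := by unfold RD; norm_num; ring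
  have s0 := s3lo
  have s1 := s3hi
  have p0 := sin_nn (x := 5 / 4) (by norm_num) (by norm_num)
  have p1 := Real.sin_le_one (5 / 4)
  have r0 := sin_nn (x := 3 / 4) (by norm_num) (by norm_num)
  have r1 : Real.sin (3 / 4) ≤ 3 / 4 := Real.sin_le (by norm_num)
  refine T4X_of (x := 4) (y := 8) (p := 127) (q := 117) he ?_ ?_ ?_ ?_ (by norm_num) (by norm_num) ?_
  · rw [hM, hP, hR]
    set s := Real.sqrt 3
    set p := Real.sin (5 / 4)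
    set r := Real.sin (3 / 4)
    have u0 : 0 ≤ s * p := mul_nonneg (by linarith) p0
    have u1 : s * p ≤ 17321 / 10000 * 1 := mul_le_mul s1 p1 p0 (by norm_num)
    have v0 : 0 ≤ s * r := mul_nonneg (by linarith) r0
    have v1 : s * r ≤ 17321 / 10000 * (3 / 4) := mul_le_mul s1 r1 r0 (by norm_num)
    have eX : (-2 - (-11 / 2 : ℝ) / 4 + s / 2 * (-1) ^ (1 + 1) * ((4 / 9 * r - 4 / 25 * p) * 15)) =
        -5 / 8 + 10 / 3 * (s * r) - 6 / 5 * (s * p) := by ring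
    rw [eX]
    exact abs_le.2 ⟨by linarith, by linarith⟩
  · rw [hM, hP, hR]
    set s := Real.sqrt 3
    set p := Real.sin (5 / 4)
    set r := Real.sin (3 / 4)
    have u0 : 0 ≤ s * p := mul_nonneg (by linarith) p0
    have u1 : s * p ≤ 17321 / 10000 * 1 := mul_le_mul s1 p1 p0 (by norm_num)
    have v0 : 0 ≤ s * r := mul_nonneg (by linarith) r0
    have v1 : s * r ≤ 17321 / 10000 * (3 / 4) := mul_le_mul s1 r1 r0 (by norm_num)
    have eY : (2 * (((1 : ℕ) : ℝ) + 1) - (-29 / 8 : ℝ) / 4 - s * (-1) ^ (1 + 1) * ((4 / 25 * p + 4 / 9 * r) * 15)) =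
        157 / 32 - 12 / 5 * (s * p) - 20 / 3 * (s * r) := by push_cast; ring
    rw [eY]
    exact abs_le.2 ⟨by linarith, by linarith⟩
  · rw [hM]; norm_num
  · rw [hM]; norm_num
  · push_cast; norm_num

theorem T4X_3 (β γ : ℂ) : 2 * MM 3 * ‖XX 3 β γ‖ ^ 2 + 45 / 8 * ‖β‖ ^ 2 ≤ 82 / 5 * (‖β‖ ^ 2 + ‖γ‖ ^ 2) + cA 3 β γ := by
  have he : ebar 3 β γ = ((25 / 2 : ℝ) : ℂ) * β + Complex.I * ((-103 / 8 : ℝ) : ℂ) * γ :=
    (ebar0 1 β γ).trans (by norm_num)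
  have hM : MM 3 = 63 := by unfold MM; norm_num
  have hP : PD 3 = 4 / 81 * Real.sin (9 / 4) := by unfold PD; norm_num; ring
  have hR : RD 3 = 4 / 49 * Real.sin (7 / 4) := by unfold RD; norm_num; ring
  have s0 := s3lo
  have s1 := s3hi
  have p0 := sin_nn (x := 9 / 4) (by norm_num) (by norm_num)
  have p1 := Real.sin_le_one (9 / 4)
  have r0 := sin_nn (x := 7 / 4) (by norm_num) (by norm_num)
  have r1 := Real.sin_le_one (7 / 4)
  refine T4X_of (x := 8) (y := 12) (p := 548) (q := 744) he ?_ ?_ ?_ ?_ (by norm_num) (by norm_num) ?_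
  · rw [hM, hP, hR]
    set s := Real.sqrt 3
    set p := Real.sin (9 / 4)
    set r := Real.sin (7 / 4)
    have u0 : 0 ≤ s * p := mul_nonneg (by linarith) p0
    have u1 : s * p ≤ 17321 / 10000 * 1 := mul_le_mul s1 p1 p0 (by norm_num)
    have v0 : 0 ≤ s * r := mul_nonneg (by linarith) r0
    have v1 : s * r ≤ 17321 / 10000 * 1 := mul_le_mul s1 r1 r0 (by norm_num)
    have eX : (-2 - (25 / 2 : ℝ) / 4 + s / 2 * (-1) ^ (3 + 1) * ((4 / 49 * r - 4 / 81 * p) * 63)) =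
        -41 / 8 + 18 / 7 * (s * r) - 14 / 9 * (s * p) := by ring
    rw [eX]
    exact abs_le.2 ⟨by linarith, by linarith⟩
  · rw [hM, hP, hR]
    set s := Real.sqrt 3
    set p := Real.sin (9 / 4)
    set r := Real.sin (7 / 4)
    have u0 : 0 ≤ s * p := mul_nonneg (by linarith) p0
    have u1 : s * p ≤ 17321 / 10000 * 1 := mul_le_mul s1 p1 p0 (by norm_num)
    have v0 : 0 ≤ s * r := mul_nonneg (by linarith) r0
    have v1 : s * r ≤ 17321 / 10000 * 1 := mul_le_mul s1 r1 r0 (by norm_num)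
    have eY : (2 * (((3 : ℕ) : ℝ) + 1) - (-103 / 8 : ℝ) / 4 - s * (-1) ^ (3 + 1) * ((4 / 81 * p + 4 / 49 * r) * 63)) =
        359 / 32 - 28 / 9 * (s * p) - 36 / 7 * (s * r) := by push_cast; ring
    rw [eY]
    exact abs_le.2 ⟨by linarith, by linarith⟩
  · rw [hM]; norm_num
  · rw [hM]; norm_num
  · push_cast; norm_num

theorem T4X_4 (β γ : ℂ) : 2 * MM 4 * ‖XX 4 β γ‖ ^ 2 + 45 / 8 * ‖β‖ ^ 2 ≤ 82 / 5 * (‖β‖ ^ 2 + ‖γ‖ ^ 2) + cA 4 β γ := by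
  have he : ebar 4 β γ = ((-29 / 2 : ℝ) : ℂ) * β + Complex.I * ((-95 / 8 : ℝ) : ℂ) * γ :=
    (ebar1 1 β γ).trans (by norm_num)
  have hM : MM 4 = 99 := by unfold MM; norm_num
  have hP : PD 4 = 4 / 121 * Real.sin (11 / 4) := by unfold PD; norm_num; ring
  have hR : RD 4 = 4 / 81 * Real.sin (9 / 4) := by unfold RD; norm_num; ring
  have s0 := s3lo
  have s1 := s3hi
  have p0 := sin_nn (x := 11 / 4) (by norm_num) (by norm_num)
  have p1 := Real.sin_le_one (11 / 4)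
  have r0 := sin_nn (x := 9 / 4) (by norm_num) (by norm_num)
  have r1 := Real.sin_le_one (9 / 4)
  refine T4X_of (x := 5) (y := 2711 / 100) (p := 1014) (q := 153) he ?_ ?_ ?_ ?_ (by norm_num) (by norm_num) ?_
  · rw [hM, hP, hR]
    set s := Real.sqrt 3
    set p := Real.sin (11 / 4)
    set r := Real.sin (9 / 4)
    have u0 : 0 ≤ s * p := mul_nonneg (by linarith) p0
    have u1 : s * p ≤ 17321 / 10000 * 1 := mul_le_mul s1 p1 p0 (by norm_num)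
    have v0 : 0 ≤ s * r := mul_nonneg (by linarith) r0
    have v1 : s * r ≤ 17321 / 10000 * 1 := mul_le_mul s1 r1 r0 (by norm_num)
    have eX : (-2 - (-29 / 2 : ℝ) / 4 + s / 2 * (-1) ^ (4 + 1) * ((4 / 81 * r - 4 / 121 * p) * 99)) =
        13 / 8 - 22 / 9 * (s * r) + 18 / 11 * (s * p) := by ring
    rw [eX]
    exact abs_le.2 ⟨by linarith, by linarith⟩
  · rw [hM, hP, hR]
    set s := Real.sqrt 3
    set p := Real.sin (11 / 4)
    set r := Real.sin (9 / 4)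
    have u0 : 0 ≤ s * p := mul_nonneg (by linarith) p0
    have u1 : s * p ≤ 17321 / 10000 * 1 := mul_le_mul s1 p1 p0 (by norm_num)
    have v0 : 0 ≤ s * r := mul_nonneg (by linarith) r0
    have v1 : s * r ≤ 17321 / 10000 * 1 := mul_le_mul s1 r1 r0 (by norm_num)
    have eY : (2 * (((4 : ℕ) : ℝ) + 1) - (-95 / 8 : ℝ) / 4 - s * (-1) ^ (4 + 1) * ((4 / 121 * p + 4 / 81 * r) * 99)) =
        415 / 32 + 36 / 11 * (s * p) + 44 / 9 * (s * r) := by push_cast; ring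
    rw [eY]
    exact abs_le.2 ⟨by linarith, by linarith⟩
  · rw [hM]; norm_num
  · rw [hM]; norm_num
  · push_cast; norm_num

theorem sin74x : 98 / 100 ≤ Real.sin (7 / 4) := by
  have h := Real.cos_pi_div_two_sub (7 / 4)
  rw [← h]
  have p1 := Real.pi_gt_d6
  have p2 := Real.pi_lt_d6
  have h1 := Real.one_sub_sq_div_two_le_cos (x := Real.pi / 2 - 7 / 4)
  have h2 : (Real.pi / 2 - 7 / 4) ^ 2 ≤ (18 / 100) ^ 2 := sq_le_sq' (by linarith) (by linarith)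
  linarith

theorem T4X_2 (β γ : ℂ) : 2 * MM 2 * ‖XX 2 β γ‖ ^ 2 + 45 / 8 * ‖β‖ ^ 2 ≤ 82 / 5 * (‖β‖ ^ 2 + ‖γ‖ ^ 2) + cA 2 β γ := by
  have he : ebar 2 β γ = ((-1 : ℝ) : ℂ) * β + Complex.I * ((33 / 2 : ℝ) : ℂ) * γ :=
    (ebar2 0 β γ).trans (by norm_num)
  have hM : MM 2 = 35 := by unfold MM; norm_num
  have hP : PD 2 = 4 / 49 * Real.sin (7 / 4) := by unfold PD; norm_num; ring
  have hR : RD 2 = 4 / 25 * Real.sin (5 / 4) := by unfold RD; norm_num; ring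
  have s0 := s3lo
  have s1 := s3hi
  have p0 := sin74x
  have p1 := Real.sin_le_one (7 / 4)
  have r0 := sin_nn (x := 5 / 4) (by norm_num) (by norm_num)
  have r1 := sin54
  refine T4X_of (x := 394 / 100) (y := 1604 / 100) (p := 344) (q := 588 / 10) he ?_ ?_ ?_ ?_ (by norm_num)
    (by norm_num) ?_
  · rw [hM, hP, hR]
    set s := Real.sqrt 3
    set p := Real.sin (7 / 4)
    set r := Real.sin (5 / 4)
    have u0 : 1732 / 1000 * (98 / 100) ≤ s * p := mul_le_mul s0 p0 (by norm_num) (by linarith)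
    have u1 : s * p ≤ 17321 / 10000 * 1 := mul_le_mul s1 p1 (by linarith) (by norm_num)
    have v0 : 0 ≤ s * r := mul_nonneg (by linarith) r0
    have v1 : s * r ≤ 17321 / 10000 * (95 / 100) := mul_le_mul s1 r1 r0 (by norm_num)
    have eX : (-2 - (-1 : ℝ) / 4 + s / 2 * (-1) ^ (2 + 1) * ((4 / 25 * r - 4 / 49 * p) * 35)) =
        -7 / 4 - 14 / 5 * (s * r) + 10 / 7 * (s * p) := by ring
    rw [eX]
    exact abs_le.2 ⟨by linarith, by linarith⟩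
  · rw [hM, hP, hR]
    set s := Real.sqrt 3
    set p := Real.sin (7 / 4)
    set r := Real.sin (5 / 4)
    have u0 : 1732 / 1000 * (98 / 100) ≤ s * p := mul_le_mul s0 p0 (by norm_num) (by linarith)
    have u1 : s * p ≤ 17321 / 10000 * 1 := mul_le_mul s1 p1 (by linarith) (by norm_num)
    have v0 : 0 ≤ s * r := mul_nonneg (by linarith) r0
    have v1 : s * r ≤ 17321 / 10000 * (95 / 100) := mul_le_mul s1 r1 r0 (by norm_num)
    have eY : (2 * (((2 : ℕ) : ℝ) + 1) - (33 / 2 : ℝ) / 4 - s * (-1) ^ (2 + 1) * ((4 / 49 * p + 4 / 25 * r) * 35)) =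
        15 / 8 + 20 / 7 * (s * p) + 28 / 5 * (s * r) := by push_cast; ring
    rw [eY]
    exact abs_le.2 ⟨by linarith, by linarith⟩
  · rw [hM]; norm_num
  · rw [hM]; norm_num
  · push_cast; norm_num

/-- the constants of the tail -/
theorem tail_XY {n : ℕ} (hn : 5 ≤ n) {ex ey x y : ℝ} (h1 : |-2 - ex / 4| ≤ x) (h2 : |2 * ((n : ℝ) + 1) - ey / 4| ≤ y) :
    |-2 - ex / 4 + Real.sqrt 3 / 2 * (-1) ^ (n + 1) * ((RD n - PD n) * MM n)| ≤ x + 7033 / 1000 ∧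
    |2 * ((n : ℝ) + 1) - ey / 4 - Real.sqrt 3 * (-1) ^ (n + 1) * ((PD n + RD n) * MM n)| ≤ y + 14066 / 1000 := by
  have hn' : (5 : ℝ) ≤ n := by exact_mod_cast hn
  have hx : MM n = (2 * ((n : ℝ) + 1) - 1) * (2 * ((n : ℝ) + 1) + 1) := by unfold MM; ring
  have eP : PD n * MM n = 4 * (2 * ((n : ℝ) + 1) - 1) / (2 * ((n : ℝ) + 1) + 1) * Real.sin ((2 * (n : ℝ) + 3) / 4) := by
    rw [hx]
    unfold PD
    have : (2 * (n : ℝ) + 3) = 2 * ((n : ℝ) + 1) + 1 := by ring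
    rw [this]
    have : 2 * ((n : ℝ) + 1) + 1 ≠ 0 := by positivity
    field_simp
  have eR : RD n * MM n = 4 * (2 * ((n : ℝ) + 1) + 1) / (2 * ((n : ℝ) + 1) - 1) * Real.sin ((2 * (n : ℝ) + 1) / 4) := by
    rw [hx]
    unfold RD
    have : (2 * (n : ℝ) + 1) = 2 * ((n : ℝ) + 1) - 1 := by ring
    rw [this]
    have : 2 * ((n : ℝ) + 1) - 1 ≠ 0 := by
      have : 0 < 2 * ((n : ℝ) + 1) - 1 := by linarith
      exact this.ne'
    field_simp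
  set X := 2 * ((n : ℝ) + 1) with hxd
  have x12 : 12 ≤ X := by rw [hxd]; linarith
  have aP : |PD n * MM n| ≤ 4 * (X - 1) / (X + 1) := by
    rw [eP, abs_mul, abs_of_nonneg (div_nonneg (by linarith) (by linarith) : 0 ≤ 4 * (X - 1) / (X + 1))]
    exact mul_le_of_le_one_right (div_nonneg (by linarith) (by linarith)) (Real.abs_sin_le_one _)
  have aR : |RD n * MM n| ≤ 4 * (X + 1) / (X - 1) := by
    rw [eR, abs_mul, abs_of_nonneg (div_nonneg (by linarith) (by linarith) : 0 ≤ 4 * (X + 1) / (X - 1))]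
    exact mul_le_of_le_one_right (div_nonneg (by linarith) (by linarith)) (Real.abs_sin_le_one _)
  have hs : 4 * (X - 1) / (X + 1) + 4 * (X + 1) / (X - 1) ≤ 812 / 100 := by
    have q1 : 0 < X + 1 := by linarith
    have q2 : 0 < X - 1 := by linarith
    rw [div_add_div _ _ q1.ne' q2.ne', div_le_iff₀ (mul_pos q1 q2)]
    nlinarith
  have s0 := s3lo
  have s1 := s3hi
  have bm := abs_le.1 aP
  have br := abs_le.1 aR
  set a := PD n * MM n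
  set c := RD n * MM n
  set s := Real.sqrt 3
  have hε : |(-1 : ℝ) ^ (n + 1)| = 1 := by rw [abs_pow, abs_neg, abs_one, one_pow]
  constructor
  · have e1 : (RD n - PD n) * MM n = c - a := by ring
    rw [e1]
    refine (abs_add_le _ _).trans (add_le_add h1 ?_)
    rw [abs_mul, abs_mul, hε, mul_one, abs_of_nonneg (by linarith : 0 ≤ s / 2)]
    have h3 : |c - a| ≤ 812 / 100 := abs_le.2 ⟨by linarith, by linarith⟩
    calc s / 2 * |c - a| ≤ 17321 / 10000 / 2 * (812 / 100) :=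
          mul_le_mul (by linarith) h3 (abs_nonneg _) (by norm_num)
      _ ≤ 7033 / 1000 := by norm_num
  · have e1 : (PD n + RD n) * MM n = a + c := by ring
    rw [e1]
    refine (abs_sub _ _).trans (add_le_add h2 ?_)
    rw [abs_mul, abs_mul, hε, mul_one, abs_of_nonneg (by linarith : 0 ≤ s)]
    have h3 : |a + c| ≤ 812 / 100 := abs_le.2 ⟨by linarith, by linarith⟩
    calc s * |a + c| ≤ 17321 / 10000 * (812 / 100) :=
          mul_le_mul s1 h3 (abs_nonneg _) (by norm_num)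
      _ ≤ 14066 / 1000 := by norm_num

/-- the tail, `m ≡ 0` -/
theorem T4X_t0 {n : ℕ} (hn : 5 ≤ n) {β γ : ℂ} {ex ey : ℝ}
    (he : ebar n β γ = (ex : ℂ) * β + Complex.I * (ey : ℂ) * γ)
    (h1 : |-2 - ex / 4| ≤ 7 / 4) (h2 : |2 * ((n : ℝ) + 1) - ey / 4| ≤ 5 / 16 * (2 * ((n : ℝ) + 1))) :
    2 * MM n * ‖XX n β γ‖ ^ 2 + 45 / 8 * ‖β‖ ^ 2 ≤ 82 / 5 * (‖β‖ ^ 2 + ‖γ‖ ^ 2) + cA n β γ := by
  obtain ⟨hX, hY⟩ := tail_XY hn h1 h2
  have hn' : (5 : ℝ) ≤ n := by exact_mod_cast hn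
  set m := 2 * ((n : ℝ) + 1) with hm
  have m12 : 12 ≤ m := by rw [hm]; linarith
  have hM : MM n = m ^ 2 - 1 := rfl
  refine T4X_of (p := 9 * m ^ 2) (q := 10 * m ^ 2) he hX hY ?_ ?_ (by positivity) (by positivity) ?_
  · rw [hM]
    nlinarith
  · rw [hM]
    nlinarith
  · have e : (9 * m ^ 2) * (10 * m ^ 2) = 90 * (m ^ 2) ^ 2 := by ring
    rw [← hm]
    have a1 : m + 2 * ((7 / 4 + 7033 / 1000) * (5 / 16 * m + 14066 / 1000)) ≤ 9 * m ^ 2 := by nlinarith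
    have a2 : 0 ≤ m + 2 * ((7 / 4 + 7033 / 1000) * (5 / 16 * m + 14066 / 1000)) := by positivity
    nlinarith [pow_le_pow_left₀ a2 a1 2, sq_nonneg (m ^ 2)]

/-- the tail, `m ≥ 14` -/
theorem T4X_t1 {n : ℕ} (hn : 6 ≤ n) {β γ : ℂ} {ex ey : ℝ}
    (he : ebar n β γ = (ex : ℂ) * β + Complex.I * (ey : ℂ) * γ)
    (h1 : |-2 - ex / 4| ≤ 2 + (1 + 3 * (2 * ((n : ℝ) + 1))) / 8)
    (h2 : |2 * ((n : ℝ) + 1) - ey / 4| ≤ 2 * ((n : ℝ) + 1) + (15 + 11 * (2 * ((n : ℝ) + 1))) / 32) :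
    2 * MM n * ‖XX n β γ‖ ^ 2 + 45 / 8 * ‖β‖ ^ 2 ≤ 82 / 5 * (‖β‖ ^ 2 + ‖γ‖ ^ 2) + cA n β γ := by
  obtain ⟨hX, hY⟩ := tail_XY (by omega) h1 h2
  have hn' : (6 : ℝ) ≤ n := by exact_mod_cast hn
  set m := 2 * ((n : ℝ) + 1) with hm
  have m14 : 14 ≤ m := by rw [hm]; linarith
  have hM : MM n = m ^ 2 - 1 := rfl
  have hX' : |-2 - ex / 4 + Real.sqrt 3 / 2 * (-1) ^ (n + 1) * ((RD n - PD n) * MM n)| ≤ 9158 / 1000 + 375 / 1000 * m :=
    hX.trans (by linarith)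
  have hY' : |m - ey / 4 - Real.sqrt 3 * (-1) ^ (n + 1) * ((PD n + RD n) * MM n)| ≤ 14535 / 1000 + 1344 / 1000 * m :=
    hY.trans (by linarith)
  set x := 9158 / 1000 + 375 / 1000 * m with hx
  set y := 14535 / 1000 + 1344 / 1000 * m with hy
  have hr0 : 0 ≤ m + 2 * (x * y) := by rw [hx, hy]; positivity
  refine T4X_of (p := 6 / 5 * (m + 2 * (x * y))) (q := 5 / 6 * (m + 2 * (x * y))) he hX' hY' ?_ ?_
    (by positivity) (by positivity) ?_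
  · rw [hM, hx, hy]
    nlinarith [mul_nonneg (by linarith : 0 ≤ m - 14) (by linarith : 0 ≤ m - 14)]
  · rw [hM, hx, hy]
    nlinarith [mul_nonneg (by linarith : 0 ≤ m - 14) (by linarith : 0 ≤ m - 14)]
  · rw [← hm]
    apply le_of_eq
    ring

/-- MODULE (T4X) -/
theorem hT4X : StT4X := by
  intro n β γ hn
  rcases Nat.lt_or_ge n 5 with h5 | h5
  · interval_cases n
    · exact T4X_1 β γ
    · exact T4X_2 β γ
    · exact T4X_3 β γ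
    · exact T4X_4 β γ
  · obtain ⟨k, hk | hk | hk⟩ : ∃ k, n = 3 * k ∨ n = 3 * k + 1 ∨ n = 3 * k + 2 := ⟨n / 3, by omega⟩
    · subst hk
      have h6 : 6 ≤ 3 * k := by omega
      have h0 : (6 : ℝ) ≤ ((3 * k : ℕ) : ℝ) := by exact_mod_cast h6
      refine T4X_t1 h6 (ebar0 k β γ) ?_ ?_
      · rw [abs_le]; constructor <;> linarith
      · rw [abs_le]; constructor <;> linarith
    · subst hk
      have h6 : 6 ≤ 3 * k + 1 := by omega
      have h0 : (6 : ℝ) ≤ ((3 * k + 1 : ℕ) : ℝ) := by exact_mod_cast h6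
      refine T4X_t1 h6 (ebar1 k β γ) ?_ ?_
      · rw [abs_le]; constructor <;> linarith
      · rw [abs_le]; constructor <;> linarith
    · subst hk
      have h0 : (5 : ℝ) ≤ ((3 * k + 2 : ℕ) : ℝ) := by exact_mod_cast h5
      refine T4X_t0 h5 (ebar2 k β γ) ?_ ?_
      · rw [abs_le]; constructor <;> norm_num
      · rw [abs_le]; constructor <;> linarith

end Helper44.Far
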