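import Pool.Agent.Helper44.RC.M_FX1

/-!
# Project RC, SHARP: the extended far lemma, the harmonic 2 and the constant part
-/

open MeasureTheory Set Filter Topology

namespace Helper44.Far

open Helper49.LT hiding sg
open Pool.Agent.Helper51.RC (quad_core im_bd)
open Pool.Agent.Helper20.RC (ft2a ft2c ft2_XX ft2_bounds kD_ge hConst)

/-- MODULE (T2X) -/
theorem hT2X : StT2X := by
  intro β γ ν
  obtain ⟨a1, a2, c1, c2⟩ := ft2_bounds
  have hM : MM 0 = 3 := by unfold MM; norm_num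
  rw [ft2_XX]
  unfold cA
  rw [hM]
  set a := ft2a
  set c := ft2c
  set u : ℝ := 8 / 15 - a with hu
  set v : ℝ := c - 8 / 15 with hv
  have hu1 : u ^ 2 ≤ 8 / 7 := by nlinarith
  have hv1 : v ^ 2 ≤ 8.22 := by nlinarith
  have huv : 0 ≤ -(u * v) := by nlinarith
  have huv2 : -(u * v) ≤ 3.06 := by nlinarith
  -- the form in β, γ
  have hp : 0 ≤ 431 / 40 - 2 / 3 + 8 / 15 - 10 / 7 * u ^ 2 := by nlinarith
  have hq : 0 ≤ 82 / 5 - 1 / 6 + 8 / 15 - 10 / 7 * v ^ 2 := by nlinarith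
  have hr : (2 / 15 - 10 / 7 * (u * v)) ^ 2 ≤
      (431 / 40 - 2 / 3 + 8 / 15 - 10 / 7 * u ^ 2) * (82 / 5 - 1 / 6 + 8 / 15 - 10 / 7 * v ^ 2) := by
    have h1 : (2 / 15 - 10 / 7 * (u * v)) ^ 2 ≤ 5 ^ 2 := sq_le_sq' (by linarith) (by linarith)
    have h2 : (9 : ℝ) * 5 ≤ (431 / 40 - 2 / 3 + 8 / 15 - 10 / 7 * u ^ 2) * (82 / 5 - 1 / 6 + 8 / 15 - 10 / 7 * v ^ 2) :=
      mul_le_mul (by linarith) (by linarith) (by norm_num) hp
    linarith
  have h := quad_core hp hq hr (im_bd β γ)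
  have e : ∀ z : ℂ, ‖z‖ ^ 2 = z.re ^ 2 + z.im ^ 2 := fun z => by rw [Complex.sq_norm, Complex.normSq_apply]; ring
  simp only [e] at h ⊢
  simp only [Complex.mul_re, Complex.mul_im, Complex.add_re, Complex.add_im, Complex.sub_re, Complex.sub_im,
    Complex.neg_re, Complex.neg_im, Complex.ofReal_re, Complex.ofReal_im, Complex.I_re, Complex.I_im,
    Complex.conj_re, Complex.conj_im, Nat.cast_zero] at h ⊢
  have k1 : 0 ≤ (ν.re + (u * β.re - v * γ.im) * (10 / 7)) ^ 2 := sq_nonneg _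
  have k2 : 0 ≤ (ν.im + (u * β.im + v * γ.re) * (10 / 7)) ^ 2 := sq_nonneg _
  have ea : a = 8 / 15 - u := by rw [hu]; ring
  have ec : c = v + 8 / 15 := by rw [hv]; ring
  rw [ea, ec]
  nlinarith [k1, k2, h]

/-- MODULE (ConstX) -/
theorem hConstX : StConstX := by
  intro ν β γ X hβ hS0 hν hX hS
  obtain ⟨hb1, hb2⟩ := abs_le.1 hβ
  by_cases hS1 : 1 / 5 ≤ ν - 2 + β
  · have := hConst ν β γ hβ hS1 hν
    linarith
  push Not at hS1
  have hk := kD_ge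
  have h3 : (173205 : ℝ) / 100000 ≤ Real.sqrt 3 := by
    apply Real.le_sqrt_of_sq_le; norm_num
  have hs : (17138 : ℝ) / 10000 ≤ Real.sqrt 3 * kD := by
    nlinarith
  set s := Real.sqrt 3 * kD with hsdef
  set σ := ν - 2 + β with hσ
  have hν1 : ν = 2 - β + σ := by rw [hσ]; ring
  have hν0 : 0 ≤ ν := by linarith
  have h4 : 17138 / 10000 * (1 - β) * ν ≤ s * (1 - β) * ν := by
    have : 0 ≤ (1 - β) * ν := mul_nonneg (by linarith) hν0
    nlinarith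
  have h5 : 15 / 4 * (1 / 5 - σ) - 45 / 16 * β ^ 2 ≤ 45 / 16 * X := by linarith
  -- endpoints
  have hA : 0 ≤ 2 * (1 + β) * (2 - β) + 17138 / 10000 * (1 - β) * (2 - β) + (1 + β) ^ 2 - 9 + 41 / 5 * β ^ 2
      + 15 / 4 * (1 / 5) - 45 / 16 * β ^ 2 := by
    nlinarith [sq_nonneg (β - 93 / 1000)]
  have hB : 0 ≤ 2 * (1 + β) * (11 / 5 - β) + 17138 / 10000 * (1 - β) * (11 / 5 - β) + (1 + β) ^ 2 - 9
      + 41 / 5 * β ^ 2 - 1 / 4 * ((11 / 5 - β) * (1 / 5)) - 45 / 16 * β ^ 2 := by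
    nlinarith [sq_nonneg (β - 85 / 1000)]
  have h6 := mul_nonneg (by linarith : 0 ≤ 1 / 5 - σ) hA
  have h7 := mul_nonneg hS0 hB
  have h8 := mul_nonneg hS0 (by linarith : 0 ≤ 1 / 5 - σ)
  have h9 : 0 ≤ γ ^ 2 := sq_nonneg γ
  have key : 0 ≤ 2 * (1 + β) * ν + 17138 / 10000 * (1 - β) * ν + (1 + β) ^ 2 - 9 + 41 / 5 * β ^ 2
      - 1 / 4 * (ν * (ν - (2 - β))) + (15 / 4 * (1 / 5 - σ) - 45 / 16 * β ^ 2) := by
    rw [hν1]
    nlinarith [h6, h7, h8]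
  nlinarith [key, h4, h5, h9]

end Helper44.Far
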