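import Pool.Agent.Helper44.RC.M_FX2
import Pool.Agent.Helper44.RC.M_FARS
import Pool.Agent.Helper51.RC.M_FR

/-!
# Project RC, SHARP: THE EXTENDED FAR LEMMA

`1/5 ≤ S' + (3/4) ⟨b₂²⟩` implies `9 mQ² ≤ FMQ` (weight `1`), and the end theorem with the smaller near region.
-/

open MeasureTheory Set Filter Topology

namespace Helper44.Far

open Helper49.LT hiding sg
open Helper49.RC Helper87.RC Helper44.GQ
open Helper56.RC (fc)
open Helper44.RCG (Hex A00G A0QG AQQG G1 G2 sgG N0)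

variable {b z : ℝ → ℂ}

/-- **Parseval for `b₂`** -/
theorem far_B2 (h : AdmQ 2 b z) :
    Tendsto (fun N : ℕ => (be b 0).re ^ 2 + ∑ n ∈ Finset.range N, 2 * ‖be b (fm n)‖ ^ 2) atTop
      (𝓝 (1 / (2 * Real.pi) * ∫ t in (0 : ℝ)..(2 * Real.pi), (b t).re ^ 2)) := by
  obtain ⟨C1, h1⟩ := Helper95.RC.bmp h w1_wgt
  have p := pars h1
  have e1 : ∀ n, fc (fun t => ((w1 t * (b t).re : ℝ) : ℂ)) n = be b n := fun n => congrFun (pc_w1 b) n
  simp only [e1] at p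
  have eI : (1 / (2 * Real.pi)) * (∫ t in (0 : ℝ)..(2 * Real.pi), ‖((w1 t * (b t).re : ℝ) : ℂ)‖ ^ 2)
      = 1 / (2 * Real.pi) * ∫ t in (0 : ℝ)..(2 * Real.pi), (b t).re ^ 2 := by
    congr 1
    refine intervalIntegral.integral_congr fun t _ => ?_
    simp only [w1_one, one_mul, Complex.norm_real, Real.norm_eq_abs, sq_abs]
  rw [eI] at p
  have hinj : Function.Injective (fun j : ℤ => 2 * j) := by
    intro a b hab; simp only at hab; omega
  have p2 : HasSum ((fun n : ℤ => ‖be b n‖ ^ 2) ∘ fun j : ℤ => 2 * j)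
      (1 / (2 * Real.pi) * ∫ t in (0 : ℝ)..(2 * Real.pi), (b t).re ^ 2) := by
    rw [Function.Injective.hasSum_iff hinj]
    · exact p
    · intro n hn
      have hodd : ¬ Even n := by
        intro he
        obtain ⟨k, hk⟩ := he
        exact hn ⟨k, by simp only; omega⟩
      have a1 := Helper95.RC.pc_odd h w1_wgt hodd
      rw [pc_w1] at a1
      rw [a1]
      simp
  have p3 := tend_int p2
  refine p3.congr fun N => ?_
  have hb := be0_real b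
  congr 1
  · show ‖be b (2 * 0)‖ ^ 2 = _
    rw [mul_zero, ← Complex.normSq_eq_norm_sq, Complex.normSq_apply, hb]
    ring
  · refine Finset.sum_congr rfl fun n _ => ?_
    show ‖be b (2 * ((n : ℤ) + 1))‖ ^ 2 + ‖be b (2 * -((n : ℤ) + 1))‖ ^ 2 = _
    have e1 : (2 * ((n : ℤ) + 1)) = fm n := rfl
    have e2 : (2 * (-((n : ℤ) + 1))) = -fm n := by unfold fm; ring
    rw [e1, e2, be_neg, Complex.norm_conj]
    ring

theorem be0_abs (h : AdmQ 2 b z) : |(be b 0).re| ≤ 1 := by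
  refine (Complex.abs_re_le_norm (be b 0)).trans ?_
  obtain ⟨δ, hδ, hbb⟩ := h.bdb
  unfold be
  have hm : BM (fun t => ((b t).re : ℂ)) 1 := ⟨Complex.measurable_ofReal.comp (Complex.measurable_re.comp h.mb),
    fun t => by
      rw [Complex.norm_real]
      exact (Complex.abs_re_le_norm (b t)).trans ((hbb t).trans (by linarith))⟩
  have hp := pars hm
  have h2 := le_hasSum hp 0 (fun n _ => by positivity)
  have hpi := Real.pi_pos
  have h3 : 1 / (2 * Real.pi) * (∫ t in (0 : ℝ)..(2 * Real.pi), ‖((b t).re : ℂ)‖ ^ 2) ≤ 1 := by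
    have i1 : IntervalIntegrable (fun t => ‖((b t).re : ℂ)‖ ^ 2) volume 0 (2 * Real.pi) := by
      refine intg_of_bdd (C := 1) (hm.m.norm.pow_const 2) (fun t => ?_) _ _
      rw [abs_of_nonneg (by positivity)]
      exact pow_le_one₀ (norm_nonneg _) (hm.b t)
    have := intervalIntegral.integral_mono_on (a := 0) (b := 2 * Real.pi) (by positivity) i1
      (intervalIntegrable_const (c := (1 : ℝ))) (fun t _ => pow_le_one₀ (norm_nonneg _) (hm.b t))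
    rw [intervalIntegral.integral_const, sub_zero, smul_eq_mul] at this
    calc 1 / (2 * Real.pi) * (∫ t in (0 : ℝ)..(2 * Real.pi), ‖((b t).re : ℂ)‖ ^ 2)
        ≤ 1 / (2 * Real.pi) * (2 * Real.pi * 1) := mul_le_mul_of_nonneg_left this (by positivity)
      _ = 1 := by field_simp
  have h4 : ‖fc (fun t => ((b t).re : ℂ)) 0‖ ^ 2 ≤ 1 := h2.trans h3
  nlinarith [norm_nonneg (fc (fun t => ((b t).re : ℂ)) 0)]

/-- the moment of order 0 in the moving frame -/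
theorem nu0_Sp (h : AdmQ 2 b z) :
    Helper49.Sharp.Sp b z = (nu (F1Q w1 2 b z) (F2Q w1 2 b z) 0).re - 2 + (be b 0).re := by
  obtain ⟨C, hC⟩ := hexQ (by norm_num : (0 : ℝ) < 2) h w1_wgt
  have hb1 : BM (F1Q w1 2 b z) (2 * C) := ⟨Helper44.RCG.G1_meas hC.q, Helper44.RCG.G1_le hC.q⟩
  have hb2 : BM (F2Q w1 2 b z) (2 * C) := ⟨Helper44.RCG.G2_meas hC.q, Helper44.RCG.G2_le hC.q⟩
  have hbA : BM (fun t => AAQ w1 2 b t + vvS w1 z t) (C + C) :=
    ⟨hC.q.mA.add hC.q.mv, fun t => (norm_add_le _ _).trans (add_le_add (hC.q.bA t) (hC.q.bv t))⟩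
  have hbB : BM (fun t => BBQ w1 2 b t - vvS w1 z t) (C + C) :=
    ⟨hC.q.mB.sub hC.q.mv, fun t => (norm_sub_le _ _).trans (add_le_add (hC.q.bB t) (hC.q.bv t))⟩
  have ii : ∀ {g : ℝ → ℂ} {C : ℝ}, BM g C → IntervalIntegrable (fun θ => ‖g θ‖) volume 0 (2 * Real.pi) := by
    intro g C hg
    refine intg_of_bdd (C := C) hg.m.norm (fun t => ?_) _ _
    rw [abs_of_nonneg (norm_nonneg _)]
    exact hg.b t
  have e1 : (∫ θ in (0 : ℝ)..(2 * Real.pi), (‖F1Q w1 2 b z θ‖ + ‖F2Q w1 2 b z θ‖)) =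
      ∫ t in (0 : ℝ)..(2 * Real.pi), (‖Helper49.Sharp.g1 (b t) (z t)‖ + ‖Helper49.Sharp.g2 (b t) (z t)‖) := by
    rw [intervalIntegral.integral_add (ii hb1) (ii hb2), int_F1 h (fun x => ‖x‖), int_F2 h (fun x => ‖x‖),
      ← intervalIntegral.integral_add (ii hbA) (ii hbB)]
    refine intervalIntegral.integral_congr fun t _ => ?_
    show ‖AAQ w1 2 b t + vvS w1 z t‖ + ‖BBQ w1 2 b t - vvS w1 z t‖ = _
    have eA : AAQ w1 2 b t + vvS w1 z t = ee t * Helper49.Sharp.g1 (b t) (z t) := by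
      unfold AAQ vvS Helper49.Sharp.g1
      rw [w1_one]
      push_cast
      ring
    have eB : BBQ w1 2 b t - vvS w1 z t = ee t * Helper49.Sharp.g2 (b t) (z t) := by
      unfold BBQ vvS Helper49.Sharp.g2
      rw [w1_one]
      push_cast
      ring
    rw [eA, eB, norm_mul, norm_mul, norm_ee, one_mul, one_mul]
  have e2 : (fc b 0).re = (be b 0).re := by
    obtain ⟨C1, h1⟩ := Helper95.RC.bmp h w1_wgt
    obtain ⟨C2, h2⟩ := Helper95.RC.bmr h w1_wgt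
    have e : b = fun t => ((w1 t * (b t).re : ℝ) : ℂ) + Complex.I * ((w1 t * (b t).im : ℝ) : ℂ) := by
      funext t
      rw [w1_one, one_mul, one_mul, mul_comm]
      exact (Complex.re_add_im (b t)).symm
    have e3 : fc b 0 = be b 0 + Complex.I * ga b 0 := by
      conv_lhs => rw [e]
      rw [fc_add h1 (h2.cmul _), fc_cmul]
      have e1 : fc (fun t => ((w1 t * (b t).re : ℝ) : ℂ)) 0 = be b 0 := congrFun (pc_w1 b) 0
      have e2 : fc (fun t => ((w1 t * (b t).im : ℝ) : ℂ)) 0 = ga b 0 := congrFun (rc_w1 b) 0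
      rw [e1, e2]
    rw [e3, Complex.add_re, Complex.mul_re, Complex.I_re, Complex.I_im, ga0_real]
    ring
  unfold Helper49.Sharp.Sp Helper49.Sharp.mean
  rw [e2, nu0_re, e1]

/-- `S' ≥ 0` -/
theorem Sp_nonneg (h : AdmQ 2 b z) : 0 ≤ Helper49.Sharp.Sp b z := by
  obtain ⟨C, hb1, hb2⟩ := w1_bm1 h
  rw [nu0_Sp h]
  have e0 : (en (F1Q w1 2 b z) (F2Q w1 2 b z) 0).re = 2 - (be b 0).re := en_zero h
  have h1 : (en (F1Q w1 2 b z) (F2Q w1 2 b z) 0).re ≤ (nu (F1Q w1 2 b z) (F2Q w1 2 b z) 0).re := by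
    have hb : ∀ {g : ℝ → ℂ}, BM g C → IntervalIntegrable (fun θ => ‖g θ‖) volume 0 (2 * Real.pi) := by
      intro g hg
      refine intg_of_bdd (C := C) hg.m.norm (fun t => ?_) _ _
      rw [abs_of_nonneg (norm_nonneg _)]
      exact hg.b t
    have hr : ∀ {g : ℝ → ℂ}, BM g C → IntervalIntegrable (fun θ => (g θ * ee (-θ)).re) volume 0 (2 * Real.pi) := by
      intro g hg
      refine intg_of_bdd (C := C) (Complex.measurable_re.comp (hg.m.mul
        (continuous_ee.measurable.comp measurable_neg))) (fun t => ?_) _ _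
      refine (Complex.abs_re_le_norm _).trans ?_
      show ‖g t * ee (-t)‖ ≤ C
      rw [norm_mul, norm_ee, mul_one]
      exact hg.b t
    have e1 : (en (F1Q w1 2 b z) (F2Q w1 2 b z) 0).re = 1 / (2 * Real.pi) *
        ∫ θ in (0 : ℝ)..(2 * Real.pi), ((F1Q w1 2 b z θ * ee (-θ)).re + (F2Q w1 2 b z θ * ee (-θ)).re) := by
      unfold en
      have e : ∀ θ : ℝ, (((F1Q w1 2 b z θ * ee (-θ)).re : ℂ) - Complex.I * ((0 : ℤ) : ℂ) * ((F1Q w1 2 b z θ * ee (-θ)).im : ℂ))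
            * ee (-((0 : ℤ) : ℝ) * θ)
          + (((F2Q w1 2 b z θ * ee (-θ)).re : ℂ) - Complex.I * ((0 : ℤ) : ℂ) * ((F2Q w1 2 b z θ * ee (-θ)).im : ℂ))
            * ee (-((0 : ℤ) : ℝ) * θ)
          = (((F1Q w1 2 b z θ * ee (-θ)).re + (F2Q w1 2 b z θ * ee (-θ)).re : ℝ) : ℂ) := by
        intro θ
        push_cast
        rw [neg_zero, zero_mul, ee_zero]
        ring
      simp only [e]
      rw [intervalIntegral.integral_ofReal]
      have : (1 / (2 * Real.pi) : ℂ) * ((∫ θ in (0 : ℝ)..(2 * Real.pi),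
          ((F1Q w1 2 b z θ * ee (-θ)).re + (F2Q w1 2 b z θ * ee (-θ)).re) : ℝ) : ℂ) =
          (((1 / (2 * Real.pi)) * ∫ θ in (0 : ℝ)..(2 * Real.pi),
          ((F1Q w1 2 b z θ * ee (-θ)).re + (F2Q w1 2 b z θ * ee (-θ)).re) : ℝ) : ℂ) := by
        push_cast
        ring
      rw [this, Complex.ofReal_re]
    rw [e1, nu0_re]
    have hp := Real.pi_pos
    refine mul_le_mul_of_nonneg_left ?_ (by positivity)
    refine intervalIntegral.integral_mono_on (by positivity) ((hr hb1).add (hr hb2)) ((hb hb1).add (hb hb2))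
      fun t _ => ?_
    have k : ∀ x : ℂ, (x * ee (-t)).re ≤ ‖x‖ := fun x => by
      refine (Complex.re_le_norm _).trans ?_
      rw [norm_mul, norm_ee, mul_one]
    exact add_le_add (k _) (k _)
  linarith

/-- THE EXTENDED FAR LEMMA (statement) -/
def StFarX : Prop := ∀ b z : ℝ → ℂ, AdmQ 2 b z →
  1 / 5 ≤ Helper49.Sharp.Sp b z + 3 / 4 * Helper49.Sharp.mean (fun t => (b t).re ^ 2) →
  9 * 1 * mQ w1 b ^ 2 ≤ FMQ w1 2 b z

/-- **THE EXTENDED FAR LEMMA** -/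
theorem hFARX_of (hR : StR) (hI : StI) (hT4 : StT4X) (hT2 : StT2X) (hK : StK) (hC : StConstX) : StFarX := by
  intro b z h hS
  obtain ⟨LA, hA1, hA⟩ := far_A h
  obtain ⟨LC, hC1, hCC⟩ := far_C h
  obtain ⟨LR, hR1, hRR⟩ := hR b z h
  obtain ⟨C, hb1, hb2⟩ := w1_bm1 h
  obtain ⟨Chex, hCh⟩ := hexQ (by norm_num : (0 : ℝ) < 2) h w1_wgt
  have p1 : ∀ θ, F1Q w1 2 b z (θ + 2 * Real.pi) = F1Q w1 2 b z θ := by
    intro θ
    have e : θ + 2 * Real.pi - Real.pi / 3 = θ - Real.pi / 3 + Real.pi + Real.pi := by ring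
    show G1 (AAQ w1 2 b) (vvS w1 z) _ = G1 (AAQ w1 2 b) (vvS w1 z) _
    unfold G1
    rw [e, hCh.q.pA, hCh.q.pA, hCh.q.pv, hCh.q.pv, neg_neg]
  have p2 : ∀ θ, F2Q w1 2 b z (θ + 2 * Real.pi) = F2Q w1 2 b z θ := by
    intro θ
    have e : θ + 2 * Real.pi - 2 * Real.pi / 3 = θ - 2 * Real.pi / 3 + Real.pi + Real.pi := by ring
    show G2 (BBQ w1 2 b) (vvS w1 z) _ = G2 (BBQ w1 2 b) (vvS w1 z) _
    unfold G2
    rw [e, hCh.q.pB, hCh.q.pB, hCh.q.pv, hCh.q.pv, neg_neg]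
  obtain ⟨LI, hI0, hII⟩ := hI _ _ C C hb1 hb2 p1 p2
  have hB := far_B h
  have hB2 := far_B2 h
  have hSS := far_S hK h
  have hT := Pool.Agent.Helper20.RC.target_wR h zero_le_half
  have hw : Pool.Agent.Helper20.RC.wR 0 0 0 = w1 := rfl
  rw [hw] at hT
  simp only [w1_one, one_mul] at hT
  have hspl := splQ (by norm_num : (0 : ℝ) < 2) h w1_wgt
  have hsp0 := Sp_nonneg h
  rw [nu0_Sp h] at hS hsp0
  unfold Helper49.Sharp.mean at hS
  set F1 := F1Q w1 2 b z with hF1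
  set F2 := F2Q w1 2 b z with hF2
  set B2 := 1 / (2 * Real.pi) * ∫ t in (0 : ℝ)..(2 * Real.pi), ‖b t‖ ^ 2 with hB2d
  set M2 := 1 / (2 * Real.pi) * ∫ t in (0 : ℝ)..(2 * Real.pi), (b t).re ^ 2 with hM2d
  set ν0 := (nu F1 F2 0).re with hν0
  set β0 := (be b 0).re with hβ0
  set γ0 := (ga b 0).re with hγ0
  have hν13 : ν0 ≤ 13 := nu0_le h
  have hβ1 : |β0| ≤ 1 := be0_abs h
  have hX0 : 0 ≤ M2 - β0 ^ 2 := by
    have : β0 ^ 2 ≤ M2 := by
      refine ge_of_tendsto hB2 (Filter.Eventually.of_forall fun N => ?_)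
      have : 0 ≤ ∑ n ∈ Finset.range N, 2 * ‖be b (fm n)‖ ^ 2 := Finset.sum_nonneg fun n _ => by positivity
      linarith
    linarith
  have hCon := hC ν0 β0 γ0 (M2 - β0 ^ 2) hβ1 hsp0 hν13 hX0 (by linarith)
  -- the limit
  have hlim := ((((hA.add hCC).add hRR).add (hB.const_mul (41 / 5))).sub (hII.const_mul (1 / 4))).sub
    (hB2.const_mul (45 / 16))
  have key : ∀ N : ℕ, 1 ≤ N → -(8 / 15 * ‖nu F1 F2 2 + be b 2 - Complex.I * ga b 2‖ ^ 2)
      + (2 * (1 + β0) * ν0 + Real.sqrt 3 * kD * (1 - β0) * ν0 + (1 + β0) ^ 2 + γ0 ^ 2 / 4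
      + 41 / 5 * (β0 ^ 2 + γ0 ^ 2) - 1 / 4 * (ν0 * (ν0 - (2 - β0))) - 45 / 16 * β0 ^ 2) ≤
      ((1 + β0) ^ 2 + γ0 ^ 2 / 4 + ∑ n ∈ Finset.range N, cA n (be b (fm n)) (ga b (fm n))
      + (2 * (1 + β0) * ν0 + ∑ n ∈ Finset.range N, 2 * (XC n (be b (fm n)) (ga b (fm n))
        * (starRingEnd ℂ) (nu F1 F2 (fm n))).re)
      + (Real.sqrt 3 * kD * (1 - β0) * ν0 + ∑ n ∈ Finset.range N, 2 * (XR n (be b (fm n)) (ga b (fm n))
        * (starRingEnd ℂ) (nu F1 F2 (fm n))).re)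
      + 41 / 5 * (β0 ^ 2 + γ0 ^ 2 + ∑ n ∈ Finset.range N, 2 * (‖be b (fm n)‖ ^ 2 + ‖ga b (fm n)‖ ^ 2))
      - 1 / 4 * (ν0 * (ν0 - (en F1 F2 0).re) - 2 * ∑ n ∈ Finset.range N,
        ((nu F1 F2 (fm n) - en F1 F2 (fm n)) * (starRingEnd ℂ) (nu F1 F2 (fm n))).re / MM n)
      - 45 / 16 * (β0 ^ 2 + ∑ n ∈ Finset.range N, 2 * ‖be b (fm n)‖ ^ 2)) := by
    intro N hN
    have e0 : (en F1 F2 0).re = 2 - β0 := en_zero h
    rw [e0]
    have hmode : ∀ n : ℕ, cA n (be b (fm n)) (ga b (fm n))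
        + 2 * (XC n (be b (fm n)) (ga b (fm n)) * (starRingEnd ℂ) (nu F1 F2 (fm n))).re
        + 2 * (XR n (be b (fm n)) (ga b (fm n)) * (starRingEnd ℂ) (nu F1 F2 (fm n))).re
        + 41 / 5 * (2 * (‖be b (fm n)‖ ^ 2 + ‖ga b (fm n)‖ ^ 2))
        + 1 / 2 * (((nu F1 F2 (fm n) - en F1 F2 (fm n)) * (starRingEnd ℂ) (nu F1 F2 (fm n))).re / MM n)
        - 45 / 16 * (2 * ‖be b (fm n)‖ ^ 2)
        = 82 / 5 * (‖be b (fm n)‖ ^ 2 + ‖ga b (fm n)‖ ^ 2) + cA n (be b (fm n)) (ga b (fm n))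
          + 2 * (XX n (be b (fm n)) (ga b (fm n)) * (starRingEnd ℂ) (nu F1 F2 (fm n))).re
          + 1 / 2 * ‖nu F1 F2 (fm n)‖ ^ 2 / MM n - 45 / 8 * ‖be b (fm n)‖ ^ 2 := by
      intro n
      rw [show en F1 F2 (fm n) = ebar n (be b (fm n)) (ga b (fm n)) from en_fm h n]
      set β := be b (fm n)
      set γ := ga b (fm n)
      set ν := nu F1 F2 (fm n)
      set e := ebar n β γ
      have hM := MM_pos n
      have x1 : ((ν - e) * (starRingEnd ℂ) ν).re = ‖ν‖ ^ 2 - (e * (starRingEnd ℂ) ν).re := by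
        rw [sub_mul, Complex.sub_re, Complex.mul_conj, Complex.ofReal_re, Complex.normSq_eq_norm_sq]
      have x2 : (XX n β γ * (starRingEnd ℂ) ν).re = (XC n β γ * (starRingEnd ℂ) ν).re
          + (XR n β γ * (starRingEnd ℂ) ν).re - 1 / 4 * ((e * (starRingEnd ℂ) ν).re / MM n) := by
        unfold XX
        have : (XC n β γ + XR n β γ - 1 / 4 * (ebar n β γ / (MM n : ℂ))) * (starRingEnd ℂ) ν =
            XC n β γ * (starRingEnd ℂ) ν + XR n β γ * (starRingEnd ℂ) ν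
              - ((1 / 4 * (MM n)⁻¹ : ℝ) : ℂ) * (e * (starRingEnd ℂ) ν) := by
          push_cast
          ring
        rw [this, Complex.sub_re, Complex.add_re, Complex.re_ofReal_mul]
        ring
      rw [x1, x2]
      field_simp
      ring
    have hsum : ∑ n ∈ Finset.range N, cA n (be b (fm n)) (ga b (fm n))
        + ∑ n ∈ Finset.range N, 2 * (XC n (be b (fm n)) (ga b (fm n)) * (starRingEnd ℂ) (nu F1 F2 (fm n))).re
        + ∑ n ∈ Finset.range N, 2 * (XR n (be b (fm n)) (ga b (fm n)) * (starRingEnd ℂ) (nu F1 F2 (fm n))).re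
        + 41 / 5 * ∑ n ∈ Finset.range N, 2 * (‖be b (fm n)‖ ^ 2 + ‖ga b (fm n)‖ ^ 2)
        + 1 / 2 * ∑ n ∈ Finset.range N,
          ((nu F1 F2 (fm n) - en F1 F2 (fm n)) * (starRingEnd ℂ) (nu F1 F2 (fm n))).re / MM n
        - 45 / 16 * ∑ n ∈ Finset.range N, 2 * ‖be b (fm n)‖ ^ 2
        = ∑ n ∈ Finset.range N, (82 / 5 * (‖be b (fm n)‖ ^ 2 + ‖ga b (fm n)‖ ^ 2)
          + cA n (be b (fm n)) (ga b (fm n))
          + 2 * (XX n (be b (fm n)) (ga b (fm n)) * (starRingEnd ℂ) (nu F1 F2 (fm n))).re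
          + 1 / 2 * ‖nu F1 F2 (fm n)‖ ^ 2 / MM n - 45 / 8 * ‖be b (fm n)‖ ^ 2) := by
      rw [Finset.mul_sum, Finset.mul_sum, Finset.mul_sum, ← Finset.sum_add_distrib, ← Finset.sum_add_distrib,
        ← Finset.sum_add_distrib, ← Finset.sum_add_distrib, ← Finset.sum_sub_distrib]
      exact Finset.sum_congr rfl fun n _ => hmode n
    have hpos : 0 ≤ 8 / 15 * ‖nu F1 F2 2 + be b 2 - Complex.I * ga b 2‖ ^ 2 +
        ∑ n ∈ Finset.range N, (82 / 5 * (‖be b (fm n)‖ ^ 2 + ‖ga b (fm n)‖ ^ 2)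
          + cA n (be b (fm n)) (ga b (fm n))
          + 2 * (XX n (be b (fm n)) (ga b (fm n)) * (starRingEnd ℂ) (nu F1 F2 (fm n))).re
          + 1 / 2 * ‖nu F1 F2 (fm n)‖ ^ 2 / MM n - 45 / 8 * ‖be b (fm n)‖ ^ 2) := by
      obtain ⟨M, rfl⟩ : ∃ M, N = M + 1 := ⟨N - 1, by omega⟩
      rw [Finset.sum_range_succ']
      have hs : 0 ≤ ∑ n ∈ Finset.range M, (82 / 5 * (‖be b (fm (n + 1))‖ ^ 2 + ‖ga b (fm (n + 1))‖ ^ 2)
          + cA (n + 1) (be b (fm (n + 1))) (ga b (fm (n + 1)))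
          + 2 * (XX (n + 1) (be b (fm (n + 1))) (ga b (fm (n + 1))) * (starRingEnd ℂ) (nu F1 F2 (fm (n + 1)))).re
          + 1 / 2 * ‖nu F1 F2 (fm (n + 1))‖ ^ 2 / MM (n + 1) - 45 / 8 * ‖be b (fm (n + 1))‖ ^ 2) := by
        refine Finset.sum_nonneg fun n _ => ?_
        have h1 := sq_mode (XX (n + 1) (be b (fm (n + 1))) (ga b (fm (n + 1)))) (nu F1 F2 (fm (n + 1)))
          (MM_pos (n + 1))
        have h2 := hT4 (n + 1) (be b (fm (n + 1))) (ga b (fm (n + 1))) (by omega)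
        linarith
      have h0 := hT2 (be b 2) (ga b 2) (nu F1 F2 2)
      have f0 : fm 0 = 2 := rfl
      have m0 : MM 0 = 3 := by unfold MM; norm_num
      rw [f0, m0]
      have : 1 / 2 * ‖nu F1 F2 2‖ ^ 2 / 3 = 1 / 6 * ‖nu F1 F2 2‖ ^ 2 := by ring
      rw [this]
      linarith
    linarith
  have hfin := ge_of_tendsto hlim (Filter.eventually_atTop.2 ⟨1, key⟩)
  rw [hspl]
  linarith

/-- **THE EXTENDED FAR LEMMA** (no hypotheses) -/
theorem hFARX : StFarX :=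
  hFARX_of Pool.Agent.Helper51.RC.hR Pool.Agent.Helper20.RC.hI hT4X hT2X Pool.Agent.Helper20.RC.hK hConstX

end Helper44.Far
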