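import Pool.Agent.Helper44.RC.M_FX3

/-!
# Project RC, SHARP: the end theorem with the smaller near region
-/

open MeasureTheory Set Filter Topology

namespace Helper44.Far

open Helper49.LT hiding sg
open Helper49.RC Helper44.GQ
open Helper56.RC (fc)
open Helper49.Sharp (Par StComb Sp mean)
open Pool.Agent.Helper20.RC (wR)

/-- the near condition -/
def Near (b z : ℝ → ℂ) : Prop := Sp b z + 3 / 4 * mean (fun t => (b t).re ^ 2) < 1 / 5

/-- THE NEAR STATEMENT with the extended far lemma -/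
def StNearX : Prop := ∀ b z : ℝ → ℂ, AdmQ 2 b z → fc z (-3) = (‖fc z (-3)‖ : ℂ) → Near b z →
  ∃ P : Par, P.Good b z ∧ 0 ≤ P.EP b z

/-- the end with the extended far lemma -/
theorem rq_ofX (hC : StComb) (hN : StNearX) : Rq 2 1 := by
  refine Pool.Agent.Helper35.RC.rq_wlog 2 1 fun b z h h3 _ => ?_
  by_cases hs : 1 / 5 ≤ Sp b z + 3 / 4 * mean (fun t => (b t).re ^ 2)
  · exact ⟨wR 0 0 0, Pool.Agent.Helper20.RC.wR_wgt (by simp), hFARX b z h hs⟩
  · obtain ⟨P, hg, h0⟩ := hN b z h h3 (lt_of_not_ge hs)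
    have h1 := hC P b z h hg
    refine ⟨P.w, Pool.Agent.Helper20.RC.wR_wgt ?_, by linarith⟩
    have := hg.reg.eta
    simp only [norm_zero, add_zero]
    linarith

end Helper44.Far
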