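import Pool.Agent.Helper44.RC.Gen

/-! # Project RC: general hexagon families: splitting, the bounds, the quadrilateral -/

open MeasureTheory Set Filter Metric

namespace Helper44.RCG

open Helper49.LT hiding sg
open Helper49.RC
open Helper87.RC hiding cut_gen
open Helper44.RC (sgs yv E0 E1 E2 vv dbl dbl_add dbl_swap dbl_const dbl_mono tSeg meas_im cx cx_eq
  cx_rot core biaff int_sgs two_pi_nonneg im_le' F1 F2)

variable {A0 A B v : ℝ → ℂ} {C : ℝ}

/-- the three edges -/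
noncomputable def h3 (A0 A B v : ℝ → ℂ) (t : ℝ) : Fin 3 → ℂ := ![A0 t, A t + v t, B t - v t]

theorem Hex.C0 (h : Hex A0 A B v C) : 0 ≤ C := h.q.C0

theorem h3_meas (h : Hex A0 A B v C) (k : Fin 3) : Measurable (fun t => h3 A0 A B v t k) := by
  fin_cases k
  · exact h.m0
  · exact h.q.mA.add h.q.mv
  · exact h.q.mB.sub h.q.mv

theorem h3_le (h : Hex A0 A B v C) (t : ℝ) (k : Fin 3) : ‖h3 A0 A B v t k‖ ≤ 2 * C := by
  have a := h.q.bA t
  have b := h.q.bB t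
  have c := h.q.bv t
  have d := h.b0 t
  have hC := h.C0
  fin_cases k
  · exact d.trans (by linarith)
  · exact (norm_add_le _ _).trans (by linarith)
  · exact (norm_sub_le _ _).trans (by linarith)

theorem EE_h3 (n : ℕ) (t : ℝ) : EE (h3 A0 A B v) n t =
    nn n (A0 t) + nn n (A t + v t) + nn n (B t - v t) := by
  unfold EE
  rw [Fin.sum_univ_three]
  rfl

theorem sgG_EE (n : ℕ) : sgG A0 A B v n = (1 / (2 * Real.pi) : ℂ) *
    ∫ t in (0 : ℝ)..(2 * Real.pi), EE (h3 A0 A B v) n t := by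
  unfold sgG
  simp_rw [EE_h3]

theorem sgG_one (h : Hex A0 A B v C) : sgG A0 A B v 1 = 0 := by
  rw [sgG_EE]
  have hE : ∀ a b : ℝ, IntervalIntegrable (EE (h3 A0 A B v) 1) volume a b := fun a b =>
    intg_of_bddC (EE_meas (h3_meas h) 1) (EE_le (h3_le h) 1) _ _
  have h1 : ∀ t, EE (h3 A0 A B v) 1 t = (starRingEnd ℂ) (A0 t + A t + B t) := by
    intro t
    rw [EE_h3, nn_one, nn_one, nn_one, ← map_add, ← map_add]
    congr 1
    ring
  have h2 : ∀ t, EE (h3 A0 A B v) 1 (t + Real.pi) = -EE (h3 A0 A B v) 1 t := by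
    intro t
    rw [h1, h1, h.p0, h.q.pA, h.q.pB, ← map_neg]
    congr 1
    ring
  rw [int_anti h2 hE, mul_zero]

/-- the double mean of the kernel over the three edges -/
theorem ker3 (hS : StSaw) (h : Hex A0 A B v C) :
    FMG A0 A B v = 2 / 3 * ‖sgG A0 A B v 2‖ ^ 2 + (1 / (2 * Real.pi)) ^ 2 *
    ∫ t in (0 : ℝ)..(2 * Real.pi), ∫ s in (0 : ℝ)..(2 * Real.pi), KK (h3 A0 A B v) t s := by
  have hpi := Real.pi_pos
  have hst := step3 hS (h3_meas h) (h3_le h)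
  have hn : ∀ n, ‖∫ s in (0 : ℝ)..(2 * Real.pi), EE (h3 A0 A B v) n s‖
      = 2 * Real.pi * ‖sgG A0 A B v n‖ := by
    intro n
    rw [sgG_EE, norm_mul]
    have : ‖(1 / (2 * Real.pi) : ℂ)‖ = 1 / (2 * Real.pi) := by
      rw [norm_div, norm_one, norm_mul, Complex.norm_real, Real.norm_of_nonneg hpi.le]
      norm_num
    rw [this]
    field_simp
  simp_rw [hn, sgG_one h] at hst
  have h2 := (hasSum_nat_add_iff' 1).2 hst
  rw [Finset.sum_range_one] at h2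
  have e1 : (fun n : ℕ => 2 * (2 * Real.pi * ‖sgG A0 A B v (n + 1 + 2)‖) ^ 2 /
      ((((n + 1 : ℕ) : ℝ) + 2) ^ 2 - 1)) =
      fun n : ℕ => (2 * (2 * Real.pi) ^ 2)
        * (‖sgG A0 A B v (n + 3)‖ ^ 2 / (((n : ℝ) + 3) ^ 2 - 1)) := by
    funext n
    have e2 : n + 1 + 2 = n + 3 := rfl
    rw [e2]
    push_cast
    rw [show (n : ℝ) + 1 + 2 = n + 3 by ring]
    ring
  rw [e1] at h2
  have h3' := h2.tsum_eq
  rw [tsum_mul_left] at h3'
  unfold FMG
  set T := ∑' n : ℕ, ‖sgG A0 A B v (n + 3)‖ ^ 2 / (((n : ℝ) + 3) ^ 2 - 1) with hT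
  set J := ∫ t in (0 : ℝ)..(2 * Real.pi), ∫ s in (0 : ℝ)..(2 * Real.pi), KK (h3 A0 A B v) t s with hJ
  have h5 : T = ((2 * Real.pi * ‖sgG A0 A B v 0‖) ^ 2 - J -
      2 * (2 * Real.pi * ‖sgG A0 A B v 2‖) ^ 2 / 3) / (2 * (2 * Real.pi) ^ 2) := by
    rw [eq_div_iff (by positivity), mul_comm, h3']
    norm_num
  rw [h5]
  field_simp
  ring

/-- the six edges -/
noncomputable def h6 (A0 A B v : ℝ → ℂ) (t : ℝ) : Fin 6 → ℂ :=
  ![A0 t, A t + v t, B t - v t, -A0 t, -A t + v t, -B t - v t]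

/-- a sum over the three edges at `t` and `t + π` -/
theorem sum33 (h : Hex A0 A B v C) (t : ℝ) (F : ℂ → ℝ) :
    ∑ k, F (h3 A0 A B v t k) + ∑ k, F (h3 A0 A B v (t + Real.pi) k)
      = F (A0 t) + F (-A0 t) + ∑ k, F (qq A B v t k) := by
  rw [Fin.sum_univ_three, Fin.sum_univ_three, Fin.sum_univ_four]
  show F (A0 t) + F (A t + v t) + F (B t - v t)
    + (F (A0 (t + Real.pi)) + F (A (t + Real.pi) + v (t + Real.pi))
      + F (B (t + Real.pi) - v (t + Real.pi)))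
    = F (A0 t) + F (-A0 t) + (F (A t + v t) + F (B t - v t) + F (-A t + v t) + F (-B t - v t))
  rw [h.p0, h.q.pA, h.q.pB, h.q.pv]
  ring

theorem h3_per (h : Hex A0 A B v C) (t : ℝ) : h3 A0 A B v (t + 2 * Real.pi) = h3 A0 A B v t := by
  unfold h3
  rw [two_per h.p0, two_per h.q.pA, two_per h.q.pB, two_per' h.q.pv]

/-- the double integral over the doubled edges -/
theorem dbl_shift {f : ℝ × ℝ → ℝ} (hf : Measurable f) {D : ℝ} (hD : ∀ q, |f q| ≤ D)
    (p1 : ∀ t s, f (t + 2 * Real.pi, s) = f (t, s)) (p2 : ∀ t s, f (t, s + 2 * Real.pi) = f (t, s)) :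
    dbl (fun q => (f (q.1, q.2) + f (q.1, q.2 + Real.pi))
      + (f (q.1 + Real.pi, q.2) + f (q.1 + Real.pi, q.2 + Real.pi))) = 4 * dbl f := by
  have m01 : Measurable (fun q : ℝ × ℝ => f (q.1, q.2 + Real.pi)) :=
    hf.comp (measurable_fst.prodMk (measurable_snd.add_const _))
  have m10 : Measurable (fun q : ℝ × ℝ => f (q.1 + Real.pi, q.2)) :=
    hf.comp ((measurable_fst.add_const _).prodMk measurable_snd)
  have m11 : Measurable (fun q : ℝ × ℝ => f (q.1 + Real.pi, q.2 + Real.pi)) :=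
    hf.comp ((measurable_fst.add_const _).prodMk (measurable_snd.add_const _))
  have m00 : Measurable (fun q : ℝ × ℝ => f (q.1, q.2)) := hf
  have ab : ∀ (C D : ℝ) (f g : ℝ × ℝ → ℝ), (∀ q, |f q| ≤ C) → (∀ q, |g q| ≤ D) →
      ∀ q, |f q + g q| ≤ C + D := fun C D f g hf hg q =>
    (abs_add_le _ _).trans (add_le_add (hf q) (hg q))
  have s1 := dbl_add (f := fun q : ℝ × ℝ => f (q.1, q.2) + f (q.1, q.2 + Real.pi))
    (g := fun q : ℝ × ℝ => f (q.1 + Real.pi, q.2) + f (q.1 + Real.pi, q.2 + Real.pi))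
    (m00.add m01) (m10.add m11) (ab D D _ _ (fun q => hD _) (fun q => hD _))
    (ab D D _ _ (fun q => hD _) (fun q => hD _))
  have s2 := dbl_add (f := fun q : ℝ × ℝ => f (q.1, q.2)) (g := fun q : ℝ × ℝ => f (q.1, q.2 + Real.pi))
    m00 m01 (fun q => hD _) (fun q => hD _)
  have s3 := dbl_add (f := fun q : ℝ × ℝ => f (q.1 + Real.pi, q.2))
    (g := fun q : ℝ × ℝ => f (q.1 + Real.pi, q.2 + Real.pi)) m10 m11 (fun q => hD _) (fun q => hD _)
  have inner : ∀ t, ∫ s in (0 : ℝ)..(2 * Real.pi), f (t, s + Real.pi)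
      = ∫ s in (0 : ℝ)..(2 * Real.pi), f (t, s) := fun t =>
    int_per_shift (g := fun s => f (t, s)) (fun s => p2 t s) Real.pi
  have e01 : dbl (fun q : ℝ × ℝ => f (q.1, q.2 + Real.pi)) = dbl f := by
    unfold dbl
    congr 1
    funext t
    exact inner t
  have outer : ∀ g : ℝ × ℝ → ℝ, (∀ t s, g (t + 2 * Real.pi, s) = g (t, s)) →
      dbl (fun q : ℝ × ℝ => g (q.1 + Real.pi, q.2)) = dbl g := by
    intro g hg
    exact int_per_shift (g := fun t => ∫ s in (0 : ℝ)..(2 * Real.pi), g (t, s))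
      (fun t => by simp_rw [hg]) Real.pi
  have e10 : dbl (fun q : ℝ × ℝ => f (q.1 + Real.pi, q.2)) = dbl f := outer f p1
  have e11 : dbl (fun q : ℝ × ℝ => f (q.1 + Real.pi, q.2 + Real.pi)) = dbl f := by
    rw [← e01]
    exact outer (fun q : ℝ × ℝ => f (q.1, q.2 + Real.pi)) (fun t s => p1 _ _)
  have e00 : dbl (fun q : ℝ × ℝ => f (q.1, q.2)) = dbl f := rfl
  rw [s1, s2, s3, e01, e10, e11, e00]
  ring

/-- pointwise splitting of the doubled kernel sum -/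
theorem split_pt (h : Hex A0 A B v C) (t s : ℝ) :
    (KK (h3 A0 A B v) t s + KK (h3 A0 A B v) t (s + Real.pi))
      + (KK (h3 A0 A B v) (t + Real.pi) s + KK (h3 A0 A B v) (t + Real.pi) (s + Real.pi))
    = 2 * Real.pi * |(A0 s * (starRingEnd ℂ) (A0 t)).im|
      + (Real.pi * ∑ l, |(qq A B v s l * (starRingEnd ℂ) (A0 t)).im|
      + (Real.pi * ∑ l, |(qq A B v t l * (starRingEnd ℂ) (A0 s)).im|
      + ∑ k, ∑ l, kr (qq A B v t k) (qq A B v s l))) := by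
  have e1 : (KK (h3 A0 A B v) t s + KK (h3 A0 A B v) t (s + Real.pi))
      + (KK (h3 A0 A B v) (t + Real.pi) s + KK (h3 A0 A B v) (t + Real.pi) (s + Real.pi))
      = ∑ k, (∑ l, kr (h3 A0 A B v t k) (h3 A0 A B v s l)
          + ∑ l, kr (h3 A0 A B v t k) (h3 A0 A B v (s + Real.pi) l))
        + ∑ k, (∑ l, kr (h3 A0 A B v (t + Real.pi) k) (h3 A0 A B v s l)
          + ∑ l, kr (h3 A0 A B v (t + Real.pi) k) (h3 A0 A B v (s + Real.pi) l)) := by
    rw [Finset.sum_add_distrib, Finset.sum_add_distrib]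
    rfl
  rw [e1, sum33 h t (fun z => ∑ l, kr z (h3 A0 A B v s l) + ∑ l, kr z (h3 A0 A B v (s + Real.pi) l))]
  have h1 : ∀ z, ∑ l, kr z (h3 A0 A B v s l) + ∑ l, kr z (h3 A0 A B v (s + Real.pi) l)
      = kr z (A0 s) + kr z (-(A0 s)) + ∑ l, kr z (qq A B v s l) :=
    fun z => sum33 h s (fun w => kr z w)
  simp only [h1]
  rw [Finset.sum_add_distrib]
  have a1 : kr (A0 t) (A0 s) + kr (-(A0 t)) (A0 s)
      = Real.pi * |(A0 s * (starRingEnd ℂ) (A0 t)).im| := tSeg _ _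
  have a2 : kr (A0 t) (-(A0 s)) + kr (-(A0 t)) (-(A0 s))
      = Real.pi * |(A0 s * (starRingEnd ℂ) (A0 t)).im| := by
    rw [tSeg, neg_mul, Complex.neg_im, abs_neg]
  have a3 : ∑ l, kr (A0 t) (qq A B v s l) + ∑ l, kr (-(A0 t)) (qq A B v s l)
      = Real.pi * ∑ l, |(qq A B v s l * (starRingEnd ℂ) (A0 t)).im| := by
    rw [← Finset.sum_add_distrib, Finset.mul_sum]
    exact Finset.sum_congr rfl fun l _ => tSeg _ _
  have a4 : ∑ k, (kr (qq A B v t k) (A0 s) + kr (qq A B v t k) (-(A0 s)))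
      = Real.pi * ∑ l, |(qq A B v t l * (starRingEnd ℂ) (A0 s)).im| := by
    rw [Finset.mul_sum]
    refine Finset.sum_congr rfl fun l _ => ?_
    rw [kr_symm _ (A0 s), kr_symm _ (-(A0 s))]
    exact tSeg _ _
  rw [a4]
  linarith

theorem A0QG_eq : A0QG A0 A B v = 1 / (16 * Real.pi) * dbl (fun q =>
    ∑ l, |(qq A B v q.2 l * (starRingEnd ℂ) (A0 q.1)).im|) := rfl

theorem AQQG_eq : AQQG A B v = 1 / 4 * (1 / (2 * Real.pi)) ^ 2 * dbl (fun q =>
    ∑ k, ∑ l, kr (qq A B v q.1 k) (qq A B v q.2 l)) := rfl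

theorem A00G_eq : A00G A0 = 1 / (8 * Real.pi) * dbl (fun q =>
    |(A0 q.2 * (starRingEnd ℂ) (A0 q.1)).im|) := rfl

/-- the splitting for general families -/
theorem splG (hS : StSaw) (h : Hex A0 A B v C) :
    FMG A0 A B v = 2 / 3 * ‖sgG A0 A B v 2‖ ^ 2 + A00G A0 + 2 * A0QG A0 A B v + AQQG A B v := by
  rw [ker3 hS h]
  have hC := h.C0
  set u : ℝ × ℝ → ℝ := fun q => |(A0 q.2 * (starRingEnd ℂ) (A0 q.1)).im| with hu
  set w : ℝ × ℝ → ℝ := fun q => ∑ l, |(qq A B v q.2 l * (starRingEnd ℂ) (A0 q.1)).im| with hw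
  set k : ℝ × ℝ → ℝ := fun q => ∑ k, ∑ l, kr (qq A B v q.1 k) (qq A B v q.2 l) with hk
  have um : Measurable u :=
    (meas_im (h.m0.comp measurable_snd) (h.m0.comp measurable_fst)).abs
  have ub : ∀ q, |u q| ≤ C * C := fun q => by
    rw [hu, abs_abs]
    exact im_le' (h.b0 _) (h.b0 _)
  have wm : Measurable w := Finset.measurable_sum _ fun l _ =>
    (meas_im ((qq_meas h.q l).comp measurable_snd) (h.m0.comp measurable_fst)).abs
  have wb : ∀ q, |w q| ≤ 4 * (2 * C * C) := fun q => by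
    refine (Finset.abs_sum_le_sum_abs _ _).trans ?_
    refine (Finset.sum_le_sum fun l _ => (by
      rw [abs_abs]; exact im_le' (qq_le h.q _ _) (h.b0 _) :
      |(|(qq A B v q.2 l * (starRingEnd ℂ) (A0 q.1)).im|)| ≤ 2 * C * C)).trans ?_
    simp
  have km : Measurable k := KK_meas (e := qq A B v) (qq_meas h.q)
  have kb : ∀ q, |k q| ≤ (4 : ℕ) * ((4 : ℕ) * (Real.pi * (2 * C * (2 * C)))) := fun q =>
    KK_le (e := qq A B v) (qq_le h.q) q.1 q.2
  have wm' : Measurable (fun q : ℝ × ℝ => w (q.2, q.1)) := wm.comp measurable_swap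
  have wb' : ∀ q : ℝ × ℝ, |w (q.2, q.1)| ≤ 4 * (2 * C * C) := fun q => wb _
  have fm : Measurable (fun q : ℝ × ℝ => KK (h3 A0 A B v) q.1 q.2) := KK_meas (h3_meas h)
  have fb : ∀ q : ℝ × ℝ, |KK (h3 A0 A B v) q.1 q.2|
      ≤ (3 : ℕ) * ((3 : ℕ) * (Real.pi * (2 * C * (2 * C)))) := fun q => KK_le (h3_le h) q.1 q.2
  have hsh := dbl_shift fm fb
    (fun t s => by show KK (h3 A0 A B v) (t + 2 * Real.pi) s = KK (h3 A0 A B v) t s
                   unfold KK; rw [h3_per h])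
    (fun t s => by show KK (h3 A0 A B v) t (s + 2 * Real.pi) = KK (h3 A0 A B v) t s
                   unfold KK; rw [h3_per h])
  have e1 : dbl (fun q : ℝ × ℝ => (KK (h3 A0 A B v) q.1 q.2 + KK (h3 A0 A B v) q.1 (q.2 + Real.pi))
      + (KK (h3 A0 A B v) (q.1 + Real.pi) q.2 + KK (h3 A0 A B v) (q.1 + Real.pi) (q.2 + Real.pi)))
      = dbl (fun q => 2 * Real.pi * u q + (Real.pi * w q + (Real.pi * w (q.2, q.1) + k q))) := by
    congr 1
    funext q
    exact split_pt h q.1 q.2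
  have cm : ∀ (c : ℝ) (f : ℝ × ℝ → ℝ), Measurable f → Measurable (fun q => c * f q) :=
    fun c f hf => hf.const_mul c
  have cb : ∀ (c C : ℝ) (f : ℝ × ℝ → ℝ), (∀ q, |f q| ≤ C) → ∀ q, |c * f q| ≤ |c| * C := by
    intro c C f hf q
    rw [abs_mul]
    exact mul_le_mul_of_nonneg_left (hf q) (abs_nonneg c)
  have ab : ∀ (C D : ℝ) (f g : ℝ × ℝ → ℝ), (∀ q, |f q| ≤ C) → (∀ q, |g q| ≤ D) →
      ∀ q, |f q + g q| ≤ C + D := fun C D f g hf hg q =>
    (abs_add_le _ _).trans (add_le_add (hf q) (hg q))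
  have s1 := dbl_add (f := fun q => 2 * Real.pi * u q)
    (g := fun q => Real.pi * w q + (Real.pi * w (q.2, q.1) + k q))
    (cm _ _ um) ((cm _ _ wm).add ((cm _ _ wm').add km)) (cb _ _ _ ub)
    (ab _ _ _ _ (cb _ _ _ wb) (ab _ _ _ _ (cb _ _ _ wb') kb))
  have s2 := dbl_add (f := fun q => Real.pi * w q) (g := fun q => Real.pi * w (q.2, q.1) + k q)
    (cm _ _ wm) ((cm _ _ wm').add km) (cb _ _ _ wb) (ab _ _ _ _ (cb _ _ _ wb') kb)
  have s3 := dbl_add (f := fun q => Real.pi * w (q.2, q.1)) (g := k) (cm _ _ wm') km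
    (cb _ _ _ wb') kb
  have e2 : dbl (fun q => w (q.2, q.1)) = dbl w := (dbl_swap wm wb).symm
  have s4 : dbl (fun q => 2 * Real.pi * u q) = 2 * Real.pi * dbl u := dbl_const _ _
  have s5 : dbl (fun q => Real.pi * w q) = Real.pi * dbl w := dbl_const _ _
  have s6 : dbl (fun q => Real.pi * w (q.2, q.1)) = Real.pi * dbl w := by
    rw [← e2]
    exact dbl_const _ _
  have e3 : (∫ t in (0 : ℝ)..(2 * Real.pi), ∫ s in (0 : ℝ)..(2 * Real.pi), KK (h3 A0 A B v) t s)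
      = dbl (fun q : ℝ × ℝ => KK (h3 A0 A B v) q.1 q.2) := rfl
  have e4 : 4 * dbl (fun q : ℝ × ℝ => KK (h3 A0 A B v) q.1 q.2)
      = 2 * Real.pi * dbl u + (Real.pi * dbl w + (Real.pi * dbl w + dbl k)) := by
    have e6 := hsh.symm.trans e1
    rw [s1, s2, s3, s4, s5, s6] at e6
    exact e6
  rw [e3, A0QG_eq, AQQG_eq, A00G_eq]
  have hpi := Real.pi_pos
  have e5 : dbl (fun q : ℝ × ℝ => KK (h3 A0 A B v) q.1 q.2)
      = (2 * Real.pi * dbl u + (Real.pi * dbl w + (Real.pi * dbl w + dbl k))) / 4 := by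
    linarith
  rw [e5]
  field_simp
  ring

/-- the quadrilateral with general edges -/
theorem quadG (a c : ℂ) (X Y : ℝ) (ho : 0 < (c * (starRingEnd ℂ) a).im) (hX : |X| ≤ 1 / 2)
    (hY : |Y| ≤ 1) : ∃ D : ℂ, ∀ (p' : ℂ) (e1 e2 : ℝ), |e1| ≤ 1 → |e2| ≤ 1 →
    2 * Real.pi * (p' * (starRingEnd ℂ) ((1 / 2) * ((e1 : ℂ) * (c + 1 / 2 * a)
        + (e2 : ℂ) * (c - 1 / 2 * a)) - (1 / 2) * ((e1 * e2 : ℝ) : ℂ) * ((X : ℂ) * a + (Y : ℂ) * c))).im
      + (p' * (starRingEnd ℂ) D).im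
      ≤ kr (((1 / 2 + X : ℝ) : ℂ) * a + ((1 + Y : ℝ) : ℂ) * c) p'
        + kr (((-(1 / 2) - X : ℝ) : ℂ) * a + ((1 - Y : ℝ) : ℂ) * c) p'
        + kr (((-(1 / 2) + X : ℝ) : ℂ) * a + ((-1 + Y : ℝ) : ℂ) * c) p'
        + kr (((1 / 2 - X : ℝ) : ℂ) * a + ((-1 - Y : ℝ) : ℂ) * c) p' := by
  have ha : a ≠ 0 := by
    intro h
    rw [h] at ho
    simp at ho
  rw [abs_le] at hX hY
  set ρ : ℝ := ‖a‖ with hρ
  have hρ0 : 0 < ρ := by
    rw [hρ]
    exact norm_pos_iff.2 ha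
  have hρc : (ρ : ℂ) ≠ 0 := by
    exact_mod_cast hρ0.ne'
  have haa : a * (starRingEnd ℂ) a = (ρ : ℂ) * (ρ : ℂ) := by
    rw [Complex.mul_conj, Complex.normSq_eq_norm_sq, ← hρ]
    push_cast
    ring
  set ζ : ℂ := (starRingEnd ℂ) a / (ρ : ℂ) with hζ
  have hz : ζ * (starRingEnd ℂ) ζ = 1 := by
    rw [hζ, map_div₀, Complex.conj_conj, Complex.conj_ofReal]
    field_simp
    linear_combination haa
  set W : ℂ := ζ * c with hW
  have hw : 0 < W.im := by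
    have : W = (c * (starRingEnd ℂ) a) / (ρ : ℂ) := by
      rw [hW, hζ]
      ring
    rw [this, Complex.div_ofReal_im]
    exact div_pos ho hρ0
  have hza : ζ * a = (ρ : ℂ) := by
    rw [hζ]
    field_simp
    linear_combination haa
  set g : ℝ → ℝ → ℂ := fun x y => (x : ℂ) * a + (y : ℂ) * c with hg
  set r : ℝ → ℝ → ℂ := fun x y => (x : ℂ) * (ρ : ℂ) + (y : ℂ) * W with hr
  have zz : ∀ x y : ℝ, ζ * g x y = r x y := by
    intro x y
    simp only [hg, hr]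
    rw [hW]
    linear_combination (x : ℂ) * hza
  have rre : ∀ x y : ℝ, (r x y).re = x * ρ + y * W.re := by
    intro x y
    simp [hr]
  have rim : ∀ x y : ℝ, (r x y).im = y * W.im := by
    intro x y
    simp [hr]
  obtain ⟨D, hD⟩ := core (r (1 / 2 + X) (1 + Y)) (r (-(1 / 2) - X) (1 - Y))
    (r (-(1 / 2) + X) (-1 + Y)) (r (1 / 2 - X) (-1 - Y))
    (by simp only [hr]; push_cast; ring)
    (by rw [rim]; exact mul_nonneg (by linarith) hw.le)
    (by rw [rim]; exact mul_nonneg (by linarith) hw.le)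
    (by rw [rim]; exact mul_nonpos_of_nonpos_of_nonneg (by linarith) hw.le)
    (by rw [rim]; exact mul_nonpos_of_nonpos_of_nonneg (by linarith) hw.le)
    (by
      intro z hz1 hz2
      rw [cx_eq, rre, rim] at hz2 ⊢
      have a1 : 0 ≤ (1 / 2 - X) * ρ * z.im := mul_nonneg (mul_nonneg (by linarith) hρ0.le) hz1
      have a2 : 0 < (1 - Y) * (W.im * z.re - W.re * z.im) := by nlinarith
      have a3 : 0 < W.im * z.re - W.re * z.im := by
        by_contra hcon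
        push Not at hcon
        have : (1 - Y) * (W.im * z.re - W.re * z.im) ≤ 0 :=
          mul_nonpos_of_nonneg_of_nonpos (by linarith) hcon
        linarith
      have a4 : 0 ≤ (1 + Y) * (W.im * z.re - W.re * z.im) := mul_nonneg (by linarith) a3.le
      nlinarith)
    (by
      intro z hz1 hz2
      rw [cx_eq, rre, rim] at hz2 ⊢
      have a1 : (1 / 2 + X) * ρ * z.im ≤ 0 :=
        mul_nonpos_of_nonneg_of_nonpos (mul_nonneg (by linarith) hρ0.le) hz1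
      have a2 : 0 < (1 + Y) * (W.re * z.im - W.im * z.re) := by nlinarith
      have a3 : 0 < W.re * z.im - W.im * z.re := by
        by_contra hcon
        push Not at hcon
        have : (1 + Y) * (W.re * z.im - W.im * z.re) ≤ 0 :=
          mul_nonpos_of_nonneg_of_nonpos (by linarith) hcon
        linarith
      have a4 : 0 ≤ (1 - Y) * (W.re * z.im - W.im * z.re) := mul_nonneg (by linarith) a3.le
      nlinarith)
  have yy_eq : ∀ e1 e2 : ℝ, (1 / 2) * ((e1 : ℂ) * (c + 1 / 2 * a) + (e2 : ℂ) * (c - 1 / 2 * a))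
      - (1 / 2) * ((e1 * e2 : ℝ) : ℂ) * ((X : ℂ) * a + (Y : ℂ) * c)
      = ((1 / 2 * e1 : ℝ) : ℂ) * g (1 / 2) 1 + ((1 / 2 * e2 : ℝ) : ℂ) * g (-(1 / 2)) 1
        + ((-(1 / 2) * (e1 * e2) : ℝ) : ℂ) * g X Y := by
    intro e1 e2
    simp only [hg]
    push_cast
    ring
  set V : ℝ → ℝ → ℂ := fun e1 e2 => ((1 / 2 * e1 : ℝ) : ℂ) * g (1 / 2) 1
    + ((1 / 2 * e2 : ℝ) : ℂ) * g (-(1 / 2)) 1 + ((-(1 / 2) * (e1 * e2) : ℝ) : ℂ) * g X Y with hV
  refine ⟨(starRingEnd ℂ) ζ * D - ((2 * Real.pi : ℝ) : ℂ) * V (-1) (-1), fun p' e1 e2 h1 h2 => ?_⟩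
  rw [yy_eq]
  have hCp := hD (ζ * p')
  have hcc : cx D (ζ * p') = cx ((starRingEnd ℂ) ζ * D) p' := by
    unfold cx
    rw [map_mul, Complex.conj_conj]
    congr 1
    ring
  have kk : ∀ x y : ℝ, kr (r x y) (ζ * p') = kr (g x y) p' := by
    intro x y
    rw [← zz]
    exact Helper44.RC.kr_rot _ _ _ hz
  have cc' : ∀ x y : ℝ, cx (r x y) (ζ * p') = cx (g x y) p' := by
    intro x y
    rw [← zz]
    exact cx_rot _ _ _ hz
  rw [kk, kk, kk, kk, cc', cc', cc', hcc] at hCp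
  set f : ℝ → ℝ → ℝ := fun x y => cx (g x y) p' with hf
  have cb : ∀ x y : ℝ, f x y = x * f 1 0 + y * f 0 1 := by
    intro x y
    simp only [hf, hg, cx_eq, Complex.add_re, Complex.add_im, Complex.re_ofReal_mul,
      Complex.im_ofReal_mul]
    ring
  set M := max 0 (max (f (1 / 2 + X) (1 + Y)) (max (f (1 / 2 + X) (1 + Y) + f (-(1 / 2) - X) (1 - Y))
    (-f (1 / 2 - X) (-1 - Y)))) with hM
  have m0 : 0 ≤ M := le_max_left _ _
  have m1 : f (1 / 2 + X) (1 + Y) ≤ M := le_trans (le_max_left _ _) (le_max_right _ _)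
  have m2 : f (1 / 2 + X) (1 + Y) + f (-(1 / 2) - X) (1 - Y) ≤ M :=
    le_trans (le_trans (le_max_left _ _) (le_max_right _ _)) (le_max_right _ _)
  have m3 : -f (1 / 2 - X) (-1 - Y) ≤ M :=
    le_trans (le_trans (le_max_right _ _) (le_max_right _ _)) (le_max_right _ _)
  have yval : ∀ a1 a2 : ℝ, (p' * (starRingEnd ℂ) (V a1 a2)).im
      = 1 / 2 * (a1 * f (1 / 2) 1 + a2 * f (-(1 / 2)) 1) - 1 / 2 * (a1 * a2) * f X Y := by
    intro a1 a2
    have h6 : (p' * (starRingEnd ℂ) (V a1 a2)).im = cx (V a1 a2) p' := rfl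
    rw [h6]
    simp only [hV, hf, cx_eq, Complex.add_re, Complex.add_im, Complex.re_ofReal_mul,
      Complex.im_ofReal_mul]
    ring
  have hgoal : (p' * (starRingEnd ℂ) (V e1 e2)).im
      ≤ (p' * (starRingEnd ℂ) (V (-1) (-1))).im + M := by
    rw [yval, yval]
    rw [cb (1 / 2 + X) (1 + Y), cb (-(1 / 2) - X) (1 - Y)] at m2
    rw [cb (1 / 2 + X) (1 + Y)] at m1
    rw [cb (1 / 2 - X) (-1 - Y)] at m3
    rw [cb (1 / 2) 1, cb (-(1 / 2)) 1, cb X Y]
    have := biaff 0 (1 / 2 * (1 / 2 * f 1 0 + 1 * f 0 1)) (1 / 2 * (-(1 / 2) * f 1 0 + 1 * f 0 1))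
      (-(1 / 2) * (X * f 1 0 + Y * f 0 1))
      (1 / 2 * (-1 * (1 / 2 * f 1 0 + 1 * f 0 1) + -1 * (-(1 / 2) * f 1 0 + 1 * f 0 1))
        - 1 / 2 * (-1 * -1) * (X * f 1 0 + Y * f 0 1) + M) e1 e2 h1 h2
      (by nlinarith) (by nlinarith) (by nlinarith) (by nlinarith)
    nlinarith
  have hfin : (p' * (starRingEnd ℂ) ((starRingEnd ℂ) ζ * D
      - ((2 * Real.pi : ℝ) : ℂ) * V (-1) (-1))).im
      = cx ((starRingEnd ℂ) ζ * D) p'
        - 2 * Real.pi * (p' * (starRingEnd ℂ) (V (-1) (-1))).im := by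
    rw [map_sub, mul_sub, Complex.sub_im, map_mul _ ((2 * Real.pi : ℝ) : ℂ), Complex.conj_ofReal]
    have : p' * (((2 * Real.pi : ℝ) : ℂ) * (starRingEnd ℂ) (V (-1) (-1)))
        = ((2 * Real.pi : ℝ) : ℂ) * (p' * (starRingEnd ℂ) (V (-1) (-1))) := by ring
    rw [this, Complex.im_ofReal_mul]
    rfl
  rw [hfin]
  have hpi := Real.pi_pos
  have hkk : kr (((1 / 2 + X : ℝ) : ℂ) * a + ((1 + Y : ℝ) : ℂ) * c) p'
        + kr (((-(1 / 2) - X : ℝ) : ℂ) * a + ((1 - Y : ℝ) : ℂ) * c) p'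
        + kr (((-(1 / 2) + X : ℝ) : ℂ) * a + ((-1 + Y : ℝ) : ℂ) * c) p'
        + kr (((1 / 2 - X : ℝ) : ℂ) * a + ((-1 - Y : ℝ) : ℂ) * c) p'
      = kr (g (1 / 2 + X) (1 + Y)) p' + kr (g (-(1 / 2) - X) (1 - Y)) p'
        + kr (g (-(1 / 2) + X) (-1 + Y)) p' + kr (g (1 / 2 - X) (-1 - Y)) p' := rfl
  rw [hkk]
  nlinarith [mul_le_mul_of_nonneg_left hgoal (by positivity : (0 : ℝ) ≤ 2 * Real.pi)]

/-- the quadrilateral inequality for oriented families -/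
theorem qqG (ho : ∀ t, Ori (A0 t) (A t) (B t) (v t)) : QQ A B v := by
  intro t s e1 e2 h1 h2
  rw [Finset.sum_comm]
  have hk : ∃ D : ℂ, ∀ (p' : ℂ) (e1 e2 : ℝ), |e1| ≤ 1 → |e2| ≤ 1 →
      2 * Real.pi * (p' * (starRingEnd ℂ) (yy A B v t e1 e2)).im + (p' * (starRingEnd ℂ) D).im
      ≤ ∑ k, kr (qq A B v t k) p' := by
    rcases ho t with ⟨hA, hB, hv⟩ | ⟨c, x, y, hc, hx, hy, hA, hB, hv⟩
    · refine ⟨0, fun p' e1 e2 _ _ => ?_⟩
      rw [Fin.sum_univ_four]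
      show _ ≤ kr (A t + v t) p' + kr (B t - v t) p' + kr (-A t + v t) p' + kr (-B t - v t) p'
      unfold yy
      rw [hA, hB, hv]
      simp only [mul_zero, add_zero, sub_zero, neg_zero, map_zero, Complex.zero_im]
      rw [kr_of_zero 0 p' (Or.inl rfl)]
      simp
    · obtain ⟨D, hD⟩ := quadG (A0 t) c x y hc hx hy
      refine ⟨D, fun p' e1 e2 h1 h2 => ?_⟩
      have h3 := hD p' e1 e2 h1 h2
      rw [Fin.sum_univ_four]
      show _ ≤ kr (A t + v t) p' + kr (B t - v t) p' + kr (-A t + v t) p' + kr (-B t - v t) p'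
      have q0 : A t + v t = ((1 / 2 + x : ℝ) : ℂ) * A0 t + ((1 + y : ℝ) : ℂ) * c := by
        rw [hA, hv]
        push_cast
        ring
      have q1 : B t - v t = ((-(1 / 2) - x : ℝ) : ℂ) * A0 t + ((1 - y : ℝ) : ℂ) * c := by
        rw [hB, hv]
        push_cast
        ring
      have q2 : -A t + v t = ((-(1 / 2) + x : ℝ) : ℂ) * A0 t + ((-1 + y : ℝ) : ℂ) * c := by
        rw [hA, hv]
        push_cast
        ring
      have q3 : -B t - v t = ((1 / 2 - x : ℝ) : ℂ) * A0 t + ((-1 - y : ℝ) : ℂ) * c := by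
        rw [hB, hv]
        push_cast
        ring
      rw [q0, q1, q2, q3]
      unfold yy
      rw [hA, hB, hv]
      exact h3
  obtain ⟨D, hD⟩ := hk
  have h3 := Finset.sum_le_sum (fun l (_ : l ∈ Finset.univ) =>
    hD (qq A B v s l) (e1 l) (e2 l) (h1 l) (h2 l))
  rw [Finset.sum_add_distrib, ← Finset.mul_sum] at h3
  have h4 : ∑ l, (qq A B v s l * (starRingEnd ℂ) D).im = 0 := by
    rw [← Complex.im_sum, ← Finset.sum_mul, qq_sum]
    simp
  linarith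

end Helper44.RCG
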