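import Pool.Agent.Helper44.RC.M_SPL

/-! # Project RC: integrals against the sign function; modules A00, A0Q, COE -/

open MeasureTheory Set Filter Metric

namespace Helper44.RC

open Helper49.LT hiding sg
open Helper49.RC
open Helper87.RC

variable {β P : ℝ → ℂ}

theorem sgs_abs (x : ℝ) : |sgs x| ≤ 1 := by
  unfold sgs
  split_ifs <;> simp

theorem sgs_sq (x : ℝ) : sgs x * sgs x = 1 := by
  unfold sgs
  split_ifs <;> simp

theorem sgs_meas : Measurable sgs :=
  Measurable.ite (measurableSet_le measurable_const Real.measurable_sin) measurable_const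
    measurable_const

theorem sgs_per (x : ℝ) : sgs (x + 2 * Real.pi) = sgs x := by
  unfold sgs
  rw [Real.sin_add_two_pi]

theorem sgs_pos {x : ℝ} (h0 : 0 ≤ x) (h1 : x ≤ Real.pi) : sgs x = 1 := by
  unfold sgs
  rw [if_pos (Real.sin_nonneg_of_nonneg_of_le_pi h0 h1)]

theorem sgs_neg {x : ℝ} (h0 : -Real.pi < x) (h1 : x < 0) : sgs x = -1 := by
  unfold sgs
  rw [if_neg (not_le.2 (Real.sin_neg_of_neg_of_neg_pi_lt h1 h0))]

theorem int_per {g : ℝ → ℂ} (hg : ∀ t, g (t + 2 * Real.pi) = g t) (a : ℝ) :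
    ∫ t in (0 : ℝ)..(2 * Real.pi), g t = ∫ t in a..(a + 2 * Real.pi), g t := by
  have hp : Function.Periodic g (2 * Real.pi) := hg
  have := hp.intervalIntegral_add_eq 0 a
  rw [zero_add] at this
  exact this

theorem int_perR {g : ℝ → ℝ} (hg : ∀ t, g (t + 2 * Real.pi) = g t) (a : ℝ) :
    ∫ t in (0 : ℝ)..(2 * Real.pi), g t = ∫ t in a..(a + 2 * Real.pi), g t := by
  have hp : Function.Periodic g (2 * Real.pi) := hg
  have := hp.intervalIntegral_add_eq 0 a
  rw [zero_add] at this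
  exact this

/-- the integral of an antiperiodic function against the sign of `sin (φ - t)` -/
theorem int_sgs {G : ℝ → ℂ} (hm : Measurable G) {C : ℝ} (hC : ∀ t, ‖G t‖ ≤ C)
    (ha : ∀ t, G (t + Real.pi) = -G t) (φ : ℝ) :
    ∫ t in (0 : ℝ)..(2 * Real.pi), (sgs (φ - t) : ℂ) * G t = 2 * ∫ t in (φ - Real.pi)..φ, G t := by
  have hper : ∀ t, (sgs (φ - (t + 2 * Real.pi)) : ℂ) * G (t + 2 * Real.pi)
      = (sgs (φ - t) : ℂ) * G t := by
    intro t
    have h1 : sgs (φ - (t + 2 * Real.pi)) = sgs (φ - t) := by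
      rw [← sgs_per (φ - (t + 2 * Real.pi))]
      congr 1
      ring
    have h2 : G (t + 2 * Real.pi) = G t := by
      rw [two_mul, ← add_assoc, ha, ha, neg_neg]
    rw [h1, h2]
  have hsm : Measurable (fun t => (sgs (φ - t) : ℂ) * G t) :=
    (Complex.measurable_ofReal.comp (sgs_meas.comp (measurable_const.sub measurable_id))).mul hm
  have hsb : ∀ t, ‖(sgs (φ - t) : ℂ) * G t‖ ≤ C := by
    intro t
    rw [norm_mul, Complex.norm_real, Real.norm_eq_abs]
    have := mul_le_mul (sgs_abs (φ - t)) (hC t) (norm_nonneg _) (by norm_num)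
    linarith
  have hi : ∀ a b, IntervalIntegrable (fun t => (sgs (φ - t) : ℂ) * G t) volume a b :=
    fun a b => intg_of_bddC hsm hsb a b
  rw [int_per hper (φ - Real.pi), show φ - Real.pi + 2 * Real.pi = φ + Real.pi by ring,
    ← intervalIntegral.integral_add_adjacent_intervals (hi _ φ) (hi φ _)]
  have hpi := Real.pi_pos
  have e1 : ∫ t in (φ - Real.pi)..φ, (sgs (φ - t) : ℂ) * G t = ∫ t in (φ - Real.pi)..φ, G t := by
    refine intervalIntegral.integral_congr fun t ht => ?_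
    rw [uIcc_of_le (by linarith)] at ht
    show (sgs (φ - t) : ℂ) * G t = G t
    rw [sgs_pos (by linarith [ht.2]) (by linarith [ht.1])]
    simp
  have e2 : ∫ t in φ..(φ + Real.pi), (sgs (φ - t) : ℂ) * G t
      = ∫ t in φ..(φ + Real.pi), -G t := by
    refine intervalIntegral.integral_congr_ae ?_
    have h3 : ∀ᵐ t : ℝ, t ≠ φ + Real.pi := by
      have := (measure_singleton (μ := (volume : Measure ℝ)) (φ + Real.pi))
      exact compl_mem_ae_iff.2 this
    filter_upwards [h3] with t ht1 ht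
    rw [uIoc_of_le (by linarith)] at ht
    rw [sgs_neg (x := φ - t) (by
      have h5 := lt_of_le_of_ne ht.2 ht1
      linarith) (by linarith [ht.1])]
    push_cast
    ring
  have e3 : ∫ t in φ..(φ + Real.pi), -G t = ∫ t in (φ - Real.pi)..φ, G t := by
    have h4 := intervalIntegral.integral_comp_add_right (f := fun t => -G t) (a := φ - Real.pi)
      (b := φ) Real.pi
    rw [sub_add_cancel] at h4
    rw [← h4]
    refine intervalIntegral.integral_congr fun t _ => ?_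
    show -G (t + Real.pi) = G t
    rw [ha, neg_neg]
  rw [e1, e2, e3]
  ring

theorem im_int (z : ℂ) {f : ℝ → ℂ} {a b : ℝ} (hf : IntervalIntegrable f volume a b) :
    ∫ t in a..b, (z * (starRingEnd ℂ) (f t)).im = (z * (starRingEnd ℂ) (∫ t in a..b, f t)).im := by
  let L : ℂ →L[ℝ] ℝ :=
    Complex.imCLM.comp ((ContinuousLinearMap.mul ℝ ℂ z).comp Complex.conjCLE.toContinuousLinearMap)
  have h := L.intervalIntegral_comp_comm hf
  exact h

theorem E0_anti (h : Adm β P) (t : ℝ) : E0 β (t + Real.pi) = -E0 β t := by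
  unfold E0
  rw [h.perb, ee_add_pi, neg_mul]

theorem E1_anti (h : Adm β P) (t : ℝ) : E1 β (t + Real.pi) = -E1 β t := by
  unfold E1
  rw [h.perb, ee_add_pi, neg_mul]

theorem E2_anti (h : Adm β P) (t : ℝ) : E2 β (t + Real.pi) = -E2 β t := by
  unfold E2
  rw [h.perb, ee_add_pi, neg_mul]

theorem vv_pi (h : Adm β P) (t : ℝ) : vv P (t + Real.pi) = vv P t := by
  unfold vv
  rw [h.perp, ee_add_pi]
  ring

theorem vv_two_pi (h : Adm β P) (t : ℝ) : vv P (t + 2 * Real.pi) = vv P t := by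
  rw [two_mul, ← add_assoc, vv_pi h, vv_pi h]

theorem E1_two_pi (h : Adm β P) (t : ℝ) : E1 β (t + 2 * Real.pi) = E1 β t := by
  rw [two_mul, ← add_assoc, E1_anti h, E1_anti h, neg_neg]

theorem E2_two_pi (h : Adm β P) (t : ℝ) : E2 β (t + 2 * Real.pi) = E2 β t := by
  rw [two_mul, ← add_assoc, E2_anti h, E2_anti h, neg_neg]

theorem E0_two_pi (h : Adm β P) (t : ℝ) : E0 β (t + 2 * Real.pi) = E0 β t := by
  rw [two_mul, ← add_assoc, E0_anti h, E0_anti h, neg_neg]

theorem F1_per (h : Adm β P) (θ : ℝ) : F1 β P (θ + 2 * Real.pi) = F1 β P θ := by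
  unfold F1
  rw [show θ + 2 * Real.pi - Real.pi / 3 = θ - Real.pi / 3 + 2 * Real.pi by ring, E1_two_pi h,
    vv_two_pi h]

theorem F2_per (h : Adm β P) (θ : ℝ) : F2 β P (θ + 2 * Real.pi) = F2 β P θ := by
  unfold F2
  rw [show θ + 2 * Real.pi - 2 * Real.pi / 3 = θ - 2 * Real.pi / 3 + 2 * Real.pi by ring,
    E2_two_pi h, vv_two_pi h]

/-- the nominal angle of the edge `l` minus `s` -/
noncomputable def nom : Fin 4 → ℝ :=
  ![Real.pi / 3, 2 * Real.pi / 3, 4 * Real.pi / 3, 5 * Real.pi / 3]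

theorem q4_0 (s : ℝ) : q4 s (β s) (P s) 0 = F1 β P (s + nom 0) := by
  show ee s * f1 (β s) (P s) = _
  unfold F1
  show _ = E1 β (s + Real.pi / 3 - Real.pi / 3) + vv P (s + Real.pi / 3 - Real.pi / 3)
  rw [add_sub_cancel_right, f1_eq]
  unfold E1 vv
  rw [f1_eq]
  ring

theorem q4_1 (s : ℝ) : q4 s (β s) (P s) 1 = F2 β P (s + nom 1) := by
  show ee s * f2 (β s) (P s) = _
  unfold F2
  show _ = E2 β (s + 2 * Real.pi / 3 - 2 * Real.pi / 3)
    - vv P (s + 2 * Real.pi / 3 - 2 * Real.pi / 3)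
  rw [add_sub_cancel_right, f2_eq]
  unfold E2 vv
  rw [f2_eq]
  ring

theorem q4_2 (h : Adm β P) (s : ℝ) : q4 s (β s) (P s) 2 = F1 β P (s + nom 2) := by
  show -(ee s * f1 (β s) (-P s)) = _
  unfold F1
  show _ = E1 β (s + 4 * Real.pi / 3 - Real.pi / 3) + vv P (s + 4 * Real.pi / 3 - Real.pi / 3)
  rw [show s + 4 * Real.pi / 3 - Real.pi / 3 = s + Real.pi by ring, E1_anti h, vv_pi h, f1_eq]
  unfold E1 vv
  rw [f1_eq]
  ring

theorem q4_3 (h : Adm β P) (s : ℝ) : q4 s (β s) (P s) 3 = F2 β P (s + nom 3) := by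
  show -(ee s * f2 (β s) (-P s)) = _
  unfold F2
  show _ = E2 β (s + 5 * Real.pi / 3 - 2 * Real.pi / 3)
    - vv P (s + 5 * Real.pi / 3 - 2 * Real.pi / 3)
  rw [show s + 5 * Real.pi / 3 - 2 * Real.pi / 3 = s + Real.pi by ring, E2_anti h, vv_pi h, f2_eq]
  unfold E2 vv
  rw [f2_eq]
  ring

/-- the family of the edge `l` -/
noncomputable def FF (β P : ℝ → ℂ) : Fin 4 → ℝ → ℂ := ![F1 β P, F2 β P, F1 β P, F2 β P]

theorem q4_FF (h : Adm β P) (s : ℝ) (l : Fin 4) : q4 s (β s) (P s) l = FF β P l (s + nom l) := by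
  fin_cases l
  · exact q4_0 s
  · exact q4_1 s
  · exact q4_2 h s
  · exact q4_3 h s

theorem FF_per (h : Adm β P) (l : Fin 4) (θ : ℝ) : FF β P l (θ + 2 * Real.pi) = FF β P l θ := by
  fin_cases l
  · exact F1_per h θ
  · exact F2_per h θ
  · exact F1_per h θ
  · exact F2_per h θ

theorem sum_q4 (s : ℝ) (b p : ℂ) : ∑ l, q4 s b p l = 0 := by
  rw [Fin.sum_univ_four]
  show ee s * f1 b p + ee s * f2 b p + -(ee s * f1 b (-p)) + -(ee s * f2 b (-p)) = 0
  rw [f1_eq, f2_eq, f1_eq, f2_eq]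
  ring

theorem E1_meas (h : Adm β P) : Measurable (E1 β) := m1 h.mb (measurable_const (a := (0 : ℂ)))

theorem E2_meas (h : Adm β P) : Measurable (E2 β) := m2 h.mb (measurable_const (a := (0 : ℂ)))

theorem vv_meas (h : Adm β P) : Measurable (vv P) := continuous_ee.measurable.mul h.mp

theorem E1_le (h : Adm β P) (t : ℝ) : ‖E1 β t‖ ≤ 6 :=
  f1_le (beta_le h t) (by simp) t

theorem E2_le (h : Adm β P) (t : ℝ) : ‖E2 β t‖ ≤ 6 :=
  f2_le (beta_le h t) (by simp) t

theorem vv_le (h : Adm β P) (t : ℝ) : ‖vv P t‖ ≤ 3 := by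
  unfold vv
  rw [norm_mul, norm_ee, one_mul]
  exact P_le h t

theorem F1_meas (h : Adm β P) : Measurable (F1 β P) :=
  ((E1_meas h).comp (measurable_id.sub_const _)).add ((vv_meas h).comp (measurable_id.sub_const _))

theorem F2_meas (h : Adm β P) : Measurable (F2 β P) :=
  ((E2_meas h).comp (measurable_id.sub_const _)).sub ((vv_meas h).comp (measurable_id.sub_const _))

theorem F1_le (h : Adm β P) (θ : ℝ) : ‖F1 β P θ‖ ≤ 9 := by
  unfold F1
  refine (norm_add_le _ _).trans ?_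
  linarith [E1_le h (θ - Real.pi / 3), vv_le h (θ - Real.pi / 3)]

theorem F2_le (h : Adm β P) (θ : ℝ) : ‖F2 β P θ‖ ≤ 9 := by
  unfold F2
  refine (norm_sub_le _ _).trans ?_
  linarith [E2_le h (θ - 2 * Real.pi / 3), vv_le h (θ - 2 * Real.pi / 3)]

/-- replacement of the choice functions by periodic ones -/
theorem per_ext {φ : ℝ → ℝ} (hφ : Measurable φ) : ∃ φ' : ℝ → ℝ, Measurable φ' ∧
    (∀ θ, φ' (θ + 2 * Real.pi) = φ' θ) ∧ ∀ θ, 0 ≤ θ → θ < 2 * Real.pi → φ' θ = φ θ := by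
  have hpi := Real.pi_pos
  refine ⟨fun θ => φ (2 * Real.pi * Int.fract (θ / (2 * Real.pi))), ?_, ?_, ?_⟩
  · exact hφ.comp ((measurable_fract.comp (measurable_id.div_const _)).const_mul _)
  · intro θ
    show φ (2 * Real.pi * Int.fract ((θ + 2 * Real.pi) / (2 * Real.pi))) = _
    rw [add_div, div_self (by positivity), Int.fract_add_one]
  · intro θ h0 h1
    show φ (2 * Real.pi * Int.fract (θ / (2 * Real.pi))) = φ θ
    rw [Int.fract_eq_self.2 ⟨by positivity, (div_lt_one (by positivity)).2 h1⟩]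
    congr 1
    field_simp

/-- the sum over the four edges of periodic functions of the nominal angle -/
theorem sum_nom {H1 H2 : ℝ → ℝ} (m1 : Measurable H1) (m2 : Measurable H2) {C : ℝ}
    (c1 : ∀ θ, |H1 θ| ≤ C) (c2 : ∀ θ, |H2 θ| ≤ C) (p1 : ∀ θ, H1 (θ + 2 * Real.pi) = H1 θ)
    (p2 : ∀ θ, H2 (θ + 2 * Real.pi) = H2 θ) :
    ∫ s in (0 : ℝ)..(2 * Real.pi), ∑ l, (![H1, H2, H1, H2] : Fin 4 → ℝ → ℝ) l (s + nom l)
      = 2 * ∫ θ in (0 : ℝ)..(2 * Real.pi), (H1 θ + H2 θ) := by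
  have hs : ∀ {H : ℝ → ℝ}, (∀ θ, H (θ + 2 * Real.pi) = H θ) → ∀ a,
      ∫ s in (0 : ℝ)..(2 * Real.pi), H (s + a) = ∫ θ in (0 : ℝ)..(2 * Real.pi), H θ := by
    intro H hH a
    rw [intervalIntegral.integral_comp_add_right (f := H), zero_add, add_comm (2 * Real.pi) a]
    exact (int_perR hH a).symm
  have hi : ∀ {H : ℝ → ℝ}, Measurable H → (∀ θ, |H θ| ≤ C) → ∀ a,
      IntervalIntegrable (fun s => H (s + a)) volume 0 (2 * Real.pi) := fun hm hc a =>
    intg_of_bdd (hm.comp (measurable_id.add_const a)) (fun t => hc _) _ _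
  have e1 : (fun s => ∑ l, (![H1, H2, H1, H2] : Fin 4 → ℝ → ℝ) l (s + nom l))
      = fun s => H1 (s + nom 0) + H2 (s + nom 1) + (H1 (s + nom 2) + H2 (s + nom 3)) := by
    funext s
    rw [Fin.sum_univ_four]
    simp only [Matrix.cons_val]
    ring
  have hi0 : ∀ {H : ℝ → ℝ}, Measurable H → (∀ θ, |H θ| ≤ C) →
      IntervalIntegrable H volume 0 (2 * Real.pi) := fun hm hc => intg_of_bdd hm hc _ _
  rw [e1, intervalIntegral.integral_add ((hi m1 c1 _).add (hi m2 c2 _))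
      ((hi m1 c1 _).add (hi m2 c2 _)),
    intervalIntegral.integral_add (hi m1 c1 _) (hi m2 c2 _),
    intervalIntegral.integral_add (hi m1 c1 _) (hi m2 c2 _), hs p1, hs p2, hs p1, hs p2,
    intervalIntegral.integral_add (hi0 m1 c1) (hi0 m2 c2)]
  ring

end Helper44.RC
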