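import Pool.Agent.Helper44.RC.M_NR8
import Pool.Agent.Helper49.RC.CellR

/-!
# Project RC, SHARP: the price `Lam` of a record, 1

Sums over the frequencies `-M, …, M` as sums over `range M`; the integer expressions of the quadratic sums.
-/

set_option autoImplicit false

open MeasureTheory Set Filter Topology

namespace Helper44.Far

open Helper49.LT hiding sg
open Helper49.RC Helper44.GQ
open Helper56.RC (fc)
open Helper49.Sharp
open Helper49.Cell (zi)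

/-! ### sums -/

theorem HM_zero : HM 0 = {0} := by
  unfold HM
  simp

theorem sum_HM {E : Type*} [AddCommMonoid E] (M : ℕ) (f : ℤ → E) :
    ∑ n ∈ HM M, f n = f 0 + ∑ i ∈ Finset.range M, (f ((i : ℤ) + 1) + f (-((i : ℤ) + 1))) := by
  induction M with
  | zero => rw [HM_zero]; simp
  | succ M ih =>
    have e : HM (M + 1) = insert ((M : ℤ) + 1) (insert (-((M : ℤ) + 1)) (HM M)) := by
      unfold HM
      ext n
      simp only [Finset.mem_insert, Finset.mem_Icc]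
      push_cast
      omega
    have n1 : -((M : ℤ) + 1) ∉ HM M := by
      unfold HM; rw [Finset.mem_Icc]; omega
    have n2 : ((M : ℤ) + 1) ∉ insert (-((M : ℤ) + 1)) (HM M) := by
      unfold HM; rw [Finset.mem_insert, Finset.mem_Icc]; omega
    rw [e, Finset.sum_insert n2, Finset.sum_insert n1, ih, Finset.sum_range_succ]
    abel

theorem sum_odd {E : Type*} [AddCommMonoid E] (M : ℕ) (f : ℤ → E) :
    ∑ n ∈ (HM M).filter Odd, f n =
      ∑ i ∈ Finset.range M, if i % 2 = 0 then f ((i : ℤ) + 1) + f (-((i : ℤ) + 1)) else 0 := by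
  rw [Finset.sum_filter, sum_HM, if_neg (by decide), zero_add]
  refine Finset.sum_congr rfl fun i _ => ?_
  by_cases h : i % 2 = 0
  · have h1 : Odd ((i : ℤ) + 1) := by rw [Int.odd_iff]; omega
    rw [if_pos h1, if_pos h1.neg, if_pos h]
  · have h1 : ¬ Odd ((i : ℤ) + 1) := by rw [Int.odd_iff]; omega
    have h2 : ¬ Odd (-((i : ℤ) + 1)) := by rw [Int.odd_iff]; omega
    rw [if_neg h1, if_neg h2, if_neg h, zero_add]

theorem sum_even {E : Type*} [AddCommMonoid E] (M : ℕ) (f : ℤ → E) :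
    ∑ n ∈ (HM M).filter Even, f n =
      f 0 + ∑ i ∈ Finset.range M, if i % 2 = 0 then 0 else f ((i : ℤ) + 1) + f (-((i : ℤ) + 1)) := by
  rw [Finset.sum_filter, sum_HM, if_pos (by decide)]
  congr 1
  refine Finset.sum_congr rfl fun i _ => ?_
  by_cases h : i % 2 = 0
  · have h1 : ¬ Even ((i : ℤ) + 1) := by rw [Int.even_iff]; omega
    have h2 : ¬ Even (-((i : ℤ) + 1)) := by rw [Int.even_iff]; omega
    rw [if_neg h1, if_neg h2, if_pos h, zero_add]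
  · have h1 : Even ((i : ℤ) + 1) := by rw [Int.even_iff]; omega
    rw [if_pos h1, if_pos h1.neg, if_neg h]

/-! ### integer expressions -/

/-- `|p|²` -/
def nn2 (p : ℤ × ℤ) : ℤ := Int.add (Int.mul p.1 p.1) (Int.mul p.2 p.2)
/-- `Re (p q)` -/
def rm (p q : ℤ × ℤ) : ℤ := Int.sub (Int.mul p.1 q.1) (Int.mul p.2 q.2)
/-- `Im (p q)` -/
def ij (p q : ℤ × ℤ) : ℤ := Int.add (Int.mul p.1 q.2) (Int.mul p.2 q.1)
/-- `Re (conj p q)` -/
def rc (p q : ℤ × ℤ) : ℤ := Int.add (Int.mul p.1 q.1) (Int.mul p.2 q.2)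
/-- `Im (conj p q)` -/
def ic (p q : ℤ × ℤ) : ℤ := Int.sub (Int.mul p.1 q.2) (Int.mul p.2 q.1)
/-- `q - p` -/
def dq (p q : ℤ × ℤ) : ℤ × ℤ := (Int.sub q.1 p.1, Int.sub q.2 p.2)

theorem iadd (x y : ℤ) : Int.add x y = x + y := rfl
theorem imul (x y : ℤ) : Int.mul x y = x * y := rfl
theorem isub (x y : ℤ) : Int.sub x y = x - y := rfl

/-- `p = a1 n`, `p' = a1 (-n)`, `q = a2 n`, `q' = a2 (-n)` -/
def eWI (p p' q q' : ℤ × ℤ) : ℤ :=
  Int.sub (Int.add (Int.add (Int.add (nn2 p) (nn2 p')) (Int.add (nn2 q) (nn2 q'))) (Int.add (rc p q) (rc p' q')))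
    (Int.add (Int.add (rm p p') (rm q q')) (Int.mul 2 (Int.add (rm p q') (rm q p'))))
def eWJ (p p' q q' : ℤ × ℤ) : ℤ := Int.sub (ij q q') (Int.add (ij p p') (Int.add (ic p q) (ic p' q')))
def eXI (p p' q q' : ℤ × ℤ) : ℤ :=
  Int.add (Int.add (Int.mul 49 (Int.add (Int.add (nn2 p) (nn2 p')) (Int.add (nn2 q) (nn2 q'))))
    (Int.mul 94 (Int.add (Int.add (rc p q) (rc p' q')) (Int.add (rm p p') (rm q q')))))
    (Int.mul 98 (Int.add (rm p q') (rm q p')))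
def eXJ (p p' q q' : ℤ × ℤ) : ℤ := Int.sub (ij p p') (Int.add (ij q q') (Int.add (ic p q) (ic p' q')))

theorem zi_re (p : ℤ × ℤ) : (zi p).re = p.1 := by unfold zi; simp
theorem zi_im (p : ℤ × ℤ) : (zi p).im = p.2 := by unfold zi; simp

theorem sq_norm (x : ℂ) : ‖x‖ ^ 2 = x.re ^ 2 + x.im ^ 2 := by
  rw [← Complex.normSq_eq_norm_sq, Complex.normSq_apply]; ring

theorem nn2_eq (p : ℤ × ℤ) : ((nn2 p : ℤ) : ℝ) = ‖zi p‖ ^ 2 := by
  rw [sq_norm, zi_re, zi_im]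
  unfold nn2
  rw [iadd, imul, imul]
  push_cast
  ring

theorem om_re : om.re = 1 / 2 := by rw [Helper95.RC.om_val]; simp
theorem om_im : om.im = Real.sqrt 3 / 2 := by rw [Helper95.RC.om_val]; simp
theorem om2_re : (om ^ 2).re = -(1 / 2) := by
  have r2 : Real.sqrt 3 ^ 2 = 3 := Real.sq_sqrt (by norm_num)
  rw [sq, Complex.mul_re, om_re, om_im]; nlinarith
theorem om2_im : (om ^ 2).im = Real.sqrt 3 / 2 := by rw [sq, Complex.mul_im, om_re, om_im]; ring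

/-- the price of `b₂`, one pair of frequencies -/
theorem w_pair (S : ℝ) (hS : S ≠ 0) (p p' q q' : ℤ × ℤ) {w w' : ℂ}
    (hw : w = -(om * (zi p / (S : ℂ))) - om ^ 2 * (zi q / (S : ℂ)))
    (hw' : w' = -(om * (zi p' / (S : ℂ))) - om ^ 2 * (zi q' / (S : ℂ))) :
    S ^ 2 * (‖w‖ ^ 2 + ‖w'‖ ^ 2 + 2 * (w * w').re) =
      ((eWI p p' q q' : ℤ) : ℝ) + Real.sqrt 3 * ((eWJ p p' q q' : ℤ) : ℝ) := by
  have r2 : Real.sqrt 3 ^ 2 = 3 := Real.sq_sqrt (by norm_num)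
  have d1 : ∀ (x : ℤ × ℤ), (zi x / (S : ℂ)).re = x.1 / S := fun x => by
    rw [Complex.div_ofReal_re, zi_re]
  have d2 : ∀ (x : ℤ × ℤ), (zi x / (S : ℂ)).im = x.2 / S := fun x => by
    rw [Complex.div_ofReal_im, zi_im]
  have a1 : S * w.re = -(1 / 2 * p.1 - Real.sqrt 3 / 2 * p.2) - (-(1 / 2) * q.1 - Real.sqrt 3 / 2 * q.2) := by
    rw [hw, Complex.sub_re, Complex.neg_re, Complex.mul_re, Complex.mul_re, om_re, om_im, om2_re, om2_im, d1, d1, d2, d2]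
    field_simp
  have a2 : S * w.im = -(1 / 2 * p.2 + Real.sqrt 3 / 2 * p.1) - (-(1 / 2) * q.2 + Real.sqrt 3 / 2 * q.1) := by
    rw [hw, Complex.sub_im, Complex.neg_im, Complex.mul_im, Complex.mul_im, om_re, om_im, om2_re, om2_im, d1, d1, d2, d2]
    field_simp
  have a3 : S * w'.re = -(1 / 2 * p'.1 - Real.sqrt 3 / 2 * p'.2) - (-(1 / 2) * q'.1 - Real.sqrt 3 / 2 * q'.2) := by
    rw [hw', Complex.sub_re, Complex.neg_re, Complex.mul_re, Complex.mul_re, om_re, om_im, om2_re, om2_im, d1, d1, d2,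
      d2]
    field_simp
  have a4 : S * w'.im = -(1 / 2 * p'.2 + Real.sqrt 3 / 2 * p'.1) - (-(1 / 2) * q'.2 + Real.sqrt 3 / 2 * q'.1) := by
    rw [hw', Complex.sub_im, Complex.neg_im, Complex.mul_im, Complex.mul_im, om_re, om_im, om2_re, om2_im, d1, d1, d2,
      d2]
    field_simp
  have e : S ^ 2 * (‖w‖ ^ 2 + ‖w'‖ ^ 2 + 2 * (w * w').re) = (S * w.re) ^ 2 + (S * w.im) ^ 2 + (S * w'.re) ^ 2
      + (S * w'.im) ^ 2 + 2 * ((S * w.re) * (S * w'.re) - (S * w.im) * (S * w'.im)) := by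
    rw [sq_norm, sq_norm, Complex.mul_re]
    ring
  rw [e, a1, a2, a3, a4]
  unfold eWI eWJ nn2 rc rm ij ic
  simp only [iadd, imul, isub]
  push_cast
  linear_combination (1 / 4 * (((p.2 : ℝ) + q.2) ^ 2 + (p.1 + q.1) ^ 2 + (p'.2 + q'.2) ^ 2 + (p'.1 + q'.1) ^ 2)
    + 1 / 2 * (((p.2 : ℝ) + q.2) * (p'.2 + q'.2) - (p.1 + q.1) * (p'.1 + q'.1))) * r2

/-- the price of `b₃`, one pair of frequencies -/
theorem x_pair (S : ℝ) (hS : S ≠ 0) (p p' q q' : ℤ × ℤ) {w w' : ℂ}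
    (hw : w = -(((Real.sqrt 3 : ℝ) : ℂ) - Complex.I / 4) * (zi p / (S : ℂ))
      - (((Real.sqrt 3 : ℝ) : ℂ) + Complex.I / 4) * (zi q / (S : ℂ)))
    (hw' : w' = -(((Real.sqrt 3 : ℝ) : ℂ) - Complex.I / 4) * (zi p' / (S : ℂ))
      - (((Real.sqrt 3 : ℝ) : ℂ) + Complex.I / 4) * (zi q' / (S : ℂ))) :
    16 * S ^ 2 * (‖w‖ ^ 2 + ‖w'‖ ^ 2 + 2 * (w * w').re) =
      ((eXI p p' q q' : ℤ) : ℝ) + 16 * (Real.sqrt 3 * ((eXJ p p' q q' : ℤ) : ℝ)) := by
  have r2 : Real.sqrt 3 ^ 2 = 3 := Real.sq_sqrt (by norm_num)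
  have d1 : ∀ (x : ℤ × ℤ), (zi x / (S : ℂ)).re = x.1 / S := fun x => by
    rw [Complex.div_ofReal_re, zi_re]
  have d2 : ∀ (x : ℤ × ℤ), (zi x / (S : ℂ)).im = x.2 / S := fun x => by
    rw [Complex.div_ofReal_im, zi_im]
  have key : ∀ (a b : ℤ × ℤ) (v : ℂ), v = -(((Real.sqrt 3 : ℝ) : ℂ) - Complex.I / 4) * (zi a / (S : ℂ))
      - (((Real.sqrt 3 : ℝ) : ℂ) + Complex.I / 4) * (zi b / (S : ℂ)) →
      S * v.re = -(Real.sqrt 3 * a.1 + 1 / 4 * a.2) - (Real.sqrt 3 * b.1 - 1 / 4 * b.2) ∧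
      S * v.im = -(Real.sqrt 3 * a.2 - 1 / 4 * a.1) - (Real.sqrt 3 * b.2 + 1 / 4 * b.1) := by
    intro a b v hv
    constructor
    · rw [hv]
      simp only [Complex.sub_re, Complex.mul_re, Complex.neg_re, Complex.neg_im, Complex.sub_im, Complex.add_re,
        Complex.add_im, Complex.ofReal_re, Complex.ofReal_im, Complex.div_ofNat_re, Complex.div_ofNat_im,
        Complex.I_re, Complex.I_im, d1, d2]
      field_simp
      ring
    · rw [hv]
      simp only [Complex.sub_im, Complex.mul_im, Complex.neg_re, Complex.neg_im, Complex.sub_re, Complex.add_re,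
        Complex.add_im, Complex.ofReal_re, Complex.ofReal_im, Complex.div_ofNat_re, Complex.div_ofNat_im,
        Complex.I_re, Complex.I_im, d1, d2]
      field_simp
      ring
  obtain ⟨a1, a2⟩ := key p q w hw
  obtain ⟨a3, a4⟩ := key p' q' w' hw'
  have e : 16 * S ^ 2 * (‖w‖ ^ 2 + ‖w'‖ ^ 2 + 2 * (w * w').re) = 16 * ((S * w.re) ^ 2 + (S * w.im) ^ 2
      + (S * w'.re) ^ 2 + (S * w'.im) ^ 2 + 2 * ((S * w.re) * (S * w'.re) - (S * w.im) * (S * w'.im))) := by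
    rw [sq_norm, sq_norm, Complex.mul_re]
    ring
  rw [e, a1, a2, a3, a4]
  unfold eXI eXJ nn2 rc rm ij ic
  simp only [iadd, imul, isub]
  push_cast
  linear_combination 16 * ((((p.1 : ℝ) + q.1) ^ 2 + (p.2 + q.2) ^ 2 + (p'.1 + q'.1) ^ 2 + (p'.2 + q'.2) ^ 2)
    + 2 * (((p.1 : ℝ) + q.1) * (p'.1 + q'.1) - (p.2 + q.2) * (p'.2 + q'.2))) * r2

end Helper44.Far
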