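import Pool.Agent.Helper44.RC.M_LC1

/-!
# Project RC, SHARP: the price `Lam` of a record, 2

The sums of `lamA_le` from integer tables of the Fourier coefficients of the alignments (scale `10^10`).
-/

set_option autoImplicit false

open MeasureTheory Set Filter Topology

namespace Helper44.Far

open Helper49.LT hiding sg
open Helper49.RC Helper44.GQ
open Helper56.RC (fc)
open Helper49.Sharp
open Helper49.Cell (zi)

/-! ### integer functions -/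

/-- entry of a table -/
def nz : List (ℤ × ℤ) → ℕ → ℤ × ℤ
  | [], _ => (0, 0)
  | p :: _, 0 => p
  | _ :: l, Nat.succ n => nz l n

theorem nz_getD (l : List (ℤ × ℤ)) (n : ℕ) : nz l n = l.getD n (0, 0) := by
  induction l generalizing n with
  | nil => simp [nz]
  | cons p l ih =>
    cases n with
    | zero => simp [nz]
    | succ n => simp [nz, ih]

/-- sums -/
def smI (f : ℕ → ℤ) : ℕ → ℤ
  | 0 => 0
  | Nat.succ n => Int.add (smI f n) (f n)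

def smN (f : ℕ → ℕ) : ℕ → ℕ
  | 0 => 0
  | Nat.succ n => Nat.add (smN f n) (f n)

theorem smI_cast (f : ℕ → ℤ) (n : ℕ) : ((smI f n : ℤ) : ℝ) = ∑ i ∈ Finset.range n, ((f i : ℤ) : ℝ) := by
  induction n with
  | zero => simp [smI]
  | succ n ih =>
    rw [Finset.sum_range_succ, ← ih]
    simp only [smI, iadd]
    push_cast
    ring

theorem smN_cast (f : ℕ → ℕ) (n : ℕ) : ((smN f n : ℕ) : ℝ) = ∑ i ∈ Finset.range n, ((f i : ℕ) : ℝ) := by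
  induction n with
  | zero => simp [smN]
  | succ n ih =>
    rw [Finset.sum_range_succ, ← ih]
    have : smN f (n + 1) = smN f n + f n := rfl
    rw [this]
    push_cast
    ring

/-- Newton steps for the square root -/
def nwt : ℕ → ℕ → ℕ → ℕ
  | 0, _, w => w
  | Nat.succ k, m, w => nwt k m (Nat.div (Nat.add w (Nat.div m w)) 2)

/-- a number with `m ≤ w²` -/
def sqV (m w : ℕ) : ℕ := bif Nat.ble m (Nat.mul w w) then w else Nat.succ m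
def sqU (m : ℕ) : ℕ := sqV m (Nat.succ (nwt 6 m (Nat.pow 2 (Nat.succ (Nat.div (Nat.log2 m) 2)))))

theorem sqV_le (m w : ℕ) : m ≤ sqV m w * sqV m w := by
  unfold sqV
  cases h : Nat.ble m (Nat.mul w w) with
  | true =>
    have := Nat.le_of_ble_eq_true h
    simpa using this
  | false =>
    show m ≤ (m + 1) * (m + 1)
    nlinarith

theorem norm_sqU (p : ℤ × ℤ) : ‖zi p‖ ≤ sqU (nn2 p).toNat := by
  have h1 := sqV_le (nn2 p).toNat (Nat.succ (nwt 6 (nn2 p).toNat (Nat.pow 2 (Nat.succ (Nat.div (Nat.log2 (nn2 p).toNat) 2)))))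
  have h2 : ((nn2 p : ℤ) : ℝ) = ‖zi p‖ ^ 2 := nn2_eq p
  have h3 : (0 : ℤ) ≤ nn2 p := by
    have : (0 : ℝ) ≤ ((nn2 p : ℤ) : ℝ) := by rw [h2]; positivity
    exact_mod_cast this
  have h4 : (((nn2 p).toNat : ℕ) : ℝ) = ‖zi p‖ ^ 2 := by
    rw [← h2]
    have : (((nn2 p).toNat : ℕ) : ℤ) = nn2 p := Int.toNat_of_nonneg h3
    exact_mod_cast congrArg (fun x : ℤ => (x : ℝ)) this
  refine abs_le_of_sq_le_sq' ?_ (Nat.cast_nonneg _) |>.2
  rw [← h4]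
  have h5 : (nn2 p).toNat ≤ sqU (nn2 p).toNat * sqU (nn2 p).toNat := h1
  have h6 : (((nn2 p).toNat : ℕ) : ℝ) ≤ (sqU (nn2 p).toNat : ℝ) * sqU (nn2 p).toNat := by exact_mod_cast h5
  nlinarith

/-- the four entries of the pair of frequencies `± (i + 1)` -/
def qd {E : Type} (g : ℤ × ℤ → ℤ × ℤ → ℤ × ℤ → ℤ × ℤ → E) (M : ℕ) (T1 T2 : List (ℤ × ℤ)) (i : ℕ) : E :=
  g (nz T1 (Nat.succ (Nat.add M i))) (nz T1 (Nat.sub M (Nat.succ i))) (nz T2 (Nat.succ (Nat.add M i)))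
    (nz T2 (Nat.sub M (Nat.succ i)))

def oI (g : ℤ × ℤ → ℤ × ℤ → ℤ × ℤ → ℤ × ℤ → ℤ) (M : ℕ) (T1 T2 : List (ℤ × ℤ)) (i : ℕ) : ℤ :=
  bif Nat.beq (Nat.mod i 2) 0 then qd g M T1 T2 i else 0
def oN (g : ℤ × ℤ → ℤ × ℤ → ℤ × ℤ → ℤ × ℤ → ℕ) (M : ℕ) (T1 T2 : List (ℤ × ℤ)) (i : ℕ) : ℕ :=
  bif Nat.beq (Nat.mod i 2) 0 then qd g M T1 T2 i else 0
def eI (g : ℤ × ℤ → ℤ × ℤ → ℤ × ℤ → ℤ × ℤ → ℤ) (M : ℕ) (T1 T2 : List (ℤ × ℤ)) (i : ℕ) : ℤ :=
  bif Nat.beq (Nat.mod i 2) 0 then 0 else qd g M T1 T2 i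

def hN (p p' q q' : ℤ × ℤ) : ℕ := Nat.add (sqU (nn2 (dq p q)).toNat) (sqU (nn2 (dq p' q')).toNat)
def hS (p p' q q' : ℤ × ℤ) : ℤ := Int.add (nn2 (dq p q)) (nn2 (dq p' q'))
def hR (p p' q q' : ℤ × ℤ) : ℤ := Int.mul 2 (rm (dq p q) (dq p' q'))
def hT (p p' q q' : ℤ × ℤ) : ℤ := Int.add (Int.add (nn2 p) (nn2 p')) (Int.add (nn2 q) (nn2 q'))
def l1 (p : ℤ × ℤ) : ℕ := Nat.add p.1.natAbs p.2.natAbs
def hL (p p' q q' : ℤ × ℤ) : ℕ := Nat.add (Nat.add (l1 p) (l1 p')) (Nat.add (l1 q) (l1 q'))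

theorem beq_mod (i : ℕ) : Nat.beq (Nat.mod i 2) 0 = decide (i % 2 = 0) := by
  have : Nat.mod i 2 = i % 2 := rfl
  rw [this]
  by_cases h : i % 2 = 0
  · rw [h]; rfl
  · rw [decide_eq_false h]
    cases hb : Nat.beq (i % 2) 0 with
    | false => rfl
    | true => exact absurd (Nat.eq_of_beq_eq_true hb) h

theorem oI_eq (g : ℤ × ℤ → ℤ × ℤ → ℤ × ℤ → ℤ × ℤ → ℤ) (M : ℕ) (T1 T2 : List (ℤ × ℤ)) (i : ℕ) :
    oI g M T1 T2 i = if i % 2 = 0 then qd g M T1 T2 i else 0 := by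
  unfold oI; rw [beq_mod]; by_cases h : i % 2 = 0 <;> simp [h]
theorem oN_eq (g : ℤ × ℤ → ℤ × ℤ → ℤ × ℤ → ℤ × ℤ → ℕ) (M : ℕ) (T1 T2 : List (ℤ × ℤ)) (i : ℕ) :
    oN g M T1 T2 i = if i % 2 = 0 then qd g M T1 T2 i else 0 := by
  unfold oN; rw [beq_mod]; by_cases h : i % 2 = 0 <;> simp [h]
theorem eI_eq (g : ℤ × ℤ → ℤ × ℤ → ℤ × ℤ → ℤ × ℤ → ℤ) (M : ℕ) (T1 T2 : List (ℤ × ℤ)) (i : ℕ) :
    eI g M T1 T2 i = if i % 2 = 0 then 0 else qd g M T1 T2 i := by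
  unfold eI; rw [beq_mod]; by_cases h : i % 2 = 0 <;> simp [h]

/-! ### the approximations -/

/-- the approximation of the coefficient `n` -/
noncomputable def aT (M : ℕ) (T : List (ℤ × ℤ)) (n : ℤ) : ℂ := zi (nz T (n + M).toNat) / ((10000000000 : ℝ) : ℂ)

theorem aT_pos (M : ℕ) (T : List (ℤ × ℤ)) (i : ℕ) :
    aT M T ((i : ℤ) + 1) = zi (nz T (Nat.succ (Nat.add M i))) / ((10000000000 : ℝ) : ℂ) := by
  unfold aT
  have : ((i : ℤ) + 1 + M).toNat = Nat.succ (Nat.add M i) := by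
    show _ = M + i + 1
    omega
  rw [this]

theorem aT_neg (M : ℕ) (T : List (ℤ × ℤ)) (i : ℕ) :
    aT M T (-((i : ℤ) + 1)) = zi (nz T (Nat.sub M (Nat.succ i))) / ((10000000000 : ℝ) : ℂ) := by
  unfold aT
  have : (-((i : ℤ) + 1) + M).toNat = Nat.sub M (Nat.succ i) := by
    show _ = M - (i + 1)
    omega
  rw [this]

theorem aT_zero (M : ℕ) (T : List (ℤ × ℤ)) : aT M T 0 = zi (nz T M) / ((10000000000 : ℝ) : ℂ) := by
  unfold aT
  have : ((0 : ℤ) + M).toNat = M := by omega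
  rw [this]

theorem zi_dq (p q : ℤ × ℤ) : zi (dq p q) = -zi p + zi q := by
  unfold zi dq
  simp only [isub]
  push_cast
  ring

theorem cr_zero (a1 a2 : ℤ → ℂ) : cr a1 a2 0 0 = cq a1 a2 := by
  funext n
  unfold cr
  split_ifs <;> simp

theorem cq_pos (M : ℕ) (T1 T2 : List (ℤ × ℤ)) (i : ℕ) : cq (aT M T1) (aT M T2) ((i : ℤ) + 1) =
    zi (dq (nz T1 (Nat.succ (Nat.add M i))) (nz T2 (Nat.succ (Nat.add M i)))) / ((10000000000 : ℝ) : ℂ) := by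
  unfold cq
  rw [if_neg (by omega), aT_pos, aT_pos, zi_dq]
  ring

theorem cq_neg (M : ℕ) (T1 T2 : List (ℤ × ℤ)) (i : ℕ) : cq (aT M T1) (aT M T2) (-((i : ℤ) + 1)) =
    zi (dq (nz T1 (Nat.sub M (Nat.succ i))) (nz T2 (Nat.sub M (Nat.succ i)))) / ((10000000000 : ℝ) : ℂ) := by
  unfold cq
  rw [if_neg (by omega), aT_neg, aT_neg, zi_dq]
  ring

theorem nS : ‖((10000000000 : ℝ) : ℂ)‖ = 10000000000 := by
  rw [Complex.norm_real]; norm_num

theorem norm_div_S (p : ℤ × ℤ) : ‖zi p / ((10000000000 : ℝ) : ℂ)‖ = ‖zi p‖ / 10000000000 := by rw [norm_div, nS]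

theorem sq_div_S (p : ℤ × ℤ) : ‖zi p / ((10000000000 : ℝ) : ℂ)‖ ^ 2 = ((nn2 p : ℤ) : ℝ) / 10000000000 ^ 2 := by
  rw [norm_div_S, div_pow, nn2_eq]

theorem re_mul_S (p q : ℤ × ℤ) : ((zi p / ((10000000000 : ℝ) : ℂ)) * (zi q / ((10000000000 : ℝ) : ℂ))).re =
    ((rm p q : ℤ) : ℝ) / 10000000000 ^ 2 := by
  rw [div_mul_div_comm, ← Complex.ofReal_mul, Complex.div_ofReal_re, Complex.mul_re, zi_re, zi_re, zi_im, zi_im]
  unfold rm
  simp only [isub, imul]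
  push_cast
  ring

theorem nO_le (M : ℕ) (T1 T2 : List (ℤ × ℤ)) :
    nO M (cr (aT M T1) (aT M T2) 0 0) ≤ ((smN (oN hN M T1 T2) M : ℕ) : ℝ) / 10000000000 := by
  rw [cr_zero]
  unfold nO
  rw [sum_odd, smN_cast, Finset.sum_div]
  refine Finset.sum_le_sum fun i _ => ?_
  rw [oN_eq]
  split_ifs with h
  · rw [cq_pos, cq_neg, norm_div_S, norm_div_S]
    have h1 := norm_sqU (dq (nz T1 (Nat.succ (Nat.add M i))) (nz T2 (Nat.succ (Nat.add M i))))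
    have h2 := norm_sqU (dq (nz T1 (Nat.sub M (Nat.succ i))) (nz T2 (Nat.sub M (Nat.succ i))))
    have e : ((qd hN M T1 T2 i : ℕ) : ℝ) = (sqU (nn2 (dq (nz T1 (Nat.succ (Nat.add M i))) (nz T2 (Nat.succ (Nat.add M i))))).toNat : ℝ)
      + (sqU (nn2 (dq (nz T1 (Nat.sub M (Nat.succ i))) (nz T2 (Nat.sub M (Nat.succ i))))).toNat : ℝ) := by
      unfold qd hN
      have a : ∀ x y : ℕ, Nat.add x y = x + y := fun _ _ => rfl
      rw [a]
      push_cast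
      rfl
    rw [e]
    linarith
  · simp

theorem sO_eq (M : ℕ) (T1 T2 : List (ℤ × ℤ)) :
    sO M (cr (aT M T1) (aT M T2) 0 0) = ((smI (oI hS M T1 T2) M : ℤ) : ℝ) / 10000000000 ^ 2 := by
  rw [cr_zero]
  unfold sO
  rw [sum_odd, smI_cast, Finset.sum_div]
  refine Finset.sum_congr rfl fun i _ => ?_
  rw [oI_eq]
  split_ifs with h
  · rw [cq_pos, cq_neg, sq_div_S, sq_div_S]
    unfold qd hS
    rw [iadd]
    push_cast
    ring
  · simp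

theorem rO_eq (M : ℕ) (T1 T2 : List (ℤ × ℤ)) :
    rO M (cr (aT M T1) (aT M T2) 0 0) = ((smI (oI hR M T1 T2) M : ℤ) : ℝ) / 10000000000 ^ 2 := by
  rw [cr_zero]
  unfold rO
  rw [sum_odd, smI_cast, Finset.sum_div, Complex.re_sum]
  refine Finset.sum_congr rfl fun i _ => ?_
  rw [oI_eq]
  split_ifs with h
  · rw [neg_neg, Complex.add_re, cq_pos, cq_neg, re_mul_S, re_mul_S]
    unfold qd hR
    rw [imul]
    have : ∀ x y : ℤ × ℤ, rm x y = rm y x := fun x y => by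
      unfold rm; simp only [isub, imul]; ring
    rw [this (dq (nz T1 (Nat.sub M (Nat.succ i))) (nz T2 (Nat.sub M (Nat.succ i))))]
    push_cast
    ring
  · simp

theorem cw_pos (M : ℕ) (T1 T2 : List (ℤ × ℤ)) (i : ℕ) : cw (aT M T1) (aT M T2) ((i : ℤ) + 1) =
    -(om * (zi (nz T1 (Nat.succ (Nat.add M i))) / ((10000000000 : ℝ) : ℂ)))
      - om ^ 2 * (zi (nz T2 (Nat.succ (Nat.add M i))) / ((10000000000 : ℝ) : ℂ)) := by
  unfold cw
  rw [if_neg (by omega), aT_pos, aT_pos]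
  ring

theorem cw_neg (M : ℕ) (T1 T2 : List (ℤ × ℤ)) (i : ℕ) : cw (aT M T1) (aT M T2) (-((i : ℤ) + 1)) =
    -(om * (zi (nz T1 (Nat.sub M (Nat.succ i))) / ((10000000000 : ℝ) : ℂ)))
      - om ^ 2 * (zi (nz T2 (Nat.sub M (Nat.succ i))) / ((10000000000 : ℝ) : ℂ)) := by
  unfold cw
  rw [if_neg (by omega), aT_neg, aT_neg]
  ring

theorem sr_zero (w : ℂ) : ‖w‖ ^ 2 + (w * w).re = 2 * w.re ^ 2 := by
  rw [sq_norm, Complex.mul_re]; ring

/-- the sum of the prices of `b₂` -/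
theorem w_sum (M : ℕ) (T1 T2 : List (ℤ × ℤ)) :
    sE M (cw (aT M T1) (aT M T2)) + rE M (cw (aT M T1) (aT M T2)) = 2 * (cw (aT M T1) (aT M T2) 0).re ^ 2
      + (((smI (eI eWI M T1 T2) M : ℤ) : ℝ) + Real.sqrt 3 * ((smI (eI eWJ M T1 T2) M : ℤ) : ℝ)) / 10000000000 ^ 2 := by
  unfold sE rE
  rw [sum_even, sum_even, Complex.add_re, Complex.re_sum, smI_cast, smI_cast, neg_zero, Finset.mul_sum,
    ← Finset.sum_add_distrib, Finset.sum_div]
  have e0 := sr_zero (cw (aT M T1) (aT M T2) 0)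
  have key : (∑ i ∈ Finset.range M, if i % 2 = 0 then (0 : ℝ) else ‖cw (aT M T1) (aT M T2) ((i : ℤ) + 1)‖ ^ 2
      + ‖cw (aT M T1) (aT M T2) (-((i : ℤ) + 1))‖ ^ 2)
      + ∑ i ∈ Finset.range M, (if i % 2 = 0 then (0 : ℂ) else cw (aT M T1) (aT M T2) ((i : ℤ) + 1)
        * cw (aT M T1) (aT M T2) (-((i : ℤ) + 1)) + cw (aT M T1) (aT M T2) (-((i : ℤ) + 1))
        * cw (aT M T1) (aT M T2) (- -((i : ℤ) + 1))).re
      = ∑ i ∈ Finset.range M, (((eI eWI M T1 T2 i : ℤ) : ℝ) + Real.sqrt 3 * ((eI eWJ M T1 T2 i : ℤ) : ℝ))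
        / 10000000000 ^ 2 := by
    rw [← Finset.sum_add_distrib]
    refine Finset.sum_congr rfl fun i _ => ?_
    rw [eI_eq, eI_eq]
    by_cases h : i % 2 = 0
    · rw [if_pos h, if_pos h, if_pos h, if_pos h]
      simp
    · rw [if_neg h, if_neg h, if_neg h, if_neg h]
      have k := w_pair 10000000000 (by norm_num) _ _ _ _ (cw_pos M T1 T2 i) (cw_neg M T1 T2 i)
      rw [neg_neg, Complex.add_re, mul_comm (cw (aT M T1) (aT M T2) (-((i : ℤ) + 1))), eq_div_iff (by norm_num)]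
      unfold qd
      linarith
  linarith

theorem cx_pos (M : ℕ) (T1 T2 : List (ℤ × ℤ)) (i : ℕ) : cx (aT M T1) (aT M T2) ((i : ℤ) + 1) =
    -(((Real.sqrt 3 : ℝ) : ℂ) - Complex.I / 4) * (zi (nz T1 (Nat.succ (Nat.add M i))) / ((10000000000 : ℝ) : ℂ))
      - (((Real.sqrt 3 : ℝ) : ℂ) + Complex.I / 4) * (zi (nz T2 (Nat.succ (Nat.add M i))) / ((10000000000 : ℝ) : ℂ)) := by
  unfold cx
  rw [aT_pos, aT_pos]

theorem cx_neg (M : ℕ) (T1 T2 : List (ℤ × ℤ)) (i : ℕ) : cx (aT M T1) (aT M T2) (-((i : ℤ) + 1)) =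
    -(((Real.sqrt 3 : ℝ) : ℂ) - Complex.I / 4) * (zi (nz T1 (Nat.sub M (Nat.succ i))) / ((10000000000 : ℝ) : ℂ))
      - (((Real.sqrt 3 : ℝ) : ℂ) + Complex.I / 4) * (zi (nz T2 (Nat.sub M (Nat.succ i))) / ((10000000000 : ℝ) : ℂ)) := by
  unfold cx
  rw [aT_neg, aT_neg]

/-- the sum of the prices of `b₃` -/
theorem x_sum (M : ℕ) (T1 T2 : List (ℤ × ℤ)) :
    sE M (cx (aT M T1) (aT M T2)) + rE M (cx (aT M T1) (aT M T2)) = 2 * (cx (aT M T1) (aT M T2) 0).re ^ 2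
      + (((smI (eI eXI M T1 T2) M : ℤ) : ℝ) + 16 * (Real.sqrt 3 * ((smI (eI eXJ M T1 T2) M : ℤ) : ℝ)))
        / (16 * 10000000000 ^ 2) := by
  unfold sE rE
  rw [sum_even, sum_even, Complex.add_re, Complex.re_sum, smI_cast, smI_cast, neg_zero, Finset.mul_sum,
    Finset.mul_sum, ← Finset.sum_add_distrib, Finset.sum_div]
  have e0 := sr_zero (cx (aT M T1) (aT M T2) 0)
  have key : (∑ i ∈ Finset.range M, if i % 2 = 0 then (0 : ℝ) else ‖cx (aT M T1) (aT M T2) ((i : ℤ) + 1)‖ ^ 2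
      + ‖cx (aT M T1) (aT M T2) (-((i : ℤ) + 1))‖ ^ 2)
      + ∑ i ∈ Finset.range M, (if i % 2 = 0 then (0 : ℂ) else cx (aT M T1) (aT M T2) ((i : ℤ) + 1)
        * cx (aT M T1) (aT M T2) (-((i : ℤ) + 1)) + cx (aT M T1) (aT M T2) (-((i : ℤ) + 1))
        * cx (aT M T1) (aT M T2) (- -((i : ℤ) + 1))).re
      = ∑ i ∈ Finset.range M, (((eI eXI M T1 T2 i : ℤ) : ℝ) + 16 * (Real.sqrt 3 * ((eI eXJ M T1 T2 i : ℤ) : ℝ)))
        / (16 * 10000000000 ^ 2) := by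
    rw [← Finset.sum_add_distrib]
    refine Finset.sum_congr rfl fun i _ => ?_
    rw [eI_eq, eI_eq]
    by_cases h : i % 2 = 0
    · rw [if_pos h, if_pos h, if_pos h, if_pos h]
      simp
    · rw [if_neg h, if_neg h, if_neg h, if_neg h]
      have k := x_pair 10000000000 (by norm_num) _ _ _ _ (cx_pos M T1 T2 i) (cx_neg M T1 T2 i)
      rw [neg_neg, Complex.add_re, mul_comm (cx (aT M T1) (aT M T2) (-((i : ℤ) + 1))), eq_div_iff (by norm_num)]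
      unfold qd
      linarith
  linarith

end Helper44.Far
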