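import Pool.Agent.Helper44.RC.M_LC2

/-!
# Project RC, SHARP: the price `Lam` of a record, 3

`okL`: the integer check on the tables of the Fourier coefficients; `okL_gap`: the bound of `Sp + mean LamA`.
-/

set_option autoImplicit false

open MeasureTheory Set Filter Topology

namespace Helper44.Far

open Helper49.LT hiding sg
open Helper49.RC Helper44.GQ
open Helper56.RC (fc)
open Helper49.Sharp
open Helper49.Cell (zi)

/-- upper bound of `√3 T`, units `10^(-16)` -/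
def s3 (T : ℤ) : ℤ := bif decide (0 ≤ T) then Int.mul 17320508075688773 T else Int.mul 17320508075688772 T

theorem s3_le (T : ℤ) : Real.sqrt 3 * T * 10000000000000000 ≤ ((s3 T : ℤ) : ℝ) := by
  have hu : Real.sqrt 3 ≤ 17320508075688773 / 10000000000000000 := by
    rw [Real.sqrt_le_left (by norm_num)]
    norm_num
  have hl : 17320508075688772 / 10000000000000000 ≤ Real.sqrt 3 := Real.le_sqrt_of_sq_le (by norm_num)
  unfold s3
  by_cases h : 0 ≤ T
  · have h' : (0 : ℝ) ≤ T := by exact_mod_cast h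
    rw [decide_eq_true h, cond_true, imul]
    push_cast
    nlinarith
  · have h' : (T : ℝ) ≤ 0 := by exact_mod_cast (not_le.1 h).le
    rw [decide_eq_false h, cond_false, imul]
    push_cast
    nlinarith

/-- the certificate -/
structure LC where
  K : ℕ
  sN : ℕ
  ki : ℕ
  xi : ℕ
  t : ℕ
  E : ℕ
  nO : ℕ
  sO : ℤ
  rO : ℤ
  WI : ℤ
  WJ : ℤ
  XI : ℤ
  XJ : ℤ
  N2 : ℤ
  L1 : ℕ
  wB : ℕ
  xB : ℕ
  z3 : ℕ
  z4 : ℕ
  z5 : ℕ
  z6 : ℕ
  z8 : ℕ

/-- the bound, units `10^(-10)` -/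
def LC.gb (X : LC) (e : ℕ) : ℕ := 2000000000 + X.ki + X.z3 + X.z4 + X.z5 + X.z6 + 2 * e + X.z8

/-- the sums -/
def okS (M : ℕ) (T1 T2 : List (ℤ × ℤ)) (X : LC) : Bool :=
  bif Nat.beq (smN (oN hN M T1 T2) M) X.nO then
    bif decide (smI (oI hS M T1 T2) M = X.sO) then
      bif decide (smI (oI hR M T1 T2) M = X.rO) then
        bif decide (smI (eI eWI M T1 T2) M = X.WI) then
          bif decide (smI (eI eWJ M T1 T2) M = X.WJ) then
            bif decide (smI (eI eXI M T1 T2) M = X.XI) then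
              bif decide (smI (eI eXJ M T1 T2) M = X.XJ) then
                bif decide (Int.add (Int.add (nn2 (nz T1 M)) (nn2 (nz T2 M))) (smI (qd hT M T1 T2) M) = X.N2) then
                  Nat.beq (Nat.add (Nat.add (l1 (nz T1 M)) (l1 (nz T2 M))) (smN (qd hL M T1 T2) M)) X.L1
                else false
              else false
            else false
          else false
        else false
      else false
    else false
  else false

/-- the arithmetic on the sums; `p`, `q` are the entries of the frequency `0` -/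
def okA (e : ℕ) (p q : ℤ × ℤ) (X : LC) : Bool :=
  decide (0 < X.K ∧ 0 < X.xi ∧ 0 < X.t ∧ X.sN ≤ 2420000 ∧
    (X.K * X.nO) * (X.K * X.nO) ≤ X.sN * 100000000000000000000 ∧ 41170000000000 ≤ 10 * X.K * X.ki ∧
    200000000000000000000 + 2 * (e : ℤ) * X.L1 ≤ (X.t : ℤ) * X.t + X.N2 ∧
    (40000000000 - p.1 + q.1) * 10000000000000000 + s3 (-(p.2 + q.2)) ≤ (X.z3 : ℤ) * 20000000000000000 ∧
    (-20000000000 - p.1 + q.1) * 10000000000000000 + s3 (p.2 + q.2) ≤ (X.wB : ℤ) * 20000000000000000 ∧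
    (20000000000 + p.1 - q.1) * 10000000000000000 + s3 (-(p.2 + q.2)) ≤ (X.wB : ℤ) * 20000000000000000 ∧
    (-p.2 + q.2) * 10000000000000000 + 4 * s3 (-(p.1 + q.1)) ≤ (X.xB : ℤ) * 40000000000000000 ∧
    (p.2 - q.2) * 10000000000000000 + 4 * s3 (p.1 + q.1) ≤ (X.xB : ℤ) * 40000000000000000 ∧
    (X.K : ℤ) * ((400000000 + 19 * (X.sN : ℤ)) * X.sO - 203750000 * X.rO) ≤ (X.z4 : ℤ) * 12500000000000000000000 ∧
    (2 * ((X.wB : ℤ) * X.wB) + X.WI) * 10000000000000000 + s3 X.WJ ≤ (X.z5 : ℤ) * 600000000000000000000000000 ∧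
    (32 * ((X.xB : ℤ) * X.xB) + X.XI) * 10000000000000000 + 16 * s3 X.XJ ≤
      32 * ((X.xi : ℤ) * X.xi) * 10000000000000000 ∧
    77 * X.xi ≤ 200 * X.z6 ∧ 97 * X.t ≤ 56 * X.z8)

variable {b z : ℝ → ℂ} {P : Par}

theorem sum2_sq (M : ℕ) (T1 T2 : List (ℤ × ℤ)) :
    (∑ n ∈ HM M, ‖aT M T1 n‖ ^ 2) + (∑ n ∈ HM M, ‖aT M T2 n‖ ^ 2) =
      ((Int.add (Int.add (nn2 (nz T1 M)) (nn2 (nz T2 M))) (smI (qd hT M T1 T2) M) : ℤ) : ℝ) / 10000000000 ^ 2 := by
  rw [sum_HM, sum_HM, aT_zero, aT_zero, sq_div_S, sq_div_S, iadd, iadd]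
  push_cast
  rw [smI_cast, add_div, add_div, Finset.sum_div]
  have e : (∑ i ∈ Finset.range M, (‖aT M T1 ((i : ℤ) + 1)‖ ^ 2 + ‖aT M T1 (-((i : ℤ) + 1))‖ ^ 2))
      + ∑ i ∈ Finset.range M, (‖aT M T2 ((i : ℤ) + 1)‖ ^ 2 + ‖aT M T2 (-((i : ℤ) + 1))‖ ^ 2) =
      ∑ i ∈ Finset.range M, ((qd hT M T1 T2 i : ℤ) : ℝ) / 10000000000 ^ 2 := by
    rw [← Finset.sum_add_distrib]
    refine Finset.sum_congr rfl fun i _ => ?_
    rw [aT_pos, aT_neg, aT_pos, aT_neg, sq_div_S, sq_div_S, sq_div_S, sq_div_S]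
    unfold qd hT
    rw [iadd, iadd, iadd]
    push_cast
    ring
  linarith

theorem norm_l1 (p : ℤ × ℤ) : ‖zi p‖ ≤ l1 p := by
  have h := Complex.norm_le_abs_re_add_abs_im (zi p)
  rw [zi_re, zi_im] at h
  have e : ((l1 p : ℕ) : ℝ) = |(p.1 : ℝ)| + |(p.2 : ℝ)| := by
    unfold l1
    have a : ∀ x y : ℕ, Nat.add x y = x + y := fun _ _ => rfl
    rw [a]
    push_cast
    rw [Nat.cast_natAbs, Nat.cast_natAbs]
    push_cast
    rfl
  rw [e]
  exact h

theorem sum2_l1 (M : ℕ) (T1 T2 : List (ℤ × ℤ)) :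
    (∑ n ∈ HM M, ‖aT M T1 n‖) + (∑ n ∈ HM M, ‖aT M T2 n‖) ≤
      ((Nat.add (Nat.add (l1 (nz T1 M)) (l1 (nz T2 M))) (smN (qd hL M T1 T2) M) : ℕ) : ℝ) / 10000000000 := by
  have a : ∀ x y : ℕ, Nat.add x y = x + y := fun _ _ => rfl
  rw [sum_HM, sum_HM, aT_zero, aT_zero, norm_div_S, norm_div_S, a, a]
  push_cast
  rw [smN_cast, add_div, add_div, Finset.sum_div]
  have e : (∑ i ∈ Finset.range M, (‖aT M T1 ((i : ℤ) + 1)‖ + ‖aT M T1 (-((i : ℤ) + 1))‖))
      + ∑ i ∈ Finset.range M, (‖aT M T2 ((i : ℤ) + 1)‖ + ‖aT M T2 (-((i : ℤ) + 1))‖) ≤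
      ∑ i ∈ Finset.range M, ((qd hL M T1 T2 i : ℕ) : ℝ) / 10000000000 := by
    rw [← Finset.sum_add_distrib]
    refine Finset.sum_le_sum fun i _ => ?_
    rw [aT_pos, aT_neg, aT_pos, aT_neg, norm_div_S, norm_div_S, norm_div_S, norm_div_S]
    have h1 := norm_l1 (nz T1 (Nat.succ (Nat.add M i)))
    have h2 := norm_l1 (nz T1 (Nat.sub M (Nat.succ i)))
    have h3 := norm_l1 (nz T2 (Nat.succ (Nat.add M i)))
    have h4 := norm_l1 (nz T2 (Nat.sub M (Nat.succ i)))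
    have e3 : ((qd hL M T1 T2 i : ℕ) : ℝ) = (l1 (nz T1 (Nat.succ (Nat.add M i))) : ℝ)
        + (l1 (nz T1 (Nat.sub M (Nat.succ i))) : ℝ) + ((l1 (nz T2 (Nat.succ (Nat.add M i))) : ℝ)
        + (l1 (nz T2 (Nat.sub M (Nat.succ i))) : ℝ)) := by
      have e4 : qd hL M T1 T2 i = (l1 (nz T1 (Nat.succ (Nat.add M i))) + l1 (nz T1 (Nat.sub M (Nat.succ i))))
        + (l1 (nz T2 (Nat.succ (Nat.add M i))) + l1 (nz T2 (Nat.sub M (Nat.succ i)))) := rfl
      rw [e4]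
      push_cast
      rfl
    rw [e3]
    linarith
  have h1 := norm_l1 (nz T1 M)
  have h2 := norm_l1 (nz T2 M)
  have h3 : ‖zi (nz T1 M)‖ / 10000000000 ≤ (l1 (nz T1 M) : ℝ) / 10000000000 := div_le_div_of_nonneg_right h1 (by norm_num)
  have h4 : ‖zi (nz T2 M)‖ / 10000000000 ≤ (l1 (nz T2 M) : ℝ) / 10000000000 := div_le_div_of_nonneg_right h2 (by norm_num)
  linarith

theorem c0_val (M : ℕ) (T1 T2 : List (ℤ × ℤ)) :
    2 - ((starRingEnd ℂ) om * aT M T1 0).re - ((starRingEnd ℂ) (om ^ 2) * aT M T2 0).re =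
      (((40000000000 - (nz T1 M).1 + (nz T2 M).1 : ℤ) : ℝ) + Real.sqrt 3 * ((-((nz T1 M).2 + (nz T2 M).2) : ℤ) : ℝ))
        / 20000000000 := by
  rw [aT_zero, aT_zero, Complex.mul_re, Complex.mul_re, Complex.conj_re, Complex.conj_im, Complex.conj_re,
    Complex.conj_im, om_re, om_im, om2_re, om2_im, Complex.div_ofReal_re, Complex.div_ofReal_im,
    Complex.div_ofReal_re, Complex.div_ofReal_im, zi_re, zi_im, zi_re, zi_im]
  push_cast
  ring

theorem w0_val (M : ℕ) (T1 T2 : List (ℤ × ℤ)) : (cw (aT M T1) (aT M T2) 0).re =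
      (((-20000000000 - (nz T1 M).1 + (nz T2 M).1 : ℤ) : ℝ) + Real.sqrt 3 * (((nz T1 M).2 + (nz T2 M).2 : ℤ) : ℝ))
        / 20000000000 := by
  unfold cw
  rw [aT_zero, aT_zero, if_pos rfl, Complex.sub_re, Complex.sub_re, Complex.mul_re, Complex.mul_re,
    om_re, om_im, om2_re, om2_im, Complex.div_ofReal_re, Complex.div_ofReal_im,
    Complex.div_ofReal_re, Complex.div_ofReal_im, zi_re, zi_im, zi_re, zi_im, Complex.neg_re, Complex.one_re]
  push_cast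
  ring

theorem x0_val (M : ℕ) (T1 T2 : List (ℤ × ℤ)) : (cx (aT M T1) (aT M T2) 0).re =
      (((-(nz T1 M).2 + (nz T2 M).2 : ℤ) : ℝ) + 4 * (Real.sqrt 3 * ((-((nz T1 M).1 + (nz T2 M).1) : ℤ) : ℝ)))
        / 40000000000 := by
  unfold cx
  rw [aT_zero, aT_zero]
  simp only [Complex.sub_re, Complex.mul_re, Complex.neg_re, Complex.neg_im, Complex.sub_im, Complex.add_re,
    Complex.add_im, Complex.ofReal_re, Complex.ofReal_im, Complex.div_ofNat_re, Complex.div_ofNat_im,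
    Complex.I_re, Complex.I_im, Complex.div_ofReal_re, Complex.div_ofReal_im, zi_re, zi_im]
  push_cast
  ring

theorem sq_le_of_abs {v w : ℝ} (h1 : v ≤ w) (h2 : -v ≤ w) : v ^ 2 ≤ w ^ 2 := by
  have : |v| ≤ w := abs_le.2 ⟨by linarith, h1⟩
  rw [← sq_abs]
  exact pow_le_pow_left₀ (abs_nonneg _) this 2

/-- **soundness of the check** -/
theorem okL_gap (h : AdmQ 2 b z) (hn : Near b z) (hr : P.Reg) {M : ℕ} (hM : 5 ≤ M) {T1 T2 : List (ℤ × ℤ)} {e : ℕ}
    (e1 : ∀ n ∈ HM M, ‖fc P.v1 n - aT M T1 n‖ ≤ e / 10000000000)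
    (e2 : ∀ n ∈ HM M, ‖fc P.v2 n - aT M T2 n‖ ≤ e / 10000000000) {X : LC} (hS : okS M T1 T2 X = true)
    (hA : okA e (nz T1 M) (nz T2 M) X = true) : Sp b z + mean (LamA P b z) ≤ (X.gb e : ℝ) / 10000000000 := by
  have bt : ∀ x y : Bool, (bif x then y else false) = true ↔ x = true ∧ y = true := by
    intro x y; cases x <;> simp
  unfold okS at hS
  simp only [bt] at hS
  obtain ⟨s1, s2, s3', s4, s5, s6, s7, s8, s9⟩ := hS
  have s1 := Nat.eq_of_beq_eq_true s1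
  have s2 := of_decide_eq_true s2
  have s3' := of_decide_eq_true s3'
  have s4 := of_decide_eq_true s4
  have s5 := of_decide_eq_true s5
  have s6 := of_decide_eq_true s6
  have s7 := of_decide_eq_true s7
  have s8 := of_decide_eq_true s8
  have s9 := Nat.eq_of_beq_eq_true s9
  unfold okA at hA
  obtain ⟨c1, c2, c3, c4, c5, c6, c7, c8, c9, c10, c11, c12, c13, c14, c15, c16, c17⟩ := of_decide_eq_true hA
  set p := nz T1 M with hp
  set q := nz T2 M with hq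
  have hK : (0 : ℝ) < X.K := by exact_mod_cast c1
  have hx : (0 : ℝ) < X.xi := by exact_mod_cast c2
  have ht : (0 : ℝ) < X.t := by exact_mod_cast c3
  have r4 : (X.sN : ℝ) ≤ 2420000 := by exact_mod_cast c4
  have r5 : ((X.K : ℝ) * X.nO) * (X.K * X.nO) ≤ X.sN * 100000000000000000000 := by exact_mod_cast c5
  have r6 : (41170000000000 : ℝ) ≤ 10 * X.K * X.ki := by exact_mod_cast c6
  have r7 : (200000000000000000000 : ℝ) + 2 * (e : ℝ) * X.L1 ≤ (X.t : ℝ) * X.t + X.N2 := by exact_mod_cast c7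
  have r8 : (((40000000000 - p.1 + q.1 : ℤ) : ℝ)) * 10000000000000000 + ((s3 (-(p.2 + q.2)) : ℤ) : ℝ) ≤
      (X.z3 : ℝ) * 20000000000000000 := by exact_mod_cast c8
  have r9 : (((-20000000000 - p.1 + q.1 : ℤ) : ℝ)) * 10000000000000000 + ((s3 (p.2 + q.2) : ℤ) : ℝ) ≤
      (X.wB : ℝ) * 20000000000000000 := by exact_mod_cast c9
  have r10 : (((20000000000 + p.1 - q.1 : ℤ) : ℝ)) * 10000000000000000 + ((s3 (-(p.2 + q.2)) : ℤ) : ℝ) ≤
      (X.wB : ℝ) * 20000000000000000 := by exact_mod_cast c10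
  have r11 : (((-p.2 + q.2 : ℤ) : ℝ)) * 10000000000000000 + 4 * ((s3 (-(p.1 + q.1)) : ℤ) : ℝ) ≤
      (X.xB : ℝ) * 40000000000000000 := by exact_mod_cast c11
  have r12 : (((p.2 - q.2 : ℤ) : ℝ)) * 10000000000000000 + 4 * ((s3 (p.1 + q.1) : ℤ) : ℝ) ≤
      (X.xB : ℝ) * 40000000000000000 := by exact_mod_cast c12
  have r13 : (X.K : ℝ) * ((400000000 + 19 * (X.sN : ℝ)) * X.sO - 203750000 * X.rO) ≤
      (X.z4 : ℝ) * 12500000000000000000000 := by exact_mod_cast c13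
  have r14 : (2 * ((X.wB : ℝ) * X.wB) + X.WI) * 10000000000000000 + ((s3 X.WJ : ℤ) : ℝ) ≤
      (X.z5 : ℝ) * 600000000000000000000000000 := by exact_mod_cast c14
  have r15 : (32 * ((X.xB : ℝ) * X.xB) + X.XI) * 10000000000000000 + 16 * ((s3 X.XJ : ℤ) : ℝ) ≤
      32 * ((X.xi : ℝ) * X.xi) * 10000000000000000 := by exact_mod_cast c15
  have r16 : (77 : ℝ) * X.xi ≤ 200 * X.z6 := by exact_mod_cast c16
  have r17 : (97 : ℝ) * X.t ≤ 56 * X.z8 := by exact_mod_cast c17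
  -- the data
  have hk : (0 : ℝ) < X.K / 1000 := by positivity
  have q1 := nO_le M T1 T2
  rw [s1] at q1
  have n0 : 0 ≤ nO M (cr (aT M T1) (aT M T2) 0 0) := by
    unfold nO
    exact Finset.sum_nonneg fun _ _ => norm_nonneg _
  have hl : ((X.K / 1000 : ℝ) * nO M (cr (aT M T1) (aT M T2) 0 0)) ^ 2 ≤ (X.sN : ℝ) / 1000000 := by
    have h1 : ((X.K / 1000 : ℝ) * nO M (cr (aT M T1) (aT M T2) 0 0)) ^ 2 ≤
        ((X.K / 1000 : ℝ) * ((X.nO : ℝ) / 10000000000)) ^ 2 :=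
      pow_le_pow_left₀ (by positivity) (mul_le_mul_of_nonneg_left q1 hk.le) 2
    refine h1.trans ?_
    have h2 : ((X.K / 1000 : ℝ) * ((X.nO : ℝ) / 10000000000)) ^ 2 =
        ((X.K : ℝ) * X.nO) * (X.K * X.nO) / 100000000000000000000000000 := by ring
    rw [h2, div_le_div_iff₀ (by norm_num) (by norm_num)]
    linarith
  have hs : (X.sN : ℝ) / 1000000 ≤ 121 / 50 := by
    rw [div_le_div_iff₀ (by norm_num) (by norm_num)]
    linarith
  have hτ : (0 : ℝ) < X.t / 10000000000 := by positivity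
  have hτ2 : dT M (e / 10000000000) (aT M T1) + dT M (e / 10000000000) (aT M T2) ≤ ((X.t : ℝ) / 10000000000) ^ 2 := by
    have h1 := sum2_sq M T1 T2
    have h2 := sum2_l1 M T1 T2
    rw [s8] at h1
    rw [s9] at h2
    unfold dT
    have h3 : 2 * ((e : ℝ) / 10000000000) * ((∑ n ∈ HM M, ‖aT M T1 n‖) + (∑ n ∈ HM M, ‖aT M T2 n‖)) ≤
        2 * ((e : ℝ) / 10000000000) * ((X.L1 : ℝ) / 10000000000) := mul_le_mul_of_nonneg_left h2 (by positivity)
    have h4 : (2 : ℝ) - (X.N2 : ℝ) / 10000000000 ^ 2 + 2 * ((e : ℝ) / 10000000000) * ((X.L1 : ℝ) / 10000000000) ≤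
        ((X.t : ℝ) / 10000000000) ^ 2 := by
      have e4 : (2 : ℝ) - (X.N2 : ℝ) / 10000000000 ^ 2 + 2 * ((e : ℝ) / 10000000000) * ((X.L1 : ℝ) / 10000000000) =
        (200000000000000000000 - X.N2 + 2 * (e : ℝ) * X.L1) / 10000000000 ^ 2 := by ring
      rw [e4, div_pow]
      exact div_le_div_of_nonneg_right (by linarith) (by norm_num)
    linarith
  have hx' : (0 : ℝ) < X.xi / 10000000000 := by positivity
  have t3 := s3_le X.WJ
  have t4 := s3_le X.XJ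
  have wv : (cw (aT M T1) (aT M T2) 0).re ^ 2 ≤ ((X.wB : ℝ) / 10000000000) ^ 2 := by
    apply sq_le_of_abs
    · rw [w0_val, ← hp, ← hq, div_le_div_iff₀ (by norm_num) (by norm_num)]
      have := s3_le (p.2 + q.2)
      linarith
    · rw [w0_val, ← hp, ← hq, ← neg_div, div_le_div_iff₀ (by norm_num) (by norm_num)]
      have := s3_le (-(p.2 + q.2))
      push_cast at this r10 ⊢
      linarith
  have xv : (cx (aT M T1) (aT M T2) 0).re ^ 2 ≤ ((X.xB : ℝ) / 10000000000) ^ 2 := by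
    apply sq_le_of_abs
    · rw [x0_val, ← hp, ← hq, div_le_div_iff₀ (by norm_num) (by norm_num)]
      have := s3_le (-(p.1 + q.1))
      linarith
    · rw [x0_val, ← hp, ← hq, ← neg_div, div_le_div_iff₀ (by norm_num) (by norm_num)]
      have := s3_le (p.1 + q.1)
      push_cast at this r12 ⊢
      linarith
  have hx2 : 1 / 2 * (sE M (cx (aT M T1) (aT M T2)) + rE M (cx (aT M T1) (aT M T2))) ≤
      ((X.xi : ℝ) / 10000000000) ^ 2 := by
    rw [x_sum, s6, s7]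
    have e5 : ((X.xB : ℝ) / 10000000000) ^ 2 = (X.xB * X.xB) / 10000000000 ^ 2 := by ring
    have e6 : ((X.xi : ℝ) / 10000000000) ^ 2 = (X.xi * X.xi) / 10000000000 ^ 2 := by ring
    rw [e5] at xv
    rw [e6]
    have e7 : 1 / 2 * (2 * (cx (aT M T1) (aT M T2) 0).re ^ 2
        + ((X.XI : ℝ) + 16 * (Real.sqrt 3 * X.XJ)) / (16 * 10000000000 ^ 2)) ≤
        (32 * ((X.xB : ℝ) * X.xB) + X.XI + 16 * (Real.sqrt 3 * X.XJ)) / (32 * 10000000000 ^ 2) := by
      have : (32 * ((X.xB : ℝ) * X.xB) + X.XI + 16 * (Real.sqrt 3 * X.XJ)) / (32 * 10000000000 ^ 2) =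
        (X.xB * X.xB) / 10000000000 ^ 2 + 1 / 2 * (((X.XI : ℝ) + 16 * (Real.sqrt 3 * X.XJ)) / (16 * 10000000000 ^ 2)) := by
        ring
      rw [this]
      linarith
    refine e7.trans ?_
    rw [div_le_div_iff₀ (by norm_num) (by norm_num)]
    nlinarith
  have main := lamA_le h hn hr hM e1 e2 0 0 hk hs hl hτ hτ2 hx' hx2
  rw [map_zero, zero_mul, zero_mul, add_zero, Complex.zero_re, sO_eq, rO_eq, s2, s3', w_sum, s4, s5, c0_val, ← hp,
    ← hq] at main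
  have u1 : 1 / 5 * (1 + 2 / ((X.K : ℝ) / 1000)) + 117 / 10000 / ((X.K : ℝ) / 1000) ≤
      (2000000000 + (X.ki : ℝ)) / 10000000000 := by
    have : 1 / 5 * (1 + 2 / ((X.K : ℝ) / 1000)) + 117 / 10000 / ((X.K : ℝ) / 1000) = 1 / 5 + 4117 / 10 / X.K := by
      field_simp
      ring
    rw [this]
    have h2 : 4117 / 10 / (X.K : ℝ) ≤ (X.ki : ℝ) / 10000000000 := by
      rw [div_le_div_iff₀ hK (by norm_num)]
      linarith
    linarith
  have u2 : ((((40000000000 - p.1 + q.1 : ℤ) : ℝ) + Real.sqrt 3 * ((-(p.2 + q.2) : ℤ) : ℝ)) / 20000000000) ≤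
      (X.z3 : ℝ) / 10000000000 := by
    rw [div_le_div_iff₀ (by norm_num) (by norm_num)]
    have := s3_le (-(p.2 + q.2))
    linarith
  have u3 : (X.K : ℝ) / 1000 * ((8 / 25 + 19 / 1250 * ((X.sN : ℝ) / 1000000)) * ((X.sO : ℝ) / 10000000000 ^ 2)
      - 163 / 1000 * ((X.rO : ℝ) / 10000000000 ^ 2)) ≤ (X.z4 : ℝ) / 10000000000 := by
    have : (X.K : ℝ) / 1000 * ((8 / 25 + 19 / 1250 * ((X.sN : ℝ) / 1000000)) * ((X.sO : ℝ) / 10000000000 ^ 2)
      - 163 / 1000 * ((X.rO : ℝ) / 10000000000 ^ 2)) =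
      ((X.K : ℝ) * ((400000000 + 19 * (X.sN : ℝ)) * X.sO - 203750000 * X.rO)) / 125000000000000000000000000000000 := by
      ring
    rw [this, div_le_div_iff₀ (by norm_num) (by norm_num)]
    linarith
  have u4 : 1 / 6 * (2 * (cw (aT M T1) (aT M T2) 0).re ^ 2
      + ((X.WI : ℝ) + Real.sqrt 3 * X.WJ) / 10000000000 ^ 2) ≤ (X.z5 : ℝ) / 10000000000 := by
    have e5 : ((X.wB : ℝ) / 10000000000) ^ 2 = (X.wB * X.wB) / 10000000000 ^ 2 := by ring
    rw [e5] at wv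
    have e7 : 1 / 6 * (2 * (cw (aT M T1) (aT M T2) 0).re ^ 2
      + ((X.WI : ℝ) + Real.sqrt 3 * X.WJ) / 10000000000 ^ 2) ≤
        (2 * ((X.wB : ℝ) * X.wB) + X.WI + Real.sqrt 3 * X.WJ) / (6 * 10000000000 ^ 2) := by
      have : (2 * ((X.wB : ℝ) * X.wB) + X.WI + Real.sqrt 3 * X.WJ) / (6 * 10000000000 ^ 2) =
        1 / 3 * ((X.wB * X.wB) / 10000000000 ^ 2) + 1 / 6 * (((X.WI : ℝ) + Real.sqrt 3 * X.WJ) / 10000000000 ^ 2) := by
        ring
      rw [this]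
      linarith
    refine e7.trans ?_
    rw [div_le_div_iff₀ (by norm_num) (by norm_num)]
    linarith
  have u5 : 77 / 200 * ((X.xi : ℝ) / 10000000000) ≤ (X.z6 : ℝ) / 10000000000 := by
    rw [← mul_div_assoc]
    exact div_le_div_of_nonneg_right (by linarith) (by norm_num)
  have u6 : 97 / 56 * ((X.t : ℝ) / 10000000000) ≤ (X.z8 : ℝ) / 10000000000 := by
    rw [← mul_div_assoc]
    exact div_le_div_of_nonneg_right (by linarith) (by norm_num)
  have eg : (X.gb e : ℝ) = 2000000000 + X.ki + X.z3 + X.z4 + X.z5 + X.z6 + 2 * e + X.z8 := by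
    unfold LC.gb
    push_cast
    ring
  rw [eg]
  have e8 : ((2000000000 : ℝ) + X.ki + X.z3 + X.z4 + X.z5 + X.z6 + 2 * e + X.z8) / 10000000000 =
    (2000000000 + (X.ki : ℝ)) / 10000000000 + (X.z3 : ℝ) / 10000000000 + (X.z4 : ℝ) / 10000000000 + (X.z5 : ℝ) / 10000000000
      + (X.z6 : ℝ) / 10000000000 + 2 * ((e : ℝ) / 10000000000) + (X.z8 : ℝ) / 10000000000 := by ring
  rw [e8]
  linarith

end Helper44.Far
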