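import Pool.Agent.Helper44.RC.M_FX4
import Pool.Agent.Helper49.RC.Comb
import Pool.Agent.Helper95.SH.Cont1
import Pool.Agent.Helper51.RC.M_P1

/-!
# Project RC, SHARP: the near constants, 1

`Near` data: means of `b₂²`, `b₃²` and of `|z|`; bounds of `sig` (`Cs`), of the mean of `w b₂`, of `s₀₀`.
-/

open MeasureTheory Set Filter Topology

namespace Helper44.Far

open Helper49.LT hiding sg
open Helper49.RC Helper44.GQ
open Helper56.RC (fc)
open Helper87.RC (BM pars)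
open Helper49.Sharp
open Pool.Agent.Helper20.RC (wR)

/-- the four excesses over the regular hexagon -/
noncomputable def E4 (b z : ℂ) : ℝ :=
  ‖g1 b z‖ + ‖g2 b z‖ + (‖g1 b (-z)‖ + ‖g2 b (-z)‖) - 4 + 2 * b.re

/-- POINTWISE FACT 1 -/
def StP1 : Prop := ∀ b z : ℂ, ‖b‖ < 1 → 9 / 10 * b.re ^ 2 + 27 / 10 * b.im ^ 2 ≤ E4 b z

/-- **pointwise fact 1** (helper51) -/
theorem hP1 : StP1 := by
  intro b z hb
  have h := Pool.Agent.Helper51.RC.stP1 hb z
  unfold Pool.Agent.Helper51.RC.S4 at h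
  unfold E4
  linarith

variable {b z : ℝ → ℂ}

theorem nrm_lt (h : AdmQ 2 b z) (t : ℝ) : ‖b t‖ < 1 := by
  obtain ⟨δ, hδ, hb⟩ := h.bdb
  linarith [hb t]

theorem z_per2 (h : AdmQ 2 b z) (t : ℝ) : z (t + 2 * Real.pi) = z t := by
  rw [show t + 2 * Real.pi = t + Real.pi + Real.pi by ring, h.perz, h.perz, neg_neg]

theorem fc0_re {f : ℝ → ℂ} {C : ℝ} (h : BM f C) : (fc f 0).re = mean (fun t => (f t).re) := by
  have e : fc f 0 = (1 / (2 * Real.pi) : ℂ) * ∫ t in (0 : ℝ)..(2 * Real.pi), f t := by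
    unfold fc
    congr 1
    refine intervalIntegral.integral_congr fun t _ => ?_
    simp [ee_zero]
  rw [e, mean_re h]

theorem br_re (h : AdmQ 2 b z) : BR fun t => (b t).re := BR.re (b_bm h)
theorem br_im (h : AdmQ 2 b z) : BR fun t => (b t).im := BR.im (b_bm h)
theorem br_z (h : AdmQ 2 b z) : BR fun t => ‖z t‖ := by
  obtain ⟨D, _, _, k3⟩ := g_bm h
  exact BR.nrm k3

theorem E4_br (h : AdmQ 2 b z) : BR fun t => E4 (b t) (z t) := by
  obtain ⟨D, k1, k2, k3⟩ := g_bm h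
  have n1 := (BR.nrm k1).add (BR.nrm k2)
  have n2 := n1.sh Real.pi
  have e : (fun t => E4 (b t) (z t)) = fun t => (‖g1 (b t) (z t)‖ + ‖g2 (b t) (z t)‖)
      + (‖g1 (b (t + Real.pi)) (z (t + Real.pi))‖ + ‖g2 (b (t + Real.pi)) (z (t + Real.pi))‖) - 4
      + 2 * (b t).re := by
    funext t
    rw [h.perb, h.perz]
    rfl
  rw [e]
  exact ((n1.add n2).sub (BR.const 4)).add ((br_re h).cmul 2)

theorem two_Sp (h : AdmQ 2 b z) : 2 * Sp b z = mean (fun t => E4 (b t) (z t)) := by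
  obtain ⟨D, k1, k2, k3⟩ := g_bm h
  have n1 := (BR.nrm k1).add (BR.nrm k2)
  have n2 := n1.sh Real.pi
  have hper : ∀ t, ‖g1 (b (t + 2 * Real.pi)) (z (t + 2 * Real.pi))‖ + ‖g2 (b (t + 2 * Real.pi)) (z (t + 2 * Real.pi))‖
      = ‖g1 (b t) (z t)‖ + ‖g2 (b t) (z t)‖ := fun t => by rw [z_per2 h, per2 h.perb]
  have e1 := mean_pair n1 hper
  have e : (fun t => E4 (b t) (z t)) = fun t => ((‖g1 (b t) (z t)‖ + ‖g2 (b t) (z t)‖)
      + (‖g1 (b (t + Real.pi)) (z (t + Real.pi))‖ + ‖g2 (b (t + Real.pi)) (z (t + Real.pi))‖)) - 4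
      + 2 * (b t).re := by
    funext t
    rw [h.perb, h.perz]
    rfl
  have c4 : mean (fun _ => (4 : ℝ)) = 4 := by
    unfold mean
    rw [intervalIntegral.integral_const, smul_eq_mul, sub_zero]
    have := Real.pi_pos
    field_simp
  rw [e, mean_add ((n1.add n2).sub (BR.const 4)) ((br_re h).cmul 2), mean_sub (n1.add n2) (BR.const 4), c4,
    mean_cmul, ← fc0_re (b_bm h)]
  unfold Sp
  rw [e1]
  ring

/-- **near data: `b`** -/
theorem near_b (h : AdmQ 2 b z) (hn : Near b z) :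
    12 / 5 * mean (fun t => (b t).re ^ 2) + 27 / 10 * mean (fun t => (b t).im ^ 2) < 2 / 5 := by
  have hn' : Sp b z + 3 / 4 * mean (fun t => (b t).re ^ 2) < 1 / 5 := hn
  have r2 := (br_re h).sq
  have i2 := (br_im h).sq
  have e := two_Sp h
  have m := mean_mono ((r2.cmul (9 / 10)).add (i2.cmul (27 / 10))) (E4_br h) fun t => hP1 _ _ (nrm_lt h t)
  rw [mean_add (r2.cmul _) (i2.cmul _), mean_cmul, mean_cmul] at m
  linarith

/-! ### the mean of `|z|` -/

theorem two_len {c s : ℝ} (hcs : c ^ 2 + s ^ 2 = 1) (e f : ℂ) :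
    c * (e.re + f.re) + s * (e.im - f.im) ≤ ‖e‖ + ‖f‖ := by
  have k : ∀ (p q : ℝ) (x : ℂ), p ^ 2 + q ^ 2 = 1 → p * x.re + q * x.im ≤ ‖x‖ := by
    intro p q x hpq
    have hn : ‖x‖ ^ 2 = x.re ^ 2 + x.im ^ 2 := by
      rw [← Complex.normSq_eq_norm_sq, Complex.normSq_apply]; ring
    have h0 := norm_nonneg x
    refine abs_le_of_sq_le_sq' ?_ h0 |>.2
    rw [hn]
    have : (x.re ^ 2 + x.im ^ 2) * (p ^ 2 + q ^ 2) = (p * x.re + q * x.im) ^ 2 + (p * x.im - q * x.re) ^ 2 := by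
      ring
    rw [hpq, mul_one] at this
    nlinarith [sq_nonneg (p * x.im - q * x.re)]
  have h1 := k c s e hcs
  have h2 := k c (-s) f (by rw [neg_sq]; exact hcs)
  linarith

theorem g1_re (b z : ℂ) : (g1 b z).re = Real.sqrt 3 * b.im + 1 / 2 * (1 + b.re) + z.re := by
  unfold g1 cQ aQ
  simp
  ring

theorem g1_im (b z : ℂ) : (g1 b z).im = Real.sqrt 3 / 2 * (1 - b.re) + b.im / 4 + z.im := by
  unfold g1 cQ aQ
  simp
  ring

theorem g2_re (b z : ℂ) : (g2 b z).re = Real.sqrt 3 * b.im - 1 / 2 * (1 + b.re) - z.re := by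
  unfold g2 cQ aQ
  simp
  ring

theorem g2_im (b z : ℂ) : (g2 b z).im = Real.sqrt 3 / 2 * (1 - b.re) - b.im / 4 - z.im := by
  unfold g2 cQ aQ
  simp
  ring

/-- two fixed directions for each family -/
theorem E4_low {c s : ℝ} (hcs : c ^ 2 + s ^ 2 = 1) (hs : 0 ≤ s) (b z : ℂ) :
    c * (4 - 2 * b.re) + s * (Real.sqrt 3 * ‖z‖) - 4 + 2 * b.re ≤ E4 b z := by
  set r := Real.sqrt 3 with hr
  have r2 : r ^ 2 = 3 := Real.sq_sqrt (by norm_num)
  have r0 : 0 ≤ r := Real.sqrt_nonneg _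
  set v : ℂ := (1 / 2 : ℝ) - Complex.I * ((r / 2 : ℝ) : ℂ) with hv
  set v' : ℂ := (-(1 / 2) : ℝ) - Complex.I * ((r / 2 : ℝ) : ℂ) with hv'
  have hvr : v.re = 1 / 2 := by rw [hv]; simp
  have hvi : v.im = -(r / 2) := by rw [hv]; simp
  have hvr' : v'.re = -(1 / 2) := by rw [hv']; simp
  have hvi' : v'.im = -(r / 2) := by rw [hv']; simp
  have nv : ‖v‖ = 1 := by
    rw [← pow_left_inj₀ (norm_nonneg _) zero_le_one (two_ne_zero), ← Complex.normSq_eq_norm_sq,
      Complex.normSq_apply, hvr, hvi]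
    nlinarith
  have nv' : ‖v'‖ = 1 := by
    rw [← pow_left_inj₀ (norm_nonneg _) zero_le_one (two_ne_zero), ← Complex.normSq_eq_norm_sq,
      Complex.normSq_apply, hvr', hvi']
    nlinarith
  have key : ∀ s' : ℝ, c ^ 2 + s' ^ 2 = 1 → ∀ s'' : ℝ, c ^ 2 + s'' ^ 2 = 1 →
      c * (4 - 2 * b.re) + s' * (z.im - r * z.re) + s'' * (z.im + r * z.re) ≤
      ‖g1 b z‖ + ‖g2 b z‖ + (‖g1 b (-z)‖ + ‖g2 b (-z)‖) := by
    intro s' h' s'' h''
    have a1 := two_len h' (v * g1 b z) (v * g1 b (-z))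
    have a2 := two_len h'' (v' * g2 b z) (v' * g2 b (-z))
    rw [norm_mul, norm_mul, nv, one_mul, one_mul, Complex.mul_re, Complex.mul_re, Complex.mul_im, Complex.mul_im,
      g1_re, g1_re, g1_im, g1_im, hvr, hvi] at a1
    rw [norm_mul, norm_mul, nv', one_mul, one_mul, Complex.mul_re, Complex.mul_re, Complex.mul_im, Complex.mul_im,
      g2_re, g2_re, g2_im, g2_im, hvr', hvi'] at a2
    simp only [Complex.neg_re, Complex.neg_im, ← hr] at a1 a2
    have e1 : 1 / 2 * (r * b.im + 1 / 2 * (1 + b.re) + z.re) - -(r / 2) * (r / 2 * (1 - b.re) + b.im / 4 + z.im)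
        + (1 / 2 * (r * b.im + 1 / 2 * (1 + b.re) + -z.re) - -(r / 2) * (r / 2 * (1 - b.re) + b.im / 4 + -z.im))
        = 2 - b.re + 5 * r / 4 * b.im := by
      linear_combination (1 / 2 * (1 - b.re)) * r2
    have e2 : -(1 / 2) * (r * b.im - 1 / 2 * (1 + b.re) - z.re) - -(r / 2) * (r / 2 * (1 - b.re) - b.im / 4 - z.im)
        + (-(1 / 2) * (r * b.im - 1 / 2 * (1 + b.re) - -z.re)
          - -(r / 2) * (r / 2 * (1 - b.re) - b.im / 4 - -z.im)) = 2 - b.re - 5 * r / 4 * b.im := by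
      linear_combination (1 / 2 * (1 - b.re)) * r2
    rw [e1] at a1
    rw [e2] at a2
    have e3 : 1 / 2 * (r / 2 * (1 - b.re) + b.im / 4 + z.im) + -(r / 2) * (r * b.im + 1 / 2 * (1 + b.re) + z.re)
        - (1 / 2 * (r / 2 * (1 - b.re) + b.im / 4 + -z.im) + -(r / 2) * (r * b.im + 1 / 2 * (1 + b.re) + -z.re))
        = z.im - r * z.re := by ring
    have e4 : -(1 / 2) * (r / 2 * (1 - b.re) - b.im / 4 - z.im)
          + -(r / 2) * (r * b.im - 1 / 2 * (1 + b.re) - z.re)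
        - (-(1 / 2) * (r / 2 * (1 - b.re) - b.im / 4 - -z.im)
          + -(r / 2) * (r * b.im - 1 / 2 * (1 + b.re) - -z.re))
        = z.im + r * z.re := by ring
    rw [e3] at a1
    rw [e4] at a2
    linarith
  have hsn : c ^ 2 + (-s) ^ 2 = 1 := by rw [neg_sq]; exact hcs
  have hz2 : ‖z‖ ^ 2 = z.re ^ 2 + z.im ^ 2 := by
    rw [← Complex.normSq_eq_norm_sq, Complex.normSq_apply]; ring
  have big : r * ‖z‖ ≤ |z.im - r * z.re| + |z.im + r * z.re| := by
    have h0 : 0 ≤ |z.im - r * z.re| + |z.im + r * z.re| := by positivity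
    refine abs_le_of_sq_le_sq' ?_ h0 |>.2
    rw [mul_pow, r2, hz2]
    have x1 := sq_abs (z.im - r * z.re)
    have x2 := sq_abs (z.im + r * z.re)
    have x3 : |(z.im - r * z.re) * (z.im + r * z.re)| = |z.im - r * z.re| * |z.im + r * z.re| := abs_mul _ _
    have x4 := le_abs_self ((z.im - r * z.re) * (z.im + r * z.re))
    have x5 := neg_abs_le ((z.im - r * z.re) * (z.im + r * z.re))
    rw [x3] at x4 x5
    have x6 : (z.im - r * z.re) * (z.im + r * z.re) = z.im ^ 2 - 3 * z.re ^ 2 := by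
      linear_combination (-(z.re ^ 2)) * r2
    have x7 : (z.im - r * z.re) ^ 2 + (z.im + r * z.re) ^ 2 = 2 * z.im ^ 2 + 6 * z.re ^ 2 := by
      linear_combination (2 * z.re ^ 2) * r2
    rw [x6] at x4 x5
    have x8 : (|z.im - r * z.re| + |z.im + r * z.re|) ^ 2 = 2 * z.im ^ 2 + 6 * z.re ^ 2
        + 2 * (|z.im - r * z.re| * |z.im + r * z.re|) := by
      rw [add_sq, x1, x2]; linarith
    rw [x8]
    nlinarith
  have fin : c * (4 - 2 * b.re) + s * (|z.im - r * z.re| + |z.im + r * z.re|) ≤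
      ‖g1 b z‖ + ‖g2 b z‖ + (‖g1 b (-z)‖ + ‖g2 b (-z)‖) := by
    rcases abs_cases (z.im - r * z.re) with ⟨p1, _⟩ | ⟨p1, _⟩ <;>
    rcases abs_cases (z.im + r * z.re) with ⟨p2, _⟩ | ⟨p2, _⟩ <;> rw [p1, p2]
    · have := key s hcs s hcs; linarith
    · have := key s hcs (-s) hsn; linarith
    · have := key (-s) hsn s hcs; linarith
    · have := key (-s) hsn (-s) hsn; linarith
  have := mul_le_mul_of_nonneg_left big hs
  unfold E4
  linarith

theorem z_pt (b z : ℂ) : 333 / 500 * ‖z‖ ≤ E4 b z + 3 / 2 * b.re ^ 2 + 4 / 13 + 4 / 1014 := by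
  have h := E4_low (c := 12 / 13) (s := 5 / 13) (by norm_num) (by norm_num) b z
  have r0 : (1732 / 1000 : ℝ) ≤ Real.sqrt 3 := by
    refine Real.le_sqrt_of_sq_le ?_
    norm_num
  have h0 := norm_nonneg z
  have h1 : 333 / 500 * ‖z‖ ≤ 5 / 13 * (Real.sqrt 3 * ‖z‖) := by
    have := mul_le_mul_of_nonneg_right r0 h0
    nlinarith
  nlinarith [sq_nonneg (b.re + 2 / 39)]

/-- **near data: the mean of `|z|`** -/
theorem near_z (h : AdmQ 2 b z) (hn : Near b z) : mean (fun t => ‖z t‖) ≤ 107 / 100 := by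
  have hn' : Sp b z + 3 / 4 * mean (fun t => (b t).re ^ 2) < 1 / 5 := hn
  have r2 := (br_re h).sq
  have e := two_Sp h
  have m := mean_mono ((br_z h).cmul (333 / 500))
    ((((E4_br h).add (r2.cmul (3 / 2))).add (BR.const (4 / 13))).add (BR.const (4 / 1014)))
    fun t => z_pt (b t) (z t)
  have c4 : ∀ c : ℝ, mean (fun _ => c) = c := by
    intro c
    unfold mean
    rw [intervalIntegral.integral_const, smul_eq_mul, sub_zero]
    have := Real.pi_pos
    field_simp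
  rw [mean_add (((E4_br h).add (r2.cmul (3 / 2))).add (BR.const (4 / 13))) (BR.const (4 / 1014)),
    mean_add ((E4_br h).add (r2.cmul (3 / 2))) (BR.const (4 / 13)), mean_add (E4_br h) (r2.cmul (3 / 2)),
    mean_cmul, mean_cmul, c4, c4] at m
  linarith

end Helper44.Far
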