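import Pool.Agent.Helper44.RC.M_NR2

/-!
# Project RC, SHARP: the near constants, 3

The exact angles at a small base: even and odd parts of the unit vector `(1 + ζ)/|1 + ζ|` (`eo`), and the pair
inequality `pw`: an upper bound of the affine functional which is the excess over the alignments minus `Sp`.
-/

open MeasureTheory Set Filter Topology

namespace Helper44.Far

open Helper49.LT hiding sg
open Helper49.RC Helper44.GQ
open Helper56.RC (fc)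
open Helper87.RC (BM pars)
open Helper49.Sharp
open Helper95.RC (Lf)

/-- the two distances from `-1` and `1`: `n = a + x/a`, `n' = a - x/a` -/
theorem ell {x y n m : ℝ} (hn : 0 < n) (hm : 0 < m) (h1 : n ^ 2 = (1 + x) ^ 2 + y ^ 2)
    (h2 : m ^ 2 = (1 - x) ^ 2 + y ^ 2) (hr : x ^ 2 + y ^ 2 ≤ 1 / 25) :
    ∃ a : ℝ, 1 ≤ a ∧ a ^ 2 - 1 ≤ 25 / 24 * y ^ 2 ∧ n = (a ^ 2 + x) / a ∧ m = (a ^ 2 - x) / a ∧
      0 < a ^ 2 + x ∧ 0 < a ^ 2 - x := by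
  refine ⟨(n + m) / 2, ?_⟩
  set a := (n + m) / 2 with ha
  have a0 : 0 < a := by positivity
  have an : a * n = a ^ 2 + x := by rw [ha]; linear_combination 1 / 4 * h1 - 1 / 4 * h2
  have am : a * m = a ^ 2 - x := by rw [ha]; linear_combination 1 / 4 * h2 - 1 / 4 * h1
  have p1 : 0 < a ^ 2 + x := by rw [← an]; positivity
  have p2 : 0 < a ^ 2 - x := by rw [← am]; positivity
  have key : (a ^ 2 - 1) * (a ^ 2 - x ^ 2) = a ^ 2 * y ^ 2 := by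
    have : (a ^ 2 + x) ^ 2 = a ^ 2 * ((1 + x) ^ 2 + y ^ 2) := by rw [← an, ← h1]; ring
    linear_combination this
  have hx : x ^ 2 ≤ 1 / 25 := by linarith [sq_nonneg y]
  have a2 : 1 ≤ a ^ 2 := by
    by_contra hlt
    rw [not_le] at hlt
    rcases le_or_gt (a ^ 2) (x ^ 2) with h | h
    · have h6 := mul_pos p1 p2
      have h7 := mul_nonneg (sq_nonneg a) (sub_pos.2 hlt).le
      linarith
    · have h6 := mul_pos (sub_pos.2 hlt) (sub_pos.2 h)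
      have h7 := mul_nonneg (sq_nonneg a) (sq_nonneg y)
      linarith
  have a1 : 1 ≤ a := by
    by_contra hlt
    rw [not_le] at hlt
    have h6 := mul_pos a0 (sub_pos.2 hlt)
    linarith
  refine ⟨a1, ?_, ?_, ?_, p1, p2⟩
  · have h3 : 24 / 25 * a ^ 2 ≤ a ^ 2 - x ^ 2 := by linarith
    have h4 : (a ^ 2 - 1) * (24 / 25 * a ^ 2) ≤ a ^ 2 * y ^ 2 := by
      rw [← key]
      exact mul_le_mul_of_nonneg_left h3 (by linarith)
    have h5 : a ^ 2 * ((a ^ 2 - 1) * (24 / 25)) ≤ a ^ 2 * y ^ 2 := by linarith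
    have := le_of_mul_le_mul_left h5 (by positivity)
    linarith
  · rw [eq_div_iff a0.ne']; linarith
  · rw [eq_div_iff a0.ne']; linarith

/-- even and odd parts of the unit vector -/
theorem eo {x y n m : ℝ} (hn : 0 < n) (hm : 0 < m) (h1 : n ^ 2 = (1 + x) ^ 2 + y ^ 2)
    (h2 : m ^ 2 = (1 - x) ^ 2 + y ^ 2) (hr : x ^ 2 + y ^ 2 ≤ 1 / 25) :
    0 ≤ 1 - ((1 + x) / n + (1 - x) / m) / 2 ∧
    1 - ((1 + x) / n + (1 - x) / m) / 2 ≤ 17 / 30 * y ^ 2 ∧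
    |(y / n - y / m) / 2| ≤ 25 / 24 * (|x| * |y|) ∧
    |((1 + x) / n - (1 - x) / m) / 2| ≤ 11 / 10 * (|x| * y ^ 2) ∧
    |(y / n + y / m) / 2 - y| ≤ 25 / 24 * (|y| * (x ^ 2 + y ^ 2)) := by
  obtain ⟨a, a1, a2, en, em, p1, p2⟩ := ell hn hm h1 h2 hr
  have a0 : 0 < a := by linarith
  have hx : x ^ 2 ≤ 1 / 25 := by linarith [sq_nonneg y]
  have hD : 0 < (a ^ 2 + x) * (a ^ 2 - x) := mul_pos p1 p2
  set D := (a ^ 2 + x) * (a ^ 2 - x) with hDd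
  have hDe : D = a ^ 4 - x ^ 2 := by rw [hDd]; ring
  have a4 : 1 ≤ a ^ 4 := one_le_pow₀ a1
  have D1 : 24 / 25 * a ^ 4 ≤ D := by rw [hDe]; linarith
  have aa : a ≤ a ^ 4 := by
    calc a = a ^ 1 := (pow_one a).symm
      _ ≤ a ^ 4 := pow_le_pow_right₀ a1 (by norm_num)
  have a3 : a ^ 3 ≤ a ^ 4 := pow_le_pow_right₀ a1 (by norm_num)
  have ad : a - 1 ≤ 25 / 48 * y ^ 2 := by linarith [sq_nonneg (a - 1)]
  have e1 : 1 / n = a / (a ^ 2 + x) := by rw [en, one_div_div]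
  have e2 : 1 / m = a / (a ^ 2 - x) := by rw [em, one_div_div]
  have q1 : (1 + x) / n = (1 + x) * (a / (a ^ 2 + x)) := by rw [← e1]; ring
  have q2 : (1 - x) / m = (1 - x) * (a / (a ^ 2 - x)) := by rw [← e2]; ring
  have q3 : y / n = y * (a / (a ^ 2 + x)) := by rw [← e1]; ring
  have q4 : y / m = y * (a / (a ^ 2 - x)) := by rw [← e2]; ring
  have hp1 := p1.ne'
  have hp2 := p2.ne'
  have f1 : 1 - ((1 + x) / n + (1 - x) / m) / 2 = (a - 1) * (a ^ 3 + x ^ 2) / D := by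
    rw [q1, q2, hDd]; field_simp; ring
  have f2 : (y / n - y / m) / 2 = -(a * x * y) / D := by
    rw [q3, q4, hDd]; field_simp; ring
  have f3 : ((1 + x) / n - (1 - x) / m) / 2 = a * x * (a ^ 2 - 1) / D := by
    rw [q1, q2, hDd]; field_simp; ring
  have f4 : (y / n + y / m) / 2 - y = y * (x ^ 2 - a ^ 3 * (a - 1)) / D := by
    rw [q3, q4, hDd]; field_simp; ring
  have ax := abs_nonneg x
  have ay := abs_nonneg y
  refine ⟨?_, ?_, ?_, ?_, ?_⟩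
  · rw [f1]
    have : 0 ≤ a - 1 := by linarith
    positivity
  · rw [f1, div_le_iff₀ hD]
    have k1 : a ^ 3 + x ^ 2 ≤ 13 / 12 * D := by rw [hDe]; linarith
    have k2 : (a - 1) * (a ^ 3 + x ^ 2) ≤ 25 / 48 * y ^ 2 * (13 / 12 * D) :=
      mul_le_mul ad k1 (by positivity) (by positivity)
    have k3 : 0 ≤ y ^ 2 * D := by positivity
    linarith
  · rw [f2, abs_div, abs_of_pos hD, abs_neg, abs_mul, abs_mul, abs_of_pos a0, div_le_iff₀ hD]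
    have k1 : a ≤ 25 / 24 * D := by linarith
    have := mul_le_mul_of_nonneg_right k1 (mul_nonneg ax ay)
    linarith
  · have s0 : 0 ≤ a ^ 2 - 1 := by
      have := mul_nonneg (sub_nonneg.2 a1) (add_nonneg a0.le zero_le_one)
      linarith
    rw [f3, abs_div, abs_of_pos hD, abs_mul, abs_mul, abs_of_pos a0, abs_of_nonneg s0, div_le_iff₀ hD]
    have k1 : a ≤ 25 / 24 * D := by linarith
    have k2 : a * (a ^ 2 - 1) ≤ 25 / 24 * D * (25 / 24 * y ^ 2) := mul_le_mul k1 a2 s0 (by positivity)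
    have k3 := mul_le_mul_of_nonneg_right k2 ax
    have k4 : 0 ≤ |x| * y ^ 2 * D := by positivity
    linarith
  · rw [f4, abs_div, abs_of_pos hD, abs_mul, div_le_iff₀ hD]
    have k0 : 0 ≤ a ^ 3 * (a - 1) := mul_nonneg (by positivity) (by linarith)
    have k1 : |x ^ 2 - a ^ 3 * (a - 1)| ≤ 25 / 24 * (x ^ 2 + y ^ 2) * D := by
      have m1 : a ^ 3 ≤ 25 / 24 * D := by linarith
      have m2 : a ^ 3 * (a - 1) ≤ 25 / 24 * D * (25 / 48 * y ^ 2) :=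
        mul_le_mul m1 ad (by linarith) (by positivity)
      have m3 : x ^ 2 ≤ 25 / 24 * x ^ 2 * D := by
        have h6 : 0 ≤ 25 / 24 * D - 1 := by linarith
        have h7 := mul_nonneg (sq_nonneg x) h6
        linarith
      have m4 : 0 ≤ y ^ 2 * D := by positivity
      have m5 : 0 ≤ x ^ 2 * D := by positivity
      have m6 := sq_nonneg x
      rw [abs_le]
      constructor <;> linarith
    have := mul_le_mul_of_nonneg_left k1 ay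
    linarith

/-- unit vector of `1 + ζ` -/
noncomputable def ev (ζ : ℂ) : ℂ := (1 + ζ) / (‖1 + ζ‖ : ℂ)

theorem ev_re (ζ : ℂ) : (ev ζ).re = (1 + ζ.re) / ‖1 + ζ‖ := by
  unfold ev
  rw [Complex.div_ofReal_re]
  simp

theorem ev_im (ζ : ℂ) : (ev ζ).im = ζ.im / ‖1 + ζ‖ := by
  unfold ev
  rw [Complex.div_ofReal_im]
  simp

/-- `eo` for a complex number -/
theorem eoc {ζ : ℂ} (h : ‖ζ‖ ≤ 1 / 5) :
    (0 ≤ 1 - ((ev ζ).re + (ev (-ζ)).re) / 2) ∧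
    (1 - ((ev ζ).re + (ev (-ζ)).re) / 2 ≤ 17 / 30 * ζ.im ^ 2) ∧
    (|((ev ζ).im + (ev (-ζ)).im) / 2| ≤ 25 / 48 * ‖ζ‖ ^ 2) ∧
    (|((ev ζ).re - (ev (-ζ)).re) / 2| ≤ 11 / 20 * ‖ζ‖ ^ 3) ∧
    |((ev ζ).im - (ev (-ζ)).im) / 2 - ζ.im| ≤ 25 / 24 * ‖ζ‖ ^ 3 := by
  have hn2 : ‖ζ‖ ^ 2 = ζ.re ^ 2 + ζ.im ^ 2 := by
    rw [← Complex.normSq_eq_norm_sq, Complex.normSq_apply]; ring
  have h0 := norm_nonneg ζ
  have hr : ζ.re ^ 2 + ζ.im ^ 2 ≤ 1 / 25 := by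
    rw [← hn2]
    have := mul_le_mul h h h0 (by norm_num)
    linarith
  have e1 : ‖1 + ζ‖ ^ 2 = (1 + ζ.re) ^ 2 + ζ.im ^ 2 := by
    rw [← Complex.normSq_eq_norm_sq, Complex.normSq_apply]; simp; ring
  have e2 : ‖1 + -ζ‖ ^ 2 = (1 - ζ.re) ^ 2 + ζ.im ^ 2 := by
    rw [← Complex.normSq_eq_norm_sq, Complex.normSq_apply]; simp; ring
  have ax : |ζ.re| ≤ ‖ζ‖ := Complex.abs_re_le_norm ζ
  have ay : |ζ.im| ≤ ‖ζ‖ := Complex.abs_im_le_norm ζ
  have bx := abs_le.1 ax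
  have p1 : 0 < ‖1 + ζ‖ := by
    rw [norm_pos_iff]
    intro hz
    have := congrArg Complex.re hz
    simp at this
    linarith [bx.1]
  have p2 : 0 < ‖1 + -ζ‖ := by
    rw [norm_pos_iff]
    intro hz
    have := congrArg Complex.re hz
    simp at this
    linarith [bx.2]
  obtain ⟨k1, k2, k3, k4, k5⟩ := eo p1 p2 e1 e2 hr
  have r1 := ev_re ζ
  have r2 : (ev (-ζ)).re = (1 - ζ.re) / ‖1 + -ζ‖ := by
    rw [ev_re, Complex.neg_re, sub_eq_add_neg]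
  have i1 := ev_im ζ
  have i2 : (ev (-ζ)).im = -(ζ.im / ‖1 + -ζ‖) := by
    rw [ev_im, Complex.neg_im, neg_div]
  rw [r1, r2, i1, i2]
  have sx := sq_abs ζ.re
  have sy := sq_abs ζ.im
  have nx := abs_nonneg ζ.re
  have ny := abs_nonneg ζ.im
  have xy : |ζ.re| * |ζ.im| ≤ 1 / 2 * ‖ζ‖ ^ 2 := by rw [hn2]; linarith [sq_nonneg (|ζ.re| - |ζ.im|)]
  refine ⟨k1, k2, ?_, ?_, ?_⟩
  · rw [← sub_eq_add_neg]
    linarith
  · refine k4.trans ?_
    have : |ζ.re| * ζ.im ^ 2 = |ζ.im| * (|ζ.re| * |ζ.im|) := by rw [← sy]; ring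
    rw [this]
    have h3 : |ζ.im| * (|ζ.re| * |ζ.im|) ≤ ‖ζ‖ * (1 / 2 * ‖ζ‖ ^ 2) :=
      mul_le_mul ay xy (by positivity) h0
    calc 11 / 10 * (|ζ.im| * (|ζ.re| * |ζ.im|)) ≤ 11 / 10 * (‖ζ‖ * (1 / 2 * ‖ζ‖ ^ 2)) :=
          mul_le_mul_of_nonneg_left h3 (by norm_num)
      _ = 11 / 20 * ‖ζ‖ ^ 3 := by ring
  · rw [sub_neg_eq_add]
    refine k5.trans ?_
    rw [← hn2]
    have h3 : |ζ.im| * ‖ζ‖ ^ 2 ≤ ‖ζ‖ * ‖ζ‖ ^ 2 := mul_le_mul_of_nonneg_right ay (by positivity)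
    calc 25 / 24 * (|ζ.im| * ‖ζ‖ ^ 2) ≤ 25 / 24 * (‖ζ‖ * ‖ζ‖ ^ 2) := mul_le_mul_of_nonneg_left h3 (by norm_num)
      _ = 25 / 24 * ‖ζ‖ ^ 3 := by ring

/-- a rotated coordinate is at most the norm -/
theorem qn (z : ℂ) (p q : ℝ) (hp : p = 1 / 2) (hq : q ^ 2 = 3 / 4) : |p * z.re + q * z.im| ≤ ‖z‖ ∧
    |p * z.im + q * z.re| ≤ ‖z‖ := by
  have hz2 : ‖z‖ ^ 2 = z.re ^ 2 + z.im ^ 2 := by
    rw [← Complex.normSq_eq_norm_sq, Complex.normSq_apply]; ring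
  constructor
  · apply abs_le_of_sq_le_sq _ (norm_nonneg z)
    have h6 : (p * z.re + q * z.im) ^ 2 = z.re ^ 2 + z.im ^ 2 - (p * z.im - q * z.re) ^ 2 := by
      rw [hp]
      linear_combination (z.re ^ 2 + z.im ^ 2) * hq
    rw [hz2, h6]
    linarith [sq_nonneg (p * z.im - q * z.re)]
  · apply abs_le_of_sq_le_sq _ (norm_nonneg z)
    have h6 : (p * z.im + q * z.re) ^ 2 = z.re ^ 2 + z.im ^ 2 - (p * z.re - q * z.im) ^ 2 := by
      rw [hp]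
      linear_combination (z.re ^ 2 + z.im ^ 2) * hq
    rw [hz2, h6]
    linarith [sq_nonneg (p * z.re - q * z.im)]

/-- the pairing with the difference of the directions -/
theorem pairG (v e g : ℂ) : ((starRingEnd ℂ) (v - v * e) * g).re =
    (1 - e.re) * ((starRingEnd ℂ) v * g).re - e.im * ((starRingEnd ℂ) v * g).im := by
  have : (starRingEnd ℂ) (v - v * e) * g = (1 - (starRingEnd ℂ) e) * ((starRingEnd ℂ) v * g) := by
    rw [map_sub, map_mul]; ring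
  rw [this, Complex.mul_re]
  simp

/-- **the pair inequality** -/
theorem pw (b z w : ℂ) (hw : ‖w‖ ≤ 1 / 5) :
    ((starRingEnd ℂ) (om - om * ev ((starRingEnd ℂ) om * w)) * g1 b z).re
      + ((starRingEnd ℂ) (om ^ 2 - om ^ 2 * ev (om * w)) * g2 b z).re
      + (((starRingEnd ℂ) (om - om * ev ((starRingEnd ℂ) om * (-w))) * g1 b (-z)).re
      + ((starRingEnd ℂ) (om ^ 2 - om ^ 2 * ev (om * (-w))) * g2 b (-z)).re) ≤
    2 * (17 / 30 * Lf w - (3 / 2 * (w.re * z.re) + 1 / 2 * (w.im * z.im)) + 16 / 5 * (‖w‖ ^ 3 * ‖z‖)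
      + 7 / 5 * (‖w‖ ^ 2 * |b.re|) + 11 / 5 * (‖w‖ ^ 2 * |b.im|)) := by
  set r := Real.sqrt 3 with hr
  have r2 : r ^ 2 = 3 := Real.sq_sqrt (by norm_num)
  have r0 : 0 ≤ r := Real.sqrt_nonneg _
  have r1 : r ≤ 1733 / 1000 := by
    rw [hr]
    apply Real.sqrt_le_iff.2
    norm_num
  have omr : om.re = 1 / 2 := by rw [Helper95.RC.om_val]; simp
  have omi : om.im = r / 2 := by rw [Helper95.RC.om_val]; simp [hr]
  have osr : (om ^ 2).re = -(1 / 2) := by rw [sq, Complex.mul_re, omr, omi]; linear_combination (-(1 / 4)) * r2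
  have osi : (om ^ 2).im = r / 2 := by rw [sq, Complex.mul_im, omr, omi]; ring
  have nom : ‖om‖ = 1 := by unfold om; exact norm_ee _
  set ζ1 := (starRingEnd ℂ) om * w with hζ1
  set ζ2 := om * w with hζ2
  have n1 : ‖ζ1‖ = ‖w‖ := by rw [hζ1, norm_mul, Complex.norm_conj, nom, one_mul]
  have n2 : ‖ζ2‖ = ‖w‖ := by rw [hζ2, norm_mul, nom, one_mul]
  have x1 : ζ1.im = 1 / 2 * w.im - r / 2 * w.re := by
    rw [hζ1, Complex.mul_im, Complex.conj_re, Complex.conj_im, omr, omi]; ring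
  have x2 : ζ2.im = 1 / 2 * w.im + r / 2 * w.re := by
    rw [hζ2, Complex.mul_im, omr, omi]
  obtain ⟨a1, a2, a3, a4, a5⟩ := eoc (ζ := ζ1) (by rw [n1]; exact hw)
  obtain ⟨c1, c2, c3, c4, c5⟩ := eoc (ζ := ζ2) (by rw [n2]; exact hw)
  rw [n1] at a3 a4 a5
  rw [n2] at c3 c4 c5
  rw [mul_neg, mul_neg, ← hζ1, ← hζ2, pairG, pairG, pairG, pairG]
  have G1r : ∀ z : ℂ, ((starRingEnd ℂ) om * g1 b z).re = 1 - 1 / 2 * b.re + 5 * r / 8 * b.im
      + (1 / 2 * z.re + r / 2 * z.im) := by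
    intro z
    rw [Complex.mul_re, Complex.conj_re, Complex.conj_im, omr, omi, g1_re, g1_im, ← hr]
    linear_combination (1 / 4 * (1 - b.re)) * r2
  have G1i : ∀ z : ℂ, ((starRingEnd ℂ) om * g1 b z).im = -(r / 2 * b.re) - 11 / 8 * b.im
      + (1 / 2 * z.im - r / 2 * z.re) := by
    intro z
    rw [Complex.mul_im, Complex.conj_re, Complex.conj_im, omr, omi, g1_re, g1_im, ← hr]
    linear_combination (-(1 / 2) * b.im) * r2
  have G2r : ∀ z : ℂ, ((starRingEnd ℂ) (om ^ 2) * g2 b z).re = 1 - 1 / 2 * b.re - 5 * r / 8 * b.im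
      + (1 / 2 * z.re - r / 2 * z.im) := by
    intro z
    rw [Complex.mul_re, Complex.conj_re, Complex.conj_im, osr, osi, g2_re, g2_im, ← hr]
    linear_combination (1 / 4 * (1 - b.re)) * r2
  have G2i : ∀ z : ℂ, ((starRingEnd ℂ) (om ^ 2) * g2 b z).im = r / 2 * b.re - 11 / 8 * b.im
      + (1 / 2 * z.im + r / 2 * z.re) := by
    intro z
    rw [Complex.mul_im, Complex.conj_re, Complex.conj_im, osr, osi, g2_re, g2_im, ← hr]
    linear_combination (-(1 / 2) * b.im) * r2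
  rw [G1r, G1i, G2r, G2i, G1r, G1i, G2r, G2i]
  simp only [Complex.neg_re, Complex.neg_im]
  set E1 := 1 - ((ev ζ1).re + (ev (-ζ1)).re) / 2 with hE1
  set S1 := ((ev ζ1).im + (ev (-ζ1)).im) / 2 with hS1
  set C1 := ((ev ζ1).re - (ev (-ζ1)).re) / 2 with hC1
  set O1 := ((ev ζ1).im - (ev (-ζ1)).im) / 2 - ζ1.im with hO1
  set E2 := 1 - ((ev ζ2).re + (ev (-ζ2)).re) / 2 with hE2
  set S2 := ((ev ζ2).im + (ev (-ζ2)).im) / 2 with hS2
  set C2 := ((ev ζ2).re - (ev (-ζ2)).re) / 2 with hC2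
  set O2 := ((ev ζ2).im - (ev (-ζ2)).im) / 2 - ζ2.im with hO2
  have u1 : (ev ζ1).re = 1 - E1 + C1 := by rw [hE1, hC1]; ring
  have u2 : (ev (-ζ1)).re = 1 - E1 - C1 := by rw [hE1, hC1]; ring
  have u3 : (ev ζ1).im = S1 + O1 + ζ1.im := by rw [hS1, hO1]; ring
  have u4 : (ev (-ζ1)).im = S1 - O1 - ζ1.im := by rw [hS1, hO1]; ring
  have w1 : (ev ζ2).re = 1 - E2 + C2 := by rw [hE2, hC2]; ring
  have w2 : (ev (-ζ2)).re = 1 - E2 - C2 := by rw [hE2, hC2]; ring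
  have w3 : (ev ζ2).im = S2 + O2 + ζ2.im := by rw [hS2, hO2]; ring
  have w4 : (ev (-ζ2)).im = S2 - O2 - ζ2.im := by rw [hS2, hO2]; ring
  clear_value E1 S1 C1 O1 E2 S2 C2 O2
  rw [u1, u2, u3, u4, w1, w2, w3, w4, x1, x2]
  -- the two vectors
  have hz2 : ‖z‖ ^ 2 = z.re ^ 2 + z.im ^ 2 := by
    rw [← Complex.normSq_eq_norm_sq, Complex.normSq_apply]; ring
  have hw2 : ‖w‖ ^ 2 = w.re ^ 2 + w.im ^ 2 := by
    rw [← Complex.normSq_eq_norm_sq, Complex.normSq_apply]; ring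
  have z0 := norm_nonneg z
  have w0 := norm_nonneg w
  obtain ⟨b1, b3⟩ := qn z (1 / 2) (r / 2) rfl (by linear_combination 1 / 4 * r2)
  obtain ⟨b2, b4⟩ := qn z (1 / 2) (-(r / 2)) rfl (by linear_combination 1 / 4 * r2)
  have P : ∀ {x y u v : ℝ}, |x| ≤ u → |y| ≤ v → |x * y| ≤ u * v := by
    intro x y u v hx hy
    rw [abs_mul]
    exact mul_le_mul hx hy (abs_nonneg _) ((abs_nonneg _).trans hx)
  have t1 := P a4 b1
  have t2 := P a5 b4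
  have t3 := P c4 b2
  have t4 := P c5 b3
  -- `E`
  have y1 : ζ1.im ^ 2 ≤ ‖w‖ ^ 2 := by
    rw [x1, hw2]
    have h6 : (1 / 2 * w.im - r / 2 * w.re) ^ 2 = w.re ^ 2 + w.im ^ 2 - (1 / 2 * w.re + r / 2 * w.im) ^ 2 := by
      linear_combination (1 / 4 * w.re ^ 2 + 1 / 4 * w.im ^ 2) * r2
    rw [h6]
    linarith [sq_nonneg (1 / 2 * w.re + r / 2 * w.im)]
  have y2 : ζ2.im ^ 2 ≤ ‖w‖ ^ 2 := by
    rw [x2, hw2]
    have h6 : (1 / 2 * w.im + r / 2 * w.re) ^ 2 = w.re ^ 2 + w.im ^ 2 - (1 / 2 * w.re - r / 2 * w.im) ^ 2 := by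
      linear_combination (1 / 4 * w.re ^ 2 + 1 / 4 * w.im ^ 2) * r2
    rw [h6]
    linarith [sq_nonneg (1 / 2 * w.re - r / 2 * w.im)]
  have yL : ζ1.im ^ 2 + ζ2.im ^ 2 = Lf w := by
    rw [x1, x2]; unfold Lf
    linear_combination (1 / 2 * w.re ^ 2) * r2
  have yL2 : Lf w ≤ 3 / 2 * ‖w‖ ^ 2 := by rw [hw2]; unfold Lf; linarith [sq_nonneg w.im]
  have eL : E1 + E2 ≤ 17 / 30 * Lf w := by rw [← yL]; linarith
  have eA : |E1 + E2| ≤ 17 / 20 * ‖w‖ ^ 2 := by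
    rw [abs_of_nonneg (by linarith)]
    linarith
  have eD : |E1 - E2| ≤ 17 / 30 * ‖w‖ ^ 2 := by
    rw [abs_le]
    constructor <;> linarith
  have sS : |S1 + S2| ≤ 25 / 24 * ‖w‖ ^ 2 := (abs_add_le _ _).trans (by linarith)
  have sD : |S1 - S2| ≤ 25 / 24 * ‖w‖ ^ 2 := (abs_sub _ _).trans (by linarith)
  have t5 := P eA (le_refl |b.re|)
  have t6 := P eD (le_refl |b.im|)
  have t7 := P sS (le_refl |b.im|)
  have t8 := P sD (le_refl |b.re|)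
  have m1 : 0 ≤ ‖w‖ ^ 2 * |b.re| := by positivity
  have m2 : 0 ≤ ‖w‖ ^ 2 * |b.im| := by positivity
  have m3 : 0 ≤ ‖w‖ ^ 3 * ‖z‖ := by positivity
  have t1' := (abs_le.1 t1).1
  have t2' := (abs_le.1 t2).1
  have t3' := (abs_le.1 t3).1
  have t4' := (abs_le.1 t4).1
  have t5' := (abs_le.1 t5).1
  have t7' := (abs_le.1 t7).2
  have t6' : r * ((E1 - E2) * b.im) ≤ 1733 / 1000 * (17 / 30 * ‖w‖ ^ 2 * |b.im|) := by
    have h1 : (E1 - E2) * b.im ≤ 17 / 30 * ‖w‖ ^ 2 * |b.im| := (abs_le.1 t6).2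
    have h2 := mul_le_mul_of_nonneg_left h1 r0
    have h3 : r * (17 / 30 * ‖w‖ ^ 2 * |b.im|) ≤ 1733 / 1000 * (17 / 30 * ‖w‖ ^ 2 * |b.im|) :=
      mul_le_mul_of_nonneg_right r1 (by positivity)
    linarith
  have t8' : r * ((S1 - S2) * b.re) ≤ 1733 / 1000 * (25 / 24 * ‖w‖ ^ 2 * |b.re|) := by
    have h1 : (S1 - S2) * b.re ≤ 25 / 24 * ‖w‖ ^ 2 * |b.re| := (abs_le.1 t8).2
    have h2 := mul_le_mul_of_nonneg_left h1 r0
    have h3 : r * (25 / 24 * ‖w‖ ^ 2 * |b.re|) ≤ 1733 / 1000 * (25 / 24 * ‖w‖ ^ 2 * |b.re|) :=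
      mul_le_mul_of_nonneg_right r1 (by positivity)
    linarith
  have main : 2 * ((E1 + E2) - 1 / 2 * ((E1 + E2) * b.re) + 5 / 8 * (r * ((E1 - E2) * b.im))
      + 1 / 2 * (r * ((S1 - S2) * b.re)) + 11 / 8 * ((S1 + S2) * b.im)
      - C1 * (1 / 2 * z.re + r / 2 * z.im) - O1 * (1 / 2 * z.im + -(r / 2) * z.re)
      - C2 * (1 / 2 * z.re + -(r / 2) * z.im) - O2 * (1 / 2 * z.im + r / 2 * z.re)
      - (3 / 2 * (w.re * z.re) + 1 / 2 * (w.im * z.im))) ≤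
      2 * (17 / 30 * Lf w - (3 / 2 * (w.re * z.re) + 1 / 2 * (w.im * z.im)) + 16 / 5 * (‖w‖ ^ 3 * ‖z‖)
      + 7 / 5 * (‖w‖ ^ 2 * |b.re|) + 11 / 5 * (‖w‖ ^ 2 * |b.im|)) := by
    linarith
  refine le_trans (le_of_eq ?_) main
  linear_combination (-(w.re * z.re)) * r2

end Helper44.Far
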