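import Pool.Agent.Helper44.RC.M_NR4

/-!
# Project RC, SHARP: the near constants, 5

`Kq`: the dual field inequality with a quadratic price. `near_z2`: near data have `⟨|z|²⟩ ≤ 99/100`.
-/

open MeasureTheory Set Filter Topology

namespace Helper44.Far

open Helper49.LT hiding sg
open Helper49.RC Helper44.GQ
open Helper56.RC (fc)
open Helper87.RC (BM pars)
open Helper49.Sharp
open Pool.Agent.Helper20.RC (wR)
open Pool.Agent.Helper51.RC (KK KK_eq S4 S4_KK)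

/-- the price is at most quadratic -/
theorem KK_quad {X Y y s : ℝ} (hy : y ^ 2 = Y ^ 2 / 3) (hs : X ^ 2 + Y ^ 2 ≤ s) :
    KK X y ≤ 117 / 10000 + (8 / 25 + 19 / 1250 * s) * (X ^ 2 + Y ^ 2) - 163 / 1000 * (X ^ 2 - Y ^ 2) := by
  rw [KK_eq X Y y hy]
  have h0 : 0 ≤ X ^ 2 + Y ^ 2 := by positivity
  have h1 : (X ^ 2 + Y ^ 2) ^ 2 ≤ s * (X ^ 2 + Y ^ 2) := by nlinarith
  have h2 : 0 ≤ X ^ 2 := sq_nonneg _
  have h3 : 0 ≤ Y ^ 2 := sq_nonneg _
  have h4 : 0 ≤ X ^ 2 * Y ^ 2 := mul_nonneg h2 h3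
  have h5 : 0 ≤ (X ^ 2) ^ 2 := sq_nonneg _
  have h6 : 0 ≤ (Y ^ 2) ^ 2 := sq_nonneg _
  nlinarith [sq_nonneg (X ^ 2 - 3981 / 2000 * Y ^ 2)]

/-- the dual field inequality -/
theorem Kq {s : ℝ} (hs : s ≤ 121 / 50) (b z q : ℂ) (hq : ‖q‖ ^ 2 ≤ s) :
    ((starRingEnd ℂ) q * z).re ≤ E4 b z + 3 / 2 * b.re ^ 2 + 117 / 10000 + (8 / 25 + 19 / 1250 * s) * ‖q‖ ^ 2
      - 163 / 1000 * (q ^ 2).re := by
  have r2 : Real.sqrt 3 ^ 2 = 3 := Real.sq_sqrt (by norm_num)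
  have r0 : Real.sqrt 3 ≠ 0 := by positivity
  have nq : ‖q‖ ^ 2 = q.re ^ 2 + q.im ^ 2 := by
    rw [← Complex.normSq_eq_norm_sq, Complex.normSq_apply]; ring
  have q2 : (q ^ 2).re = q.re ^ 2 - q.im ^ 2 := by rw [pow_two, Complex.mul_re]; ring
  have hy : (q.im / Real.sqrt 3) ^ 2 = q.im ^ 2 / 3 := by rw [div_pow, r2]
  have k := S4_KK (x := q.re) (y := q.im / Real.sqrt 3) (by rw [hy]; rw [nq] at hq; linarith) b z
  have k2 := KK_quad (X := q.re) (s := s) hy (by rw [nq] at hq; linarith)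
  have e : Real.sqrt 3 * (q.im / Real.sqrt 3) = q.im := by field_simp
  rw [e] at k
  have e2 : ((starRingEnd ℂ) q * z).re = q.re * z.re + q.im * z.im := by
    rw [Complex.mul_re, Complex.conj_re, Complex.conj_im]; ring
  rw [e2, nq, q2]
  unfold S4 at k
  unfold E4
  linarith

theorem z_dom {b z : ℂ} (h : Dom b z) : ‖z‖ ^ 2 ≤ 25 / 4 := by
  obtain ⟨hb, X, Y, hX, hY, rfl⟩ := h
  have r2 : Real.sqrt 3 ^ 2 = 3 := Real.sq_sqrt (by norm_num)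
  have nb : b.re ^ 2 + b.im ^ 2 < 1 := by
    have : ‖b‖ ^ 2 = b.re ^ 2 + b.im ^ 2 := by
      rw [← Complex.normSq_eq_norm_sq, Complex.normSq_apply]; ring
    have h0 := norm_nonneg b
    nlinarith
  have na : ‖aQ 2 b‖ ^ 2 = (1 + b.re) ^ 2 + b.im ^ 2 / 4 := by
    rw [← Complex.normSq_eq_norm_sq, Complex.normSq_apply]
    unfold aQ
    simp
    ring
  have nc : ‖cQ 2 b‖ ^ 2 = 3 * b.im ^ 2 + 3 / 4 * (1 - b.re) ^ 2 := by
    rw [← Complex.normSq_eq_norm_sq, Complex.normSq_apply]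
    unfold cQ
    simp
    linear_combination (b.im ^ 2 + (1 - b.re) ^ 2 / 4) * r2
  have h1 : ‖(X : ℂ) * aQ 2 b + (Y : ℂ) * cQ 2 b‖ ≤ 1 / 2 * ‖aQ 2 b‖ + ‖cQ 2 b‖ := by
    refine (norm_add_le _ _).trans ?_
    rw [norm_mul, norm_mul, Complex.norm_real, Complex.norm_real, Real.norm_eq_abs, Real.norm_eq_abs]
    have a1 := mul_le_mul_of_nonneg_right hX (norm_nonneg (aQ 2 b))
    have a2 := mul_le_mul_of_nonneg_right hY (norm_nonneg (cQ 2 b))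
    linarith
  have h2 : ‖(X : ℂ) * aQ 2 b + (Y : ℂ) * cQ 2 b‖ ^ 2 ≤ (1 / 2 * ‖aQ 2 b‖ + ‖cQ 2 b‖) ^ 2 :=
    pow_le_pow_left₀ (norm_nonneg _) h1 2
  refine h2.trans ?_
  set p := ‖aQ 2 b‖
  set q := ‖cQ 2 b‖
  have h3 : (1 / 2 * p + q) ^ 2 ≤ 429 / 400 * p ^ 2 + 429 / 329 * q ^ 2 := by
    nlinarith [sq_nonneg (329 * p - 200 * q)]
  rw [na, nc] at h3
  nlinarith [sq_nonneg (b.re - 1 / 20)]

variable {b z : ℝ → ℂ}

/-- **near data: the mean of `|z|²`** -/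
theorem near_z2 (h : AdmQ 2 b z) (hn : Near b z) : mean (fun t => ‖z t‖ ^ 2) ≤ 99 / 100 := by
  have hn' : Sp b z + 3 / 4 * mean (fun t => (b t).re ^ 2) < 1 / 5 := hn
  have bz := (br_z h).sq
  have b2 := (br_re h).sq
  have e4 := E4_br h
  have e := two_Sp h
  have pt : ∀ t, 42 / 100 * ‖z t‖ ^ 2 ≤ E4 (b t) (z t) + 3 / 2 * (b t).re ^ 2 + 117 / 10000 := by
    intro t
    have hz := z_dom (dom_of h t)
    have hs : ‖((31 / 50 : ℝ) : ℂ) * z t‖ ^ 2 ≤ 2.4025 := by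
      rw [norm_mul, Complex.norm_real, mul_pow]
      norm_num
      nlinarith
    have k := Kq (s := 2.4025) (by norm_num) (b t) (z t) _ hs
    have nz : ‖z t‖ ^ 2 = (z t).re ^ 2 + (z t).im ^ 2 := by
      rw [← Complex.normSq_eq_norm_sq, Complex.normSq_apply]; ring
    have e1 : ((starRingEnd ℂ) (((31 / 50 : ℝ) : ℂ) * z t) * z t).re = 31 / 50 * ‖z t‖ ^ 2 := by
      rw [map_mul, Complex.conj_ofReal, mul_assoc, Complex.re_ofReal_mul, nz, Complex.mul_re, Complex.conj_re,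
        Complex.conj_im]
      ring
    have e2 : ‖((31 / 50 : ℝ) : ℂ) * z t‖ ^ 2 = 961 / 2500 * ‖z t‖ ^ 2 := by
      rw [norm_mul, Complex.norm_real, mul_pow]
      norm_num
    have e3 : ((((31 / 50 : ℝ) : ℂ) * z t) ^ 2).re = 961 / 2500 * ((z t).re ^ 2 - (z t).im ^ 2) := by
      rw [mul_pow, ← Complex.ofReal_pow, Complex.re_ofReal_mul, pow_two (z t), Complex.mul_re]
      norm_num
      ring
    rw [e1, e2, e3, nz] at k
    rw [nz]
    nlinarith [sq_nonneg (z t).re, sq_nonneg (z t).im]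
  have m := mean_mono (bz.cmul (42 / 100)) ((e4.add (b2.cmul (3 / 2))).add (BR.const (117 / 10000))) pt
  rw [mean_add (e4.add (b2.cmul (3 / 2))) (BR.const _), mean_add e4 (b2.cmul (3 / 2)), mean_cmul, mean_cmul,
    Pool.Agent.Helper51.RC.mean_const] at m
  linarith

end Helper44.Far
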