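import Pool.Agent.Helper44.RC.M_NR5

/-!
# Project RC, SHARP: the near constants, 6

Trigonometric polynomials `tp H a` and their means; `tail_le`: the replacement of the alignments by trigonometric
polynomials.
-/

open MeasureTheory Set Filter Topology

namespace Helper44.Far

open Helper49.LT hiding sg
open Helper49.RC Helper44.GQ
open Helper56.RC (fc)
open Helper87.RC (BM pars fc_cmul fc_add fc_conj fc_sub fc_eq fc_perpi fc_anti)
open Helper49.Sharp
open Pool.Agent.Helper20.RC (wR)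

/-! ### trigonometric polynomials -/

/-- the trigonometric polynomial with the coefficients `a` on `H` -/
noncomputable def tp (H : Finset ℤ) (a : ℤ → ℂ) (t : ℝ) : ℂ := ∑ n ∈ H, a n * ee ((n : ℝ) * t)

theorem tp_bm (H : Finset ℤ) (a : ℤ → ℂ) : BM (tp H a) (∑ n ∈ H, ‖a n‖) := by
  refine ⟨?_, fun t => ?_⟩
  · unfold tp
    exact Finset.measurable_sum _ fun n _ => (((BM.eec (n : ℝ)).m).const_mul (a n))
  · unfold tp
    refine (norm_sum_le _ _).trans (Finset.sum_le_sum fun n _ => ?_)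
    rw [norm_mul, norm_ee, mul_one]
where
  BM.eec (c : ℝ) := Helper87.RC.BM.eec c

theorem mean_re' {f : ℝ → ℂ} {C : ℝ} (h : BM f C) : mean (fun t => (f t).re) = (fc f 0).re := (fc0_re h).symm

theorem fc_mul_ee (f : ℝ → ℂ) (n : ℤ) : fc (fun t => f t * ee (-((n : ℝ) * t))) 0 = fc f n := by
  rw [fc_eq, fc_eq]
  congr 1
  refine intervalIntegral.integral_congr fun t _ => ?_
  show f t * ee (-((n : ℝ) * t)) * ee (-((0 : ℤ) : ℝ) * t) = f t * ee (-(n : ℝ) * t)
  have : ee (-((0 : ℤ) : ℝ) * t) = 1 := by simp [ee_zero]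
  rw [this, mul_one, neg_mul]

/-- pairing with a trigonometric polynomial -/
theorem mean_tp {f : ℝ → ℂ} {C : ℝ} (h : BM f C) (H : Finset ℤ) (a : ℤ → ℂ) :
    mean (fun t => ((starRingEnd ℂ) (tp H a t) * f t).re) = (∑ n ∈ H, (starRingEnd ℂ) (a n) * fc f n).re := by
  induction H using Finset.induction_on with
  | empty =>
    simp only [tp, Finset.sum_empty, map_zero, zero_mul, Complex.zero_re]
    exact Pool.Agent.Helper51.RC.mean_const 0
  | insert m H hm ih =>
    have e : ∀ t, ((starRingEnd ℂ) (tp (insert m H) a t) * f t).re =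
        ((starRingEnd ℂ) (a m) * (f t * ee (-((m : ℝ) * t)))).re + ((starRingEnd ℂ) (tp H a t) * f t).re := by
      intro t
      rw [← Complex.add_re]
      congr 1
      unfold tp
      rw [Finset.sum_insert hm, map_add, map_mul, ← ee_neg]
      ring
    have k1 : BM (fun t => (starRingEnd ℂ) (a m) * (f t * ee (-((m : ℝ) * t)))) (‖(starRingEnd ℂ) (a m)‖ * (C * 1)) := by
      have h2 : BM (fun t => ee (-((m : ℝ) * t))) 1 := by
        have := Helper87.RC.BM.eec (-(m : ℝ))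
        simpa only [neg_mul] using this
      exact (h.mul h2).cmul _
    have k2 := ((tp_bm H a).conj.mul h)
    rw [mean_congr e, mean_add (BR.re k1) (BR.re k2), ih, mean_re' k1, fc_cmul, fc_mul_ee, Finset.sum_insert hm,
      Complex.add_re]

theorem fc_tp (H : Finset ℤ) (a : ℤ → ℂ) (n : ℤ) : fc (tp H a) n = if n ∈ H then a n else 0 := by
  induction H using Finset.induction_on with
  | empty =>
    have : tp ∅ a = fun _ => (0 : ℂ) := by funext t; simp [tp]
    rw [this]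
    unfold fc
    simp
  | insert m H hm ih =>
    have e : tp (insert m H) a = fun t => a m * ee ((m : ℝ) * t) + tp H a t := by
      funext t
      unfold tp
      rw [Finset.sum_insert hm]
    rw [e, fc_add ((Helper87.RC.BM.eec (m : ℝ)).cmul (a m)) (tp_bm H a), fc_cmul, Pool.Agent.Helper20.RC.fc_eek, ih]
    by_cases hn : n = m
    · subst hn
      rw [if_pos rfl, if_neg hm, if_pos (Finset.mem_insert_self _ _)]
      ring
    · rw [if_neg hn]
      by_cases h2 : n ∈ H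
      · rw [if_pos h2, if_pos (Finset.mem_insert_of_mem h2)]; ring
      · rw [if_neg h2, if_neg (by rw [Finset.mem_insert, not_or]; exact ⟨hn, h2⟩)]; ring

theorem cnj_mul_re (z : ℂ) : ((starRingEnd ℂ) z * z).re = ‖z‖ ^ 2 := by
  rw [← Complex.normSq_eq_norm_sq, Complex.normSq_apply, Complex.mul_re, Complex.conj_re, Complex.conj_im]
  ring

theorem mean_tp_sq (H : Finset ℤ) (a : ℤ → ℂ) : mean (fun t => ‖tp H a t‖ ^ 2) = ∑ n ∈ H, ‖a n‖ ^ 2 := by
  have e : ∀ t, ‖tp H a t‖ ^ 2 = ((starRingEnd ℂ) (tp H a t) * tp H a t).re := fun t => (cnj_mul_re _).symm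
  rw [mean_congr e, mean_tp (tp_bm H a), Complex.re_sum]
  refine Finset.sum_congr rfl fun n hn => ?_
  rw [fc_tp, if_pos hn, cnj_mul_re]

theorem mean_tp_re2 (H : Finset ℤ) (hH : ∀ n ∈ H, -n ∈ H) (a : ℤ → ℂ) :
    mean (fun t => (tp H a t ^ 2).re) = (∑ n ∈ H, a n * a (-n)).re := by
  have e : ∀ t, (tp H a t ^ 2).re = ((starRingEnd ℂ) (tp H a t) * (starRingEnd ℂ) (tp H a t)).re := by
    intro t
    rw [← map_mul, Complex.conj_re, pow_two]
  rw [mean_congr e, mean_tp (tp_bm H a).conj, Complex.re_sum, Complex.re_sum]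
  refine Finset.sum_congr rfl fun n hn => ?_
  rw [fc_conj, fc_tp, if_pos (hH n hn), ← map_mul, Complex.conj_re]

/-- the mean of the square of the real part -/
theorem mean_tp_rr (H : Finset ℤ) (hH : ∀ n ∈ H, -n ∈ H) (a : ℤ → ℂ) :
    mean (fun t => (tp H a t).re ^ 2) = 1 / 2 * ((∑ n ∈ H, ‖a n‖ ^ 2) + (∑ n ∈ H, a n * a (-n)).re) := by
  have e : ∀ t, (tp H a t).re ^ 2 = 1 / 2 * (‖tp H a t‖ ^ 2 + (tp H a t ^ 2).re) := by
    intro t
    rw [← Complex.normSq_eq_norm_sq, Complex.normSq_apply, pow_two (tp H a t), Complex.mul_re]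
    ring
  have b1 := (BR.nrm (tp_bm H a)).sq
  have b2 : BR (fun t => (tp H a t ^ 2).re) := by
    have := BR.re ((tp_bm H a).mul (tp_bm H a))
    have e2 : (fun t => (tp H a t ^ 2).re) = fun t => (tp H a t * tp H a t).re := by
      funext t; rw [pow_two]
    rw [e2]; exact this
  rw [mean_congr e, mean_cmul, mean_add b1 b2, mean_tp_sq, mean_tp_re2 H hH]

/-! ### the tail -/

variable {b z : ℝ → ℂ} {P : Par}

/-- the distance of a unit function to a trigonometric polynomial -/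
theorem dist_le {v : ℝ → ℂ} (hv : BM v 1) (h1 : ∀ t, ‖v t‖ = 1) (H : Finset ℤ) (a : ℤ → ℂ) {ε : ℝ}
    (hε : ∀ n ∈ H, ‖fc v n - a n‖ ≤ ε) :
    mean (fun t => ‖v t - tp H a t‖ ^ 2) ≤ 1 - (∑ n ∈ H, ‖a n‖ ^ 2) + 2 * ε * ∑ n ∈ H, ‖a n‖ := by
  have e : ∀ t, ‖v t - tp H a t‖ ^ 2 = 1 - 2 * ((starRingEnd ℂ) (tp H a t) * v t).re + ‖tp H a t‖ ^ 2 := by
    intro t
    have h2 : ‖v t‖ ^ 2 = 1 := by rw [h1, one_pow]
    rw [← Complex.normSq_eq_norm_sq, Complex.normSq_apply] at h2 ⊢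
    rw [← Complex.normSq_eq_norm_sq, Complex.normSq_apply, Complex.mul_re, Complex.conj_re, Complex.conj_im,
      Complex.sub_re, Complex.sub_im]
    linear_combination h2
  have b1 := BR.re ((tp_bm H a).conj.mul hv)
  have b2 := (BR.nrm (tp_bm H a)).sq
  rw [mean_congr e, mean_add ((BR.const 1).sub (b1.cmul 2)) b2, mean_sub (BR.const 1) (b1.cmul 2), mean_cmul,
    mean_tp_sq, mean_tp hv, Pool.Agent.Helper51.RC.mean_const, Complex.re_sum]
  have key : ∑ n ∈ H, ‖a n‖ ^ 2 - ε * ∑ n ∈ H, ‖a n‖ ≤ ∑ n ∈ H, ((starRingEnd ℂ) (a n) * fc v n).re := by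
    rw [Finset.mul_sum, ← Finset.sum_sub_distrib]
    refine Finset.sum_le_sum fun n hn => ?_
    have h3 : (starRingEnd ℂ) (a n) * fc v n = (starRingEnd ℂ) (a n) * a n + (starRingEnd ℂ) (a n) * (fc v n - a n) := by
      ring
    rw [h3, Complex.add_re, cnj_mul_re]
    have h4 := (abs_le.1 (Complex.abs_re_le_norm ((starRingEnd ℂ) (a n) * (fc v n - a n)))).1
    rw [norm_mul, Complex.norm_conj] at h4
    have h5 := mul_le_mul_of_nonneg_left (hε n hn) (norm_nonneg (a n))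
    linarith
  linarith

/-- the deviations of the edges from the regular hexagon -/
theorem hh_mean (h : AdmQ 2 b z) (hn : Near b z) :
    mean (fun t => ‖g1 (b t) (z t) - om‖ ^ 2 + ‖g2 (b t) (z t) - om ^ 2‖ ^ 2) ≤ 3 := by
  obtain ⟨D, k1, k2, kz⟩ := g_bm h
  have b1 := (BR.nrm (k1.sub om_bm)).sq
  have b2 := (BR.nrm (k2.sub om2_bm)).sq
  have hper : ∀ t, ‖g1 (b (t + 2 * Real.pi)) (z (t + 2 * Real.pi)) - om‖ ^ 2
      + ‖g2 (b (t + 2 * Real.pi)) (z (t + 2 * Real.pi)) - om ^ 2‖ ^ 2 =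
      ‖g1 (b t) (z t) - om‖ ^ 2 + ‖g2 (b t) (z t) - om ^ 2‖ ^ 2 := fun t => by rw [z_per2 h, per2 h.perb]
  have r2 : Real.sqrt 3 ^ 2 = 3 := Real.sq_sqrt (by norm_num)
  have omr : om.re = 1 / 2 := by rw [Helper95.RC.om_val]; simp
  have omi : om.im = Real.sqrt 3 / 2 := by rw [Helper95.RC.om_val]; simp
  have osr : (om ^ 2).re = -(1 / 2) := by rw [sq, Complex.mul_re, omr, omi]; nlinarith
  have osi : (om ^ 2).im = Real.sqrt 3 / 2 := by rw [sq, Complex.mul_im, omr, omi]; ring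
  have e : ∀ t, ‖g1 (b t) (z t) - om‖ ^ 2 + ‖g2 (b t) (z t) - om ^ 2‖ ^ 2
      + (‖g1 (b (t + Real.pi)) (z (t + Real.pi)) - om‖ ^ 2 + ‖g2 (b (t + Real.pi)) (z (t + Real.pi)) - om ^ 2‖ ^ 2) =
      4 * (b t).re ^ 2 + 49 / 4 * (b t).im ^ 2 + 4 * ‖z t‖ ^ 2 := by
    intro t
    rw [h.perb, h.perz]
    have nn : ∀ x : ℂ, ‖x‖ ^ 2 = x.re ^ 2 + x.im ^ 2 := fun x => by
      rw [← Complex.normSq_eq_norm_sq, Complex.normSq_apply]; ring
    rw [nn, nn, nn, nn, nn]
    simp only [Complex.sub_re, Complex.sub_im, g1_re, g1_im, g2_re, g2_im, omr, omi, osr, osi, Complex.neg_re,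
      Complex.neg_im]
    linear_combination (4 * (b t).im ^ 2 + (b t).re ^ 2) * r2
  have m2 := (br_re h).sq
  have m3 := (br_im h).sq
  have mz := (br_z h).sq
  rw [mean_pair (b1.add b2) hper, mean_congr e, mean_add ((m2.cmul 4).add (m3.cmul (49 / 4))) (mz.cmul 4),
    mean_add (m2.cmul 4) (m3.cmul (49 / 4)), mean_cmul, mean_cmul, mean_cmul]
  have x1 := near_b h hn
  have x2 := near_z2 h hn
  have x3 : 0 ≤ mean (fun t => (b t).re ^ 2) := mean_nonneg fun t => sq_nonneg _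
  have x4 : 0 ≤ mean (fun t => (b t).im ^ 2) := mean_nonneg fun t => sq_nonneg _
  linarith

end Helper44.Far
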