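import Pool.Agent.Helper44.RC.M_NR6

/-!
# Project RC, SHARP: the near constants, 7

`lamA_le`: bound of the excess over the alignments of any certificate by the Fourier data of the alignments.
-/

open MeasureTheory Set Filter Topology

namespace Helper44.Far

open Helper49.LT hiding sg
open Helper49.RC Helper44.GQ
open Helper56.RC (fc)
open Helper87.RC (BM pars fc_cmul fc_add fc_conj fc_sub fc_eq fc_perpi fc_anti)
open Helper49.Sharp
open Pool.Agent.Helper20.RC (wR)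

variable {b z : ℝ → ℂ} {P : Par}

/-- the affine functional with the alignments replaced -/
noncomputable def MainA (p1 p2 : ℝ → ℂ) (b z : ℝ → ℂ) (t : ℝ) : ℝ :=
  ((starRingEnd ℂ) (om - p1 t) * g1 (b t) (z t)).re + ((starRingEnd ℂ) (om ^ 2 - p2 t) * g2 (b t) (z t)).re

theorem lin_r {v : ℝ → ℂ} (hv : BM v 1) {H : Finset ℤ} (h0 : (0 : ℤ) ∈ H) {a : ℤ → ℂ} {ε : ℝ}
    (hε : ∀ n ∈ H, ‖fc v n - a n‖ ≤ ε) (c : ℂ) (hc : ‖c‖ = 1) :
    -ε ≤ mean (fun t => ((starRingEnd ℂ) (v t - tp H a t) * c).re) := by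
  have k := hv.sub (tp_bm H a)
  have k2 := k.cmul ((starRingEnd ℂ) c)
  have e : ∀ t, ((starRingEnd ℂ) (v t - tp H a t) * c).re = ((starRingEnd ℂ) c * (v t - tp H a t)).re := by
    intro t
    simp only [Complex.mul_re, Complex.conj_re, Complex.conj_im]
    ring
  rw [mean_congr e, mean_re' k2, fc_cmul, fc_sub hv (tp_bm H a), fc_tp, if_pos h0]
  have h1 := (abs_le.1 (Complex.abs_re_le_norm ((starRingEnd ℂ) c * (fc v 0 - a 0)))).1
  rw [norm_mul, Complex.norm_conj, hc, one_mul] at h1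
  have h2 := hε 0 h0
  linarith

/-- **the tail** -/
theorem tail_le (h : AdmQ 2 b z) (hn : Near b z) (hr : P.Reg) {H : Finset ℤ} (h0 : (0 : ℤ) ∈ H) {a1 a2 : ℤ → ℂ} {ε : ℝ}
    (e1 : ∀ n ∈ H, ‖fc P.v1 n - a1 n‖ ≤ ε) (e2 : ∀ n ∈ H, ‖fc P.v2 n - a2 n‖ ≤ ε) {τ : ℝ} (hτ : 0 < τ)
    (hτ2 : (1 - (∑ n ∈ H, ‖a1 n‖ ^ 2) + 2 * ε * ∑ n ∈ H, ‖a1 n‖)
      + (1 - (∑ n ∈ H, ‖a2 n‖ ^ 2) + 2 * ε * ∑ n ∈ H, ‖a2 n‖) ≤ τ ^ 2) :
    mean (LamA P b z) ≤ mean (MainA (tp H a1) (tp H a2) b z) + 2 * ε + 97 / 56 * τ := by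
  obtain ⟨D, k1, k2, kz⟩ := g_bm h
  have v1 := v1_bm hr
  have v2 := v2_bm hr
  have n1 : ∀ t, ‖P.v1 t‖ = 1 := fun t => by unfold Par.v1; rw [norm_ee]
  have n2 : ∀ t, ‖P.v2 t‖ = 1 := fun t => by unfold Par.v2; rw [norm_ee]
  have no : ‖om‖ = 1 := by unfold om; rw [norm_ee]
  have no2 : ‖om ^ 2‖ = 1 := by rw [norm_pow, no, one_pow]
  have r1 := v1.sub (tp_bm H a1)
  have r2 := v2.sub (tp_bm H a2)
  have c1 := lin_r v1 h0 e1 om no
  have c2 := lin_r v2 h0 e2 (om ^ 2) no2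
  have d1 := dist_le v1 n1 H a1 e1
  have d2 := dist_le v2 n2 H a2 e2
  have hh := hh_mean h hn
  have bM : BR (MainA (tp H a1) (tp H a2) b z) :=
    (BR.re ((om_bm.sub (tp_bm H a1)).conj.mul k1)).add (BR.re ((om2_bm.sub (tp_bm H a2)).conj.mul k2))
  have bl1 := BR.re (r1.conj.mul om_bm)
  have bl2 := BR.re (r2.conj.mul om2_bm)
  have bs1 := (BR.nrm r1).sq
  have bs2 := (BR.nrm r2).sq
  have bh := ((BR.nrm (k1.sub om_bm)).sq).add ((BR.nrm (k2.sub om2_bm)).sq)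
  have pt : ∀ t, LamA P b z t ≤ ((MainA (tp H a1) (tp H a2) b z t
      - (((starRingEnd ℂ) (P.v1 t - tp H a1 t) * om).re + ((starRingEnd ℂ) (P.v2 t - tp H a2 t) * om ^ 2).re))
      + 7 / (8 * τ) * (‖P.v1 t - tp H a1 t‖ ^ 2 + ‖P.v2 t - tp H a2 t‖ ^ 2))
      + 2 * τ / 7 * (‖g1 (b t) (z t) - om‖ ^ 2 + ‖g2 (b t) (z t) - om ^ 2‖ ^ 2) := by
    intro t
    have am : ∀ r x : ℂ, -((starRingEnd ℂ) r * x).re ≤ 7 / (8 * τ) * ‖r‖ ^ 2 + 2 * τ / 7 * ‖x‖ ^ 2 := by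
      intro r x
      have q1 := (abs_le.1 (Complex.abs_re_le_norm ((starRingEnd ℂ) r * x))).1
      rw [norm_mul, Complex.norm_conj] at q1
      have q2 : ‖r‖ * ‖x‖ ≤ 7 / (8 * τ) * ‖r‖ ^ 2 + 2 * τ / 7 * ‖x‖ ^ 2 := by
        have q3 : 7 / (8 * τ) * ‖r‖ ^ 2 + 2 * τ / 7 * ‖x‖ ^ 2 - ‖r‖ * ‖x‖ = 7 / (8 * τ) * (‖r‖ - 4 * τ / 7 * ‖x‖) ^ 2 := by
          field_simp
          ring
        have q4 : 0 ≤ 7 / (8 * τ) * (‖r‖ - 4 * τ / 7 * ‖x‖) ^ 2 := by positivity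
        linarith
      linarith
    have x1 := am (P.v1 t - tp H a1 t) (g1 (b t) (z t) - om)
    have x2 := am (P.v2 t - tp H a2 t) (g2 (b t) (z t) - om ^ 2)
    have e : LamA P b z t = MainA (tp H a1) (tp H a2) b z t
        - (((starRingEnd ℂ) (P.v1 t - tp H a1 t) * om).re + ((starRingEnd ℂ) (P.v2 t - tp H a2 t) * om ^ 2).re)
        + (-((starRingEnd ℂ) (P.v1 t - tp H a1 t) * (g1 (b t) (z t) - om)).re)
        + (-((starRingEnd ℂ) (P.v2 t - tp H a2 t) * (g2 (b t) (z t) - om ^ 2)).re) := by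
      unfold LamA MainA
      simp only [map_sub, sub_mul, mul_sub, Complex.sub_re]
      ring
    rw [e]
    linarith
  have m := mean_mono (LamA_br h hr) (((bM.sub (bl1.add bl2)).add ((bs1.add bs2).cmul (7 / (8 * τ)))).add
    (bh.cmul (2 * τ / 7))) pt
  rw [mean_add ((bM.sub (bl1.add bl2)).add ((bs1.add bs2).cmul _)) (bh.cmul _),
    mean_add (bM.sub (bl1.add bl2)) ((bs1.add bs2).cmul _), mean_sub bM (bl1.add bl2), mean_add bl1 bl2, mean_cmul,
    mean_cmul, mean_add bs1 bs2] at m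
  have t1 : 7 / (8 * τ) * (mean (fun t => ‖P.v1 t - tp H a1 t‖ ^ 2) + mean (fun t => ‖P.v2 t - tp H a2 t‖ ^ 2))
      ≤ 7 / (8 * τ) * τ ^ 2 := mul_le_mul_of_nonneg_left (by linarith) (by positivity)
  have t2 : 7 / (8 * τ) * τ ^ 2 = 7 / 8 * τ := by field_simp
  have t3 : 2 * τ / 7 * mean (fun t => ‖g1 (b t) (z t) - om‖ ^ 2 + ‖g2 (b t) (z t) - om ^ 2‖ ^ 2) ≤ 2 * τ / 7 * 3 :=
    mul_le_mul_of_nonneg_left hh (by positivity)
  linarith

/-! ### the main part -/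

/-- coefficients of the price of `b₂` -/
noncomputable def cw (a1 a2 : ℤ → ℂ) (n : ℤ) : ℂ := (if n = 0 then -1 else 0) - om * a1 n - om ^ 2 * a2 n
/-- coefficients of the price of `b₃` -/
noncomputable def cx (a1 a2 : ℤ → ℂ) (n : ℤ) : ℂ :=
  -(((Real.sqrt 3 : ℝ) : ℂ) - Complex.I / 4) * a1 n - (((Real.sqrt 3 : ℝ) : ℂ) + Complex.I / 4) * a2 n
/-- coefficients of the field paired with `z` -/
noncomputable def cq (a1 a2 : ℤ → ℂ) (n : ℤ) : ℂ := (if n = 0 then 1 else 0) - a1 n + a2 n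

theorem tp_single {H : Finset ℤ} (h0 : (0 : ℤ) ∈ H) (c : ℂ) (t : ℝ) :
    tp H (fun n => if n = 0 then c else 0) t = c := by
  unfold tp
  rw [Finset.sum_eq_single (0 : ℤ)]
  · simp [ee_zero]
  · intro n _ hn
    simp [hn]
  · intro hn
    exact absurd h0 hn

theorem tp_cw {H : Finset ℤ} (h0 : (0 : ℤ) ∈ H) (a1 a2 : ℤ → ℂ) (t : ℝ) :
    tp H (cw a1 a2) t = -1 - om * tp H a1 t - om ^ 2 * tp H a2 t := by
  have e := tp_single h0 (-1) t
  unfold tp cw at *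
  simp only [sub_mul]
  rw [Finset.sum_sub_distrib, Finset.sum_sub_distrib, e, Finset.mul_sum, Finset.mul_sum]
  simp only [mul_assoc]

theorem tp_cq {H : Finset ℤ} (h0 : (0 : ℤ) ∈ H) (a1 a2 : ℤ → ℂ) (t : ℝ) :
    tp H (cq a1 a2) t = 1 - tp H a1 t + tp H a2 t := by
  have e := tp_single h0 1 t
  unfold tp cq at *
  simp only [add_mul, sub_mul]
  rw [Finset.sum_add_distrib, Finset.sum_sub_distrib, e]

theorem tp_cx (H : Finset ℤ) (a1 a2 : ℤ → ℂ) (t : ℝ) :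
    tp H (cx a1 a2) t = -(((Real.sqrt 3 : ℝ) : ℂ) - Complex.I / 4) * tp H a1 t
      - (((Real.sqrt 3 : ℝ) : ℂ) + Complex.I / 4) * tp H a2 t := by
  unfold tp cx
  simp only [sub_mul]
  rw [Finset.sum_sub_distrib, Finset.mul_sum, Finset.mul_sum]
  simp only [mul_assoc]

/-- only the even frequencies matter for a function of period `π` -/
theorem even_part {f : ℝ → ℝ} (hf : BR f) (hp : ∀ t, f (t + Real.pi) = f t) (H : Finset ℤ) (a : ℤ → ℂ) :
    mean (fun t => (tp H a t).re * f t) = mean (fun t => (tp (H.filter Even) a t).re * f t) := by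
  obtain ⟨C, hC⟩ := hf.b
  have hb : BM (fun t => ((f t : ℝ) : ℂ)) C :=
    ⟨Complex.measurable_ofReal.comp hf.m, fun t => by rw [Complex.norm_real]; exact hC t⟩
  have e : ∀ (K : Finset ℤ) (t : ℝ), (tp K a t).re * f t = ((starRingEnd ℂ) (tp K a t) * ((f t : ℝ) : ℂ)).re := by
    intro K t
    rw [Complex.mul_re, Complex.conj_re, Complex.ofReal_re, Complex.ofReal_im]
    ring
  rw [mean_congr (e H), mean_congr (e (H.filter Even)), mean_tp hb, mean_tp hb, Finset.sum_filter]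
  congr 1
  refine Finset.sum_congr rfl fun n _ => ?_
  split_ifs with h
  · rfl
  · rw [fc_perpi hb (fun t => by rw [hp]) (Int.not_even_iff_odd.1 h), mul_zero]

/-- the bound of `⟨f g⟩` -/
theorem mean_amgm {f g : ℝ → ℝ} (hf : BR f) (hg : BR g) {u : ℝ} (hu : 0 < u) :
    mean (fun t => f t * g t) ≤ u / 2 * mean (fun t => f t ^ 2) + 1 / (2 * u) * mean (fun t => g t ^ 2) := by
  have pt : ∀ t, f t * g t ≤ u / 2 * f t ^ 2 + 1 / (2 * u) * g t ^ 2 := by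
    intro t
    have q3 : u / 2 * f t ^ 2 + 1 / (2 * u) * g t ^ 2 - f t * g t = 1 / (2 * u) * (u * f t - g t) ^ 2 := by
      field_simp
      ring
    have q4 : 0 ≤ 1 / (2 * u) * (u * f t - g t) ^ 2 := by positivity
    linarith
  have m := mean_mono (hf.mul hg) ((hf.sq.cmul (u / 2)).add (hg.sq.cmul (1 / (2 * u)))) pt
  rwa [mean_add (hf.sq.cmul _) (hg.sq.cmul _), mean_cmul, mean_cmul] at m

/-- the frequencies `-M, …, M` -/
noncomputable def HM (M : ℕ) : Finset ℤ := Finset.Icc (-(M : ℤ)) M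

theorem zero_HM (M : ℕ) : (0 : ℤ) ∈ HM M := by
  unfold HM; rw [Finset.mem_Icc]; constructor <;> omega

theorem neg_HM {M : ℕ} {n : ℤ} (h : n ∈ HM M) : -n ∈ HM M := by
  unfold HM at *; rw [Finset.mem_Icc] at *; constructor <;> omega

/-- the field after the localisation -/
noncomputable def cr (a1 a2 : ℤ → ℂ) (al be : ℂ) (n : ℤ) : ℂ :=
  cq a1 a2 n - (if n = -3 then al else 0) - (if n = -5 then be else 0)

theorem main_eq (h : AdmQ 2 b z) {H : Finset ℤ} (h0 : (0 : ℤ) ∈ H) (a1 a2 : ℤ → ℂ) :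
    mean (MainA (tp H a1) (tp H a2) b z) = 2 - ((starRingEnd ℂ) om * a1 0).re - ((starRingEnd ℂ) (om ^ 2) * a2 0).re
      + mean (fun t => (tp H (cw a1 a2) t).re * (b t).re) + mean (fun t => (tp H (cx a1 a2) t).re * (b t).im)
      + mean (fun t => ((starRingEnd ℂ) (tp H (cq a1 a2) t) * z t).re) := by
  obtain ⟨D, k1, k2, kz⟩ := g_bm h
  have r2 : Real.sqrt 3 ^ 2 = 3 := Real.sq_sqrt (by norm_num)
  have omr : om.re = 1 / 2 := by rw [Helper95.RC.om_val]; simp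
  have omi : om.im = Real.sqrt 3 / 2 := by rw [Helper95.RC.om_val]; simp
  have osr : (om ^ 2).re = -(1 / 2) := by rw [sq, Complex.mul_re, omr, omi]; nlinarith
  have osi : (om ^ 2).im = Real.sqrt 3 / 2 := by rw [sq, Complex.mul_im, omr, omi]; ring
  have pt : ∀ t, MainA (tp H a1) (tp H a2) b z t = (((2 - ((starRingEnd ℂ) om * tp H a1 t).re)
      - ((starRingEnd ℂ) (om ^ 2) * tp H a2 t).re) + (tp H (cw a1 a2) t).re * (b t).re
      + (tp H (cx a1 a2) t).re * (b t).im) + ((starRingEnd ℂ) (tp H (cq a1 a2) t) * z t).re := by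
    intro t
    rw [tp_cw h0, tp_cx, tp_cq h0]
    unfold MainA
    set p := tp H a1 t
    set q := tp H a2 t
    simp only [Complex.mul_re, Complex.mul_im, Complex.sub_re, Complex.sub_im, Complex.add_re, Complex.add_im,
      Complex.conj_re, Complex.conj_im, Complex.neg_re, Complex.neg_im, Complex.one_re, Complex.one_im, g1_re, g1_im,
      g2_re, g2_im, omr, omi, osr, osi, Complex.ofReal_re, Complex.ofReal_im, Complex.div_ofNat_re,
      Complex.div_ofNat_im, Complex.I_re, Complex.I_im]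
    linear_combination (1 / 2 * (1 - (b t).re)) * r2
  have c0 := BR.re ((tp_bm H a1).cmul ((starRingEnd ℂ) om))
  have c1 := BR.re ((tp_bm H a2).cmul ((starRingEnd ℂ) (om ^ 2)))
  have c2 := (BR.re (tp_bm H (cw a1 a2))).mul (br_re h)
  have c3 := (BR.re (tp_bm H (cx a1 a2))).mul (br_im h)
  have c4 := BR.re ((tp_bm H (cq a1 a2)).conj.mul kz)
  show mean (fun t => MainA (tp H a1) (tp H a2) b z t) = _
  rw [mean_congr pt, mean_add (((((BR.const 2).sub c0).sub c1).add c2).add c3) c4,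
    mean_add ((((BR.const 2).sub c0).sub c1).add c2) c3, mean_add (((BR.const 2).sub c0).sub c1) c2,
    mean_sub ((BR.const 2).sub c0) c1, mean_sub (BR.const 2) c0, Pool.Agent.Helper51.RC.mean_const,
    mean_re' ((tp_bm H a1).cmul _), mean_re' ((tp_bm H a2).cmul _), fc_cmul, fc_cmul, fc_tp, fc_tp, if_pos h0, if_pos h0]

end Helper44.Far
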