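import Pool.Agent.Helper44.RC.M_NR7

/-!
# Project RC, SHARP: the near constants, 8

`lamA_le`: bound of the excess over the alignments of any certificate by the Fourier data of the alignments.
-/

open MeasureTheory Set Filter Topology

namespace Helper44.Far

open Helper49.LT hiding sg
open Helper49.RC Helper44.GQ
open Helper56.RC (fc)
open Helper87.RC (BM pars fc_cmul fc_add fc_conj fc_sub fc_eq fc_perpi fc_anti)
open Helper49.Sharp
open Pool.Agent.Helper20.RC (wR)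

variable {b z : ℝ → ℂ} {P : Par}

/-- the part paired with `z` -/
theorem z_split (h : AdmQ 2 b z) {M : ℕ} (hM : 5 ≤ M) (a1 a2 : ℤ → ℂ) (al be : ℂ) :
    mean (fun t => ((starRingEnd ℂ) (tp (HM M) (cq a1 a2) t) * z t).re) =
      ((starRingEnd ℂ) al * fc z (-3) + (starRingEnd ℂ) be * fc z (-5)).re
      + mean (fun t => ((starRingEnd ℂ) (tp ((HM M).filter Odd) (cr a1 a2 al be) t) * z t).re) := by
  obtain ⟨D, k1, k2, kz⟩ := g_bm h
  have m3 : (-3 : ℤ) ∈ HM M := by unfold HM; rw [Finset.mem_Icc]; constructor <;> omega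
  have m5 : (-5 : ℤ) ∈ HM M := by unfold HM; rw [Finset.mem_Icc]; constructor <;> omega
  rw [mean_tp kz, mean_tp kz, Finset.sum_filter, ← Complex.add_re]
  congr 1
  have e : ∀ n ∈ HM M, (starRingEnd ℂ) (cq a1 a2 n) * fc z n =
      ((if n = -3 then (starRingEnd ℂ) al * fc z n else 0) + (if n = -5 then (starRingEnd ℂ) be * fc z n else 0))
      + (if Odd n then (starRingEnd ℂ) (cr a1 a2 al be n) * fc z n else 0) := by
    intro n _
    by_cases ho : Odd n
    · rw [if_pos ho]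
      unfold cr
      rw [map_sub, map_sub]
      split_ifs <;> first | (simp only [map_zero]; ring) | ring
    · rw [if_neg ho]
      have h0 : fc z n = 0 := fc_anti kz h.perz (Int.not_odd_iff_even.1 ho)
      rw [h0]
      simp
  rw [Finset.sum_congr rfl e, Finset.sum_add_distrib, Finset.sum_add_distrib, Finset.sum_ite_eq', Finset.sum_ite_eq',
    if_pos m3, if_pos m5]

/-- the dual field inequality in the mean -/
theorem field_le (h : AdmQ 2 b z) (H : Finset ℤ) (hH : ∀ n ∈ H, -n ∈ H) (a : ℤ → ℂ) {k s : ℝ} (hk : 0 < k)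
    (hs : s ≤ 121 / 50) (hl : (k * ∑ n ∈ H, ‖a n‖) ^ 2 ≤ s) :
    mean (fun t => ((starRingEnd ℂ) (tp H a t) * z t).re) ≤
      (2 * Sp b z + 3 / 2 * mean (fun t => (b t).re ^ 2) + 117 / 10000) / k
      + k * ((8 / 25 + 19 / 1250 * s) * (∑ n ∈ H, ‖a n‖ ^ 2) - 163 / 1000 * (∑ n ∈ H, a n * a (-n)).re) := by
  obtain ⟨D, k1, k2, kz⟩ := g_bm h
  have hF := tp_bm H a
  have b2 := (br_re h).sq
  have e4 := E4_br h
  have bF := (BR.nrm hF).sq
  have bz := BR.re (hF.conj.mul kz)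
  have bR : BR (fun t => (tp H a t ^ 2).re) := by
    have := BR.re (hF.mul hF)
    have e2 : (fun t => (tp H a t ^ 2).re) = fun t => (tp H a t * tp H a t).re := by
      funext t; rw [pow_two]
    rw [e2]; exact this
  have pt : ∀ t, k * ((starRingEnd ℂ) (tp H a t) * z t).re ≤ (((E4 (b t) (z t) + 3 / 2 * (b t).re ^ 2) + 117 / 10000)
      + (8 / 25 + 19 / 1250 * s) * k ^ 2 * ‖tp H a t‖ ^ 2) - 163 / 1000 * k ^ 2 * (tp H a t ^ 2).re := by
    intro t
    have hq : ‖((k : ℝ) : ℂ) * tp H a t‖ ^ 2 ≤ s := by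
      rw [norm_mul, Complex.norm_real, Real.norm_eq_abs, abs_of_pos hk]
      refine le_trans ?_ hl
      exact pow_le_pow_left₀ (by positivity) (mul_le_mul_of_nonneg_left (hF.b t) hk.le) 2
    have key := Kq hs (b t) (z t) _ hq
    have e1 : ((starRingEnd ℂ) (((k : ℝ) : ℂ) * tp H a t) * z t).re = k * ((starRingEnd ℂ) (tp H a t) * z t).re := by
      rw [map_mul, Complex.conj_ofReal, mul_assoc, Complex.re_ofReal_mul]
    have e2 : ‖((k : ℝ) : ℂ) * tp H a t‖ ^ 2 = k ^ 2 * ‖tp H a t‖ ^ 2 := by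
      rw [norm_mul, Complex.norm_real, mul_pow, Real.norm_eq_abs, sq_abs]
    have e3 : ((((k : ℝ) : ℂ) * tp H a t) ^ 2).re = k ^ 2 * (tp H a t ^ 2).re := by
      rw [mul_pow, ← Complex.ofReal_pow, Complex.re_ofReal_mul]
    rw [e1, e2, e3] at key
    linarith
  have m := mean_mono (bz.cmul k) ((((e4.add (b2.cmul (3 / 2))).add (BR.const (117 / 10000))).add
    (bF.cmul ((8 / 25 + 19 / 1250 * s) * k ^ 2))).sub (bR.cmul (163 / 1000 * k ^ 2))) pt
  rw [mean_sub (((e4.add (b2.cmul (3 / 2))).add (BR.const (117 / 10000))).add (bF.cmul _)) (bR.cmul _),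
    mean_add ((e4.add (b2.cmul (3 / 2))).add (BR.const (117 / 10000))) (bF.cmul _),
    mean_add (e4.add (b2.cmul (3 / 2))) (BR.const (117 / 10000)), mean_add e4 (b2.cmul (3 / 2)), mean_cmul, mean_cmul,
    mean_cmul, mean_cmul, mean_tp_sq, mean_tp_re2 H hH, ← two_Sp h, Pool.Agent.Helper51.RC.mean_const] at m
  set X := mean (fun t => ((starRingEnd ℂ) (tp H a t) * z t).re)
  set S := ∑ n ∈ H, ‖a n‖ ^ 2
  set R := (∑ n ∈ H, a n * a (-n)).re
  have e : (2 * Sp b z + 3 / 2 * mean (fun t => (b t).re ^ 2) + 117 / 10000) / k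
      + k * ((8 / 25 + 19 / 1250 * s) * S - 163 / 1000 * R) =
      (2 * Sp b z + 3 / 2 * mean (fun t => (b t).re ^ 2) + 117 / 10000 + (8 / 25 + 19 / 1250 * s) * k ^ 2 * S
        - 163 / 1000 * k ^ 2 * R) / k := by
    field_simp
    ring
  rw [e, le_div_iff₀ hk]
  linarith

theorem neg_odd {M : ℕ} : ∀ n ∈ (HM M).filter Odd, -n ∈ (HM M).filter Odd := fun n hn => by
  rw [Finset.mem_filter] at *
  exact ⟨neg_HM hn.1, hn.2.neg⟩

theorem neg_even {M : ℕ} : ∀ n ∈ (HM M).filter Even, -n ∈ (HM M).filter Even := fun n hn => by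
  rw [Finset.mem_filter] at *
  exact ⟨neg_HM hn.1, hn.2.neg⟩

/-- sums over the odd and even frequencies -/
noncomputable def nO (M : ℕ) (a : ℤ → ℂ) : ℝ := ∑ n ∈ (HM M).filter Odd, ‖a n‖
noncomputable def sO (M : ℕ) (a : ℤ → ℂ) : ℝ := ∑ n ∈ (HM M).filter Odd, ‖a n‖ ^ 2
noncomputable def rO (M : ℕ) (a : ℤ → ℂ) : ℝ := (∑ n ∈ (HM M).filter Odd, a n * a (-n)).re
noncomputable def sE (M : ℕ) (a : ℤ → ℂ) : ℝ := ∑ n ∈ (HM M).filter Even, ‖a n‖ ^ 2
noncomputable def rE (M : ℕ) (a : ℤ → ℂ) : ℝ := (∑ n ∈ (HM M).filter Even, a n * a (-n)).re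
/-- bound of the squared distance of a unit function to its trigonometric polynomial -/
noncomputable def dT (M : ℕ) (ε : ℝ) (a : ℤ → ℂ) : ℝ :=
  1 - (∑ n ∈ HM M, ‖a n‖ ^ 2) + 2 * ε * ∑ n ∈ HM M, ‖a n‖

/-- **the excess over the alignments** by the Fourier data `a1, a2` of the alignments -/
theorem lamA_le (h : AdmQ 2 b z) (hn : Near b z) (hr : P.Reg) {M : ℕ} (hM : 5 ≤ M) {a1 a2 : ℤ → ℂ} {ε : ℝ}
    (e1 : ∀ n ∈ HM M, ‖fc P.v1 n - a1 n‖ ≤ ε) (e2 : ∀ n ∈ HM M, ‖fc P.v2 n - a2 n‖ ≤ ε) (al be : ℂ)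
    {k s τ x : ℝ} (hk : 0 < k) (hs : s ≤ 121 / 50) (hl : (k * nO M (cr a1 a2 al be)) ^ 2 ≤ s) (hτ : 0 < τ)
    (hτ2 : dT M ε a1 + dT M ε a2 ≤ τ ^ 2) (hx : 0 < x)
    (hx2 : 1 / 2 * (sE M (cx a1 a2) + rE M (cx a1 a2)) ≤ x ^ 2) :
    Sp b z + mean (LamA P b z) ≤ 1 / 5 * (1 + 2 / k) + 117 / 10000 / k
      + (2 - ((starRingEnd ℂ) om * a1 0).re - ((starRingEnd ℂ) (om ^ 2) * a2 0).re)
      + ((starRingEnd ℂ) al * fc z (-3) + (starRingEnd ℂ) be * fc z (-5)).re
      + k * ((8 / 25 + 19 / 1250 * s) * sO M (cr a1 a2 al be) - 163 / 1000 * rO M (cr a1 a2 al be))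
      + 1 / 6 * (sE M (cw a1 a2) + rE M (cw a1 a2)) + 77 / 200 * x + 2 * ε + 97 / 56 * τ := by
  have t1 := tail_le h hn hr (zero_HM M) e1 e2 hτ hτ2
  rw [main_eq h (zero_HM M), z_split h hM a1 a2 al be] at t1
  have t2 := field_le h ((HM M).filter Odd) neg_odd (cr a1 a2 al be) hk hs hl
  have bw := BR.re (tp_bm ((HM M).filter Even) (cw a1 a2))
  have bx := BR.re (tp_bm ((HM M).filter Even) (cx a1 a2))
  have pr : ∀ t, (b (t + Real.pi)).re = (b t).re := fun t => by rw [h.perb]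
  have pi' : ∀ t, (b (t + Real.pi)).im = (b t).im := fun t => by rw [h.perb]
  rw [even_part (br_re h) pr, even_part (br_im h) pi'] at t1
  have t3 := mean_amgm bw (br_re h) (u := 2 / 3) (by norm_num)
  have t4 := mean_amgm bx (br_im h) (u := 77 / (200 * x)) (by positivity)
  rw [mean_tp_rr _ neg_even] at t3 t4
  have hb := near_b h hn
  have hn' : Sp b z + 3 / 4 * mean (fun t => (b t).re ^ 2) < 1 / 5 := hn
  have x2 : 0 ≤ mean (fun t => (b t).re ^ 2) := mean_nonneg fun t => sq_nonneg _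
  have x3 : 0 ≤ mean (fun t => (b t).im ^ 2) := mean_nonneg fun t => sq_nonneg _
  have u1 : 77 / (200 * x) / 2 * (1 / 2 * (sE M (cx a1 a2) + rE M (cx a1 a2))) ≤ 77 / (200 * x) / 2 * x ^ 2 :=
    mul_le_mul_of_nonneg_left hx2 (by positivity)
  have u2 : 77 / (200 * x) / 2 * x ^ 2 = 77 / 400 * x := by field_simp; ring
  have u3 : 1 / (2 * (77 / (200 * x))) * mean (fun t => (b t).im ^ 2) ≤ 100 * x / 77 * (4 / 27) := by
    have : 1 / (2 * (77 / (200 * x))) = 100 * x / 77 := by field_simp; ring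
    rw [this]
    exact mul_le_mul_of_nonneg_left (by linarith) (by positivity)
  have u4 : (2 * Sp b z + 3 / 2 * mean (fun t => (b t).re ^ 2) + 117 / 10000) / k ≤ 2 / 5 / k + 117 / 10000 / k := by
    rw [← add_div]
    exact div_le_div_of_nonneg_right (by linarith) hk.le
  unfold nO sO rO sE rE dT at *
  have u5 : 1 / 5 * (1 + 2 / k) = 1 / 5 + 2 / 5 / k := by ring
  rw [u5]
  linarith

/-- **the price `Lam`** from the Fourier data -/
theorem gap_le (h : AdmQ 2 b z) (hr : P.Reg) {G : ℝ} (hG : Sp b z + mean (LamA P b z) ≤ G) :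
    P.s00 b z - P.e00 b z ≤ (1 + 2 * ‖P.eta‖) * G :=
  (gap_gen h hr).trans (mul_le_mul_of_nonneg_left hG (by positivity))

end Helper44.Far
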