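import Pool.Agent.Helper44.RC.StQ
import Pool.Agent.Helper87.RC.M_CLS

/-! # Project RC: module QUAD -/

open MeasureTheory Set Filter Metric

namespace Helper44.RC

open Helper49.LT Helper49.RC Helper87.RC

/-- `w × z` -/
noncomputable def cx (z w : ℂ) : ℝ := (w * (starRingEnd ℂ) z).im

theorem cx_eq (z w : ℂ) : cx z w = z.re * w.im - z.im * w.re := by
  unfold cx
  rw [Complex.mul_im, Complex.conj_re, Complex.conj_im]
  ring

theorem w_lift (z z' : ℂ) (α γ : ℝ) (h1 : z = (‖z‖ : ℂ) * ee α) (h2 : z' = (‖z'‖ : ℂ) * ee γ) :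
    z' * (starRingEnd ℂ) z = ((‖z‖ * ‖z'‖ : ℝ) : ℂ) * ee (γ - α) := by
  have h3 : (starRingEnd ℂ) z = (‖z‖ : ℂ) * ee (-α) := by
    conv_lhs => rw [h1]
    rw [map_mul, Complex.conj_ofReal, ee_neg]
  rw [h3]
  conv_lhs => rw [h2]
  rw [sub_eq_add_neg, ee_add]
  push_cast
  ring

theorem cx_lift (z z' : ℂ) (α γ : ℝ) (h1 : z = (‖z‖ : ℂ) * ee α) (h2 : z' = (‖z'‖ : ℂ) * ee γ) :
    cx z z' = ‖z‖ * ‖z'‖ * Real.sin (γ - α) := by
  unfold cx
  rw [w_lift z z' α γ h1 h2, im_ee]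

theorem kr_pos (z z' : ℂ) (α γ : ℝ) (h1 : z = (‖z‖ : ℂ) * ee α) (h2 : z' = (‖z'‖ : ℂ) * ee γ)
    (h3 : 0 ≤ γ - α) (h4 : γ - α ≤ 2 * Real.pi) :
    kr z z' = (Real.pi - (γ - α)) * cx z z' := by
  have hc := cx_lift z z' α γ h1 h2
  by_cases h0 : ‖z‖ * ‖z'‖ = 0
  · have h5 : (z' * (starRingEnd ℂ) z) = 0 := by
      rw [w_lift z z' α γ h1 h2, h0]
      simp
    unfold kr
    rw [hc, h0, h5]
    simp
  · have hr : 0 < ‖z‖ * ‖z'‖ := lt_of_le_of_ne (by positivity) (Ne.symm h0)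
    unfold kr
    rw [hc, w_lift z z' α γ h1 h2, im_ee]
    by_cases h6 : γ - α ≤ Real.pi
    · rw [arg_ee hr (by linarith [Real.pi_pos]) h6, abs_of_nonneg h3,
        abs_of_nonneg (mul_nonneg hr.le (Real.sin_nonneg_of_nonneg_of_le_pi h3 h6))]
    · push Not at h6
      have h7 : ee (γ - α) = ee (γ - α - 2 * Real.pi) := by
        rw [← ee_per (γ - α - 2 * Real.pi)]
        congr 1
        ring
      have h8 : Real.sin (γ - α) = Real.sin (γ - α - 2 * Real.pi) := by
        rw [Real.sin_sub_two_pi]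
      have h9 : Real.sin (γ - α - 2 * Real.pi) ≤ 0 :=
        Real.sin_nonpos_of_nonpos_of_neg_pi_le (by linarith) (by linarith)
      rw [h7, arg_ee hr (by linarith) (by linarith [Real.pi_pos]), h8,
        abs_of_nonpos (by linarith : γ - α - 2 * Real.pi ≤ 0),
        abs_of_nonpos (mul_nonpos_of_nonneg_of_nonpos hr.le h9)]
      ring

theorem kr_neg (z z' : ℂ) (α γ : ℝ) (h1 : z = (‖z‖ : ℂ) * ee α) (h2 : z' = (‖z'‖ : ℂ) * ee γ)
    (h3 : γ - α ≤ 0) (h4 : -(2 * Real.pi) ≤ γ - α) :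
    kr z z' = (-Real.pi - (γ - α)) * cx z z' := by
  have h2' : z' = (‖z'‖ : ℂ) * ee (γ + 2 * Real.pi) := by
    rw [ee_per]
    exact h2
  rw [kr_pos z z' α (γ + 2 * Real.pi) h1 h2' (by linarith) (by linarith)]
  ring

/-- upper half plane: a lift in `[0, π]` -/
theorem lift_up (z : ℂ) (h : 0 ≤ z.im) : ∃ α : ℝ, 0 ≤ α ∧ α ≤ Real.pi ∧ z = (‖z‖ : ℂ) * ee α := by
  refine ⟨z.arg, Complex.arg_nonneg_iff.2 h, Complex.arg_le_pi z, ?_⟩
  unfold ee
  exact (Complex.norm_mul_exp_arg_mul_I z).symm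

/-- lower half plane: a lift in `[π, 2π]` -/
theorem lift_down (z : ℂ) (h : z.im ≤ 0) :
    ∃ α : ℝ, Real.pi ≤ α ∧ α ≤ 2 * Real.pi ∧ z = (‖z‖ : ℂ) * ee α := by
  obtain ⟨α, h1, h2, h3⟩ := lift_up (-z) (by simpa using h)
  refine ⟨α + Real.pi, by linarith, by linarith, ?_⟩
  rw [ee_add, ee_pi]
  have h4 : z = -(-z) := by ring
  conv_lhs => rw [h4, h3]
  rw [norm_neg]
  ring

/-- the core: four vectors in cyclic order, the first two above the real axis, the last two below -/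
theorem core (r0 r1 r2 r3 : ℂ) (hs : r0 + r1 + r2 + r3 = 0) (i0 : 0 ≤ r0.im) (i1 : 0 ≤ r1.im)
    (i2 : r2.im ≤ 0) (i3 : r3.im ≤ 0)
    (u : ∀ p : ℂ, 0 ≤ p.im → 0 < cx r2 p → 0 ≤ cx r3 p)
    (v : ∀ p : ℂ, p.im ≤ 0 → 0 < cx r0 p → 0 ≤ cx r1 p) :
    ∃ C : ℂ, ∀ p : ℂ,
      2 * Real.pi * (max 0 (max (cx r0 p) (max (cx r0 p + cx r1 p) (-cx r3 p)))) + cx C p
        ≤ kr r0 p + kr r1 p + kr r2 p + kr r3 p := by
  obtain ⟨a0, a01, a02, a03⟩ := lift_up r0 i0
  obtain ⟨a1, a11, a12, a13⟩ := lift_up r1 i1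
  obtain ⟨a2, a21, a22, a23⟩ := lift_down r2 i2
  obtain ⟨a3, a31, a32, a33⟩ := lift_down r3 i3
  refine ⟨((a0 - Real.pi : ℝ) : ℂ) * r0 + ((a1 - Real.pi : ℝ) : ℂ) * r1
    + ((a2 - Real.pi : ℝ) : ℂ) * r2 + ((a3 - Real.pi : ℝ) : ℂ) * r3, fun p => ?_⟩
  have hcl : cx r0 p + cx r1 p + cx r2 p + cx r3 p = 0 := by
    have e1 : (r0 + r1 + r2 + r3).re = 0 := by rw [hs]; rfl
    have e2 : (r0 + r1 + r2 + r3).im = 0 := by rw [hs]; rfl
    simp only [Complex.add_re, Complex.add_im] at e1 e2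
    simp only [cx_eq]
    have : r0.re * p.im - r0.im * p.re + (r1.re * p.im - r1.im * p.re) + (r2.re * p.im - r2.im * p.re)
        + (r3.re * p.im - r3.im * p.re)
        = (r0.re + r1.re + r2.re + r3.re) * p.im - (r0.im + r1.im + r2.im + r3.im) * p.re := by ring
    rw [this, e1, e2]
    ring
  have hC : cx (((a0 - Real.pi : ℝ) : ℂ) * r0 + ((a1 - Real.pi : ℝ) : ℂ) * r1
      + ((a2 - Real.pi : ℝ) : ℂ) * r2 + ((a3 - Real.pi : ℝ) : ℂ) * r3) p
      = (a0 - Real.pi) * cx r0 p + (a1 - Real.pi) * cx r1 p + (a2 - Real.pi) * cx r2 p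
        + (a3 - Real.pi) * cx r3 p := by
    simp only [cx_eq, Complex.add_re, Complex.add_im, Complex.re_ofReal_mul, Complex.im_ofReal_mul]
    ring
  rw [hC]
  rcases le_total 0 p.im with hp | hp
  · obtain ⟨g, g1, g2, g3⟩ := lift_up p hp
    have k2 := kr_neg r2 p a2 g a23 g3 (by linarith) (by linarith)
    have k3 := kr_neg r3 p a3 g a33 g3 (by linarith) (by linarith)
    have kk : ∀ (r : ℂ) (a : ℝ), 0 ≤ a → a ≤ Real.pi → r = (‖r‖ : ℂ) * ee a →
        kr r p = 2 * Real.pi * max 0 (cx r p) + (-Real.pi - (g - a)) * cx r p := by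
      intro r a h1 h2 h3
      rcases le_total a g with h4 | h4
      · have h5 : 0 ≤ cx r p := by
          rw [cx_lift r p a g h3 g3]
          exact mul_nonneg (by positivity)
            (Real.sin_nonneg_of_nonneg_of_le_pi (by linarith) (by linarith))
        rw [kr_pos r p a g h3 g3 (by linarith) (by linarith), max_eq_right h5]
        ring
      · have h5 : cx r p ≤ 0 := by
          rw [cx_lift r p a g h3 g3]
          exact mul_nonpos_of_nonneg_of_nonpos (by positivity)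
            (Real.sin_nonpos_of_nonpos_of_neg_pi_le (by linarith) (by linarith))
        rw [kr_neg r p a g h3 g3 (by linarith) (by linarith), max_eq_left h5]
        ring
    have k0 := kk r0 a0 a01 a02 a03
    have k1 := kk r1 a1 a11 a12 a13
    rw [k0, k1, k2, k3]
    have hm : max 0 (max (cx r0 p) (max (cx r0 p + cx r1 p) (-cx r3 p)))
        ≤ max 0 (cx r0 p) + max 0 (cx r1 p) := by
      have m1 := le_max_left 0 (cx r0 p)
      have m2 := le_max_right 0 (cx r0 p)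
      have m3 := le_max_left 0 (cx r1 p)
      have m4 := le_max_right 0 (cx r1 p)
      refine max_le (by linarith) (max_le (by linarith) (max_le (by linarith) ?_))
      rcases le_or_gt (cx r2 p) 0 with h6 | h6
      · linarith
      · have := u p hp h6
        linarith
    have hpi := Real.pi_pos
    have e : 2 * Real.pi * max 0 (cx r0 p) + (-Real.pi - (g - a0)) * cx r0 p
        + (2 * Real.pi * max 0 (cx r1 p) + (-Real.pi - (g - a1)) * cx r1 p)
        + (-Real.pi - (g - a2)) * cx r2 p + (-Real.pi - (g - a3)) * cx r3 p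
        = 2 * Real.pi * (max 0 (cx r0 p) + max 0 (cx r1 p))
          + ((a0 - Real.pi) * cx r0 p + (a1 - Real.pi) * cx r1 p + (a2 - Real.pi) * cx r2 p
          + (a3 - Real.pi) * cx r3 p) - g * (cx r0 p + cx r1 p + cx r2 p + cx r3 p) := by ring
    rw [e, hcl]
    nlinarith [mul_le_mul_of_nonneg_left hm (by positivity : (0 : ℝ) ≤ 2 * Real.pi)]
  · obtain ⟨g, g1, g2, g3⟩ := lift_down p hp
    have k0 := kr_pos r0 p a0 g a03 g3 (by linarith) (by linarith)
    have k1 := kr_pos r1 p a1 g a13 g3 (by linarith) (by linarith)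
    have kk : ∀ (r : ℂ) (a : ℝ), Real.pi ≤ a → a ≤ 2 * Real.pi → r = (‖r‖ : ℂ) * ee a →
        kr r p = 2 * Real.pi * max 0 (cx r p) + (-Real.pi - (g - a)) * cx r p := by
      intro r a h1 h2 h3
      rcases le_total a g with h4 | h4
      · have h5 : 0 ≤ cx r p := by
          rw [cx_lift r p a g h3 g3]
          exact mul_nonneg (by positivity)
            (Real.sin_nonneg_of_nonneg_of_le_pi (by linarith) (by linarith))
        rw [kr_pos r p a g h3 g3 (by linarith) (by linarith), max_eq_right h5]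
        ring
      · have h5 : cx r p ≤ 0 := by
          rw [cx_lift r p a g h3 g3]
          exact mul_nonpos_of_nonneg_of_nonpos (by positivity)
            (Real.sin_nonpos_of_nonpos_of_neg_pi_le (by linarith) (by linarith))
        rw [kr_neg r p a g h3 g3 (by linarith) (by linarith), max_eq_left h5]
        ring
    have k2 := kk r2 a2 a21 a22 a23
    have k3 := kk r3 a3 a31 a32 a33
    rw [k0, k1, k2, k3]
    have hm : max 0 (max (cx r0 p) (max (cx r0 p + cx r1 p) (-cx r3 p)))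
        ≤ (cx r0 p + cx r1 p) + (max 0 (cx r2 p) + max 0 (cx r3 p)) := by
      have m1 := le_max_left 0 (cx r2 p)
      have m2 := le_max_right 0 (cx r2 p)
      have m3 := le_max_left 0 (cx r3 p)
      have m4 := le_max_right 0 (cx r3 p)
      refine max_le (by linarith) (max_le ?_ (max_le (by linarith) (by linarith)))
      rcases le_or_gt (cx r0 p) 0 with h6 | h6
      · linarith
      · have := v p hp h6
        linarith
    have hpi := Real.pi_pos
    have e : (Real.pi - (g - a0)) * cx r0 p + (Real.pi - (g - a1)) * cx r1 p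
        + (2 * Real.pi * max 0 (cx r2 p) + (-Real.pi - (g - a2)) * cx r2 p)
        + (2 * Real.pi * max 0 (cx r3 p) + (-Real.pi - (g - a3)) * cx r3 p)
        = 2 * Real.pi * ((cx r0 p + cx r1 p) + (max 0 (cx r2 p) + max 0 (cx r3 p)))
          + ((a0 - Real.pi) * cx r0 p + (a1 - Real.pi) * cx r1 p + (a2 - Real.pi) * cx r2 p
          + (a3 - Real.pi) * cx r3 p) - g * (cx r0 p + cx r1 p + cx r2 p + cx r3 p) := by ring
    rw [e, hcl]
    nlinarith [mul_le_mul_of_nonneg_left hm (by positivity : (0 : ℝ) ≤ 2 * Real.pi)]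

end Helper44.RC
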