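import Pool.Agent.Helper44.RC.M_QUAD

/-! # Project RC: module QUAD, the quadrilateral of the hexagon -/

open MeasureTheory Set Filter Metric

namespace Helper44.RC

open Helper49.LT Helper49.RC Helper87.RC

theorem om_re : om.re = 1 / 2 := by
  unfold om
  rw [ee_re, Real.cos_pi_div_three]

theorem om_im : om.im = Real.sqrt 3 / 2 := by
  unfold om
  rw [ee_im, Real.sin_pi_div_three]

theorem om_eq : om = 1 / 2 + (Real.sqrt 3 / 2 : ℝ) * Complex.I := by
  apply Complex.ext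
  · rw [om_re]
    simp
  · rw [om_im]
    simp

theorem conj_om : (starRingEnd ℂ) om = 1 / 2 - (Real.sqrt 3 / 2 : ℝ) * Complex.I := by
  apply Complex.ext
  · rw [Complex.conj_re, om_re]
    simp
  · rw [Complex.conj_im, om_im]
    simp

theorem s3sq : ((Real.sqrt 3 / 2 : ℝ) : ℂ) * ((Real.sqrt 3 / 2 : ℝ) : ℂ) = 3 / 4 := by
  have h : (Real.sqrt 3 / 2) * (Real.sqrt 3 / 2) = 3 / 4 := by
    have := Real.mul_self_sqrt (show (0 : ℝ) ≤ 3 by norm_num)
    nlinarith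
  rw [← Complex.ofReal_mul, h]
  push_cast
  ring

theorem om_sq : om ^ 2 = -(1 / 2) + (Real.sqrt 3 / 2 : ℝ) * Complex.I := by
  rw [om_eq]
  have h := s3sq
  have hI := Complex.I_mul_I
  linear_combination (-1 : ℂ) * h + ((Real.sqrt 3 / 2 : ℝ) : ℂ) * ((Real.sqrt 3 / 2 : ℝ) : ℂ) * hI

theorem conj_om_sq : (starRingEnd ℂ) om ^ 2 = -(1 / 2) - (Real.sqrt 3 / 2 : ℝ) * Complex.I := by
  rw [conj_om]
  have h := s3sq
  have hI := Complex.I_mul_I
  linear_combination (-1 : ℂ) * h + ((Real.sqrt 3 / 2 : ℝ) : ℂ) * ((Real.sqrt 3 / 2 : ℝ) : ℂ) * hI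

/-- `T z = x (1 + b) + y i (1 - b)` for `z = x + i y` -/
noncomputable def Tb (b : ℂ) (x y : ℝ) : ℂ := (x : ℂ) * (1 + b) + (y : ℂ) * (Complex.I * (1 - b))

theorem f1_eq (b p : ℂ) : f1 b p = Tb b (1 / 2) (Real.sqrt 3 / 2) + p := by
  unfold f1 Tb
  rw [conj_om, om_eq]
  push_cast
  ring

theorem f2_eq (b p : ℂ) : f2 b p = Tb b (-(1 / 2)) (Real.sqrt 3 / 2) - p := by
  unfold f2 Tb
  rw [om_sq, conj_om_sq]
  push_cast
  ring

theorem Tb_add (b : ℂ) (x y x' y' : ℝ) : Tb b x y + Tb b x' y' = Tb b (x + x') (y + y') := by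
  unfold Tb
  push_cast
  ring

theorem Tb_neg (b : ℂ) (x y : ℝ) : -Tb b x y = Tb b (-x) (-y) := by
  unfold Tb
  push_cast
  ring

theorem Tb_smul (b : ℂ) (c x y : ℝ) : (c : ℂ) * Tb b x y = Tb b (c * x) (c * y) := by
  unfold Tb
  push_cast
  ring

theorem Reg_iff (b p : ℂ) (h : Reg b p) : ∃ x y : ℝ, |x| ≤ 1 / 2 ∧ |y| ≤ Real.sqrt 3 / 2 ∧
    p = Tb b x y := by
  obtain ⟨x, y, h1, h2⟩ := h
  have hs : 0 ≤ Real.sqrt 3 := Real.sqrt_nonneg 3
  refine ⟨(x - y) / 2, Real.sqrt 3 / 2 * (x + y), ?_, ?_, ?_⟩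
  · rw [abs_div, abs_of_pos (by norm_num : (0 : ℝ) < 2)]
    have := abs_sub x y
    linarith
  · rw [abs_mul, abs_of_nonneg (by positivity : 0 ≤ Real.sqrt 3 / 2)]
    have := abs_add_le x y
    nlinarith
  · rw [h2, f1_eq, f2_eq]
    unfold Tb
    push_cast
    ring

/-- the unit number which rotates `ee t (1 + b)` to the positive axis -/
noncomputable def ze (t : ℝ) (b : ℂ) : ℂ := ee (-t) * ((starRingEnd ℂ) (1 + b) / (‖1 + b‖ : ℂ))

theorem ze_norm (t : ℝ) (b : ℂ) (h : 1 + b ≠ 0) : ze t b * (starRingEnd ℂ) (ze t b) = 1 := by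
  have h1 : (‖1 + b‖ : ℂ) ≠ 0 := by
    simpa using h
  unfold ze
  rw [map_mul, map_div₀, Complex.conj_conj, Complex.conj_ofReal, ee_neg, Complex.conj_conj]
  have h2 : (1 + b) * (starRingEnd ℂ) (1 + b) = (‖1 + b‖ : ℂ) * (‖1 + b‖ : ℂ) := by
    rw [Complex.mul_conj, Complex.normSq_eq_norm_sq]
    push_cast
    ring
  have h3 := ee_mul_conj t
  field_simp
  linear_combination (1 + b) * (starRingEnd ℂ) (1 + b) * h3 + h2

theorem cx_rot (z w u : ℂ) (h : u * (starRingEnd ℂ) u = 1) : cx (u * z) (u * w) = cx z w := by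
  unfold cx
  rw [map_mul]
  congr 1
  linear_combination (w * (starRingEnd ℂ) z) * h

theorem kr_rot (z w u : ℂ) (h : u * (starRingEnd ℂ) u = 1) : kr (u * z) (u * w) = kr z w := by
  unfold kr
  have e : u * w * (starRingEnd ℂ) (u * z) = w * (starRingEnd ℂ) z := by
    rw [map_mul]
    linear_combination (w * (starRingEnd ℂ) z) * h
  rw [e]

theorem ze_Tb (t : ℝ) (b : ℂ) (h : 1 + b ≠ 0) (x y : ℝ) : ze t b * (ee t * Tb b x y)
    = (x : ℂ) * (‖1 + b‖ : ℂ)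
      + (y : ℂ) * ((starRingEnd ℂ) (1 + b) * (Complex.I * (1 - b)) / (‖1 + b‖ : ℂ)) := by
  have h1 : (‖1 + b‖ : ℂ) ≠ 0 := by
    simpa using h
  have h2 : (1 + b) * (starRingEnd ℂ) (1 + b) = (‖1 + b‖ : ℂ) * (‖1 + b‖ : ℂ) := by
    rw [Complex.mul_conj, Complex.normSq_eq_norm_sq]
    push_cast
    ring
  have h3 : ee (-t) * ee t = 1 := by
    rw [← ee_add]
    simp [ee_zero]
  unfold ze Tb
  field_simp
  linear_combination (starRingEnd ℂ) (1 + b) * ((x : ℂ) * (1 + b) + (y : ℂ) * (Complex.I * (1 - b)))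
    * h3 + (x : ℂ) * h2

theorem om_im_pos (b : ℂ) (hb : ‖b‖ < 1) (h : 1 + b ≠ 0) :
    0 < ((starRingEnd ℂ) (1 + b) * (Complex.I * (1 - b)) / (‖1 + b‖ : ℂ)).im := by
  rw [Complex.div_ofReal_im]
  apply div_pos _ (by simpa using h)
  have h1 : ‖b‖ ^ 2 = b.re ^ 2 + b.im ^ 2 := by
    rw [← Complex.normSq_eq_norm_sq, Complex.normSq_apply]
    ring
  have h2 : ‖b‖ ^ 2 < 1 := by
    have := norm_nonneg b
    nlinarith
  simp only [Complex.mul_im, Complex.mul_re, Complex.conj_re, Complex.conj_im, Complex.add_re,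
    Complex.add_im, Complex.sub_re, Complex.sub_im, Complex.one_re, Complex.one_im, Complex.I_re,
    Complex.I_im]
  nlinarith

theorem biaff (A B C D M e1 e2 : ℝ) (h1 : |e1| ≤ 1) (h2 : |e2| ≤ 1)
    (k1 : A + B + C + D ≤ M) (k2 : A + B - C - D ≤ M) (k3 : A - B + C - D ≤ M)
    (k4 : A - B - C + D ≤ M) : A + B * e1 + C * e2 + D * (e1 * e2) ≤ M := by
  rw [abs_le] at h1 h2
  have a1 : 0 ≤ (1 + e1) * (1 + e2) := mul_nonneg (by linarith) (by linarith)
  have a2 : 0 ≤ (1 + e1) * (1 - e2) := mul_nonneg (by linarith) (by linarith)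
  have a3 : 0 ≤ (1 - e1) * (1 + e2) := mul_nonneg (by linarith) (by linarith)
  have a4 : 0 ≤ (1 - e1) * (1 - e2) := mul_nonneg (by linarith) (by linarith)
  nlinarith [mul_le_mul_of_nonneg_left k1 a1, mul_le_mul_of_nonneg_left k2 a2,
    mul_le_mul_of_nonneg_left k3 a3, mul_le_mul_of_nonneg_left k4 a4]

theorem tQuad : StQuad := by
  intro b p t hb hp
  have h0 : 1 + b ≠ 0 := by
    intro h
    have : b = -1 := by linear_combination h
    rw [this] at hb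
    simp at hb
  obtain ⟨X, Y, hX, hY, rfl⟩ := Reg_iff b p hp
  rw [abs_le] at hX hY
  set s := Real.sqrt 3 / 2 with hs
  have hz := ze_norm t b h0
  set ρ : ℝ := ‖1 + b‖ with hρ
  have hρ0 : 0 < ρ := by
    rw [hρ]
    simpa using h0
  set W : ℂ := (starRingEnd ℂ) (1 + b) * (Complex.I * (1 - b)) / (‖1 + b‖ : ℂ) with hW
  have hw : 0 < W.im := om_im_pos b hb h0
  -- the four edges
  have q0 : q4 t b (Tb b X Y) 0 = ee t * Tb b (1 / 2 + X) (s + Y) := by
    show ee t * f1 b (Tb b X Y) = _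
    rw [f1_eq, Tb_add]
  have q1 : q4 t b (Tb b X Y) 1 = ee t * Tb b (-(1 / 2) - X) (s - Y) := by
    show ee t * f2 b (Tb b X Y) = _
    rw [f2_eq, sub_eq_add_neg, Tb_neg, Tb_add]
    congr 2
  have q2 : q4 t b (Tb b X Y) 2 = ee t * Tb b (-(1 / 2) + X) (-s + Y) := by
    show -(ee t * f1 b (-(Tb b X Y))) = _
    rw [f1_eq, Tb_neg, Tb_add, ← mul_neg, Tb_neg]
    congr 2 <;> ring
  have q3 : q4 t b (Tb b X Y) 3 = ee t * Tb b (1 / 2 - X) (-s - Y) := by
    show -(ee t * f2 b (-(Tb b X Y))) = _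
    rw [f2_eq, sub_neg_eq_add, Tb_add, ← mul_neg, Tb_neg]
    congr 2 <;> ring
  have zz : ∀ x y : ℝ, ze t b * (ee t * Tb b x y) = (x : ℂ) * (ρ : ℂ) + (y : ℂ) * W :=
    fun x y => ze_Tb t b h0 x y
  set r : ℝ → ℝ → ℂ := fun x y => (x : ℂ) * (ρ : ℂ) + (y : ℂ) * W with hr
  have rre : ∀ x y : ℝ, (r x y).re = x * ρ + y * W.re := by
    intro x y
    simp [hr]
  have rim : ∀ x y : ℝ, (r x y).im = y * W.im := by
    intro x y
    simp [hr]
  obtain ⟨C, hC⟩ := core (r (1 / 2 + X) (s + Y)) (r (-(1 / 2) - X) (s - Y))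
    (r (-(1 / 2) + X) (-s + Y)) (r (1 / 2 - X) (-s - Y))
    (by simp only [hr]; push_cast; ring)
    (by rw [rim]; exact mul_nonneg (by linarith) hw.le)
    (by rw [rim]; exact mul_nonneg (by linarith) hw.le)
    (by rw [rim]; exact mul_nonpos_of_nonpos_of_nonneg (by linarith) hw.le)
    (by rw [rim]; exact mul_nonpos_of_nonpos_of_nonneg (by linarith) hw.le)
    (by
      intro z hz1 hz2
      rw [cx_eq, rre, rim] at hz2 ⊢
      have a1 : 0 ≤ (1 / 2 - X) * ρ * z.im := mul_nonneg (mul_nonneg (by linarith) hρ0.le) hz1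
      have a2 : 0 < (s - Y) * (W.im * z.re - W.re * z.im) := by nlinarith
      have a3 : 0 < W.im * z.re - W.re * z.im := by
        by_contra hcon
        push Not at hcon
        have : (s - Y) * (W.im * z.re - W.re * z.im) ≤ 0 :=
          mul_nonpos_of_nonneg_of_nonpos (by linarith) hcon
        linarith
      have a4 : 0 ≤ (s + Y) * (W.im * z.re - W.re * z.im) := mul_nonneg (by linarith) a3.le
      nlinarith)
    (by
      intro z hz1 hz2
      rw [cx_eq, rre, rim] at hz2 ⊢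
      have a1 : (1 / 2 + X) * ρ * z.im ≤ 0 :=
        mul_nonpos_of_nonneg_of_nonpos (mul_nonneg (by linarith) hρ0.le) hz1
      have a2 : 0 < (s + Y) * (W.re * z.im - W.im * z.re) := by nlinarith
      have a3 : 0 < W.re * z.im - W.im * z.re := by
        by_contra hcon
        push Not at hcon
        have : (s + Y) * (W.re * z.im - W.im * z.re) ≤ 0 :=
          mul_nonpos_of_nonneg_of_nonpos (by linarith) hcon
        linarith
      have a4 : 0 ≤ (s - Y) * (W.re * z.im - W.im * z.re) := mul_nonneg (by linarith) a3.le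
      nlinarith)
  refine ⟨(starRingEnd ℂ) (ze t b) * C
    - ((2 * Real.pi : ℝ) : ℂ) * yv b (Tb b X Y) t (-1) (-1), fun p' e1 e2 h1 h2 => ?_⟩
  have hCp := hC (ze t b * p')
  have hcc : cx C (ze t b * p') = cx ((starRingEnd ℂ) (ze t b) * C) p' := by
    unfold cx
    rw [map_mul, Complex.conj_conj]
    congr 1
    ring
  have e0 : kr (r (1 / 2 + X) (s + Y)) (ze t b * p') = kr (q4 t b (Tb b X Y) 0) p' := by
    rw [q0, ← kr_rot (ee t * Tb b (1 / 2 + X) (s + Y)) p' _ hz, zz]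
  have e1' : kr (r (-(1 / 2) - X) (s - Y)) (ze t b * p') = kr (q4 t b (Tb b X Y) 1) p' := by
    rw [q1, ← kr_rot (ee t * Tb b (-(1 / 2) - X) (s - Y)) p' _ hz, zz]
  have e2' : kr (r (-(1 / 2) + X) (-s + Y)) (ze t b * p') = kr (q4 t b (Tb b X Y) 2) p' := by
    rw [q2, ← kr_rot (ee t * Tb b (-(1 / 2) + X) (-s + Y)) p' _ hz, zz]
  have e3' : kr (r (1 / 2 - X) (-s - Y)) (ze t b * p') = kr (q4 t b (Tb b X Y) 3) p' := by
    rw [q3, ← kr_rot (ee t * Tb b (1 / 2 - X) (-s - Y)) p' _ hz, zz]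
  have c0 : cx (r (1 / 2 + X) (s + Y)) (ze t b * p') = cx (ee t * Tb b (1 / 2 + X) (s + Y)) p' := by
    rw [← cx_rot (ee t * Tb b (1 / 2 + X) (s + Y)) p' _ hz, zz]
  have c1 : cx (r (-(1 / 2) - X) (s - Y)) (ze t b * p')
      = cx (ee t * Tb b (-(1 / 2) - X) (s - Y)) p' := by
    rw [← cx_rot (ee t * Tb b (-(1 / 2) - X) (s - Y)) p' _ hz, zz]
  have c3 : cx (r (1 / 2 - X) (-s - Y)) (ze t b * p')
      = cx (ee t * Tb b (1 / 2 - X) (-s - Y)) p' := by
    rw [← cx_rot (ee t * Tb b (1 / 2 - X) (-s - Y)) p' _ hz, zz]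
  rw [e0, e1', e2', e3', c0, c1, c3, hcc] at hCp
  rw [Fin.sum_univ_four]
  set c : ℝ → ℝ → ℝ := fun x y => cx (ee t * Tb b x y) p' with hc
  have clin : ∀ x y x' y' : ℝ, c (x + x') (y + y') = c x y + c x' y' := by
    intro x y x' y'
    simp only [hc]
    rw [← Tb_add, mul_add, cx_eq, cx_eq, cx_eq, Complex.add_re, Complex.add_im]
    ring
  have csm : ∀ a x y : ℝ, c (a * x) (a * y) = a * c x y := by
    intro a x y
    simp only [hc]
    rw [← Tb_smul, cx_eq, cx_eq]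
    have : ee t * ((a : ℂ) * Tb b x y) = (a : ℂ) * (ee t * Tb b x y) := by ring
    rw [this, Complex.re_ofReal_mul, Complex.im_ofReal_mul]
    ring
  set M := max 0 (max (c (1 / 2 + X) (s + Y)) (max (c (1 / 2 + X) (s + Y) + c (-(1 / 2) - X) (s - Y))
    (-c (1 / 2 - X) (-s - Y)))) with hM
  have m0 : 0 ≤ M := le_max_left _ _
  have m1 : c (1 / 2 + X) (s + Y) ≤ M := le_trans (le_max_left _ _) (le_max_right _ _)
  have m2 : c (1 / 2 + X) (s + Y) + c (-(1 / 2) - X) (s - Y) ≤ M :=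
    le_trans (le_trans (le_max_left _ _) (le_max_right _ _)) (le_max_right _ _)
  have m3 : -c (1 / 2 - X) (-s - Y) ≤ M :=
    le_trans (le_trans (le_max_right _ _) (le_max_right _ _)) (le_max_right _ _)
  -- the values in the basis c 1 0, c 0 1
  have cb : ∀ x y : ℝ, c x y = x * c 1 0 + y * c 0 1 := by
    intro x y
    have h3 := clin (x * 1) (x * 0) (y * 0) (y * 1)
    rw [csm, csm] at h3
    have h4 : c (x * 1 + y * 0) (x * 0 + y * 1) = c x y := by
      congr 1 <;> ring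
    rw [← h4, h3]
  have yval : ∀ a1 a2 : ℝ, (p' * (starRingEnd ℂ) (yv b (Tb b X Y) t a1 a2)).im
      = 1 / 2 * (a1 * c (1 / 2) s + a2 * c (-(1 / 2)) s) - 1 / 2 * (a1 * a2) * c X Y := by
    intro a1 a2
    have h5 : yv b (Tb b X Y) t a1 a2 = ((1 / 2 * a1 : ℝ) : ℂ) * (ee t * Tb b (1 / 2) s)
        + ((1 / 2 * a2 : ℝ) : ℂ) * (ee t * Tb b (-(1 / 2)) s)
        + ((-(1 / 2) * (a1 * a2) : ℝ) : ℂ) * (ee t * Tb b X Y) := by
      unfold yv
      rw [f1_eq, f2_eq, ← hs]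
      push_cast
      ring
    have h6 : (p' * (starRingEnd ℂ) (yv b (Tb b X Y) t a1 a2)).im = cx (yv b (Tb b X Y) t a1 a2) p' :=
      rfl
    rw [h6, h5]
    simp only [hc, cx_eq, Complex.add_re, Complex.add_im, Complex.re_ofReal_mul,
      Complex.im_ofReal_mul]
    ring
  have hgoal : (p' * (starRingEnd ℂ) (yv b (Tb b X Y) t e1 e2)).im
      ≤ (p' * (starRingEnd ℂ) (yv b (Tb b X Y) t (-1) (-1))).im + M := by
    rw [yval, yval]
    rw [cb (1 / 2 + X) (s + Y), cb (-(1 / 2) - X) (s - Y)] at m2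
    rw [cb (1 / 2 + X) (s + Y)] at m1
    rw [cb (1 / 2 - X) (-s - Y)] at m3
    rw [cb (1 / 2) s, cb (-(1 / 2)) s, cb X Y]
    have := biaff 0 (1 / 2 * (1 / 2 * c 1 0 + s * c 0 1)) (1 / 2 * (-(1 / 2) * c 1 0 + s * c 0 1))
      (-(1 / 2) * (X * c 1 0 + Y * c 0 1))
      (1 / 2 * (-1 * (1 / 2 * c 1 0 + s * c 0 1) + -1 * (-(1 / 2) * c 1 0 + s * c 0 1))
        - 1 / 2 * (-1 * -1) * (X * c 1 0 + Y * c 0 1) + M) e1 e2 h1 h2
      (by nlinarith) (by nlinarith) (by nlinarith) (by nlinarith)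
    nlinarith
  have hfin : (p' * (starRingEnd ℂ) ((starRingEnd ℂ) (ze t b) * C
      - ((2 * Real.pi : ℝ) : ℂ) * yv b (Tb b X Y) t (-1) (-1))).im
      = cx ((starRingEnd ℂ) (ze t b) * C) p'
        - 2 * Real.pi * (p' * (starRingEnd ℂ) (yv b (Tb b X Y) t (-1) (-1))).im := by
    rw [map_sub, mul_sub, Complex.sub_im, map_mul _ ((2 * Real.pi : ℝ) : ℂ), Complex.conj_ofReal]
    have : p' * (((2 * Real.pi : ℝ) : ℂ) * (starRingEnd ℂ) (yv b (Tb b X Y) t (-1) (-1)))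
        = ((2 * Real.pi : ℝ) : ℂ) * (p' * (starRingEnd ℂ) (yv b (Tb b X Y) t (-1) (-1))) := by ring
    rw [this, Complex.im_ofReal_mul]
    rfl
  rw [hfin]
  have hpi := Real.pi_pos
  nlinarith [mul_le_mul_of_nonneg_left hgoal (by positivity : (0 : ℝ) ≤ 2 * Real.pi)]

theorem tSeg : StSeg := by
  intro u v
  have h : kr (-u) v = |(v * (starRingEnd ℂ) u).arg| * |(v * (starRingEnd ℂ) u).im| := by
    unfold kr
    rw [map_neg, mul_neg, Complex.neg_im, abs_neg]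
    by_cases h0 : (v * (starRingEnd ℂ) u).im = 0
    · rw [h0]
      simp
    · rcases lt_or_gt_of_ne h0 with h1 | h1
      · rw [Complex.arg_neg_eq_arg_add_pi_of_im_neg h1]
        have h2 : (v * (starRingEnd ℂ) u).arg < 0 := Complex.arg_neg_iff.2 h1
        have h3 := Complex.neg_pi_lt_arg (v * (starRingEnd ℂ) u)
        rw [abs_of_pos (by linarith : 0 < (v * (starRingEnd ℂ) u).arg + Real.pi), abs_of_neg h2]
        ring
      · rw [Complex.arg_neg_eq_arg_sub_pi_of_im_pos h1]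
        have h2 : 0 ≤ (v * (starRingEnd ℂ) u).arg := Complex.arg_nonneg_iff.2 h1.le
        have h3 := Complex.arg_le_pi (v * (starRingEnd ℂ) u)
        rw [abs_of_nonpos (by linarith : (v * (starRingEnd ℂ) u).arg - Real.pi ≤ 0), abs_of_nonneg h2]
        ring
  rw [h]
  unfold kr
  ring

theorem tQQ : StQQ := by
  intro b p b' p' t s hb hp e1 e2 h1 h2
  obtain ⟨C, hC⟩ := tQuad b p t hb hp
  have hsum : ∑ l, q4 s b' p' l = 0 := by
    rw [Fin.sum_univ_four]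
    show ee s * f1 b' p' + ee s * f2 b' p' + -(ee s * f1 b' (-p')) + -(ee s * f2 b' (-p')) = 0
    rw [f1_eq, f2_eq, f1_eq, f2_eq]
    ring
  rw [Finset.sum_comm]
  have hk : ∀ l, 2 * Real.pi * (q4 s b' p' l * (starRingEnd ℂ) (yv b p t (e1 l) (e2 l))).im
      + (q4 s b' p' l * (starRingEnd ℂ) C).im ≤ ∑ k, kr (q4 t b p k) (q4 s b' p' l) :=
    fun l => hC _ _ _ (h1 l) (h2 l)
  have h3 := Finset.sum_le_sum (fun l (_ : l ∈ Finset.univ) => hk l)
  rw [Finset.sum_add_distrib, ← Finset.mul_sum] at h3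
  have h4 : ∑ l, (q4 s b' p' l * (starRingEnd ℂ) C).im = 0 := by
    rw [← Complex.im_sum, ← Finset.sum_mul, hsum]
    simp
  linarith

end Helper44.RC
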