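import Pool.Agent.Helper44.RC.M_GEN2

/-! # Project RC: general selection for hexagon families (theorem SEL)

`D θ τ` is the change of the order of the edge `G1 θ` of the family 1 and the edge `G2 τ` of the family 2
(the sign of `θ - τ` is replaced by `sgs (θ - τ) + D θ τ`, with values in `[-1, 1]`), supported where the angle
between them is less than 60 degrees.
-/

open MeasureTheory Set Filter Metric

namespace Helper44.RCG

open Helper49.LT hiding sg
open Helper49.RC
open Helper87.RC hiding cut_gen sgs_abs sgs_meas sgs_per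
open Helper44.RC (sgs dbl dbl_add dbl_swap dbl_const dbl_mono dbl_prod dbl_intg dbl_eq meas_im
  two_pi_nonneg im_le' sgs_abs sgs_sq sgs_meas sgs_per im_int int_congr_choice int_perR int_per)

variable {A0 A B v : ℝ → ℂ} {C : ℝ}

/-- a change of the order -/
structure Sel (D : ℝ → ℝ → ℝ) : Prop where
  m : Measurable (fun q : ℝ × ℝ => D q.1 q.2)
  p1 : ∀ θ τ, D (θ + 2 * Real.pi) τ = D θ τ
  p2 : ∀ θ τ, D θ (τ + 2 * Real.pi) = D θ τ
  s : ∀ θ τ, Real.cos (θ - τ) ≤ 1 / 2 → D θ τ = 0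
  b : ∀ θ τ, |sgs (θ - τ) + D θ τ| ≤ 1

theorem Sel.le {D : ℝ → ℝ → ℝ} (h : Sel D) (θ τ : ℝ) : |D θ τ| ≤ 2 := by
  have h1 := h.b θ τ
  have h2 := sgs_abs (θ - τ)
  rw [abs_le] at *
  constructor <;> linarith [h1.1, h1.2, h2.1, h2.2]

/-- the projection to `[-1, 1]` -/
noncomputable def clamp (x : ℝ) : ℝ := max (-1) (min 1 x)

theorem clamp_abs (x : ℝ) : |clamp x| ≤ 1 := by
  unfold clamp
  rw [abs_le]
  exact ⟨le_max_left _ _, max_le (by norm_num) (min_le_left _ _)⟩

theorem clamp_eq {x : ℝ} (h : |x| ≤ 1) : clamp x = x := by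
  rw [abs_le] at h
  unfold clamp
  rw [min_eq_right h.2, max_eq_right h.1]

theorem clamp_meas : Measurable clamp :=
  measurable_const.max (measurable_const.min measurable_id)

theorem sgs_of_pos {x : ℝ} (h : 0 < Real.sin x) : sgs x = 1 := by
  unfold sgs
  rw [if_pos h.le]

theorem sgs_of_neg {x : ℝ} (h : Real.sin x < 0) : sgs x = -1 := by
  unfold sgs
  rw [if_neg (not_le.2 h)]

theorem sin_add_third {x : ℝ} (h : 1 / 2 < Real.cos x) : 0 < Real.sin (x + Real.pi / 3) := by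
  rw [Real.sin_add, Real.cos_pi_div_three, Real.sin_pi_div_three]
  have h1 := Real.sin_sq_add_cos_sq x
  have h2 : Real.sqrt 3 ^ 2 = 3 := Real.sq_sqrt (by norm_num)
  have h3 : 0 < Real.sqrt 3 := Real.sqrt_pos.2 (by norm_num)
  by_contra hcon
  push Not at hcon
  have h4 : Real.sqrt 3 * Real.cos x ≤ -Real.sin x := by linarith
  have h5 : 0 < Real.sqrt 3 * Real.cos x := mul_pos h3 (by linarith)
  have h6 : (Real.sqrt 3 * Real.cos x) ^ 2 ≤ (-Real.sin x) ^ 2 := by
    exact pow_le_pow_left₀ h5.le h4 2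
  nlinarith

theorem sin_sub_third {x : ℝ} (h : 1 / 2 < Real.cos x) : Real.sin (x - Real.pi / 3) < 0 := by
  have h1 : 1 / 2 < Real.cos (-x) := by rwa [Real.cos_neg]
  have h2 := sin_add_third h1
  have h3 : x - Real.pi / 3 = -(-x + Real.pi / 3) := by ring
  rw [h3, Real.sin_neg]
  linarith

theorem null_sin (c : ℝ) : ∀ᵐ t : ℝ, Real.sin (c - t) ≠ 0 := by
  have h : {t : ℝ | ¬ Real.sin (c - t) ≠ 0} ⊆ Set.range (fun n : ℤ => c - n * Real.pi) := by
    intro t ht
    simp only [Set.mem_setOf_eq, not_not] at ht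
    obtain ⟨n, hn⟩ := Real.sin_eq_zero_iff.1 ht
    exact ⟨n, by linarith⟩
  have h2 : (volume : Measure ℝ) (Set.range (fun n : ℤ => c - n * Real.pi)) = 0 :=
    (Set.countable_range _).measure_zero _
  exact measure_mono_null h h2

theorem sgs_flip {x : ℝ} (h : Real.sin x ≠ 0) : sgs (x - Real.pi) = -sgs x := by
  unfold sgs
  rw [Real.sin_sub_pi]
  rcases lt_or_gt_of_ne h with h1 | h1
  · rw [if_pos (by linarith), if_neg (not_le.2 h1)]
    norm_num
  · rw [if_neg (by linarith), if_pos h1.le]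

theorem sgs_neg' {x : ℝ} (h : Real.sin x ≠ 0) : sgs (-x) = -sgs x := by
  unfold sgs
  rw [Real.sin_neg]
  rcases lt_or_gt_of_ne h with h1 | h1
  · rw [if_pos (by linarith), if_neg (not_le.2 h1)]
    norm_num
  · rw [if_neg (by linarith), if_pos h1.le]

theorem G2_eq (t : ℝ) : G2 B v (t + 2 * Real.pi / 3) = B t - v t := by
  unfold G2
  rw [add_sub_cancel_right]

theorem G1_eq (t : ℝ) : G1 A v (t + Real.pi / 3) = A t + v t := by
  unfold G1
  rw [add_sub_cancel_right]

theorem G2_pi (h : Fam A B v C) (t : ℝ) :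
    G2 B v (t + 2 * Real.pi / 3 + Real.pi) = -(B t + v t) := by
  unfold G2
  rw [show t + 2 * Real.pi / 3 + Real.pi - 2 * Real.pi / 3 = t + Real.pi by ring, h.pB, h.pv]
  ring

theorem G1_pi (h : Fam A B v C) (t : ℝ) :
    G1 A v (t + Real.pi / 3 + Real.pi) = -(A t - v t) := by
  unfold G1
  rw [show t + Real.pi / 3 + Real.pi - Real.pi / 3 = t + Real.pi by ring, h.pA, h.pv]
  ring

/-- the modified sign for the edges of the family 1 -/
noncomputable def sb1 (D : ℝ → ℝ → ℝ) (θ t : ℝ) : ℝ :=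
  clamp (sgs (θ - t - 2 * Real.pi / 3) + D θ (t + 2 * Real.pi / 3)
    - D θ (t + 2 * Real.pi / 3 + Real.pi))

/-- the modified sign for the edges of the family 2 -/
noncomputable def sa2 (D : ℝ → ℝ → ℝ) (θ t : ℝ) : ℝ :=
  clamp (sgs (θ - t - Real.pi / 3) - D (t + Real.pi / 3) θ + D (t + Real.pi / 3 + Real.pi) θ)

theorem sb1_pt (h : Fam A B v C) {D : ℝ → ℝ → ℝ} (hD : Sel D) (θ t : ℝ)
    (h0 : Real.sin (θ - 2 * Real.pi / 3 - t) ≠ 0) :
    yy A B v t (sgs (θ - t - Real.pi / 3)) (sb1 D θ t)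
      = yy A B v t (sgs (θ - t - Real.pi / 3)) (sgs (θ - t - 2 * Real.pi / 3))
        + (1 / 2) * ((D θ (t + 2 * Real.pi / 3) : ℂ) * G2 B v (t + 2 * Real.pi / 3)
          + (D θ (t + 2 * Real.pi / 3 + Real.pi) : ℂ)
            * G2 B v (t + 2 * Real.pi / 3 + Real.pi)) := by
  set x := θ - t - 2 * Real.pi / 3 with hx
  have hx0 : Real.sin x ≠ 0 := by
    rw [hx, show θ - t - 2 * Real.pi / 3 = θ - 2 * Real.pi / 3 - t by ring]
    exact h0
  have hxa : θ - (t + 2 * Real.pi / 3) = x := by rw [hx]; ring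
  have hxb : θ - (t + 2 * Real.pi / 3 + Real.pi) = x - Real.pi := by rw [hx]; ring
  have hxc : θ - t - Real.pi / 3 = x + Real.pi / 3 := by rw [hx]; ring
  have b1 := hD.b θ (t + 2 * Real.pi / 3)
  have b2 := hD.b θ (t + 2 * Real.pi / 3 + Real.pi)
  have s1 := hD.s θ (t + 2 * Real.pi / 3)
  have s2 := hD.s θ (t + 2 * Real.pi / 3 + Real.pi)
  rw [hxa] at b1 s1
  rw [hxb] at b2 s2
  rw [G2_eq, G2_pi h]
  set d1 := D θ (t + 2 * Real.pi / 3) with hd1
  set d2 := D θ (t + 2 * Real.pi / 3 + Real.pi) with hd2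
  have e0 : sb1 D θ t = clamp (sgs x + d1 - d2) := rfl
  rw [e0, hxc]
  rcases le_or_gt (Real.cos x) (1 / 2) with hc | hc
  · rw [s1 hc]
    rcases le_or_gt (Real.cos (x - Real.pi)) (1 / 2) with hc2 | hc2
    · rw [s2 hc2, clamp_eq (by rw [add_zero, sub_zero]; exact sgs_abs _)]
      push_cast
      ring_nf
    · rw [sgs_flip hx0] at b2
      rw [clamp_eq (by
        rw [add_zero]
        rw [abs_sub_comm]
        rw [show d2 - sgs x = -sgs x + d2 by ring]
        exact b2)]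
      have h3 : sgs (x + Real.pi / 3) = -1 := by
        apply sgs_of_neg
        have h4 := sin_add_third hc2
        rw [show x - Real.pi + Real.pi / 3 = x + Real.pi / 3 - Real.pi by ring,
          Real.sin_sub_pi] at h4
        linarith
      rw [h3]
      unfold yy
      push_cast
      ring
  · have hc2 : Real.cos (x - Real.pi) ≤ 1 / 2 := by
      rw [Real.cos_sub_pi]
      linarith
    rw [s2 hc2, clamp_eq (by rw [sub_zero]; exact b1)]
    have h3 : sgs (x + Real.pi / 3) = 1 := sgs_of_pos (sin_add_third hc)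
    rw [h3]
    unfold yy
    push_cast
    ring

theorem sa2_pt (h : Fam A B v C) {D : ℝ → ℝ → ℝ} (hD : Sel D) (θ t : ℝ)
    (h0 : Real.sin (θ - Real.pi / 3 - t) ≠ 0) :
    yy A B v t (sa2 D θ t) (sgs (θ - t - 2 * Real.pi / 3))
      = yy A B v t (sgs (θ - t - Real.pi / 3)) (sgs (θ - t - 2 * Real.pi / 3))
        - (1 / 2) * ((D (t + Real.pi / 3) θ : ℂ) * G1 A v (t + Real.pi / 3)
          + (D (t + Real.pi / 3 + Real.pi) θ : ℂ) * G1 A v (t + Real.pi / 3 + Real.pi)) := by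
  set x := θ - t - Real.pi / 3 with hx
  have hx0 : Real.sin x ≠ 0 := by
    rw [hx, show θ - t - Real.pi / 3 = θ - Real.pi / 3 - t by ring]
    exact h0
  have hxa : t + Real.pi / 3 - θ = -x := by rw [hx]; ring
  have hxb : t + Real.pi / 3 + Real.pi - θ = -(x - Real.pi) := by rw [hx]; ring
  have hxc : θ - t - 2 * Real.pi / 3 = x - Real.pi / 3 := by rw [hx]; ring
  have b1 := hD.b (t + Real.pi / 3) θ
  have b2 := hD.b (t + Real.pi / 3 + Real.pi) θ
  have s1 := hD.s (t + Real.pi / 3) θ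
  have s2 := hD.s (t + Real.pi / 3 + Real.pi) θ
  rw [hxa, sgs_neg' hx0] at b1
  rw [hxa, Real.cos_neg] at s1
  have hx1 : Real.sin (x - Real.pi) ≠ 0 := by
    rw [Real.sin_sub_pi]
    exact neg_ne_zero.2 hx0
  rw [hxb, sgs_neg' hx1, sgs_flip hx0] at b2
  rw [hxb, Real.cos_neg] at s2
  rw [G1_eq, G1_pi h]
  set d1 := D (t + Real.pi / 3) θ with hd1
  set d2 := D (t + Real.pi / 3 + Real.pi) θ with hd2
  have e0 : sa2 D θ t = clamp (sgs x - d1 + d2) := rfl
  rw [e0, hxc]
  rcases le_or_gt (Real.cos x) (1 / 2) with hc | hc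
  · rw [s1 hc]
    rcases le_or_gt (Real.cos (x - Real.pi)) (1 / 2) with hc2 | hc2
    · rw [s2 hc2, clamp_eq (by rw [sub_zero, add_zero]; exact sgs_abs _)]
      push_cast
      ring_nf
    · rw [clamp_eq (by
        rw [sub_zero]
        rw [show sgs x + d2 = - -sgs x + d2 by ring]
        exact b2)]
      have h3 : sgs (x - Real.pi / 3) = 1 := by
        apply sgs_of_pos
        have h4 := sin_sub_third hc2
        rw [show x - Real.pi - Real.pi / 3 = x - Real.pi / 3 - Real.pi by ring,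
          Real.sin_sub_pi] at h4
        linarith
      rw [h3]
      unfold yy
      push_cast
      ring
  · have hc2 : Real.cos (x - Real.pi) ≤ 1 / 2 := by
      rw [Real.cos_sub_pi]
      linarith
    rw [s2 hc2, clamp_eq (by
      rw [add_zero, abs_sub_comm, show d1 - sgs x = -sgs x + d1 by ring]
      exact b1)]
    have h3 : sgs (x - Real.pi / 3) = -1 := sgs_of_neg (sin_sub_third hc)
    rw [h3]
    unfold yy
    push_cast
    ring

/-- the integral of a doubled periodic function -/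
theorem int_dup {g : ℝ → ℂ} (hg : ∀ t, g (t + 2 * Real.pi) = g t)
    (hi : ∀ a b : ℝ, IntervalIntegrable g volume a b) (c : ℝ) :
    ∫ t in (0 : ℝ)..(2 * Real.pi), (1 / 2 : ℂ) * (g (t + c) + g (t + c + Real.pi))
      = ∫ t in (0 : ℝ)..(2 * Real.pi), g t := by
  have hs : ∀ a : ℝ, ∫ t in (0 : ℝ)..(2 * Real.pi), g (t + a) = ∫ t in (0 : ℝ)..(2 * Real.pi), g t := by
    intro a
    rw [intervalIntegral.integral_comp_add_right (f := g), zero_add, add_comm (2 * Real.pi) a]
    exact (int_per hg a).symm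
  have hia : ∀ a : ℝ, IntervalIntegrable (fun t => g (t + a)) volume 0 (2 * Real.pi) := by
    intro a
    have := (hi (0 + a) (2 * Real.pi + a)).comp_add_right a
    simpa using this
  have h1 : (fun t => (1 / 2 : ℂ) * (g (t + c) + g (t + c + Real.pi)))
      = fun t => (1 / 2 : ℂ) * (g (t + c) + g (t + (c + Real.pi))) := by
    funext t
    rw [add_assoc t c]
  rw [h1, intervalIntegral.integral_const_mul, intervalIntegral.integral_add (hia c) (hia _), hs, hs]
  ring

/-- THEOREM SEL: the arrangement bound with an arbitrary change of the order. -/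
theorem selG (h : Fam A B v C) (hq : QQ A B v) {D : ℝ → ℝ → ℝ} (hD : Sel D) :
    1 / (4 * Real.pi) * (∫ θ in (0 : ℝ)..(2 * Real.pi),
      ((G1 A v θ * (starRingEnd ℂ) (Y2 A B v θ θ)).im
      + (G2 B v θ * (starRingEnd ℂ) (Y2 A B v θ θ)).im))
    + 1 / (2 * Real.pi) * (∫ θ in (0 : ℝ)..(2 * Real.pi), ∫ τ in (0 : ℝ)..(2 * Real.pi),
      D θ τ * (G1 A v θ * (starRingEnd ℂ) (G2 B v τ)).im) ≤ AQQG A B v := by
  have hpi := Real.pi_pos
  have mD1 : ∀ θ, Measurable (fun τ => D θ τ) := fun θ =>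
    hD.m.comp (measurable_const.prodMk measurable_id)
  have mD2 : ∀ τ, Measurable (fun θ => D θ τ) := fun τ =>
    hD.m.comp (measurable_id.prodMk measurable_const)
  have mG1 := G1_meas h
  have mG2 := G2_meas h
  have hC := h.C0
  have iD1 : ∀ θ a b, IntervalIntegrable (fun τ => (D θ τ : ℂ) * G2 B v τ) volume a b := by
    intro θ a b
    refine intg_of_bddC (C := 2 * (2 * C)) ((Complex.measurable_ofReal.comp (mD1 θ)).mul mG2) ?_ _ _
    intro τ
    show ‖(D θ τ : ℂ) * G2 B v τ‖ ≤ 2 * (2 * C)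
    rw [norm_mul, Complex.norm_real, Real.norm_eq_abs]
    exact mul_le_mul (hD.le θ τ) (G2_le h τ) (norm_nonneg _) (by norm_num)
  have iD2 : ∀ θ a b, IntervalIntegrable (fun τ => (D τ θ : ℂ) * G1 A v τ) volume a b := by
    intro θ a b
    refine intg_of_bddC (C := 2 * (2 * C)) ((Complex.measurable_ofReal.comp (mD2 θ)).mul mG1) ?_ _ _
    intro τ
    show ‖(D τ θ : ℂ) * G1 A v τ‖ ≤ 2 * (2 * C)
    rw [norm_mul, Complex.norm_real, Real.norm_eq_abs]
    exact mul_le_mul (hD.le τ θ) (G1_le h τ) (norm_nonneg _) (by norm_num)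
  have sm1 : Measurable (fun q : ℝ × ℝ => sgs (q.1 - q.2 - Real.pi / 3)) :=
    sgs_meas.comp ((measurable_fst.sub measurable_snd).sub_const _)
  have sm2 : Measurable (fun q : ℝ × ℝ => sgs (q.1 - q.2 - 2 * Real.pi / 3)) :=
    sgs_meas.comp ((measurable_fst.sub measurable_snd).sub_const _)
  have sm3 : Measurable (fun q : ℝ × ℝ => sb1 D q.1 q.2) := by
    unfold sb1
    refine clamp_meas.comp ((sm2.add (hD.m.comp (measurable_fst.prodMk
      (measurable_snd.add_const _)))).sub ?_)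
    exact hD.m.comp (measurable_fst.prodMk ((measurable_snd.add_const _).add_const _))
  have sm4 : Measurable (fun q : ℝ × ℝ => sa2 D q.1 q.2) := by
    unfold sa2
    refine clamp_meas.comp ((sm1.sub (hD.m.comp ((measurable_snd.add_const _).prodMk
      measurable_fst))).add ?_)
    exact hD.m.comp (((measurable_snd.add_const _).add_const _).prodMk measurable_fst)
  have nat : ∀ θ, IntervalIntegrable (fun t => yy A B v t (sgs (θ - t - Real.pi / 3))
      (sgs (θ - t - 2 * Real.pi / 3))) volume 0 (2 * Real.pi) := by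
    intro θ
    refine intg_of_bddC (C := 2 * C) ?_ (fun t => yy_le h t (sgs_abs _) (sgs_abs _)) _ _
    exact yy_meas h (sgs_meas.comp ((measurable_const.sub measurable_id).sub_const _))
      (sgs_meas.comp ((measurable_const.sub measurable_id).sub_const _))
  have natv : ∀ θ, ∫ t in (0 : ℝ)..(2 * Real.pi), yy A B v t (sgs (θ - t - Real.pi / 3))
      (sgs (θ - t - 2 * Real.pi / 3)) = Y2 A B v θ θ - 1 / 2 * ∫ t in (0 : ℝ)..(2 * Real.pi), v t :=
    fun θ => yy_int h θ θ (by linarith) (by linarith)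
  have gp2 : ∀ θ τ, (D θ (τ + 2 * Real.pi) : ℂ) * G2 B v (τ + 2 * Real.pi)
      = (D θ τ : ℂ) * G2 B v τ := fun θ τ => by rw [hD.p2, G2_per h]
  have gp1 : ∀ θ τ, (D (τ + 2 * Real.pi) θ : ℂ) * G1 A v (τ + 2 * Real.pi)
      = (D τ θ : ℂ) * G1 A v τ := fun θ τ => by rw [hD.p1, G1_per h]
  have hib : ∀ {g : ℝ → ℂ}, (∀ a b : ℝ, IntervalIntegrable g volume a b) → ∀ a : ℝ,
      IntervalIntegrable (fun t => g (t + a)) volume 0 (2 * Real.pi) := by
    intro g hi a
    have := (hi (0 + a) (2 * Real.pi + a)).comp_add_right a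
    simpa using this
  have key := cut_QQG h hq (a1 := fun θ t => sgs (θ - t - Real.pi / 3)) (b1 := sb1 D)
    (a2 := sa2 D) (b2 := fun θ t => sgs (θ - t - 2 * Real.pi / 3)) sm1 sm3 sm4 sm2
    (fun _ _ => sgs_abs _) (fun _ _ => clamp_abs _) (fun _ _ => clamp_abs _) (fun _ _ => sgs_abs _)
    (fun θ t => by
      show sgs (θ + 2 * Real.pi - t - Real.pi / 3) = sgs (θ - t - Real.pi / 3)
      rw [← sgs_per (θ - t - Real.pi / 3)]
      congr 1
      ring)
    (fun θ t => by
      unfold sb1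
      rw [hD.p1, hD.p1, ← sgs_per (θ - t - 2 * Real.pi / 3)]
      congr 4
      ring)
    (fun θ t => by
      unfold sa2
      rw [hD.p2, hD.p2, ← sgs_per (θ - t - Real.pi / 3)]
      congr 4
      ring)
    (fun θ t => by
      show sgs (θ + 2 * Real.pi - t - 2 * Real.pi / 3) = sgs (θ - t - 2 * Real.pi / 3)
      rw [← sgs_per (θ - t - 2 * Real.pi / 3)]
      congr 1
      ring)
    (Z1 := fun θ => Y2 A B v θ θ + ∫ τ in (0 : ℝ)..(2 * Real.pi), (D θ τ : ℂ) * G2 B v τ)
    (Z2 := fun θ => Y2 A B v θ θ - ∫ τ in (0 : ℝ)..(2 * Real.pi), (D τ θ : ℂ) * G1 A v τ)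
    (c := -(1 / 2 * ∫ t in (0 : ℝ)..(2 * Real.pi), v t))
    (fun θ => by
      have e1 : ∫ t in (0 : ℝ)..(2 * Real.pi), yy A B v t (sgs (θ - t - Real.pi / 3)) (sb1 D θ t)
          = ∫ t in (0 : ℝ)..(2 * Real.pi), (yy A B v t (sgs (θ - t - Real.pi / 3))
            (sgs (θ - t - 2 * Real.pi / 3))
            + (1 / 2) * ((D θ (t + 2 * Real.pi / 3) : ℂ) * G2 B v (t + 2 * Real.pi / 3)
            + (D θ (t + 2 * Real.pi / 3 + Real.pi) : ℂ)
              * G2 B v (t + 2 * Real.pi / 3 + Real.pi))) := by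
        refine intervalIntegral.integral_congr_ae ?_
        filter_upwards [null_sin (θ - 2 * Real.pi / 3)] with t ht _
        exact sb1_pt h hD θ t ht
      have hg := hib (g := fun τ => (D θ τ : ℂ) * G2 B v τ) (iD1 θ)
      rw [e1, intervalIntegral.integral_add (nat θ), natv,
        int_dup (g := fun τ => (D θ τ : ℂ) * G2 B v τ) (gp2 θ) (iD1 θ)]
      · ring
      · refine (((hg (2 * Real.pi / 3)).add ?_).const_mul (1 / 2 : ℂ))
        have := hg (2 * Real.pi / 3 + Real.pi)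
        simp only [← add_assoc] at this
        exact this)
    (fun θ => by
      have e1 : ∫ t in (0 : ℝ)..(2 * Real.pi), yy A B v t (sa2 D θ t) (sgs (θ - t - 2 * Real.pi / 3))
          = ∫ t in (0 : ℝ)..(2 * Real.pi), (yy A B v t (sgs (θ - t - Real.pi / 3))
            (sgs (θ - t - 2 * Real.pi / 3))
            - (1 / 2) * ((D (t + Real.pi / 3) θ : ℂ) * G1 A v (t + Real.pi / 3)
            + (D (t + Real.pi / 3 + Real.pi) θ : ℂ) * G1 A v (t + Real.pi / 3 + Real.pi))) := by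
        refine intervalIntegral.integral_congr_ae ?_
        filter_upwards [null_sin (θ - Real.pi / 3)] with t ht _
        exact sa2_pt h hD θ t ht
      have hg := hib (g := fun τ => (D τ θ : ℂ) * G1 A v τ) (iD2 θ)
      rw [e1, intervalIntegral.integral_sub (nat θ), natv,
        int_dup (g := fun τ => (D τ θ : ℂ) * G1 A v τ) (gp1 θ) (iD2 θ)]
      · ring
      · refine (((hg (Real.pi / 3)).add ?_).const_mul (1 / 2 : ℂ))
        have := hg (Real.pi / 3 + Real.pi)
        simp only [← add_assoc] at this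
        exact this)
  refine le_trans (le_of_eq ?_) key
  -- expansion
  have mim : ∀ {f g : ℝ → ℂ}, Measurable f → Measurable g →
      Measurable (fun q => (f q * (starRingEnd ℂ) (g q)).im) := fun hf hg =>
    Complex.measurable_im.comp (hf.mul (Complex.continuous_conj.measurable.comp hg))
  have Ym : Measurable (fun θ => Y2 A B v θ θ) := Y2_meas h measurable_id measurable_id
  have Yb : ∀ θ, ‖Y2 A B v θ θ‖ ≤ 6 * Real.pi * C := fun θ => Y2_le h θ θ (by
    rw [sub_self, abs_zero]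
    exact hpi.le)
  have i1 : IntervalIntegrable (fun θ => (G1 A v θ * (starRingEnd ℂ) (Y2 A B v θ θ)).im) volume 0
      (2 * Real.pi) := intg_of_bdd (mim mG1 Ym) (fun θ => im_le' (G1_le h θ) (Yb θ)) _ _
  have i2 : IntervalIntegrable (fun θ => (G2 B v θ * (starRingEnd ℂ) (Y2 A B v θ θ)).im) volume 0
      (2 * Real.pi) := intg_of_bdd (mim mG2 Ym) (fun θ => im_le' (G2_le h θ) (Yb θ)) _ _
  set J : ℝ × ℝ → ℝ := fun q => D q.1 q.2 * (G1 A v q.1 * (starRingEnd ℂ) (G2 B v q.2)).im with hJ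
  have Jm : Measurable J := hD.m.mul (meas_im (mG1.comp measurable_fst) (mG2.comp measurable_snd))
  have Jb : ∀ q, |J q| ≤ 2 * (2 * C * (2 * C)) := by
    intro q
    rw [hJ, abs_mul]
    exact mul_le_mul (hD.le _ _) (im_le' (G1_le h _) (G2_le h _)) (abs_nonneg _) (by norm_num)
  have inJ : ∀ {K : ℝ × ℝ → ℝ}, Measurable K → (∀ q, |K q| ≤ 2 * (2 * C * (2 * C))) →
      IntervalIntegrable (fun θ => ∫ τ in (0 : ℝ)..(2 * Real.pi), K (θ, τ)) volume 0
      (2 * Real.pi) := by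
    intro K hK hb
    have h1 : StronglyMeasurable K := hK.stronglyMeasurable
    have h2 := h1.integral_prod_right' (ν := volume.restrict (Ioc 0 (2 * Real.pi)))
    have h3 : (fun t => ∫ s in (0 : ℝ)..(2 * Real.pi), K (t, s)) =
        fun t => ∫ s, K (t, s) ∂(volume.restrict (Ioc 0 (2 * Real.pi))) := by
      funext t
      rw [intervalIntegral.integral_of_le (by positivity)]
    refine intg_of_bdd (C := 2 * (2 * C * (2 * C)) * |2 * Real.pi - 0|) ?_ ?_ _ _
    · rw [h3]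
      exact h2.measurable
    · intro t
      rw [← Real.norm_eq_abs]
      exact intervalIntegral.norm_integral_le_of_norm_le_const fun s _ => by
        rw [Real.norm_eq_abs]; exact hb _
  have e2 : ∀ θ, (G1 A v θ * (starRingEnd ℂ) (Y2 A B v θ θ
      + ∫ τ in (0 : ℝ)..(2 * Real.pi), (D θ τ : ℂ) * G2 B v τ)).im
      = (G1 A v θ * (starRingEnd ℂ) (Y2 A B v θ θ)).im + ∫ τ in (0 : ℝ)..(2 * Real.pi), J (θ, τ) := by
    intro θ
    rw [map_add, mul_add, Complex.add_im, ← im_int _ (iD1 θ _ _)]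
    congr 1
    refine intervalIntegral.integral_congr fun τ _ => ?_
    show (G1 A v θ * (starRingEnd ℂ) ((D θ τ : ℂ) * G2 B v τ)).im
      = D θ τ * (G1 A v θ * (starRingEnd ℂ) (G2 B v τ)).im
    rw [map_mul, Complex.conj_ofReal, ← Complex.im_ofReal_mul]
    congr 1
    ring
  have e3 : ∀ θ, (G2 B v θ * (starRingEnd ℂ) (Y2 A B v θ θ
      - ∫ τ in (0 : ℝ)..(2 * Real.pi), (D τ θ : ℂ) * G1 A v τ)).im
      = (G2 B v θ * (starRingEnd ℂ) (Y2 A B v θ θ)).im + ∫ τ in (0 : ℝ)..(2 * Real.pi), J (τ, θ) := by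
    intro θ
    rw [map_sub, mul_sub, Complex.sub_im, ← im_int _ (iD2 θ _ _), sub_eq_add_neg,
      ← intervalIntegral.integral_neg]
    congr 1
    refine intervalIntegral.integral_congr fun τ _ => ?_
    show -(G2 B v θ * (starRingEnd ℂ) ((D τ θ : ℂ) * G1 A v τ)).im
      = D τ θ * (G1 A v τ * (starRingEnd ℂ) (G2 B v θ)).im
    simp only [Complex.mul_im, map_mul, Complex.conj_re, Complex.conj_im, Complex.ofReal_re,
      Complex.ofReal_im, Complex.mul_re]
    ring
  have hsw : (∫ θ in (0 : ℝ)..(2 * Real.pi), ∫ τ in (0 : ℝ)..(2 * Real.pi), J (τ, θ))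
      = ∫ θ in (0 : ℝ)..(2 * Real.pi), ∫ τ in (0 : ℝ)..(2 * Real.pi), J (θ, τ) :=
    (dbl_swap Jm Jb).symm
  have e4 : ∫ θ in (0 : ℝ)..(2 * Real.pi), ((G1 A v θ * (starRingEnd ℂ) (Y2 A B v θ θ
      + ∫ τ in (0 : ℝ)..(2 * Real.pi), (D θ τ : ℂ) * G2 B v τ)).im
      + (G2 B v θ * (starRingEnd ℂ) (Y2 A B v θ θ
      - ∫ τ in (0 : ℝ)..(2 * Real.pi), (D τ θ : ℂ) * G1 A v τ)).im)
      = (∫ θ in (0 : ℝ)..(2 * Real.pi), ((G1 A v θ * (starRingEnd ℂ) (Y2 A B v θ θ)).im
        + (G2 B v θ * (starRingEnd ℂ) (Y2 A B v θ θ)).im))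
        + 2 * ∫ θ in (0 : ℝ)..(2 * Real.pi), ∫ τ in (0 : ℝ)..(2 * Real.pi), J (θ, τ) := by
    simp_rw [e2, e3]
    have i3 := inJ Jm Jb
    have i4 := inJ (K := fun q => J (q.2, q.1)) (Jm.comp measurable_swap) (fun q => Jb _)
    rw [intervalIntegral.integral_add (i1.add i3) (i2.add i4), intervalIntegral.integral_add i1 i3,
      intervalIntegral.integral_add i2 i4, intervalIntegral.integral_add i1 i2]
    have : (∫ θ in (0 : ℝ)..(2 * Real.pi), ∫ τ in (0 : ℝ)..(2 * Real.pi),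
        (fun q : ℝ × ℝ => J (q.2, q.1)) (θ, τ))
        = ∫ θ in (0 : ℝ)..(2 * Real.pi), ∫ τ in (0 : ℝ)..(2 * Real.pi), J (θ, τ) := hsw
    rw [this]
    ring
  rw [e4]
  have e5 : (∫ θ in (0 : ℝ)..(2 * Real.pi), ∫ τ in (0 : ℝ)..(2 * Real.pi),
      D θ τ * (G1 A v θ * (starRingEnd ℂ) (G2 B v τ)).im)
      = ∫ θ in (0 : ℝ)..(2 * Real.pi), ∫ τ in (0 : ℝ)..(2 * Real.pi), J (θ, τ) := rfl
  rw [e5]
  field_simp
  ring

end Helper44.RCG
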