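import Pool.Agent.Helper44.RC.M_MID

/-! # Project RC: selection centered at an arbitrary point, two independent shifts -/

open MeasureTheory Set Filter Metric

namespace Helper44.RCG

open Helper49.LT hiding sg
open Helper49.RC
open Helper87.RC hiding cut_gen sgs_abs sgs_meas sgs_per
open Helper44.RC (sgs dbl dbl_add dbl_swap dbl_const dbl_mono dbl_prod dbl_intg dbl_eq meas_im
  two_pi_nonneg im_le' sgs_abs sgs_sq sgs_meas sgs_per im_int int_congr_choice int_perR int_per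
  sgs_pos sgs_neg)

variable {A0 A B v : ℝ → ℂ} {C : ℝ}

/-- the change of the order, centered at `θ - α u` (`α = 0`: at the edge of the family 1, `α = 1`: at the edge
of the family 2) -/
noncomputable def DA (α : ℝ) (S : ℝ → ℝ → ℝ) (θ τ : ℝ) : ℝ :=
  if |wr (θ - τ)| < Real.pi / 3 then
    S (θ - α * wr (θ - τ)) (wr (θ - τ)) - sgs (θ - τ) else 0

theorem DA_Sel (α : ℝ) {S : ℝ → ℝ → ℝ} (hm : Measurable (fun q : ℝ × ℝ => S q.1 q.2))
    (hp : ∀ φ u, S (φ + 2 * Real.pi) u = S φ u) (hb : ∀ φ u, |S φ u| ≤ 1) : Sel (DA α S) := by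
  have hpi := Real.pi_pos
  have hw : Measurable (fun q : ℝ × ℝ => wr (q.1 - q.2)) :=
    wr_meas.comp (measurable_fst.sub measurable_snd)
  refine ⟨?_, ?_, ?_, ?_, ?_⟩
  · unfold DA
    refine Measurable.ite (measurableSet_lt hw.abs measurable_const) ?_ measurable_const
    refine (hm.comp ((measurable_fst.sub (hw.const_mul α)).prodMk hw)).sub ?_
    exact sgs_meas.comp (measurable_fst.sub measurable_snd)
  · intro θ τ
    unfold DA
    have h1 : θ + 2 * Real.pi - τ = θ - τ + 2 * Real.pi := by ring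
    rw [h1, wr_per, sgs_per, show θ + 2 * Real.pi - α * wr (θ - τ)
      = θ - α * wr (θ - τ) + 2 * Real.pi by ring, hp]
  · intro θ τ
    unfold DA
    have h1 : wr (θ - (τ + 2 * Real.pi)) = wr (θ - τ) := by
      rw [← wr_per (θ - (τ + 2 * Real.pi))]
      congr 1
      ring
    have h2 : sgs (θ - (τ + 2 * Real.pi)) = sgs (θ - τ) := by
      rw [← sgs_per (θ - (τ + 2 * Real.pi))]
      congr 1
      ring
    rw [h1, h2]
  · intro θ τ hc
    unfold DA
    rw [if_neg]
    intro h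
    rw [← wr_cos] at hc
    have h1 : Real.cos (Real.pi / 3) < Real.cos |wr (θ - τ)| :=
      Real.cos_lt_cos_of_nonneg_of_le_pi (abs_nonneg _) (by linarith) h
    rw [Real.cos_abs, Real.cos_pi_div_three] at h1
    linarith
  · intro θ τ
    unfold DA
    split_ifs with h
    · rw [add_sub_cancel]
      exact hb _ _
    · rw [add_zero]
      exact sgs_abs _

theorem Sel_half {D1 D2 : ℝ → ℝ → ℝ} (h1 : Sel D1) (h2 : Sel D2) :
    Sel (fun θ τ => 1 / 2 * (D1 θ τ + D2 θ τ)) := by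
  refine ⟨(h1.m.add h2.m).const_mul _, ?_, ?_, ?_, ?_⟩
  · intro θ τ
    simp only [h1.p1, h2.p1]
  · intro θ τ
    simp only [h1.p2, h2.p2]
  · intro θ τ hc
    simp only [h1.s θ τ hc, h2.s θ τ hc]
    ring
  · intro θ τ
    have a := abs_le.1 (h1.b θ τ)
    have b := abs_le.1 (h2.b θ τ)
    rw [abs_le]
    constructor <;> linarith [a.1, a.2, b.1, b.2]

/-- the double integral of a change of the order -/
theorem DA_int (h : Fam A B v C) (α : ℝ) {S : ℝ → ℝ → ℝ}
    (hm : Measurable (fun q : ℝ × ℝ => S q.1 q.2))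
    (hp : ∀ φ u, S (φ + 2 * Real.pi) u = S φ u) (hb : ∀ φ u, |S φ u| ≤ 1) :
    (∫ θ in (0 : ℝ)..(2 * Real.pi), ∫ τ in (0 : ℝ)..(2 * Real.pi),
      DA α S θ τ * (G1 A v θ * (starRingEnd ℂ) (G2 B v τ)).im)
    = ∫ u in (-(Real.pi / 3))..(Real.pi / 3), ∫ φ in (0 : ℝ)..(2 * Real.pi), (S φ u - sgs u)
        * (G1 A v (φ + α * u) * (starRingEnd ℂ) (G2 B v (φ + α * u - u))).im := by
  have hpi := Real.pi_pos
  have hC := h.C0
  have hS := DA_Sel α hm hp hb
  have mG1 := G1_meas h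
  have mG2 := G2_meas h
  set H : ℝ → ℝ → ℝ := fun θ τ => (G1 A v θ * (starRingEnd ℂ) (G2 B v τ)).im with hH
  set R : ℝ × ℝ → ℝ := fun q => (S (q.1 - α * q.2) q.2 - sgs q.2) * H q.1 (q.1 - q.2) with hR
  have Rm : Measurable R := by
    refine ((hm.comp ((measurable_fst.sub (measurable_snd.const_mul α)).prodMk
      measurable_snd)).sub (sgs_meas.comp measurable_snd)).mul ?_
    exact meas_im (mG1.comp measurable_fst) (mG2.comp (measurable_fst.sub measurable_snd))
  have Rb : ∀ q, |R q| ≤ 2 * (2 * C * (2 * C)) := by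
    intro q
    rw [hR, abs_mul]
    refine mul_le_mul ?_ (im_le' (G1_le h _) (G2_le h _)) (abs_nonneg _) (by norm_num)
    have h1 := hb (q.1 - α * q.2) q.2
    have h2 := sgs_abs q.2
    rw [abs_le] at *
    constructor <;> linarith [h1.1, h1.2, h2.1, h2.2]
  have e1 : ∀ θ, ∫ τ in (0 : ℝ)..(2 * Real.pi), DA α S θ τ * H θ τ
      = ∫ u in (-(Real.pi / 3))..(Real.pi / 3), R (θ, u) := by
    intro θ
    have hper : ∀ u, DA α S θ (θ - (u + 2 * Real.pi)) * H θ (θ - (u + 2 * Real.pi))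
        = DA α S θ (θ - u) * H θ (θ - u) := by
      intro u
      have h1 := hS.p2 θ (θ - (u + 2 * Real.pi))
      have h2 := G2_per h (θ - (u + 2 * Real.pi))
      rw [show θ - (u + 2 * Real.pi) + 2 * Real.pi = θ - u by ring] at h1 h2
      simp only [hH]
      rw [← h1, ← h2]
    have h3 : ∫ τ in (0 : ℝ)..(2 * Real.pi), DA α S θ τ * H θ τ
        = ∫ u in (θ - 2 * Real.pi)..(θ - 0), DA α S θ (θ - u) * H θ (θ - u) := by
      have := intervalIntegral.integral_comp_sub_left (f := fun τ => DA α S θ τ * H θ τ)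
        (a := θ - 2 * Real.pi) (b := θ - 0) θ
      rw [this]
      congr 1 <;> ring
    rw [h3]
    have h4 := int_perR (g := fun u => DA α S θ (θ - u) * H θ (θ - u)) hper (θ - 2 * Real.pi)
    have h5 := int_perR (g := fun u => DA α S θ (θ - u) * H θ (θ - u)) hper (-Real.pi)
    rw [show θ - 2 * Real.pi + 2 * Real.pi = θ - 0 by ring] at h4
    rw [← h4, h5, show -Real.pi + 2 * Real.pi = Real.pi by ring]
    have h6 : ∫ u in (-Real.pi)..Real.pi, DA α S θ (θ - u) * H θ (θ - u)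
        = ∫ u in (-Real.pi)..Real.pi, (Set.Ioc (-(Real.pi / 3)) (Real.pi / 3)).indicator
          (fun u => R (θ, u)) u := by
      refine intervalIntegral.integral_congr_ae ?_
      have n1 : ∀ᵐ u : ℝ, u ≠ Real.pi := compl_mem_ae_iff.2 (measure_singleton _)
      have n2 : ∀ᵐ u : ℝ, u ≠ Real.pi / 3 := compl_mem_ae_iff.2 (measure_singleton _)
      filter_upwards [n1, n2] with u hu1 hu2 hu
      rw [uIoc_of_le (by linarith)] at hu
      have hw : wr (θ - (θ - u)) = u := by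
        rw [sub_sub_cancel]
        exact wr_eq hu.1.le (lt_of_le_of_ne hu.2 hu1)
      unfold DA
      rw [hw, sub_sub_cancel]
      by_cases hc : |u| < Real.pi / 3
      · rw [if_pos hc]
        rw [abs_lt] at hc
        rw [Set.indicator_of_mem (by exact ⟨hc.1, hc.2.le⟩)]
      · rw [if_neg hc, zero_mul]
        rw [Set.indicator_of_notMem]
        intro hmem
        apply hc
        rw [abs_lt]
        exact ⟨hmem.1, lt_of_le_of_ne hmem.2 hu2⟩
    rw [h6, intervalIntegral.integral_of_le (by linarith), setIntegral_indicator measurableSet_Ioc,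
      intervalIntegral.integral_of_le (by linarith)]
    congr 2
    ext x
    constructor
    · intro hx
      exact hx.2
    · intro hx
      exact ⟨⟨by linarith [hx.1], by linarith [hx.2]⟩, hx⟩
  have e2 : (∫ θ in (0 : ℝ)..(2 * Real.pi), ∫ τ in (0 : ℝ)..(2 * Real.pi),
      DA α S θ τ * (G1 A v θ * (starRingEnd ℂ) (G2 B v τ)).im)
      = ∫ θ in (0 : ℝ)..(2 * Real.pi), ∫ u in (-(Real.pi / 3))..(Real.pi / 3), R (θ, u) := by
    congr 1
    funext θ
    exact e1 θ
  rw [e2]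
  have hint : Integrable (fun q : ℝ × ℝ => R q) ((volume.restrict (Ioc 0 (2 * Real.pi))).prod
      (volume.restrict (Ioc (-(Real.pi / 3)) (Real.pi / 3)))) := by
    refine (integrable_const (2 * (2 * C * (2 * C)))).mono' Rm.aestronglyMeasurable ?_
    exact Filter.Eventually.of_forall fun q => by rw [Real.norm_eq_abs]; exact Rb q
  have e3 : (∫ θ in (0 : ℝ)..(2 * Real.pi), ∫ u in (-(Real.pi / 3))..(Real.pi / 3), R (θ, u))
      = ∫ u in (-(Real.pi / 3))..(Real.pi / 3), ∫ θ in (0 : ℝ)..(2 * Real.pi), R (θ, u) := by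
    rw [intervalIntegral.integral_of_le two_pi_nonneg,
      intervalIntegral.integral_of_le (by linarith : -(Real.pi / 3) ≤ Real.pi / 3)]
    simp_rw [intervalIntegral.integral_of_le two_pi_nonneg,
      intervalIntegral.integral_of_le (by linarith : -(Real.pi / 3) ≤ Real.pi / 3)]
    exact integral_integral_swap (f := fun θ u => R (θ, u)) hint
  rw [e3]
  congr 1
  funext u
  have hper2 : ∀ θ, R (θ + 2 * Real.pi, u) = R (θ, u) := by
    intro θ
    simp only [hR, hH]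
    rw [show θ + 2 * Real.pi - α * u = θ - α * u + 2 * Real.pi by ring, hp,
      show θ + 2 * Real.pi - u = θ - u + 2 * Real.pi by ring, G1_per h, G2_per h]
  have h7 : ∫ φ in (0 : ℝ)..(2 * Real.pi), R (φ + α * u, u)
      = ∫ θ in (0 : ℝ)..(2 * Real.pi), R (θ, u) :=
    int_per_shift (g := fun θ => R (θ, u)) hper2 (α * u)
  rw [← h7]
  congr 1
  funext φ
  simp only [hR, hH]
  rw [add_sub_cancel_right]

/-- the sign function of a sharp shift -/
noncomputable def Sψ (ψ : ℝ → ℝ) (φ u : ℝ) : ℝ := if u < ψ φ then -1 else 1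

theorem Sψ_int (h : Fam A B v C) (α : ℝ) {ψ : ℝ → ℝ} (hψ : Measurable ψ)
    (hb : ∀ φ, |ψ φ| ≤ Real.pi / 3) :
    (∫ u in (-(Real.pi / 3))..(Real.pi / 3), ∫ φ in (0 : ℝ)..(2 * Real.pi), (Sψ ψ φ u - sgs u)
        * (G1 A v (φ + α * u) * (starRingEnd ℂ) (G2 B v (φ + α * u - u))).im)
    = -(2 * ∫ φ in (0 : ℝ)..(2 * Real.pi), ∫ u in (0 : ℝ)..(ψ φ),
        (G1 A v (φ + α * u) * (starRingEnd ℂ) (G2 B v (φ + α * u - u))).im) := by
  have hpi := Real.pi_pos
  have hC := h.C0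
  have mG1 := G1_meas h
  have mG2 := G2_meas h
  set H : ℝ × ℝ → ℝ := fun q => (G1 A v (q.1 + α * q.2)
    * (starRingEnd ℂ) (G2 B v (q.1 + α * q.2 - q.2))).im with hH
  have Hm : Measurable H :=
    meas_im (mG1.comp (measurable_fst.add (measurable_snd.const_mul α)))
      (mG2.comp ((measurable_fst.add (measurable_snd.const_mul α)).sub measurable_snd))
  have Hb : ∀ q, |H q| ≤ 2 * C * (2 * C) := fun q => im_le' (G1_le h _) (G2_le h _)
  have hm : Measurable (fun q : ℝ × ℝ => Sψ ψ q.1 q.2) :=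
    Measurable.ite (measurableSet_lt measurable_snd (hψ.comp measurable_fst)) measurable_const
      measurable_const
  have hSb : ∀ φ u, |Sψ ψ φ u| ≤ 1 := by
    intro φ u
    unfold Sψ
    split_ifs <;> simp
  set R : ℝ × ℝ → ℝ := fun q => (Sψ ψ q.1 q.2 - sgs q.2) * H q with hR
  have Rm : Measurable R := (hm.sub (sgs_meas.comp measurable_snd)).mul Hm
  have Rb : ∀ q, |R q| ≤ 2 * (2 * C * (2 * C)) := by
    intro q
    rw [hR, abs_mul]
    refine mul_le_mul ?_ (Hb q) (abs_nonneg _) (by norm_num)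
    have h1 := hSb q.1 q.2
    have h2 := sgs_abs q.2
    rw [abs_le] at *
    constructor <;> linarith [h1.1, h1.2, h2.1, h2.2]
  have hint : Integrable (fun q : ℝ × ℝ => R q) ((volume.restrict (Ioc 0 (2 * Real.pi))).prod
      (volume.restrict (Ioc (-(Real.pi / 3)) (Real.pi / 3)))) := by
    refine (integrable_const (2 * (2 * C * (2 * C)))).mono' Rm.aestronglyMeasurable ?_
    exact Filter.Eventually.of_forall fun q => by rw [Real.norm_eq_abs]; exact Rb q
  have e3 : (∫ u in (-(Real.pi / 3))..(Real.pi / 3), ∫ φ in (0 : ℝ)..(2 * Real.pi), R (φ, u))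
      = ∫ φ in (0 : ℝ)..(2 * Real.pi), ∫ u in (-(Real.pi / 3))..(Real.pi / 3), R (φ, u) := by
    rw [intervalIntegral.integral_of_le two_pi_nonneg,
      intervalIntegral.integral_of_le (by linarith : -(Real.pi / 3) ≤ Real.pi / 3)]
    simp_rw [intervalIntegral.integral_of_le two_pi_nonneg,
      intervalIntegral.integral_of_le (by linarith : -(Real.pi / 3) ≤ Real.pi / 3)]
    exact (integral_integral_swap (f := fun θ u => R (θ, u)) hint).symm
  have e4 : (∫ u in (-(Real.pi / 3))..(Real.pi / 3), ∫ φ in (0 : ℝ)..(2 * Real.pi),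
      (Sψ ψ φ u - sgs u)
        * (G1 A v (φ + α * u) * (starRingEnd ℂ) (G2 B v (φ + α * u - u))).im)
      = ∫ u in (-(Real.pi / 3))..(Real.pi / 3), ∫ φ in (0 : ℝ)..(2 * Real.pi), R (φ, u) := rfl
  rw [e4, e3]
  have e5 : ∀ φ, ∫ u in (-(Real.pi / 3))..(Real.pi / 3), R (φ, u)
      = -(2 * ∫ u in (0 : ℝ)..(ψ φ), H (φ, u)) := by
    intro φ
    have hbφ := abs_le.1 (hb φ)
    have iR : ∀ a b, IntervalIntegrable (fun u => R (φ, u)) volume a b := fun a b =>
      intg_of_bdd (Rm.comp (measurable_const.prodMk measurable_id)) (fun u => Rb _) _ _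
    have n0 : ∀ c : ℝ, ∀ᵐ u : ℝ, u ≠ c := fun c => compl_mem_ae_iff.2 (measure_singleton _)
    have z1 : ∀ a b : ℝ, (∀ u, a < u → u < b → R (φ, u) = 0) → a ≤ b →
        ∫ u in a..b, R (φ, u) = 0 := by
      intro a b hz hab
      have : ∫ u in a..b, R (φ, u) = ∫ u in a..b, (0 : ℝ) := by
        refine intervalIntegral.integral_congr_ae ?_
        filter_upwards [n0 b] with u hu1 hu
        rw [uIoc_of_le hab] at hu
        exact hz u hu.1 (lt_of_le_of_ne hu.2 hu1)
      rw [this]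
      simp
    rcases le_total 0 (ψ φ) with hs | hs
    · rw [← intervalIntegral.integral_add_adjacent_intervals (iR (-(Real.pi / 3)) 0) (iR 0 _),
        ← intervalIntegral.integral_add_adjacent_intervals (iR 0 (ψ φ)) (iR (ψ φ) _),
        z1 (-(Real.pi / 3)) 0 ?_ (by linarith), z1 (ψ φ) (Real.pi / 3) ?_ hbφ.2]
      · have : ∫ u in (0 : ℝ)..(ψ φ), R (φ, u) = ∫ u in (0 : ℝ)..(ψ φ), (-2) * H (φ, u) := by
          refine intervalIntegral.integral_congr_ae ?_
          filter_upwards [n0 (ψ φ)] with u hu1 hu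
          rw [uIoc_of_le hs] at hu
          have h8 : u < ψ φ := lt_of_le_of_ne hu.2 hu1
          simp only [hR, Sψ]
          rw [if_pos h8, sgs_pos hu.1.le (by linarith)]
          ring
        rw [this, intervalIntegral.integral_const_mul]
        ring
      · intro u h1 h2
        simp only [hR, Sψ]
        rw [if_neg (by linarith), sgs_pos (by linarith) (by linarith)]
        ring
      · intro u h1 h2
        simp only [hR, Sψ]
        rw [if_pos (by linarith), sgs_neg (by linarith) h2]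
        ring
    · rw [← intervalIntegral.integral_add_adjacent_intervals (iR (-(Real.pi / 3)) (ψ φ))
          (iR (ψ φ) _),
        ← intervalIntegral.integral_add_adjacent_intervals (iR (ψ φ) 0) (iR 0 _),
        z1 (-(Real.pi / 3)) (ψ φ) ?_ hbφ.1, z1 0 (Real.pi / 3) ?_ (by linarith)]
      · have : ∫ u in (ψ φ)..(0 : ℝ), R (φ, u) = ∫ u in (ψ φ)..(0 : ℝ), 2 * H (φ, u) := by
          refine intervalIntegral.integral_congr_ae ?_
          filter_upwards [n0 0] with u hu1 hu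
          rw [uIoc_of_le hs] at hu
          have h8 : u < 0 := lt_of_le_of_ne hu.2 hu1
          simp only [hR, Sψ]
          rw [if_neg (by linarith [hu.1]), sgs_neg (by linarith [hu.1]) h8]
          ring
        rw [this, intervalIntegral.integral_const_mul, intervalIntegral.integral_symm 0 (ψ φ)]
        ring
      · intro u h1 h2
        simp only [hR, Sψ]
        rw [if_neg (by linarith), sgs_pos (by linarith) (by linarith)]
        ring
      · intro u h1 h2
        simp only [hR, Sψ]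
        rw [if_pos h2, sgs_neg (by linarith) (by linarith)]
        ring
  simp_rw [e5]
  rw [intervalIntegral.integral_neg, intervalIntegral.integral_const_mul]

/-- THEOREM SHIFT2: two independent sharp shifts, `ψ1` centered at the edges of the family 1, `ψ2` centered at
the edges of the family 2 (helper95). -/
theorem shift2G (h : Fam A B v C) (hq : QQ A B v) {ψ1 ψ2 : ℝ → ℝ} (hψ1 : Measurable ψ1)
    (hψ2 : Measurable ψ2) (hp1 : ∀ φ, ψ1 (φ + 2 * Real.pi) = ψ1 φ)
    (hp2 : ∀ φ, ψ2 (φ + 2 * Real.pi) = ψ2 φ) (hb1 : ∀ φ, |ψ1 φ| ≤ Real.pi / 3)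
    (hb2 : ∀ φ, |ψ2 φ| ≤ Real.pi / 3) :
    N0 A B v
      - 1 / (2 * Real.pi) * (∫ φ in (0 : ℝ)..(2 * Real.pi), ∫ u in (0 : ℝ)..(ψ1 φ),
        (G1 A v φ * (starRingEnd ℂ) (G2 B v (φ - u))).im)
      - 1 / (2 * Real.pi) * (∫ φ in (0 : ℝ)..(2 * Real.pi), ∫ u in (0 : ℝ)..(ψ2 φ),
        (G1 A v (φ + u) * (starRingEnd ℂ) (G2 B v φ)).im) ≤ AQQG A B v := by
  have hpi := Real.pi_pos
  have hC := h.C0
  have hm : ∀ {ψ : ℝ → ℝ}, Measurable ψ → Measurable (fun q : ℝ × ℝ => Sψ ψ q.1 q.2) := fun hψ =>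
    Measurable.ite (measurableSet_lt measurable_snd (hψ.comp measurable_fst)) measurable_const
      measurable_const
  have hSb : ∀ (ψ : ℝ → ℝ) φ u, |Sψ ψ φ u| ≤ 1 := by
    intro ψ φ u
    unfold Sψ
    split_ifs <;> simp
  have hSp : ∀ {ψ : ℝ → ℝ}, (∀ φ, ψ (φ + 2 * Real.pi) = ψ φ) →
      ∀ φ u, Sψ ψ (φ + 2 * Real.pi) u = Sψ ψ φ u := by
    intro ψ hp φ u
    unfold Sψ
    rw [hp]
  have s1 := DA_Sel 0 (hm hψ1) (hSp hp1) (hSb ψ1)
  have s2 := DA_Sel 1 (hm hψ2) (hSp hp2) (hSb ψ2)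
  have key := selG h hq (Sel_half s1 s2)
  have i1 := (DA_int h 0 (hm hψ1) (hSp hp1) (hSb ψ1)).trans (Sψ_int h 0 hψ1 hb1)
  have i2 := (DA_int h 1 (hm hψ2) (hSp hp2) (hSb ψ2)).trans (Sψ_int h 1 hψ2 hb2)
  have mG1 := G1_meas h
  have mG2 := G2_meas h
  have hJ : ∀ {D : ℝ → ℝ → ℝ}, Sel D → Measurable (fun q : ℝ × ℝ => D q.1 q.2
      * (G1 A v q.1 * (starRingEnd ℂ) (G2 B v q.2)).im) := fun hD =>
    hD.m.mul (meas_im (mG1.comp measurable_fst) (mG2.comp measurable_snd))
  have hJb : ∀ {D : ℝ → ℝ → ℝ}, Sel D → ∀ q : ℝ × ℝ, |D q.1 q.2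
      * (G1 A v q.1 * (starRingEnd ℂ) (G2 B v q.2)).im| ≤ 2 * (2 * C * (2 * C)) := by
    intro D hD q
    rw [abs_mul]
    exact mul_le_mul (hD.le _ _) (im_le' (G1_le h _) (G2_le h _)) (abs_nonneg _) (by norm_num)
  have e0 : (∫ θ in (0 : ℝ)..(2 * Real.pi), ∫ τ in (0 : ℝ)..(2 * Real.pi),
      (1 / 2 * (DA 0 (Sψ ψ1) θ τ + DA 1 (Sψ ψ2) θ τ))
        * (G1 A v θ * (starRingEnd ℂ) (G2 B v τ)).im)
      = 1 / 2 * ((∫ θ in (0 : ℝ)..(2 * Real.pi), ∫ τ in (0 : ℝ)..(2 * Real.pi),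
          DA 0 (Sψ ψ1) θ τ * (G1 A v θ * (starRingEnd ℂ) (G2 B v τ)).im)
        + (∫ θ in (0 : ℝ)..(2 * Real.pi), ∫ τ in (0 : ℝ)..(2 * Real.pi),
          DA 1 (Sψ ψ2) θ τ * (G1 A v θ * (starRingEnd ℂ) (G2 B v τ)).im)) := by
    have a1 := dbl_add (hJ s1) (hJ s2) (hJb s1) (hJb s2)
    have a2 := dbl_const (1 / 2) (fun q : ℝ × ℝ => DA 0 (Sψ ψ1) q.1 q.2
        * (G1 A v q.1 * (starRingEnd ℂ) (G2 B v q.2)).im + DA 1 (Sψ ψ2) q.1 q.2
        * (G1 A v q.1 * (starRingEnd ℂ) (G2 B v q.2)).im)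
    rw [a1] at a2
    refine Eq.trans ?_ a2
    have a3 : (fun q : ℝ × ℝ => 1 / 2 * (DA 0 (Sψ ψ1) q.1 q.2
        * (G1 A v q.1 * (starRingEnd ℂ) (G2 B v q.2)).im + DA 1 (Sψ ψ2) q.1 q.2
        * (G1 A v q.1 * (starRingEnd ℂ) (G2 B v q.2)).im))
        = fun q : ℝ × ℝ => (1 / 2 * (DA 0 (Sψ ψ1) q.1 q.2 + DA 1 (Sψ ψ2) q.1 q.2))
        * (G1 A v q.1 * (starRingEnd ℂ) (G2 B v q.2)).im := by
      funext q
      ring
    rw [a3]
    rfl
  rw [e0, i1, i2] at key
  refine le_trans (le_of_eq ?_) key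
  unfold N0
  simp only [zero_mul, add_zero, one_mul, add_sub_cancel_right]
  field_simp
  ring

end Helper44.RCG
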