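import Pool.Agent.Helper44.RC.StCut
import Pool.Agent.Helper44.RC.M_QUAD2
import Pool.Agent.Helper87.RC.M_KR6

/-! # Project RC: module SPL, splitting of the double mean; double integrals -/

open MeasureTheory Set Filter Metric

namespace Helper44.RC

open Helper49.LT hiding sg
open Helper49.RC
open Helper87.RC

variable {β P : ℝ → ℂ}

/-- the double integral over the square of the period -/
noncomputable def dbl (f : ℝ × ℝ → ℝ) : ℝ :=
  ∫ t in (0 : ℝ)..(2 * Real.pi), ∫ s in (0 : ℝ)..(2 * Real.pi), f (t, s)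

theorem two_pi_nonneg : (0 : ℝ) ≤ 2 * Real.pi := by positivity

theorem dbl_intg {f : ℝ × ℝ → ℝ} (hf : Measurable f) {C : ℝ} (hC : ∀ q, |f q| ≤ C) :
    Integrable f ((volume.restrict (Ioc 0 (2 * Real.pi))).prod
      (volume.restrict (Ioc 0 (2 * Real.pi)))) := by
  refine (integrable_const C).mono' hf.aestronglyMeasurable ?_
  exact Filter.Eventually.of_forall fun q => by rw [Real.norm_eq_abs]; exact hC q

theorem dbl_eq (f : ℝ × ℝ → ℝ) : dbl f = ∫ t in Ioc 0 (2 * Real.pi), ∫ s in Ioc 0 (2 * Real.pi),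
    f (t, s) := by
  unfold dbl
  rw [intervalIntegral.integral_of_le two_pi_nonneg]
  simp_rw [intervalIntegral.integral_of_le two_pi_nonneg]

theorem dbl_prod {f : ℝ × ℝ → ℝ} (hf : Measurable f) {C : ℝ} (hC : ∀ q, |f q| ≤ C) :
    dbl f = ∫ q, f q ∂((volume.restrict (Ioc 0 (2 * Real.pi))).prod
      (volume.restrict (Ioc 0 (2 * Real.pi)))) := by
  rw [dbl_eq, integral_prod _ (dbl_intg hf hC)]

theorem dbl_swap {f : ℝ × ℝ → ℝ} (hf : Measurable f) {C : ℝ} (hC : ∀ q, |f q| ≤ C) :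
    dbl f = dbl (fun q => f (q.2, q.1)) := by
  rw [dbl_eq, dbl_eq]
  exact integral_integral_swap (f := fun t s => f (t, s)) (dbl_intg hf hC)

theorem dbl_add {f g : ℝ × ℝ → ℝ} (hf : Measurable f) (hg : Measurable g) {C D : ℝ}
    (hC : ∀ q, |f q| ≤ C) (hD : ∀ q, |g q| ≤ D) : dbl (fun q => f q + g q) = dbl f + dbl g := by
  have h1 : dbl (fun q => f q + g q) = _ := dbl_prod (f := fun q => f q + g q) (hf.add hg)
    (C := C + D) (fun q => (abs_add_le _ _).trans (add_le_add (hC q) (hD q)))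
  rw [dbl_prod hf hC, dbl_prod hg hD, h1]
  exact integral_add (dbl_intg hf hC) (dbl_intg hg hD)

theorem dbl_const (c : ℝ) (f : ℝ × ℝ → ℝ) : dbl (fun q => c * f q) = c * dbl f := by
  unfold dbl
  rw [← intervalIntegral.integral_const_mul]
  congr 1
  funext t
  rw [← intervalIntegral.integral_const_mul]

theorem dbl_mono {f g : ℝ × ℝ → ℝ} (hf : Measurable f) (hg : Measurable g) {C D : ℝ}
    (hC : ∀ q, |f q| ≤ C) (hD : ∀ q, |g q| ≤ D) (h : ∀ q, f q ≤ g q) : dbl f ≤ dbl g := by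
  rw [dbl_prod hf hC, dbl_prod hg hD]
  exact integral_mono (dbl_intg hf hC) (dbl_intg hg hD) h

theorem kr_symm (z w : ℂ) : kr z w = kr w z := by
  unfold kr
  have h : w * (starRingEnd ℂ) z = (starRingEnd ℂ) (z * (starRingEnd ℂ) w) := by
    rw [map_mul, Complex.conj_conj]
    ring
  rw [h, Complex.conj_im, abs_neg, Complex.arg_conj]
  split_ifs with h1
  · rw [h1]
  · rw [abs_neg]

theorem q4_meas (h : Adm β P) (k : Fin 4) : Measurable (fun t => q4 t (β t) (P t) k) := by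
  fin_cases k
  · exact m1 h.mb h.mp
  · exact m2 h.mb h.mp
  · exact (m1 h.mb h.mp.neg).neg
  · exact (m2 h.mb h.mp.neg).neg

theorem q4_le (h : Adm β P) (t : ℝ) (k : Fin 4) : ‖q4 t (β t) (P t) k‖ ≤ 6 := by
  fin_cases k
  · exact e6_le h t 1
  · exact e6_le h t 2
  · exact e6_le h t 4
  · exact e6_le h t 5

theorem E0_meas (h : Adm β P) : Measurable (E0 β) := m0 h

theorem E0_le (h : Adm β P) (t : ℝ) : ‖E0 β t‖ ≤ 6 := f0_le h t

theorem im_le {u v : ℂ} (hu : ‖u‖ ≤ 6) (hv : ‖v‖ ≤ 6) : |(u * (starRingEnd ℂ) v).im| ≤ 36 := by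
  refine (Complex.abs_im_le_norm _).trans ?_
  rw [norm_mul, Complex.norm_conj]
  have := mul_le_mul hu hv (norm_nonneg _) (by norm_num)
  linarith

theorem meas_im {f g : ℝ × ℝ → ℂ} (hf : Measurable f) (hg : Measurable g) :
    Measurable (fun q => (f q * (starRingEnd ℂ) (g q)).im) :=
  Complex.measurable_im.comp (hf.mul (Complex.continuous_conj.measurable.comp hg))

/-- six edges: the segment and the quadrilateral -/
theorem sum6_split (t s : ℝ) : ∑ k, ∑ l, kr (e6 β P t k) (e6 β P s l)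
    = 2 * Real.pi * |(E0 β s * (starRingEnd ℂ) (E0 β t)).im|
      + (Real.pi * ∑ l, |(q4 s (β s) (P s) l * (starRingEnd ℂ) (E0 β t)).im|
      + (Real.pi * ∑ l, |(q4 t (β t) (P t) l * (starRingEnd ℂ) (E0 β s)).im|
      + ∑ k, ∑ l, kr (q4 t (β t) (P t) k) (q4 s (β s) (P s) l))) := by
  have hs : ∀ (r : ℝ) (F : ℂ → ℝ), ∑ k, F (e6 β P r k)
      = F (E0 β r) + F (-(E0 β r)) + ∑ k, F (q4 r (β r) (P r) k) := by
    intro r F
    rw [Fin.sum_univ_four, Fin.sum_univ_six]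
    show F (ee r * f0 (β r)) + F (ee r * f1 (β r) (P r)) + F (ee r * f2 (β r) (P r))
      + F (-(ee r * f0 (β r))) + F (-(ee r * f1 (β r) (-P r))) + F (-(ee r * f2 (β r) (-P r)))
      = F (ee r * f0 (β r)) + F (-(ee r * f0 (β r))) + (F (ee r * f1 (β r) (P r))
        + F (ee r * f2 (β r) (P r)) + F (-(ee r * f1 (β r) (-P r))) + F (-(ee r * f2 (β r) (-P r))))
    ring
  rw [hs t (fun z => ∑ l, kr z (e6 β P s l))]
  have h1 : ∀ z, ∑ l, kr z (e6 β P s l)
      = kr z (E0 β s) + kr z (-(E0 β s)) + ∑ l, kr z (q4 s (β s) (P s) l) :=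
    fun z => hs s (fun w => kr z w)
  simp only [h1]
  rw [Finset.sum_add_distrib]
  have a1 : kr (E0 β t) (E0 β s) + kr (-(E0 β t)) (E0 β s)
      = Real.pi * |(E0 β s * (starRingEnd ℂ) (E0 β t)).im| := tSeg _ _
  have a2 : kr (E0 β t) (-(E0 β s)) + kr (-(E0 β t)) (-(E0 β s))
      = Real.pi * |(E0 β s * (starRingEnd ℂ) (E0 β t)).im| := by
    rw [tSeg, neg_mul, Complex.neg_im, abs_neg]
  have a3 : ∑ l, kr (E0 β t) (q4 s (β s) (P s) l) + ∑ l, kr (-(E0 β t)) (q4 s (β s) (P s) l)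
      = Real.pi * ∑ l, |(q4 s (β s) (P s) l * (starRingEnd ℂ) (E0 β t)).im| := by
    rw [← Finset.sum_add_distrib, Finset.mul_sum]
    exact Finset.sum_congr rfl fun l _ => tSeg _ _
  have a4 : ∑ k, (kr (q4 t (β t) (P t) k) (E0 β s) + kr (q4 t (β t) (P t) k) (-(E0 β s)))
      = Real.pi * ∑ l, |(q4 t (β t) (P t) l * (starRingEnd ℂ) (E0 β s)).im| := by
    rw [Finset.mul_sum]
    refine Finset.sum_congr rfl fun l _ => ?_
    rw [kr_symm _ (E0 β s), kr_symm _ (-(E0 β s))]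
    exact tSeg _ _
  rw [a4]
  linarith

/-- Module SPL. -/
theorem hSPL (hK : StKr6) : StSpl := by
  intro β P h
  obtain ⟨-, -, hF⟩ := hK β P h
  rw [hF]
  set u : ℝ × ℝ → ℝ := fun q => |(E0 β q.2 * (starRingEnd ℂ) (E0 β q.1)).im| with hu
  set w : ℝ × ℝ → ℝ := fun q => ∑ l, |(q4 q.2 (β q.2) (P q.2) l * (starRingEnd ℂ) (E0 β q.1)).im|
    with hw
  set k : ℝ × ℝ → ℝ := fun q => ∑ k, ∑ l, kr (q4 q.1 (β q.1) (P q.1) k) (q4 q.2 (β q.2) (P q.2) l)
    with hk
  have um : Measurable u :=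
    (meas_im ((E0_meas h).comp measurable_snd) ((E0_meas h).comp measurable_fst)).abs
  have ub : ∀ q, |u q| ≤ 36 := fun q => by
    rw [hu, abs_abs]
    exact im_le (E0_le h _) (E0_le h _)
  have wm : Measurable w := Finset.measurable_sum _ fun l _ =>
    (meas_im ((q4_meas h l).comp measurable_snd) ((E0_meas h).comp measurable_fst)).abs
  have wb : ∀ q, |w q| ≤ 4 * 36 := fun q => by
    refine (Finset.abs_sum_le_sum_abs _ _).trans ?_
    refine (Finset.sum_le_sum fun l _ => (by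
      rw [abs_abs]; exact im_le (q4_le h _ _) (E0_le h _) :
      |(|(q4 q.2 (β q.2) (P q.2) l * (starRingEnd ℂ) (E0 β q.1)).im|)| ≤ 36)).trans ?_
    simp
  have km : Measurable k := KK_meas (e := fun t => q4 t (β t) (P t)) (q4_meas h)
  have kb : ∀ q, |k q| ≤ (4 : ℕ) * ((4 : ℕ) * (Real.pi * (6 * 6))) := fun q =>
    KK_le (e := fun t => q4 t (β t) (P t)) (q4_le h) q.1 q.2
  have wm' : Measurable (fun q : ℝ × ℝ => w (q.2, q.1)) := wm.comp measurable_swap
  have wb' : ∀ q : ℝ × ℝ, |w (q.2, q.1)| ≤ 4 * 36 := fun q => wb _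
  have e1 : (∫ t in (0 : ℝ)..(2 * Real.pi), ∫ s in (0 : ℝ)..(2 * Real.pi),
      ∑ k, ∑ l, kr (e6 β P t k) (e6 β P s l))
      = dbl (fun q => 2 * Real.pi * u q + (Real.pi * w q + (Real.pi * w (q.2, q.1) + k q))) := by
    unfold dbl
    congr 1
    funext t
    congr 1
    funext s
    exact sum6_split t s
  have cm : ∀ (c : ℝ) (f : ℝ × ℝ → ℝ), Measurable f → Measurable (fun q => c * f q) :=
    fun c f hf => hf.const_mul c
  have cb : ∀ (c C : ℝ) (f : ℝ × ℝ → ℝ), (∀ q, |f q| ≤ C) → ∀ q, |c * f q| ≤ |c| * C := by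
    intro c C f hf q
    rw [abs_mul]
    exact mul_le_mul_of_nonneg_left (hf q) (abs_nonneg c)
  have ab : ∀ (C D : ℝ) (f g : ℝ × ℝ → ℝ), (∀ q, |f q| ≤ C) → (∀ q, |g q| ≤ D) →
      ∀ q, |f q + g q| ≤ C + D := fun C D f g hf hg q =>
    (abs_add_le _ _).trans (add_le_add (hf q) (hg q))
  have s1 := dbl_add (f := fun q => 2 * Real.pi * u q)
    (g := fun q => Real.pi * w q + (Real.pi * w (q.2, q.1) + k q))
    (cm _ _ um) ((cm _ _ wm).add ((cm _ _ wm').add km)) (cb _ _ _ ub)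
    (ab _ _ _ _ (cb _ _ _ wb) (ab _ _ _ _ (cb _ _ _ wb') kb))
  have s2 := dbl_add (f := fun q => Real.pi * w q) (g := fun q => Real.pi * w (q.2, q.1) + k q)
    (cm _ _ wm) ((cm _ _ wm').add km) (cb _ _ _ wb) (ab _ _ _ _ (cb _ _ _ wb') kb)
  have s3 := dbl_add (f := fun q => Real.pi * w (q.2, q.1)) (g := k) (cm _ _ wm') km
    (cb _ _ _ wb') kb
  have e2 : dbl (fun q => w (q.2, q.1)) = dbl w := (dbl_swap wm wb).symm
  have s4 : dbl (fun q => 2 * Real.pi * u q) = 2 * Real.pi * dbl u := dbl_const _ _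
  have s5 : dbl (fun q => Real.pi * w q) = Real.pi * dbl w := dbl_const _ _
  have s6 : dbl (fun q => Real.pi * w (q.2, q.1)) = Real.pi * dbl w := by
    rw [← e2]
    exact dbl_const _ _
  rw [e1, s1, s2, s3, s4, s5, s6]
  have b1 : A00 β = 1 / (8 * Real.pi) * dbl u := rfl
  have b2 : A0Q β P = 1 / (16 * Real.pi) * dbl w := rfl
  have b3 : AQQ β P = 1 / 4 * (1 / (2 * Real.pi)) ^ 2 * dbl k := rfl
  rw [b1, b2, b3]
  have hpi := Real.pi_ne_zero
  field_simp
  ring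

end Helper44.RC
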