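import Pool.Agent.Helper44.RC.StQ

/-!
# Project RC: splitting of the form `FM` and the arrangement bounds (statements)

Everything is for `Adm β P` with `‖β t‖ < 1`. `FM = (2/3)|σ₂|² + A00 + 2 A0Q + AQQ`.
-/

open MeasureTheory Set Filter Metric

namespace Helper44.RC

open Helper49.LT Helper49.RC Helper87.RC

noncomputable def E0 (β : ℝ → ℂ) (t : ℝ) : ℂ := ee t * f0 (β t)
noncomputable def E1 (β : ℝ → ℂ) (t : ℝ) : ℂ := ee t * f1 (β t) 0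
noncomputable def E2 (β : ℝ → ℂ) (t : ℝ) : ℂ := ee t * f2 (β t) 0
noncomputable def vv (P : ℝ → ℂ) (t : ℝ) : ℂ := ee t * P t

/-- the families 1 and 2 in their nominal parameter `θ = t + 60`, `θ = t + 120` degrees -/
noncomputable def F1 (β P : ℝ → ℂ) (θ : ℝ) : ℂ :=
  E1 β (θ - Real.pi / 3) + vv P (θ - Real.pi / 3)
noncomputable def F2 (β P : ℝ → ℂ) (θ : ℝ) : ℂ :=
  E2 β (θ - 2 * Real.pi / 3) - vv P (θ - 2 * Real.pi / 3)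

noncomputable def A00 (β : ℝ → ℂ) : ℝ :=
  1 / (8 * Real.pi) * ∫ t in (0 : ℝ)..(2 * Real.pi), ∫ s in (0 : ℝ)..(2 * Real.pi),
    |(E0 β s * (starRingEnd ℂ) (E0 β t)).im|

noncomputable def A0Q (β P : ℝ → ℂ) : ℝ :=
  1 / (16 * Real.pi) * ∫ t in (0 : ℝ)..(2 * Real.pi), ∫ s in (0 : ℝ)..(2 * Real.pi),
    ∑ l, |(q4 s (β s) (P s) l * (starRingEnd ℂ) (E0 β t)).im|

noncomputable def AQQ (β P : ℝ → ℂ) : ℝ :=
  1 / 4 * (1 / (2 * Real.pi)) ^ 2 * ∫ t in (0 : ℝ)..(2 * Real.pi), ∫ s in (0 : ℝ)..(2 * Real.pi),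
    ∑ k, ∑ l, kr (q4 t (β t) (P t) k) (q4 s (β s) (P s) l)

/-- MODULE SPL (from StKr6 and tSeg). -/
def StSpl : Prop := ∀ β P : ℝ → ℂ, Adm β P →
  FM β P = 2 / 3 * ‖sg β P 2‖ ^ 2 + A00 β + 2 * A0Q β P + AQQ β P

/-- the sign of `sin x` -/
noncomputable def sgs (x : ℝ) : ℝ := if 0 ≤ Real.sin x then 1 else -1

/-- the sum of the points of the quadrilaterals for the cuts `s1` (family 1), `s2` (family 2) -/
noncomputable def YY (β P : ℝ → ℂ) (s1 s2 : ℝ) : ℂ :=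
  (∫ t in (s1 - 4 * Real.pi / 3)..(s1 - Real.pi / 3), E1 β t)
    + (∫ t in (s2 - 5 * Real.pi / 3)..(s2 - 2 * Real.pi / 3), E2 β t)
    + 2 * ∫ t in (s2 - 2 * Real.pi / 3)..(s1 - Real.pi / 3), vv P t

/-- MODULE INT. The mean of the vertices for two cuts at distance `-120° ≤ s2 - s1 ≤ 60°`. PROOF:
`e1 = sgs (s1 - t - π/3)` is `1` on `I1 = (s1 - 4π/3, s1 - π/3)` and `-1` on the rest of the period;
`E1 (t + π) = - E1 t`; `vv (t + π) = vv t`; `e1 e2 = -1` exactly on `(s2 - 2π/3, s1 - π/3)` and its shift by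
`-π`, modulo `2π` and null sets. -/
def StInt : Prop := ∀ β P : ℝ → ℂ, Adm β P → ∀ s1 s2 : ℝ, -(2 * Real.pi / 3) ≤ s2 - s1 →
  s2 - s1 ≤ Real.pi / 3 →
  ∫ t in (0 : ℝ)..(2 * Real.pi), yv (β t) (P t) t (sgs (s1 - t - Real.pi / 3))
    (sgs (s2 - t - 2 * Real.pi / 3))
  = YY β P s1 s2 - 1 / 2 * ∫ t in (0 : ℝ)..(2 * Real.pi), vv P t

/-- MODULE CUT (from StQQ and StInt). The arrangement bound with an arbitrary measurable shift `ψ`,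
`|ψ| ≤ 60°`, between the families 1 and 2: for the edges `l = 0, 2` of `q4 s` (nominal angles `s + π/3`,
`s + 4π/3`) take the cuts `s1 = θ`, `s2 = θ - ψ θ`, for `l = 1, 3` (nominal `s + 2π/3`, `s + 5π/3`) the cuts
`s1 = θ + ψ θ`, `s2 = θ`. -/
def StCut : Prop := ∀ β P : ℝ → ℂ, Adm β P → (∀ t, ‖β t‖ < 1) → ∀ ψ : ℝ → ℝ, Measurable ψ →
  (∀ θ, ψ (θ + 2 * Real.pi) = ψ θ) → (∀ θ, |ψ θ| ≤ Real.pi / 3) →
  1 / (4 * Real.pi) * ∫ θ in (0 : ℝ)..(2 * Real.pi),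
    ((F1 β P θ * (starRingEnd ℂ) (YY β P θ (θ - ψ θ))).im
      + (F2 β P θ * (starRingEnd ℂ) (YY β P (θ + ψ θ) θ)).im) ≤ AQQ β P

/-- MODULE A00. -/
def StA00 : Prop := ∀ β P : ℝ → ℂ, Adm β P →
  1 / (4 * Real.pi) * ∫ θ in (0 : ℝ)..(2 * Real.pi),
    (E0 β θ * (starRingEnd ℂ) (∫ t in (θ - Real.pi)..θ, E0 β t)).im ≤ A00 β

/-- MODULE A0Q. Arbitrary measurable alignments `φ1`, `φ2` (for example `arg F_j`). -/
def StA0Q : Prop := ∀ β P : ℝ → ℂ, Adm β P → ∀ φ1 φ2 : ℝ → ℝ, Measurable φ1 → Measurable φ2 →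
  1 / (4 * Real.pi) * ∫ θ in (0 : ℝ)..(2 * Real.pi),
    ((F1 β P θ * (starRingEnd ℂ) (∫ t in (φ1 θ - Real.pi)..(φ1 θ), E0 β t)).im
      + (F2 β P θ * (starRingEnd ℂ) (∫ t in (φ2 θ - Real.pi)..(φ2 θ), E0 β t)).im) ≤ A0Q β P

/-- MODULE COE (coercivity, the bound E3). The quadrilateral contains its diagonal `E1 + E2`. -/
def StCoe : Prop := ∀ β P : ℝ → ℂ, Adm β P → (∀ t, ‖β t‖ < 1) → ∀ φ1 φ2 : ℝ → ℝ, Measurable φ1 →
  Measurable φ2 →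
  1 / (4 * Real.pi) * ∫ θ in (0 : ℝ)..(2 * Real.pi),
    ((F1 β P θ * (starRingEnd ℂ) (∫ t in (φ1 θ - Real.pi)..(φ1 θ), (E1 β t + E2 β t))).im
      + (F2 β P θ * (starRingEnd ℂ) (∫ t in (φ2 θ - Real.pi)..(φ2 θ), (E1 β t + E2 β t))).im)
    ≤ AQQ β P

end Helper44.RC
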