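import Pool.Agent.Helper49.RC.StS

/-!
# Project RC, track B: the reduction in the gauge `q` with an arbitrary weight

For every direction `t` there are `b ∈ ℂ`, `‖b‖ < 1`, and a vector `z` such that the hexagon with the edges (in the
frame rotated by `ee t`) `a, A + z, B - z, -a, -A + z, -B - z`, `a = 1 + b₂ + i b₃/q`, `c = (√3/2)(i (1 - b₂) + q b₃)`,
`A = c + a/2`, `B = c - a/2` (`b = b₂ + i b₃`, `q > 0` a fixed number) has a small mean support value of `K`.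
`q = 1` is the gauge of `Rs`. After `b, z` are chosen (as functions of `t`) one may multiply all edges by an arbitrary
weight `w t ≥ 0`.

FINAL STATEMENT `StRedQ q`: `Rq q κ` implies `theta K ≤ 1/(κ m0)` for every planar convex body `K`.
`Rq q 1` (for one `q > 0`) is enough for the conjecture `theta K ≤ 2π/√27`.
-/

open MeasureTheory Set Filter Metric

namespace Helper44.GQ

open Helper97.CB Helper49.LT Helper49.RC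

/-- the vector `a` of the gauge `q` -/
noncomputable def aQ (q : ℝ) (b : ℂ) : ℂ := 1 + (b.re : ℂ) + Complex.I * ((b.im / q : ℝ) : ℂ)

/-- the vector `c` of the gauge `q` -/
noncomputable def cQ (q : ℝ) (b : ℂ) : ℂ :=
  (Real.sqrt 3 / 2 : ℂ) * (Complex.I * (1 - (b.re : ℂ)) + ((q * b.im : ℝ) : ℂ))

/-- admissible data of the gauge `q` -/
structure AdmQ (q : ℝ) (b z : ℝ → ℂ) : Prop where
  mb : Measurable b
  mz : Measurable z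
  perb : ∀ t, b (t + Real.pi) = b t
  perz : ∀ t, z (t + Real.pi) = -z t
  bdb : ∃ δ : ℝ, 0 < δ ∧ ∀ t, ‖b t‖ ≤ 1 - δ
  reg : ∀ t, ∃ X Y : ℝ, |X| ≤ 1 / 2 ∧ |Y| ≤ 1 ∧
    z t = (X : ℂ) * aQ q (b t) + (Y : ℂ) * cQ q (b t)

/-- the edge families -/
noncomputable def A0Q (w : ℝ → ℝ) (q : ℝ) (b : ℝ → ℂ) (t : ℝ) : ℂ := (w t : ℂ) * (ee t * aQ q (b t))
noncomputable def AAQ (w : ℝ → ℝ) (q : ℝ) (b : ℝ → ℂ) (t : ℝ) : ℂ :=
  (w t : ℂ) * (ee t * (cQ q (b t) + 1 / 2 * aQ q (b t)))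
noncomputable def BBQ (w : ℝ → ℝ) (q : ℝ) (b : ℝ → ℂ) (t : ℝ) : ℂ :=
  (w t : ℂ) * (ee t * (cQ q (b t) - 1 / 2 * aQ q (b t)))

/-- the area form of the gauge `q` with the weight `w` -/
noncomputable def FMQ (w : ℝ → ℝ) (q : ℝ) (b z : ℝ → ℂ) : ℝ :=
  FME (A0Q w q b) (fun t => AAQ w q b t + vvS w z t) (fun t => BBQ w q b t - vvS w z t)

/-- mean of `w √(1 - ‖b‖²)` -/
noncomputable def mQ (w : ℝ → ℝ) (b : ℝ → ℂ) : ℝ :=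
  (1 / (2 * Real.pi)) * ∫ t in (0 : ℝ)..(2 * Real.pi), w t * Real.sqrt (1 - ‖b t‖ ^ 2)

/-- THE TARGET INEQUALITY -/
def Rq (q κ : ℝ) : Prop := ∀ b z : ℝ → ℂ, AdmQ q b z →
  ∃ w : ℝ → ℝ, Wgt w ∧ 9 * κ * (mQ w b) ^ 2 ≤ FMQ w q b z

/-- MODULE KSDQ -/
def StKsdQ (q : ℝ) : Prop := ∀ (K : Set ℂ) (M : ℝ), IsBody K → 0 < M →
  (∀ x : Fin 6 → ℂ, (∀ k, x k ∈ K) → x 1 - x 2 + x 4 - x 5 = 0 →
    ar6 x ≤ 3 * Real.sqrt 3 * M) →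
  ∀ t ε : ℝ, 0 < ε → ∃ b z : ℂ, ‖b‖ < 1 ∧
    PhG K t (aQ q b) (cQ q b) z ≤ 2 * Real.sqrt M * Real.sqrt (1 - ‖b‖ ^ 2) + ε

/-- MODULE SELQ -/
def StSelQ (q : ℝ) : Prop := ∀ (K : Set ℂ) (C : ℝ), IsBody K → (0 : ℂ) ∈ interior K → 0 < C →
  (∀ t ε : ℝ, 0 < ε → ∃ b z : ℂ, ‖b‖ < 1 ∧
    PhG K t (aQ q b) (cQ q b) z ≤ C * Real.sqrt (1 - ‖b‖ ^ 2) + ε) →
  ∀ ε : ℝ, 0 < ε → ∃ b z : ℝ → ℂ, AdmQ q b z ∧
    ∀ t, PhG K t (aQ q (b t)) (cQ q (b t)) (z t) ≤ C * Real.sqrt (1 - ‖b t‖ ^ 2) + ε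

/-- MODULE REDQ -/
def StRedQ (q : ℝ) : Prop := ∀ κ : ℝ, 0 < κ → Rq q κ → ∀ K : Set ℂ, IsBody K →
  theta K ≤ ENNReal.ofReal (1 / (κ * m0))

end Helper44.GQ
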