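import Pool.Agent.Helper87.RC.StK

/-!
# Project RC: the arrangement lemma (statement QUAD)

`q4 t b p`: the four edges `1, 2, 4, 5` of the hexagon of the direction `t` (a closed quadrilateral).
`yv b p t e1 e2`: for `e1, e2 = ± 1` its four vertices (rotated by `-i`, up to a translation).
-/

open MeasureTheory Set Filter Metric

namespace Helper44.RC

open Helper49.LT Helper49.RC Helper87.RC

/-- the four edges of the quadrilateral -/
noncomputable def q4 (t : ℝ) (b p : ℂ) : Fin 4 → ℂ :=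
  ![ee t * f1 b p, ee t * f2 b p, -(ee t * f1 b (-p)), -(ee t * f2 b (-p))]

/-- the vertices of the quadrilateral (`e1, e2 = ± 1`) and their bilinear combinations -/
noncomputable def yv (b p : ℂ) (t e1 e2 : ℝ) : ℂ :=
  ee t * ((1 / 2) * ((e1 : ℂ) * f1 b 0 + (e2 : ℂ) * f2 b 0) - (1 / 2) * ((e1 * e2 : ℝ) : ℂ) * p)

/-- MODULE QUAD. The kernel sum of the quadrilateral is (up to the closure constant `C`) at least the value
at every point `yv e1 e2`, `|e1|, |e2| ≤ 1`. -/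
def StQuad : Prop := ∀ (b p : ℂ) (t : ℝ), ‖b‖ < 1 → Reg b p → ∃ C : ℂ, ∀ (p' : ℂ) (e1 e2 : ℝ),
  |e1| ≤ 1 → |e2| ≤ 1 →
  2 * Real.pi * (p' * (starRingEnd ℂ) (yv b p t e1 e2)).im + (p' * (starRingEnd ℂ) C).im
    ≤ ∑ k, kr (q4 t b p k) p'

/-- MODULE QQ. The double sum of two quadrilaterals. -/
def StQQ : Prop := ∀ (b p b' p' : ℂ) (t s : ℝ), ‖b‖ < 1 → Reg b p → ∀ (e1 e2 : Fin 4 → ℝ),
  (∀ l, |e1 l| ≤ 1) → (∀ l, |e2 l| ≤ 1) →
  2 * Real.pi * ∑ l, (q4 s b' p' l * (starRingEnd ℂ) (yv b p t (e1 l) (e2 l))).im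
    ≤ ∑ k, ∑ l, kr (q4 t b p k) (q4 s b' p' l)

/-- MODULE SQ. The segment `± u` against a closed family: the kernel sum is `π` times the absolute values. -/
def StSeg : Prop := ∀ (u v : ℂ), kr u v + kr (-u) v = Real.pi * |(v * (starRingEnd ℂ) u).im|

end Helper44.RC
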